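import Pool.Agent.Lib.MP_1a0ddd_nt.LW.CInd

/-! The theorem of Lang, Weil and Landau. -/

set_option autoImplicit false

namespace Pool.Agent.Lib.MP_1a0ddd_nt.LW

/-- **Lang, Weil, Landau.** -/
theorem langWeil (R : Type) [CommRing R] [IsDomain R] [CharZero R] [Algebra.FiniteType ℤ R]
    (d : ℕ) (hd : Algebra.trdeg ℤ R = d) : Quad.LangWeilT R d :=
  langWeil_main R d hd

end Pool.Agent.Lib.MP_1a0ddd_nt.LW
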