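import Mathlib

/-! Transcendence degrees of integral extensions and localisations. -/

set_option autoImplicit false

namespace Pool.Agent.Lib.MP_1a0ddd_nt.LW

open Polynomial

theorem trdeg_integral {R S : Type} [CommRing R] [IsDomain R] [CommRing S] [IsDomain S]
    [CharZero R] [Algebra R S] (hinj : Function.Injective (algebraMap R S))
    [Algebra.IsIntegral R S] : Algebra.trdeg ℤ S = Algebra.trdeg ℤ R := by
  have f1 : FaithfulSMul R S := (faithfulSMul_iff_algebraMap_injective _ _).2 hinj
  have f2 : FaithfulSMul ℤ R := (faithfulSMul_iff_algebraMap_injective _ _).2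
    (by simpa using (Int.cast_injective : Function.Injective (Int.cast : ℤ → R)))
  have h := trdeg_add_eq ℤ R (A := S)
  have a1 : Algebra.IsAlgebraic R S := Algebra.IsIntegral.isAlgebraic
  rw [trdeg_eq_zero (R := R) (A := S), add_zero] at h
  exact h.symm

/-- all the instances needed for `R[1/s]` (for a general `S`, so that the structure of `ℤ`-algebra is
the one of a ring) -/
theorem loc_facts (R : Type) [CommRing R] [IsDomain R] [CharZero R] [Algebra.FiniteType ℤ R]
    (s : R) (hs : s ≠ 0) (S : Type) [CommRing S] [Algebra R S] [IsLocalization.Away s S] :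
    IsDomain S ∧ CharZero S ∧ Algebra.FiniteType ℤ S ∧ Algebra.trdeg ℤ S = Algebra.trdeg ℤ R ∧
      Function.Injective (algebraMap R S) := by
  have hle : Submonoid.powers s ≤ nonZeroDivisors R :=
    powers_le_nonZeroDivisors_of_noZeroDivisors hs
  have hinj : Function.Injective (algebraMap R S) := IsLocalization.injective S hle
  have hdom : IsDomain S := IsLocalization.isDomain_of_le_nonZeroDivisors S hle
  have hch : CharZero S := charZero_of_injective_ringHom hinj
  have f1 : FaithfulSMul R S := (faithfulSMul_iff_algebraMap_injective _ _).2 hinj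
  have f2 : FaithfulSMul ℤ R := (faithfulSMul_iff_algebraMap_injective _ _).2
    (by simpa using (Int.cast_injective : Function.Injective (Int.cast : ℤ → R)))
  have ft : Algebra.FiniteType R S := IsLocalization.finiteType_of_monoid_fg (Submonoid.powers s) S
  refine ⟨hdom, hch, Algebra.FiniteType.trans (S := R) inferInstance ft, ?_, hinj⟩
  have h := trdeg_add_eq ℤ R (A := S)
  have a1 : Algebra.IsAlgebraic R S := IsLocalization.isAlgebraic S (Submonoid.powers s)
  rw [trdeg_eq_zero (R := R) (A := S), add_zero] at h
  exact h.symm

end Pool.Agent.Lib.MP_1a0ddd_nt.LW
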