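import Pool.Agent.Lib.MP_1a0ddd_nt.Quad.Final4
import Pool.Agent.Lib.MP_1a0ddd_nt.LW.Main
import Pool.Agent.Lib.MP_1a0ddd_nt.LW.QTr

/-! The point counts of a pencil follow from the theorem of Lang, Weil and Landau. -/

set_option autoImplicit false

namespace Pool.Agent.Lib.MP_1a0ddd_nt.LW

open Polynomial Quad

/-- `R[x]/(π)`, `π` monic and irreducible over the fraction field (the structure of `ℤ`-algebra is the
one of a ring: all structures are equal, `Subsingleton`) -/
theorem adjoin_facts (R : Type) [CommRing R] [IsDomain R] [CharZero R] [Algebra.FiniteType ℤ R]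
    (π : R[X]) (hm : π.Monic) (hi : Irreducible (toF π)) : IsDomain (AdjoinRoot π) ∧
      CharZero (AdjoinRoot π) ∧
      @Algebra.FiniteType ℤ (AdjoinRoot π) _ _ (Ring.toIntAlgebra (AdjoinRoot π)) ∧
      @Algebra.trdeg ℤ (AdjoinRoot π) _ _ (Ring.toIntAlgebra (AdjoinRoot π)) =
        Algebra.trdeg ℤ R := by
  have hinjF : Function.Injective (algebraMap R (FractionRing R)) :=
    IsFractionRing.injective R (FractionRing R)
  have hdvd : ∀ f : R[X], toF π ∣ toF f → π ∣ f := by
    intro f hf
    rw [← modByMonic_eq_zero_iff_dvd hm]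
    apply Polynomial.map_injective _ hinjF
    rw [Polynomial.map_zero, map_modByMonic _ hm]
    exact (modByMonic_eq_zero_iff_dvd (hm.map _)).2 hf
  have hprime : Prime π := by
    refine ⟨hm.ne_zero, ?_, ?_⟩
    · intro hu
      exact hi.not_isUnit (hu.map (mapRingHom (algebraMap R (FractionRing R))))
    · intro f g hfg
      have h1 : toF π ∣ toF f * toF g := by
        rw [← Polynomial.map_mul]
        exact Polynomial.map_dvd _ hfg
      rcases hi.prime.dvd_or_dvd h1 with h2 | h2
      · exact Or.inl (hdvd f h2)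
      · exact Or.inr (hdvd g h2)
  have hdom : IsDomain (AdjoinRoot π) := AdjoinRoot.isDomain_of_prime hprime
  have hdeg : π.degree ≠ 0 := by
    rw [← hm.degree_map (algebraMap R (FractionRing R))]
    exact hi.degree_pos.ne'
  have hinj : Function.Injective (algebraMap R (AdjoinRoot π)) :=
    AdjoinRoot.of.injective_of_degree_ne_zero hdeg
  have hchar : CharZero (AdjoinRoot π) := charZero_of_injective_ringHom hinj
  have hfin : Module.Finite R (AdjoinRoot π) := hm.finite_adjoinRoot
  have hint : Algebra.IsIntegral R (AdjoinRoot π) := Algebra.IsIntegral.of_finite _ _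
  refine ⟨hdom, hchar, ?_, trdeg_integral hinj⟩
  have h5 : Algebra.FiniteType ℤ (AdjoinRoot π) := inferInstance
  have h6 : AdjoinRoot.instAlgebra π = Ring.toIntAlgebra (AdjoinRoot π) := Subsingleton.elim _ _
  rw [← h6]
  exact h5

/-- `R[√u]` for `u` not a square over the fraction field -/
theorem langWeil_sqrt (R : Type) [CommRing R] [IsDomain R] [CharZero R] [Algebra.FiniteType ℤ R]
    (d : ℕ) (hd : Algebra.trdeg ℤ R = (d : Cardinal)) (u : R)
    (hu : ¬ IsSquare (algebraMap R (FractionRing R) u)) : LangWeilT (SqrtRing u) d := by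
  have hm : (X ^ 2 - C u : R[X]).Monic := monic_X_pow_sub_C u two_ne_zero
  have hF : toF (X ^ 2 - C u : R[X]) = X ^ 2 - C (algebraMap R (FractionRing R) u) := by
    simp
  have hi : Irreducible (toF (X ^ 2 - C u : R[X])) := by
    rw [hF]
    refine X_pow_sub_C_irreducible_of_prime Nat.prime_two fun b hb => hu ⟨b, ?_⟩
    rw [← hb, sq]
  obtain ⟨h1, h2, h3, h4⟩ := adjoin_facts R _ hm hi
  exact @langWeil (SqrtRing u) _ h1 h2 h3 d (h4.trans hd)

/-- if `e` becomes a square in the fraction field of `R[x]/(π)` then `e` is a square modulo `π` over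
the fraction field of `R` -/
private theorem sq_mod {R : Type} [CommRing R] [IsDomain R] (π e : R[X]) (hm : π.Monic)
    (hi : Irreducible (toF π)) [IsDomain (AdjoinRoot π)]
    (h : IsSquare (algebraMap (AdjoinRoot π) (FractionRing (AdjoinRoot π))
      (AdjoinRoot.mk π e))) : ∃ β : (FractionRing R)[X], toF π ∣ toF e - β ^ 2 := by
  classical
  have hfact : Fact (Irreducible (toF π)) := ⟨hi⟩
  have hroot : π.eval₂ ((AdjoinRoot.of (toF π)).comp (algebraMap R (FractionRing R)))
      (AdjoinRoot.root (toF π)) = 0 := by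
    rw [← eval₂_map]
    exact AdjoinRoot.eval₂_root (toF π)
  let ι : AdjoinRoot π →+* AdjoinRoot (toF π) :=
    AdjoinRoot.lift ((AdjoinRoot.of (toF π)).comp (algebraMap R (FractionRing R)))
      (AdjoinRoot.root (toF π)) hroot
  have hι : ∀ f : R[X], ι (AdjoinRoot.mk π f) = AdjoinRoot.mk (toF π) (toF f) := by
    intro f
    show AdjoinRoot.lift _ _ hroot (AdjoinRoot.mk π f) = _
    rw [AdjoinRoot.lift_mk, ← eval₂_map, ← AdjoinRoot.aeval_eq, aeval_def,
      AdjoinRoot.algebraMap_eq]
  have hιi : Function.Injective ι := by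
    rw [injective_iff_map_eq_zero]
    intro z hz
    obtain ⟨f, rfl⟩ := AdjoinRoot.mk_surjective z
    rw [hι, AdjoinRoot.mk_eq_zero] at hz
    rw [AdjoinRoot.mk_eq_zero]
    exact (Polynomial.map_dvd_map _ (IsFractionRing.injective R (FractionRing R)) hm).1 hz
  let ψ : FractionRing (AdjoinRoot π) →+* AdjoinRoot (toF π) := IsFractionRing.lift hιi
  have hψ : ∀ z, ψ (algebraMap (AdjoinRoot π) (FractionRing (AdjoinRoot π)) z) = ι z :=
    fun z => IsFractionRing.lift_algebraMap hιi z
  obtain ⟨w, hw⟩ := h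
  obtain ⟨β, hβ⟩ := AdjoinRoot.mk_surjective (ψ w)
  refine ⟨β, ?_⟩
  rw [← AdjoinRoot.mk_eq_zero, map_sub, map_pow, hβ, ← hι, ← hψ, hw, map_mul]
  ring

/-- `β² ≡ a`, `b² ≡ a c`, `a ≢ 0` give the second factor -/
private theorem second_factor {K : Type} [Field K] {π a b c β : K[X]} (hi : Irreducible π)
    (h1 : π ∣ a - β ^ 2) (h2 : π ∣ b ^ 2 - a * c) (h3 : ¬ π ∣ a) :
    ∃ γ : K[X], π ∣ b - β * γ ∧ π ∣ c - γ ^ 2 := by
  have hfact : Fact (Irreducible π) := ⟨hi⟩
  have e1 : AdjoinRoot.mk π a = AdjoinRoot.mk π β ^ 2 := by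
    rw [← AdjoinRoot.mk_eq_zero, map_sub, map_pow, sub_eq_zero] at h1
    exact h1
  have e2 : AdjoinRoot.mk π b ^ 2 = AdjoinRoot.mk π a * AdjoinRoot.mk π c := by
    rw [← AdjoinRoot.mk_eq_zero, map_sub, map_pow, map_mul, sub_eq_zero] at h2
    exact h2
  have e3 : AdjoinRoot.mk π a ≠ 0 := by
    rwa [Ne, AdjoinRoot.mk_eq_zero]
  have e4 : AdjoinRoot.mk π β ≠ 0 := by
    intro h
    rw [e1, h] at e3
    exact e3 (by ring)
  obtain ⟨γ, hγ⟩ := AdjoinRoot.mk_surjective (AdjoinRoot.mk π b / AdjoinRoot.mk π β)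
  refine ⟨γ, ?_, ?_⟩
  · rw [← AdjoinRoot.mk_eq_zero, map_sub, map_mul, hγ]
    field_simp
    ring
  · rw [← AdjoinRoot.mk_eq_zero, map_sub, map_pow, hγ, div_pow, e2, e1]
    field_simp
    ring

/-- Proof of `cover`: if `π` is not a common factor then by `π ∣ b² - a c` one of `a`, `c`, say `e`, is not
divisible by `π`; if `e` is a square modulo `π` over the fraction field, `a ≡ β²`, then
`γ = b/β` gives `Split`; so if `π` is not in `splitSet`, `e` is not a square in the fraction field of
`R[x]/(π)`, and `langWeil_sqrt` applies. `infty`: if `toF a = C v s²`, `v = r/q`, take `u = r q`. -/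
theorem counted_of (R : Type) [CommRing R] [IsDomain R] [CharZero R] [Algebra.FiniteType ℤ R]
    (d : ℕ) (hd : Algebra.trdeg ℤ R = (d : Cardinal)) {m : ℕ} (a b c : R[X])
    (π : Fin m → R[X]) (k : Fin m → ℕ) (δ : R) (h : Pencil a b c π k δ) :
    Counted a b c π d := by
  classical
  have hinj : Function.Injective (algebraMap R (FractionRing R)) :=
    IsFractionRing.injective R (FractionRing R)
  have hdvd : ∀ i (f : R[X]), toF (π i) ∣ toF f ↔ π i ∣ f := fun i f =>
    Polynomial.map_dvd_map _ hinj (h.monic i)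
  have hdisc : ∀ i, toF (π i) ∣ toF b ^ 2 - toF a * toF c := by
    intro i
    have h1 : π i ∣ b ^ 2 - a * c := by
      rw [h.disc]
      refine Dvd.dvd.mul_left ?_ _
      exact (dvd_pow_self (π i) (h.pos i)).trans
        (Finset.dvd_prod_of_mem (fun i => π i ^ k i) (Finset.mem_univ i))
    have h2 := (hdvd i _).2 h1
    simpa only [toF, Polynomial.map_sub, Polynomial.map_pow, Polynomial.map_mul] using h2
  refine ⟨langWeil R d hd, ?_, ?_, ?_⟩
  · intro i
    right
    obtain ⟨f1, f2, f3, f4⟩ := adjoin_facts R (π i) (h.monic i) (h.irr i)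
    exact @langWeil (AdjoinRoot (π i)) _ f1 f2 f3 d (f4.trans hd)
  · intro i
    by_cases hcom : Common a b c (π i)
    · exact Or.inl hcom
    right
    by_cases hsp : toF (π i) ∈ splitSet (toF a) (toF b) (toF c)
    · exact Or.inl hsp
    right
    obtain ⟨f1, f2, f3, f4⟩ := adjoin_facts R (π i) (h.monic i) (h.irr i)
    have hncom : ¬ Common (toF a) (toF b) (toF c) (toF (π i)) := by
      intro hc
      exact hcom ⟨(hdvd i a).1 hc.1, (hdvd i b).1 hc.2.1, (hdvd i c).1 hc.2.2⟩
    have hnot : ∀ β γ : (FractionRing R)[X], ¬ Split (toF a) (toF b) (toF c) (toF (π i)) β γ := by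
      intro β γ hS
      exact hsp ⟨(h.monic i).map _, h.irr i, hncom, β, γ, hS⟩
    have hprime : Prime (toF (π i)) := (h.irr i).prime
    by_cases ha : π i ∣ a
    · have hc : ¬ π i ∣ c := by
        intro hc
        have h1 : toF (π i) ∣ toF b ^ 2 := by
          have h2 := hdisc i
          have h3 : toF (π i) ∣ toF a * toF c := ((hdvd i a).2 ha).mul_right _
          have h4 := dvd_add h2 h3
          rwa [sub_add_cancel] at h4
        exact hcom ⟨ha, (hdvd i b).1 (hprime.dvd_of_dvd_pow h1), hc⟩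
      refine ⟨c, Or.inr rfl, hc, ?_⟩
      refine @langWeil_sqrt (AdjoinRoot (π i)) _ f1 f2 f3 d (f4.trans hd) _ ?_
      intro hsq
      obtain ⟨γ, hγ⟩ := sq_mod (π i) c (h.monic i) (h.irr i) hsq
      have h2 : toF (π i) ∣ toF b ^ 2 - toF c * toF a := by
        rw [mul_comm (toF c)]
        exact hdisc i
      obtain ⟨β, hβ1, hβ2⟩ := second_factor (h.irr i) hγ h2
        (fun hh => hc ((hdvd i c).1 hh))
      refine hnot β γ ⟨hβ2, ?_, hγ⟩
      rw [mul_comm]
      exact hβ1
    · refine ⟨a, Or.inl rfl, ha, ?_⟩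
      refine @langWeil_sqrt (AdjoinRoot (π i)) _ f1 f2 f3 d (f4.trans hd) _ ?_
      intro hsq
      obtain ⟨β, hβ⟩ := sq_mod (π i) a (h.monic i) (h.irr i) hsq
      obtain ⟨γ, hγ1, hγ2⟩ := second_factor (h.irr i) hβ (hdisc i)
        (fun hh => ha ((hdvd i a).1 hh))
      exact hnot β γ ⟨hβ, hγ1, hγ2⟩
  · by_cases h1 : IsSquare (toF a)
    · exact Or.inl h1
    right
    by_cases h2 : NotConstSquare a
    · exact Or.inl h2
    right
    unfold NotConstSquare at h2
    push Not at h2
    obtain ⟨v, s, hvs⟩ := h2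
    obtain ⟨r, q, hq, rfl⟩ := IsFractionRing.div_surjective (A := R) v
    have hq0 : algebraMap R (FractionRing R) q ≠ 0 := by
      rw [Ne, IsFractionRing.to_map_eq_zero_iff]
      exact nonZeroDivisors.ne_zero hq
    have h3 : toF a = C (algebraMap R (FractionRing R) (r * q)) *
        (C (1 / algebraMap R (FractionRing R) q) * s) ^ 2 := by
      have h4 : (C (algebraMap R (FractionRing R) r / algebraMap R (FractionRing R) q) :
          (FractionRing R)[X]) = C (algebraMap R (FractionRing R) (r * q)) *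
            C (1 / algebraMap R (FractionRing R) q) ^ 2 := by
        rw [← C_pow, ← C_mul, map_mul (algebraMap R (FractionRing R))]
        congr 1
        field_simp
      rw [hvs, h4]
      ring
    refine ⟨r * q, C (1 / algebraMap R (FractionRing R) q) * s, h3, ?_⟩
    apply langWeil_sqrt R d hd
    rintro ⟨w, hw⟩
    apply h1
    refine ⟨C w * (C (1 / algebraMap R (FractionRing R) q) * s), ?_⟩
    rw [h3, hw, C_mul]
    ring

end Pool.Agent.Lib.MP_1a0ddd_nt.LW
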