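import Pool.Agent.Lib.MP_1a0ddd_nt.Quad.QBase

/-! A family becomes a pencil with factored discriminant after inverting one element: proof of
`exists_pencil`. -/

set_option autoImplicit false

namespace Pool.Agent.Lib.MP_1a0ddd_nt.LW

open Polynomial Quad

/-- factorization over a field into powers of monic irreducible polynomials -/
private theorem exists_fact {K : Type} [Field K] {f : K[X]} (hf : f ≠ 0) :
    ∃ (m : ℕ) (p : Fin m → K[X]) (k : Fin m → ℕ) (δ : K), δ ≠ 0 ∧ (∀ i, k i ≠ 0) ∧
      (∀ i, (p i).Monic) ∧ (∀ i, Irreducible (p i)) ∧ Function.Injective p ∧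
      f = C δ * ∏ i, p i ^ k i := by
  classical
  let F := UniqueFactorizationMonoid.normalizedFactors f
  have h1 : Associated F.prod f := UniqueFactorizationMonoid.prod_normalizedFactors hf
  obtain ⟨u, hu⟩ := h1
  obtain ⟨δ, hδ, hδu⟩ := Polynomial.isUnit_iff.1 u.isUnit
  let e : Fin F.toFinset.card ≃ F.toFinset := F.toFinset.equivFin.symm
  have hirr : ∀ p ∈ F, Irreducible p := fun p hp =>
    UniqueFactorizationMonoid.irreducible_of_normalized_factor p hp
  refine ⟨F.toFinset.card, fun i => (e i : K[X]), fun i => F.count (e i : K[X]), δ,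
    hδ.ne_zero, ?_, ?_, ?_, ?_, ?_⟩
  · intro i
    exact (Multiset.count_pos.2 (Multiset.mem_toFinset.1 (e i).2)).ne'
  · intro i
    have hi := Multiset.mem_toFinset.1 (e i).2
    exact (normalize_eq_self_iff_monic (hirr _ hi).ne_zero).1
      (UniqueFactorizationMonoid.normalize_normalized_factor _ hi)
  · intro i
    exact hirr _ (Multiset.mem_toFinset.1 (e i).2)
  · intro i j hij
    exact e.injective (Subtype.ext hij)
  · have h2 : ∏ i, (e i : K[X]) ^ F.count (e i : K[X]) = F.prod := by
      rw [Finset.prod_multiset_count,
        e.prod_comp (fun x : F.toFinset => (x : K[X]) ^ F.count (x : K[X])),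
        Finset.prod_coe_sort F.toFinset (fun x : K[X] => x ^ F.count x)]
    rw [h2, hδu, mul_comm]
    exact hu.symm

private theorem quad_map {R A : Type} [CommRing R] [CommRing A] (φ : R →+* A) (a b c : R[X]) :
    quad (a.map φ) (b.map φ) (c.map φ) = (quad a b c).map (mapRingHom φ) := by
  have h : ∀ f : R[X], (f.map φ).map (C : A →+* A[X]) =
      (f.map (C : R →+* R[X])).map (mapRingHom φ) := by
    intro f
    rw [map_map, map_map]
    congr 1
    ext r
    simp
  unfold quad
  simp only [Polynomial.map_add, Polynomial.map_mul, Polynomial.map_pow, map_C, coe_mapRingHom,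
    map_X, Polynomial.map_ofNat, h]

/-- the transport of the structure `Family` data along `R → A`, `A ⊆ Frac R` -/
private theorem mem_transfer {R A : Type} [CommRing R] [IsDomain R] [CommRing A] [IsDomain A]
    (φ : R →+* A) (ψ : A →+* FractionRing R)
    (hc : ∀ r, ψ (φ r) = algebraMap R (FractionRing R) r)
    (e : FractionRing A ≃+* FractionRing R) (he : ∀ x, e (algebraMap A (FractionRing A) x) = ψ x)
    (a b c : R[X])
    (h : MonicOdd a b c ∨
      NoSquareMember a b c ∧ (Odd (quad a b c).natDegree ∨ a = 0 ∨ NotConstSquare a)) :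
    MonicOdd (a.map φ) (b.map φ) (c.map φ) ∨
      NoSquareMember (a.map φ) (b.map φ) (c.map φ) ∧
        (Odd (quad (a.map φ) (b.map φ) (c.map φ)).natDegree ∨ a.map φ = 0 ∨
          NotConstSquare (a.map φ)) := by
  have hφ : Function.Injective φ := by
    intro x y hxy
    have h1 : ψ (φ x) = ψ (φ y) := by rw [hxy]
    rw [hc, hc] at h1
    exact IsFractionRing.injective R (FractionRing R) h1
  rcases h with h | ⟨h1, h2⟩
  · left
    obtain ⟨m1, m2, m3, m4⟩ := h
    refine ⟨m1.map φ, ?_, ?_, ?_⟩
    · rwa [natDegree_map_eq_of_injective hφ]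
    · rwa [natDegree_map_eq_of_injective hφ, natDegree_map_eq_of_injective hφ]
    · rwa [natDegree_map_eq_of_injective hφ, natDegree_map_eq_of_injective hφ]
  · right
    refine ⟨?_, ?_⟩
    · intro L _ y hy s
      rw [quad_map, map_map]
      refine h1 L (y.comp (mapRingHom φ)) ?_ s
      intro r r' hrr
      apply hφ
      apply hy
      simpa using hrr
    · rcases h2 with h3 | h3 | h3
      · left
        rw [quad_map, natDegree_map_eq_of_injective (map_injective φ hφ)]
        exact h3
      · right; left
        rw [h3, Polynomial.map_zero]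
      · right; right
        intro u s hus
        apply h3 (e u) (s.map (e : FractionRing A →+* FractionRing R))
        have h4 := congrArg (Polynomial.map (e : FractionRing A →+* FractionRing R)) hus
        rw [Polynomial.map_mul, Polynomial.map_pow, map_C] at h4
        have h5 : (toF (a.map φ)).map (e : FractionRing A →+* FractionRing R) = toF a := by
          unfold toF
          rw [map_map, map_map]
          congr 1
          ext r
          simp [he, hc]
        rw [h5] at h4
        exact h4

theorem exists_pencil_aux (R : Type) [CommRing R] [IsDomain R] (a b c : R[X])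
    (h : Family a b c) : ∃ s : R, s ≠ 0 ∧ ∃ (_ : IsDomain (Localization.Away s)) (m : ℕ)
      (π : Fin m → (Localization.Away s)[X]) (k : Fin m → ℕ) (δ : Localization.Away s),
      Pencil (a.map (algebraMap R (Localization.Away s)))
        (b.map (algebraMap R (Localization.Away s)))
        (c.map (algebraMap R (Localization.Away s))) π k δ := by
  classical
  have hΔ : toF b ^ 2 - toF a * toF c ≠ 0 := by
    intro h0
    apply h.disc
    apply map_injective _ (IsFractionRing.injective R (FractionRing R))
    rw [Polynomial.map_pow, Polynomial.map_mul]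
    exact sub_eq_zero.1 h0
  obtain ⟨m, p, k, δK, hδ, hk, hmon, hirr, hinj, hfac⟩ := exists_fact hΔ
  let Z : Finset (FractionRing R) := insert δK (Finset.univ.biUnion fun i => (p i).coeffs)
  obtain ⟨s, hs⟩ := IsLocalization.exist_integer_multiples_of_finset (nonZeroDivisors R) Z
  have hs0 : (s : R) ≠ 0 := nonZeroDivisors.ne_zero s.2
  have hsK : algebraMap R (FractionRing R) s ≠ 0 := by
    rw [Ne, IsFractionRing.to_map_eq_zero_iff]
    exact hs0
  have hle : Submonoid.powers (s : R) ≤ nonZeroDivisors R :=
    powers_le_nonZeroDivisors_of_noZeroDivisors hs0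
  have hdom : IsDomain (Localization.Away (s : R)) := IsLocalization.isDomain_localization hle
  refine ⟨s, hs0, hdom, m, ?_⟩
  obtain ⟨ψ, hψ⟩ : ∃ ψ : Localization.Away (s : R) →+* FractionRing R,
      ∀ r, ψ (algebraMap R (Localization.Away (s : R)) r) = algebraMap R (FractionRing R) r :=
    ⟨IsLocalization.Away.lift (S := Localization.Away (s : R)) (s : R)
      (g := algebraMap R (FractionRing R)) (IsUnit.mk0 _ hsK),
      fun r => IsLocalization.Away.lift_eq (s : R) _ r⟩
  let _ : Algebra (Localization.Away (s : R)) (FractionRing R) := ψ.toAlgebra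
  have tow : IsScalarTower R (Localization.Away (s : R)) (FractionRing R) :=
    IsScalarTower.of_algebraMap_eq fun r => (hψ r).symm
  have hfr : IsFractionRing (Localization.Away (s : R)) (FractionRing R) :=
    IsFractionRing.isFractionRing_of_isDomain_of_isLocalization (Submonoid.powers (s : R))
      (Localization.Away (s : R)) (FractionRing R)
  have hψi : Function.Injective ψ :=
    IsFractionRing.injective (Localization.Away (s : R)) (FractionRing R)
  let e : FractionRing (Localization.Away (s : R)) ≃+* FractionRing R :=
    (FractionRing.algEquiv (Localization.Away (s : R)) (FractionRing R)).toRingEquiv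
  have he : ∀ x, e (algebraMap (Localization.Away (s : R)) _ x) = ψ x := fun x =>
    (FractionRing.algEquiv (Localization.Away (s : R)) (FractionRing R)).commutes x
  have hrange : ∀ z ∈ Z, ∃ x, ψ x = z := by
    intro z hz
    obtain ⟨r, hr⟩ := hs z hz
    refine ⟨algebraMap R _ r * IsLocalization.Away.invSelf (S := Localization.Away (s : R))
      (s : R), ?_⟩
    apply mul_right_cancel₀ hsK
    rw [← hψ (s : R), ← map_mul, mul_assoc, mul_comm (IsLocalization.Away.invSelf (s : R)),
      IsLocalization.Away.mul_invSelf, mul_one, hψ, hr, hψ, Algebra.smul_def, mul_comm]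
  have hδA : ∃ δ, ψ δ = δK := hrange _ (Finset.mem_insert_self _ _)
  obtain ⟨δ, hδe⟩ := hδA
  have hlift : ∀ i, ∃ q : (Localization.Away (s : R))[X], q.map ψ = p i ∧ q.Monic := by
    intro i
    have h1 : p i ∈ lifts ψ := by
      rw [lifts_iff_coeff_lifts]
      intro n
      by_cases hn : (p i).coeff n = 0
      · exact ⟨0, by rw [map_zero, hn]⟩
      · exact hrange _ (Finset.mem_insert_of_mem
          (Finset.mem_biUnion.2 ⟨i, Finset.mem_univ _, coeff_mem_coeffs hn⟩))
    obtain ⟨q, hq1, -, hq2⟩ := lifts_and_natDegree_eq_and_monic h1 (hmon i)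
    exact ⟨q, hq1, hq2⟩
  choose q hq1 hq2 using hlift
  have htoL : ∀ f : R[X], (f.map (algebraMap R (Localization.Away (s : R)))).map ψ = toF f := by
    intro f
    unfold toF
    rw [map_map]
    congr 1
    ext r
    exact hψ r
  refine ⟨q, k, δ, ?_, ?_, hk, hq2, ?_, ?_, ?_, ?_⟩
  · apply map_injective ψ hψi
    rw [Polynomial.map_sub, Polynomial.map_pow, Polynomial.map_mul, htoL, htoL, htoL, hfac,
      Polynomial.map_mul, map_C, hδe, Polynomial.map_prod]
    congr 1
    refine Finset.prod_congr rfl fun i _ => ?_
    rw [Polynomial.map_pow, hq1]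
  · rintro rfl
    exact hδ (by rw [← hδe, map_zero])
  · intro i
    have h1 : (toF (q i)).map (e : FractionRing (Localization.Away (s : R)) →+* FractionRing R) =
        p i := by
      rw [← hq1 i]
      unfold toF
      rw [map_map]
      congr 1
      ext x
      exact he x
    have h2 : Irreducible (mapEquiv e (toF (q i))) := by
      have h3 : mapEquiv e (toF (q i)) = p i := by
        rw [← h1]
        rfl
      rw [h3]
      exact hirr i
    exact (MulEquiv.irreducible_iff (mapEquiv e)).1 h2
  · intro i j hij
    apply hinj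
    rw [← hq1, ← hq1, hij]
  · intro i hcom
    apply (hirr i).not_isUnit
    apply h.sqf
    rw [← hq1 i, ← Polynomial.map_pow, ← htoL a, ← htoL b, ← htoL c]
    exact ⟨Polynomial.map_dvd ψ hcom.1, Polynomial.map_dvd ψ hcom.2.1,
      Polynomial.map_dvd ψ hcom.2.2⟩
  · exact mem_transfer (algebraMap R (Localization.Away (s : R))) ψ hψ e he a b c h.mem

end Pool.Agent.Lib.MP_1a0ddd_nt.LW
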