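import Pool.Agent.Lib.MP_1a0ddd_nt.Quad.QBase
import Pool.Agent.Lib.MP_1a0ddd_nt.LW.QTr
import Pool.Agent.Lib.MP_1a0ddd_nt.LW.QPen

/-! A family becomes a pencil with factored discriminant after inverting one element. -/

set_option autoImplicit false

namespace Pool.Agent.Lib.MP_1a0ddd_nt.LW

open Polynomial Quad

/-- `f` over `R[1/s]` -/
noncomputable abbrev toL {R : Type} [CommRing R] (s : R) (f : R[X]) : (Localization.Away s)[X] :=
  f.map (algebraMap R (Localization.Away s))

/-- Proof: factor `toF b ^ 2 - toF a * toF c` over the fraction field into monic irreducible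
polynomials and invert a common denominator `s` of their coefficients and of the constant. -/
theorem exists_pencil (R : Type) [CommRing R] [IsDomain R] [CharZero R] (a b c : R[X])
    (h : Family a b c) : ∃ s : R, s ≠ 0 ∧ ∃ (_ : IsDomain (Localization.Away s)) (m : ℕ)
      (π : Fin m → (Localization.Away s)[X]) (k : Fin m → ℕ) (δ : Localization.Away s),
      Pencil (toL s a) (toL s b) (toL s c) π k δ :=
  exists_pencil_aux R a b c h

private theorem mapEquiv_coe {L L' : Type} [Field L] [Field L'] (e : L ≃+* L') (f : L[X]) :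
    Polynomial.mapEquiv e f = f.map (e : L →+* L') := rfl

private theorem splitSet_equiv {L L' : Type} [Field L] [Field L'] (e : L ≃+* L') (a b c : L[X]) :
    splitSet (a.map (e : L →+* L')) (b.map (e : L →+* L')) (c.map (e : L →+* L')) =
      (Polynomial.mapEquiv e) '' splitSet a b c := by
  have hdvd : ∀ f g : L[X], (Polynomial.mapEquiv e) f ∣ (Polynomial.mapEquiv e) g ↔ f ∣ g :=
    fun f g => map_dvd_iff (Polynomial.mapEquiv e)
  ext π'
  constructor
  · rintro ⟨h1, h2, h3, β, γ, h4, h5, h6⟩
    obtain ⟨π, rfl⟩ := (Polynomial.mapEquiv e).surjective π'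
    obtain ⟨β, rfl⟩ := (Polynomial.mapEquiv e).surjective β
    obtain ⟨γ, rfl⟩ := (Polynomial.mapEquiv e).surjective γ
    refine ⟨π, ⟨?_, ?_, ?_, β, γ, ?_, ?_, ?_⟩, rfl⟩
    · rw [mapEquiv_coe] at h1
      exact (Polynomial.monic_map_iff (f := (e : L →+* L'))).1 h1
    · exact (MulEquiv.irreducible_iff (Polynomial.mapEquiv e)).1 h2
    · rintro ⟨g1, g2, g3⟩
      exact h3 ⟨(hdvd _ _).2 g1, (hdvd _ _).2 g2, (hdvd _ _).2 g3⟩
    · rw [← hdvd, map_sub, map_pow]; exact h4
    · rw [← hdvd, map_sub, map_mul]; exact h5
    · rw [← hdvd, map_sub, map_pow]; exact h6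
  · rintro ⟨π, ⟨h1, h2, h3, β, γ, h4, h5, h6⟩, rfl⟩
    refine ⟨h1.map _, (MulEquiv.irreducible_iff (Polynomial.mapEquiv e)).2 h2, ?_,
      Polynomial.mapEquiv e β, Polynomial.mapEquiv e γ, ?_, ?_, ?_⟩
    · rintro ⟨g1, g2, g3⟩
      exact h3 ⟨(hdvd _ _).1 g1, (hdvd _ _).1 g2, (hdvd _ _).1 g3⟩
    · rw [← hdvd, map_sub, map_pow] at h4; exact h4
    · rw [← hdvd, map_sub, map_mul] at h5; exact h5
    · rw [← hdvd, map_sub, map_pow] at h6; exact h6

/-- the rank does not change under an isomorphism of fields -/
theorem pencilRank_equiv {L L' : Type} [Field L] [Field L'] (e : L ≃+* L') (a b c : L[X]) :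
    pencilRank (a.map (e : L →+* L')) (b.map (e : L →+* L')) (c.map (e : L →+* L')) =
      pencilRank a b c := by
  classical
  have h0 : a.map (e : L →+* L') ≠ 0 ↔ a ≠ 0 := by
    rw [Ne, Polynomial.map_eq_zero]
  have h1 : IsSquare (a.map (e : L →+* L')) ↔ IsSquare a := by
    rw [← mapEquiv_coe]
    constructor
    · rintro ⟨r, hr⟩
      obtain ⟨r, rfl⟩ := (Polynomial.mapEquiv e).surjective r
      refine ⟨r, (Polynomial.mapEquiv e).injective ?_⟩
      rw [hr, map_mul]
    · intro h
      exact h.map (Polynomial.mapEquiv e)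
  unfold pencilRank
  rw [splitSet_equiv, Set.ncard_image_of_injective _ (Polynomial.mapEquiv e).injective]
  simp only [h0, h1]

/-- the rank over the fraction fields of `R` and `R[1/s]` -/
theorem pencilRank_loc (R : Type) [CommRing R] [IsDomain R] (s : R) (hs : s ≠ 0)
    [IsDomain (Localization.Away s)] (a b c : R[X]) :
    pencilRank (toF (toL s a)) (toF (toL s b)) (toF (toL s c)) =
      pencilRank (toF a) (toF b) (toF c) := by
  have hu : IsUnit (algebraMap R (FractionRing R) s) := by
    refine IsUnit.mk0 _ fun h => hs ?_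
    exact (IsFractionRing.injective R (FractionRing R)) (by rw [h, map_zero])
  let _ : Algebra (Localization.Away s) (FractionRing R) :=
    (IsLocalization.Away.lift s hu).toAlgebra
  have : IsScalarTower R (Localization.Away s) (FractionRing R) :=
    IsScalarTower.of_algebraMap_eq fun x => (IsLocalization.Away.lift_eq s hu x).symm
  have : IsFractionRing (Localization.Away s) (FractionRing R) :=
    IsFractionRing.isFractionRing_of_isDomain_of_isLocalization (Submonoid.powers s)
      (Localization.Away s) (FractionRing R)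
  let e : FractionRing (Localization.Away s) ≃ₐ[Localization.Away s] FractionRing R :=
    FractionRing.algEquiv (Localization.Away s) (FractionRing R)
  have key : ∀ f : R[X], (toF (toL s f)).map
      ((e : FractionRing (Localization.Away s) ≃+* FractionRing R) :
        FractionRing (Localization.Away s) →+* FractionRing R) = toF f := by
    intro f
    rw [Polynomial.map_map, Polynomial.map_map]
    congr 1
    ext x
    change e (algebraMap (Localization.Away s) (FractionRing (Localization.Away s))
      (algebraMap R (Localization.Away s) x)) = algebraMap R (FractionRing R) x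
    rw [AlgEquiv.commutes, ← IsScalarTower.algebraMap_apply]
  rw [← pencilRank_equiv (e : FractionRing (Localization.Away s) ≃+* FractionRing R)
    (toF (toL s a)) (toF (toL s b)) (toF (toL s c)), key, key, key]

/-- fields containing `R` contain `R[1/s]` -/
theorem rank_descend (R : Type) [CommRing R] [IsDomain R] (s : R) (hs : s ≠ 0) (a b c : R[X])
    (h : RankOverAll (toL s a) (toL s b) (toL s c)) : RankOverAll a b c := by
  intro L _ φ hφ
  have hu : IsUnit (φ s) := by
    refine IsUnit.mk0 _ fun h => hs ?_
    exact hφ (by rw [h, map_zero])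
  have hcomp : (IsLocalization.Away.lift s hu : Localization.Away s →+* L).comp
      (algebraMap R (Localization.Away s)) = φ := IsLocalization.Away.lift_comp s hu
  have hinj : Function.Injective (IsLocalization.Away.lift s hu : Localization.Away s →+* L) := by
    rw [injective_iff_map_eq_zero]
    intro x hx
    obtain ⟨⟨r, t⟩, hr⟩ := IsLocalization.surj (Submonoid.powers s) x
    have h1 : φ r = 0 := by
      have h2 := congrArg (IsLocalization.Away.lift s hu : Localization.Away s →+* L) hr
      rw [map_mul, hx, zero_mul, IsLocalization.Away.lift_eq] at h2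
      exact h2.symm
    have h3 : r = 0 := hφ (by rw [h1, map_zero])
    have h4 : IsUnit (algebraMap R (Localization.Away s) t) := IsLocalization.map_units _ t
    rw [h3, map_zero] at hr
    exact (h4.mul_left_eq_zero).1 hr
  have h1 := h L (IsLocalization.Away.lift s hu) hinj
  have key : ∀ f : R[X], (toL s f).map (IsLocalization.Away.lift s hu) = f.map φ := by
    intro f
    rw [Polynomial.map_map, hcomp]
  rwa [key, key, key] at h1

private theorem quad_toL {R : Type} [CommRing R] (s : R) (a b c : R[X]) :
    quad (toL s a) (toL s b) (toL s c) =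
      (quad a b c).map (Polynomial.mapRingHom (algebraMap R (Localization.Away s))) := by
  have hC : ∀ f : R[X], (toL s f).map (C : Localization.Away s →+* (Localization.Away s)[X]) =
      (f.map C).map (Polynomial.mapRingHom (algebraMap R (Localization.Away s))) := by
    intro f
    rw [Polynomial.map_map, Polynomial.map_map]
    congr 1
    ext x : 1
    simp
  have hX : (C (X : (Localization.Away s)[X]) : (Localization.Away s)[X][X]) =
      (C (X : R[X])).map (Polynomial.mapRingHom (algebraMap R (Localization.Away s))) := by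
    rw [Polynomial.map_C, Polynomial.coe_mapRingHom, Polynomial.map_X]
  unfold quad
  rw [hC, hC, hC, hX]
  simp only [Polynomial.map_add, Polynomial.map_mul, Polynomial.map_pow, Polynomial.map_ofNat]

private theorem traceAvg_loc {R : Type} [CommRing R] (s : R) (a b c : R[X]) (D : R[X])
    (hD : C s ∣ D) (m p : ℕ) (hp : p.Prime) :
    traceAvg (quad (toL s a) (toL s b) (toL s c)) (toL s D) m p = traceAvg (quad a b c) D m p := by
  have : Fact p.Prime := ⟨hp⟩
  set ψ : R[X] →+* (Localization.Away s)[X] :=
    Polynomial.mapRingHom (algebraMap R (Localization.Away s)) with hψ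
  have hψD : ∀ y' : (Localization.Away s)[X] →+* ZMod p, (y'.comp ψ) D = y' (toL s D) :=
    fun y' => rfl
  have hft : ∀ y' : (Localization.Away s)[X] →+* ZMod p,
      fibreTrace (quad (toL s a) (toL s b) (toL s c)) p y' =
        fibreTrace (quad a b c) p (y'.comp ψ) := by
    intro y'
    unfold fibreTrace
    rw [quad_toL, Polynomial.map_map]
  unfold traceAvg
  congr 1
  let g : {y' : (Localization.Away s)[X] →+* ZMod p // y' (toL s D) ≠ 0} →
      {y : R[X] →+* ZMod p // y D ≠ 0} := fun y' => ⟨y'.1.comp ψ, by rw [hψD]; exact y'.2⟩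
  refine finsum_eq_of_bijective g ⟨?_, ?_⟩ ?_
  · rintro ⟨y₁, h₁⟩ ⟨y₂, h₂⟩ h
    have h' : y₁.comp ψ = y₂.comp ψ := congrArg Subtype.val h
    apply Subtype.ext
    change y₁ = y₂
    apply Polynomial.ringHom_ext'
    · apply IsLocalization.ringHom_ext (Submonoid.powers s)
      ext x
      have := congrArg (fun f : R[X] →+* ZMod p => f (C x)) h'
      simpa [hψ] using this
    · have := congrArg (fun f : R[X] →+* ZMod p => f X) h'
      simpa [hψ] using this
  · rintro ⟨y, hy⟩
    have hs : (y.comp C) s ≠ 0 := by
      intro h0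
      obtain ⟨E, hE⟩ := hD
      apply hy
      rw [hE, map_mul]
      change (y.comp C) s * y E = 0
      rw [h0, zero_mul]
    have hu : IsUnit ((y.comp C) s) := IsUnit.mk0 _ hs
    let y' : (Localization.Away s)[X] →+* ZMod p :=
      Polynomial.eval₂RingHom (IsLocalization.Away.lift s hu) (y X)
    have hyy : y'.comp ψ = y := by
      apply Polynomial.ringHom_ext
      · intro x
        change Polynomial.eval₂ (IsLocalization.Away.lift s hu) (y X)
          ((C x : R[X]).map (algebraMap R (Localization.Away s))) = y (C x)
        rw [Polynomial.map_C, Polynomial.eval₂_C, IsLocalization.Away.lift_eq]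
        rfl
      · change Polynomial.eval₂ (IsLocalization.Away.lift s hu) (y X)
          ((X : R[X]).map (algebraMap R (Localization.Away s))) = y X
        rw [Polynomial.map_X, Polynomial.eval₂_X]
    refine ⟨⟨y', ?_⟩, Subtype.ext hyy⟩
    rw [← hψD, hyy]
    exact hy
  · rintro ⟨y', hy'⟩
    rw [hft]

private theorem mul_aux {A : Type} [CommRing A] (x y z w : A) :
    z * (x * y) * w = x * (y * z * w) := by ring

private theorem surj_aux {R : Type} [CommRing R] (s : R) (D : Localization.Away s) :
    ∃ (r : R) (t : Submonoid.powers s), D * algebraMap R (Localization.Away s) (t : R) =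
      algebraMap R (Localization.Away s) r := by
  obtain ⟨⟨r, t⟩, hr⟩ := IsLocalization.surj (Submonoid.powers s) D
  exact ⟨r, t, hr⟩

/-- Proof: `D₀ = s r` if `r/s^n` is the element for `R[1/s]`; for `D` divisible by `C D₀` the
homomorphisms `y : R[X] → F_p` with `y D ≠ 0` are those of `R[1/s][X]` (`y s ≠ 0`), with the same
`fibreTrace`. -/
theorem nagao_descend (R : Type) [CommRing R] [IsDomain R] (s : R) (hs : s ≠ 0) (a b c : R[X])
    (m : ℕ) (r : ℤ) (h : NagaoLimit (quad (toL s a) (toL s b) (toL s c)) m r) :
    NagaoLimit (quad a b c) m r := by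
  obtain ⟨D₁, hD₁, h⟩ := h
  obtain ⟨r₀, t, hr⟩ := surj_aux s D₁
  have hle : Submonoid.powers s ≤ nonZeroDivisors R := powers_le_nonZeroDivisors_of_noZeroDivisors hs
  have hinj : Function.Injective (algebraMap R (Localization.Away s)) :=
    IsLocalization.injective (Localization.Away s) hle
  have htu : IsUnit (algebraMap R (Localization.Away s) t) := IsLocalization.map_units _ t
  have hr0 : r₀ ≠ 0 := by
    rintro rfl
    rw [map_zero] at hr
    exact hD₁ ((htu.mul_left_eq_zero).1 hr)
  refine ⟨s * r₀, mul_ne_zero hs hr0, fun D hD hdvd => ?_⟩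
  have hD' : toL s D ≠ 0 := by
    intro h0
    apply hD
    apply Polynomial.map_injective _ hinj
    rw [Polynomial.map_zero]
    exact h0
  have hsD : C s ∣ D := dvd_trans ⟨C r₀, by rw [← C_mul]⟩ hdvd
  have hdvd' : C D₁ ∣ toL s D := by
    obtain ⟨E, hE⟩ := hdvd
    refine ⟨C (algebraMap R (Localization.Away s) t) * C (algebraMap R (Localization.Away s) s) *
      toL s E, ?_⟩
    have : toL s D = C (algebraMap R (Localization.Away s) s) *
        C (algebraMap R (Localization.Away s) r₀) * toL s E := by
      rw [hE]
      change (C (s * r₀) * E).map (algebraMap R (Localization.Away s)) = _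
      rw [Polynomial.map_mul, Polynomial.map_C, map_mul, C_mul]
    rw [this]
    have hr' : C D₁ * C (algebraMap R (Localization.Away s) t) =
        C (algebraMap R (Localization.Away s) r₀) := by
      rw [← C_mul]
      exact congrArg C hr
    rw [← hr']
    exact mul_aux _ _ _ _
  have key := h (toL s D) hD' hdvd'
  unfold TauMean at key ⊢
  refine key.congr fun T => ?_
  refine congrArg (fun z : ℝ => z / (T : ℝ)) (Finset.sum_congr rfl fun p hp => ?_)
  rw [traceAvg_loc s a b c D hsD m p (Finset.mem_filter.1 hp).2]

end Pool.Agent.Lib.MP_1a0ddd_nt.LW
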