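import Pool.Agent.Lib.MP_1a0ddd_nt.LW.SXD

/-! The theorem of Bertini and Noether by an ultraproduct. -/

set_option autoImplicit false

namespace Pool.Agent.Lib.MP_1a0ddd_nt.LW

open Polynomial

private theorem bn_swap_coeff {R : Type} [CommRing R] (p : R[X][X]) (i j : ℕ) :
    ((Bivariate.swap p).coeff j).coeff i = (p.coeff i).coeff j := by
  induction p using Polynomial.induction_on' with
  | add p q hp hq => rw [map_add, coeff_add, coeff_add, coeff_add, coeff_add, hp, hq]
  | monomial n a =>
    induction a using Polynomial.induction_on' with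
    | add p q hp hq =>
      rw [map_add, map_add, coeff_add, coeff_add, coeff_add, coeff_add, hp, hq]
    | monomial m r =>
      rw [Bivariate.swap_monomial_monomial]
      simp only [coeff_monomial]
      by_cases h1 : m = j <;> by_cases h2 : n = i <;> simp [h1, h2, coeff_monomial]

private theorem bn_coeff_le {R : Type} [CommRing R] (p : R[X][X]) (i : ℕ) :
    (p.coeff i).natDegree ≤ (Bivariate.swap p).natDegree := by
  refine natDegree_le_iff_coeff_eq_zero.2 fun N hN => ?_
  rw [← bn_swap_coeff, coeff_eq_zero_of_natDegree_lt hN, coeff_zero]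

private theorem bn_swap_le {R : Type} [CommRing R] (p : R[X][X]) (c : ℕ)
    (hc : ∀ i, (p.coeff i).natDegree ≤ c) : (Bivariate.swap p).natDegree ≤ c := by
  refine natDegree_le_iff_coeff_eq_zero.2 fun N hN => ?_
  ext i
  rw [bn_swap_coeff, coeff_zero, coeff_eq_zero_of_natDegree_lt ((hc i).trans_lt hN)]

/-- a factorization of a monic polynomial of `E[x][y]`, `E` a field: the factors may be taken monic,
of degree in `y` positive and smaller, and the degrees in `x` are bounded (exchange the variables) -/
theorem monic_factors {E : Type} [Field E] (f : E[X][X]) (hm : f.Monic) (hd : 0 < f.natDegree)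
    (c : ℕ) (hc : ∀ i, (f.coeff i).natDegree ≤ c) (hred : ¬ Irreducible f) :
    ∃ g k : E[X][X], f = g * k ∧ g.Monic ∧ k.Monic ∧ g.natDegree < f.natDegree ∧
      k.natDegree < f.natDegree ∧ (∀ i, (g.coeff i).natDegree ≤ c) ∧
      (∀ i, (k.coeff i).natDegree ≤ c) := by
  have hf1 : f ≠ 1 := by
    rintro rfl
    simp at hd
  rw [hm.irreducible_iff_natDegree] at hred
  push Not at hred
  obtain ⟨g, k, hg, hk, hgk, hg0, hk0⟩ := hred hf1
  have hdeg : g.natDegree + k.natDegree = f.natDegree := by
    rw [← hgk, natDegree_mul hg.ne_zero hk.ne_zero]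
  have hs : (Bivariate.swap g).natDegree + (Bivariate.swap k).natDegree ≤ c := by
    rw [← natDegree_mul ((map_ne_zero_iff _ Bivariate.swap.injective).2 hg.ne_zero)
      ((map_ne_zero_iff _ Bivariate.swap.injective).2 hk.ne_zero), ← map_mul, hgk]
    exact bn_swap_le f c hc
  refine ⟨g, k, hgk.symm, hg, hk, by omega, by omega, fun i => ?_, fun i => ?_⟩
  · exact (bn_coeff_le g i).trans (by omega)
  · exact (bn_coeff_le k i).trans (by omega)

private theorem bn_family {H : Type} (E : H → Type) [∀ h, Field (E h)] (d c : ℕ) (hd : 0 < d)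
    (g : ∀ h, (E h)[X][X]) (hg : ∀ h, (g h).natDegree < d)
    (hgc : ∀ h i, ((g h).coeff i).natDegree ≤ c) :
    ∃ G : (∀ h, E h)[X][X], G.natDegree < d ∧
      ∀ h, G.map (mapRingHom (Pi.evalRingHom E h)) = g h := by
  let G : (∀ h, E h)[X][X] := ∑ i ∈ Finset.range d, monomial i
    (∑ j ∈ Finset.range (c + 1), monomial j (fun h => ((g h).coeff i).coeff j))
  refine ⟨G, ?_, fun h => ?_⟩
  · refine (Nat.lt_of_le_pred hd ?_)
    refine natDegree_sum_le_of_forall_le _ _ fun i hi => ?_
    exact (natDegree_monomial_le _).trans (Nat.le_pred_of_lt (Finset.mem_range.1 hi))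
  · have h1 : G.map (mapRingHom (Pi.evalRingHom E h)) = ∑ i ∈ Finset.range d, monomial i
        (∑ j ∈ Finset.range (c + 1), monomial j (((g h).coeff i).coeff j)) := by
      simp only [G, Polynomial.map_sum, map_monomial, coe_mapRingHom]
      rfl
    rw [h1]
    conv_rhs => rw [(g h).as_sum_range' d (hg h)]
    refine Finset.sum_congr rfl fun i _ => ?_
    congr 1
    exact (((g h).coeff i).as_sum_range' (c + 1) (Nat.lt_succ_of_le (hgc h i))).symm

/-- Proof: otherwise for every `h ≠ 0` there are a field `E h` and `φ h : R → E h`, `φ h h ≠ 0`, with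
`f = g_h k_h` over `E h` as in `monic_factors`. In `P = ∏_h E h` let `e_r` be `0` at the multiples
`h` of `r` and `1` elsewhere (`r ≠ 0`); the `e_r` generate a proper ideal (finitely many of them are
zero at the product of the `r`), let `m` be a maximal ideal above and `Ω = P/m`. `R → Ω` is injective:
`r ≠ 0` is invertible modulo `e_r`. The `g_h`, `k_h` have bounded degrees, so they are the components
of `g, k ∈ P[x][y]`, `f = g k`, and over `Ω` both factors have degree `< deg f` in `y`. This
contradicts `AbsIrr f`. -/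
theorem bertini_noether {R : Type} [CommRing R] [IsDomain R] (f : R[X][X]) (hm : f.Monic)
    (habs : AbsIrr f) : ∃ h : R, h ≠ 0 ∧ ∀ (E : Type) [Field E] (φ : R →+* E), φ h ≠ 0 →
      Irreducible (f.map (mapRingHom φ)) := by
  by_contra hcon
  push Not at hcon
  have hd : 0 < f.natDegree := by
    rcases Nat.eq_zero_or_pos f.natDegree with h0 | h0
    · exfalso
      have h1 := habs (FractionRing R) (algebraMap R (FractionRing R))
        (IsFractionRing.injective R (FractionRing R))
      rw [eq_one_of_monic_natDegree_zero hm h0, Polynomial.map_one] at h1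
      exact h1.not_isUnit isUnit_one
    · exact h0
  obtain ⟨c, hc⟩ : ∃ c, ∀ i, (f.coeff i).natDegree ≤ c := by
    refine ⟨f.support.sup fun i => (f.coeff i).natDegree, fun i => ?_⟩
    by_cases hi : i ∈ f.support
    · exact Finset.le_sup (f := fun i => (f.coeff i).natDegree) hi
    · rw [notMem_support_iff.1 hi, natDegree_zero]; exact Nat.zero_le _
  let H := {h : R // h ≠ 0}
  choose E inst φ hφ hred using fun h : H => hcon h.1 h.2
  have hfac : ∀ h : H, ∃ g k : (E h)[X][X], f.map (mapRingHom (φ h)) = g * k ∧ g.Monic ∧ k.Monic ∧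
      g.natDegree < f.natDegree ∧ k.natDegree < f.natDegree ∧ (∀ i, (g.coeff i).natDegree ≤ c) ∧
      (∀ i, (k.coeff i).natDegree ≤ c) := by
    intro h
    have hmm : (f.map (mapRingHom (φ h))).Monic := hm.map _
    have hn : (f.map (mapRingHom (φ h))).natDegree = f.natDegree := hm.natDegree_map _
    have := monic_factors (f.map (mapRingHom (φ h))) hmm (by rw [hn]; exact hd) c (fun i => ?_)
      (hred h)
    · rw [hn] at this; exact this
    · rw [coeff_map, coe_mapRingHom]
      exact natDegree_map_le.trans (hc i)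
  choose g k hgk hg hk hgd hkd hgc hkc using hfac
  obtain ⟨G, hGd, hG⟩ := bn_family E f.natDegree c hd g hgd hgc
  obtain ⟨K, hKd, hK⟩ := bn_family E f.natDegree c hd k hkd hkc
  let P := ∀ h : H, E h
  let Φ : R →+* P := RingHom.pi φ
  have hF : f.map (mapRingHom Φ) = G * K := by
    have h1 : ∀ h : H, (f.map (mapRingHom Φ)).map (mapRingHom (Pi.evalRingHom E h)) =
        (G * K).map (mapRingHom (Pi.evalRingHom E h)) := by
      intro h
      rw [Polynomial.map_mul, hG, hK, ← hgk, Polynomial.map_map]
      congr 1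
      rw [mapRingHom_comp]
      rfl
    ext i j h
    have h2 := congrArg (fun q => (q.coeff i).coeff j) (h1 h)
    simp only [coeff_map, coe_mapRingHom] at h2
    rw [coeff_map, coe_mapRingHom, coeff_map]
    exact h2
  let I : Ideal P :=
    { carrier := {a | ∃ r : R, r ≠ 0 ∧ ∀ h : H, r ∣ h.1 → a h = 0}
      add_mem' := by
        rintro a b ⟨r, hr, ha⟩ ⟨s, hs, hb⟩
        refine ⟨r * s, mul_ne_zero hr hs, fun h hh => ?_⟩
        rw [Pi.add_apply, ha h (dvd_of_mul_right_dvd hh), hb h (dvd_of_mul_left_dvd hh), add_zero]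
      zero_mem' := ⟨1, one_ne_zero, fun h _ => rfl⟩
      smul_mem' := by
        rintro a b ⟨s, hs, hb⟩
        refine ⟨s, hs, fun h hh => ?_⟩
        rw [smul_eq_mul, Pi.mul_apply, hb h hh, mul_zero] }
  have hI : I ≠ ⊤ := by
    intro h
    have h1 : (1 : P) ∈ I := by rw [h]; trivial
    obtain ⟨r, hr, h2⟩ := h1
    exact one_ne_zero (h2 ⟨r, hr⟩ dvd_rfl)
  obtain ⟨m, hmm, hIm⟩ := Ideal.exists_le_maximal I hI
  let _ : Field (P ⧸ m) := Ideal.Quotient.field m
  let q : P →+* P ⧸ m := Ideal.Quotient.mk m
  have hinj : Function.Injective (q.comp Φ) := by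
    rw [injective_iff_map_eq_zero]
    intro r hr
    by_contra hr0
    have h1 : Φ r ∈ m := Ideal.Quotient.eq_zero_iff_mem.1 hr
    classical
    have h2 : (1 : P) - Φ r * (fun h => (φ h r)⁻¹) ∈ I := by
      refine ⟨r, hr0, fun h hh => ?_⟩
      have h3 : φ h r ≠ 0 := by
        intro h4
        obtain ⟨s, hs⟩ := hh
        apply hφ h
        rw [hs, map_mul, h4, zero_mul]
      show 1 - φ h r * (φ h r)⁻¹ = 0
      rw [mul_inv_cancel₀ h3, sub_self]
    have h3 : (1 : P) ∈ m := by
      have := m.add_mem (hIm h2) (m.mul_mem_right (fun h => (φ h r)⁻¹) h1)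
      rwa [sub_add_cancel] at this
    exact hmm.ne_top (m.eq_top_iff_one.2 h3)
  have hirr := habs (P ⧸ m) (q.comp Φ) hinj
  have hprod : f.map (mapRingHom (q.comp Φ)) = G.map (mapRingHom q) * K.map (mapRingHom q) := by
    rw [← mapRingHom_comp, ← Polynomial.map_map, hF, Polynomial.map_mul]
  have hn : (f.map (mapRingHom (q.comp Φ))).natDegree = f.natDegree := hm.natDegree_map _
  have hne : G.map (mapRingHom q) * K.map (mapRingHom q) ≠ 0 := by
    rw [← hprod]; exact hirr.ne_zero
  have hdeg : (G.map (mapRingHom q)).natDegree + (K.map (mapRingHom q)).natDegree =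
      f.natDegree := by
    rw [← natDegree_mul (left_ne_zero_of_mul hne) (right_ne_zero_of_mul hne), ← hprod, hn]
  have h1 : (G.map (mapRingHom q)).natDegree ≤ G.natDegree := natDegree_map_le
  have h2 : (K.map (mapRingHom q)).natDegree ≤ K.natDegree := natDegree_map_le
  rcases hirr.isUnit_or_isUnit hprod with hu | hu
  · have := natDegree_eq_zero_of_isUnit hu
    omega
  · have := natDegree_eq_zero_of_isUnit hu
    omega

end Pool.Agent.Lib.MP_1a0ddd_nt.LW
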