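import Pool.Agent.Lib.MP_1a0ddd_nt.LW.ZDefs

/-! Continuation of a Dirichlet series from a smoothed count. -/

set_option autoImplicit false

namespace Pool.Agent.Lib.MP_1a0ddd_nt.LW

open Filter Topology MeasureTheory

private theorem zm_wgt_zero {u : ℝ} (hu : 1 ≤ u) : wgt u = 0 := by
  rw [wgt, max_eq_right (by linarith), mul_zero]

private theorem zm_wgt_nonneg {u : ℝ} (hu : 0 ≤ u) : 0 ≤ wgt u :=
  mul_nonneg hu (le_max_right _ _)

private theorem zm_wgt_of_le {u : ℝ} (hu : u ≤ 1) : wgt u = u * (1 - u) := by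
  rw [wgt, max_eq_left (by linarith)]

private theorem zm_wgt_cont : Continuous wgt := by
  unfold wgt
  exact continuous_id.mul ((continuous_const.sub continuous_id).max continuous_const)

/-- the Mellin transform of the weight -/
private theorem zm_key (n : ℕ) (hn : 0 < n) (s : ℂ) (hs : 0 < s.re) :
    IntegrableOn (fun T : ℝ => ((wgt (n / T) : ℝ) : ℂ) * (T : ℂ) ^ (-s - 1)) (Set.Ioi 1) ∧
    ∫ T in Set.Ioi (1 : ℝ), ((wgt (n / T) : ℝ) : ℂ) * (T : ℂ) ^ (-s - 1) =
      (n : ℂ) ^ (-s) / ((s + 1) * (s + 2)) := by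
  have hn' : (0 : ℝ) < n := by exact_mod_cast hn
  have hn1 : (1 : ℝ) ≤ n := by exact_mod_cast hn
  have hnc : (n : ℂ) ≠ 0 := by exact_mod_cast hn.ne'
  have hsub : Set.Ioi (n : ℝ) ⊆ Set.Ioi 1 := Set.Ioi_subset_Ioi hn1
  have hz : ∀ T ∈ Set.Ioi (1 : ℝ) \ Set.Ioi (n : ℝ),
      ((wgt (n / T) : ℝ) : ℂ) * (T : ℂ) ^ (-s - 1) = 0 := by
    rintro T ⟨h1, h2⟩
    have hT : 0 < T := lt_trans one_pos h1
    rw [zm_wgt_zero ((one_le_div hT).2 (not_lt.1 h2)), Complex.ofReal_zero, zero_mul]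
  have he : ∀ T ∈ Set.Ioi (n : ℝ), ((wgt (n / T) : ℝ) : ℂ) * (T : ℂ) ^ (-s - 1) =
      (n : ℂ) * (T : ℂ) ^ (-s - 2) - (n : ℂ) ^ 2 * (T : ℂ) ^ (-s - 3) := by
    intro T hT
    have hT0 : 0 < T := lt_trans hn' hT
    have hTc : (T : ℂ) ≠ 0 := by exact_mod_cast hT0.ne'
    rw [zm_wgt_of_le ((div_le_one hT0).2 hT.le)]
    have h1 : (T : ℂ) ^ (-s - 2) = (T : ℂ) ^ (-s - 1) / T := by
      rw [show -s - 2 = (-s - 1) - 1 by ring, Complex.cpow_sub _ _ hTc, Complex.cpow_one]
    have h2 : (T : ℂ) ^ (-s - 3) = (T : ℂ) ^ (-s - 1) / (T : ℂ) ^ 2 := by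
      rw [show -s - 3 = (-s - 1) - (2 : ℕ) by push_cast; ring, Complex.cpow_sub _ _ hTc,
        Complex.cpow_natCast]
    rw [h1, h2]
    push_cast
    field_simp
  have h2 : (-s - 2).re < -1 := by simp; linarith
  have h3 : (-s - 3).re < -1 := by simp; linarith
  have i2 := integrableOn_Ioi_cpow_of_lt h2 hn'
  have i3 := integrableOn_Ioi_cpow_of_lt h3 hn'
  have hs1 : s + 1 ≠ 0 := by
    intro h
    have := congrArg Complex.re h
    simp at this
    linarith
  have hs2 : s + 2 ≠ 0 := by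
    intro h
    have := congrArg Complex.re h
    simp at this
    linarith
  constructor
  · refine IntegrableOn.of_forall_sdiff_eq_zero (s := Set.Ioi (n : ℝ)) ?_ measurableSet_Ioi hz
    exact IntegrableOn.congr_fun ((i2.const_mul _).sub (i3.const_mul _))
      (fun T hT => (he T hT).symm) measurableSet_Ioi
  · rw [setIntegral_eq_of_subset_of_forall_sdiff_eq_zero measurableSet_Ioi hsub hz,
      setIntegral_congr_fun measurableSet_Ioi he, integral_sub (i2.const_mul _) (i3.const_mul _),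
      integral_const_mul, integral_const_mul, integral_Ioi_cpow_of_lt h2 hn',
      integral_Ioi_cpow_of_lt h3 hn']
    have e2 : ((n : ℝ) : ℂ) ^ (-s - 2 + 1) = (n : ℂ) ^ (-s) / n := by
      rw [show -s - 2 + 1 = -s - 1 by ring, Complex.ofReal_natCast, Complex.cpow_sub _ _ hnc,
        Complex.cpow_one]
    have e3 : ((n : ℝ) : ℂ) ^ (-s - 3 + 1) = (n : ℂ) ^ (-s) / (n : ℂ) ^ 2 := by
      rw [show -s - 3 + 1 = -s - (2 : ℕ) by push_cast; ring, Complex.ofReal_natCast,
        Complex.cpow_sub _ _ hnc, Complex.cpow_natCast]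
    have d2 : -s - 2 + 1 ≠ 0 := by
      intro h
      exact hs1 (by linear_combination -h)
    have d3 : -s - 3 + 1 ≠ 0 := by
      intro h
      exact hs2 (by linear_combination -h)
    rw [e2, e3]
    have f2 : -((n : ℂ) ^ (-s) / n) / (-s - 2 + 1) = (n : ℂ) ^ (-s) / n / (s + 1) := by
      rw [show -s - 2 + 1 = -(s + 1) by ring, neg_div_neg_eq]
    have f3 : -((n : ℂ) ^ (-s) / (n : ℂ) ^ 2) / (-s - 3 + 1) =
        (n : ℂ) ^ (-s) / (n : ℂ) ^ 2 / (s + 2) := by
      rw [show -s - 3 + 1 = -(s + 2) by ring, neg_div_neg_eq]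
    rw [f2, f3]
    field_simp
    ring

section
variable (a : ℕ → ℝ)

/-- the smoothed count -/
private noncomputable def zmF (T : ℝ) : ℝ := ∑' n : ℕ, a n * wgt (n / T)

private theorem zm_zero_of_notMem {T : ℝ} (hT : 0 < T) (n : ℕ) (hn : n ∉ Finset.range ⌈T⌉₊) :
    a n * wgt (n / T) = 0 := by
  rw [Finset.mem_range, not_lt] at hn
  rw [zm_wgt_zero ((one_le_div hT).2 (Nat.ceil_le.1 hn)), mul_zero]

private theorem zm_summable {T : ℝ} (hT : 0 < T) : Summable fun n : ℕ => a n * wgt (n / T) :=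
  summable_of_ne_finset_zero (s := Finset.range ⌈T⌉₊) (zm_zero_of_notMem a hT)

/-- the error term -/
private noncomputable def zmE (κ : ℝ) (T : ℝ) : ℂ :=
  if 1 < T then ((zmF a T - κ * T : ℝ) : ℂ) else 0

private theorem zmE_meas (κ : ℝ) : Measurable (zmE a κ) := by
  refine measurable_of_tendsto_metrizable (f := fun (N : ℕ) (T : ℝ) =>
    if 1 < T then (((∑ n ∈ Finset.range N, a n * wgt (n / T)) - κ * T : ℝ) : ℂ) else 0)
    (fun N => ?_) ?_
  · refine Measurable.ite measurableSet_Ioi ?_ measurable_const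
    refine Complex.measurable_ofReal.comp (Measurable.sub ?_ (measurable_id.const_mul κ))
    refine Finset.measurable_sum _ fun n _ => ?_
    exact (zm_wgt_cont.measurable.comp (measurable_id.const_div _)).const_mul _
  · rw [tendsto_pi_nhds]
    intro T
    unfold zmE
    by_cases hT : 1 < T
    · simp only [if_pos hT]
      have h1 := (zm_summable a (lt_trans one_pos hT)).hasSum.tendsto_sum_nat
      exact (Complex.continuous_ofReal.tendsto _).comp (h1.sub_const (κ * T))
    · simp only [if_neg hT]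
      exact tendsto_const_nhds

end

/-- Proof: `F(T) = ∑ a n wgt(n/T)` is zero for `T ≤ 1` and `≤ C T` for `T ≥ 1`, so
`∑_{n ≤ T} a n = O(T)` (`wgt ≥ 1/8` on `[1/4, 1/2]`, dyadic sum; the sum over `n` has finitely many
nonzero terms because `wgt u = 0` for `u ≥ 1`) and the series converges for `Re s > 1`. Then
`∫_1^∞ F(T) T^(-s-1) dT = ∑ a n n^(-s) ∫_0^1 wgt(u) u^(s-1) du = L(s)/((s+1)(s+2))`, and
`F(T) = κ T + E(T)` gives `L(s) = (s+1)(s+2) (κ/(s-1) + ∫_1^∞ E(T) T^(-s-1) dT)`,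
`(s+1)(s+2) κ/(s-1) = 6 κ/(s-1) + κ (s+4)`; the last integral is analytic for `Re s > 1 - δ`
(Mathlib: `mellin_differentiableAt_of_isBigO_rpow`, applied to `x ↦ E(x)` on `x > 1`, zero else;
or differentiation under the integral). -/
theorem zeta_cont (a : ℕ → ℝ) (ha : ∀ n, 0 ≤ a n) (h0 : a 0 = 0) (κ B δ : ℝ) (hδ : 0 < δ)
    (hδ1 : δ ≤ 1)
    (hF : ∀ T : ℝ, 1 ≤ T → |(∑' n : ℕ, a n * wgt (n / T)) - κ * T| ≤ B * T ^ (1 - δ)) :
    (∀ s : ℂ, 1 < s.re → LSeriesSummable (fun n => (a n : ℂ)) s) ∧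
    ∃ G : ℂ → ℂ, DifferentiableOn ℂ G {s | 1 - δ < s.re} ∧
      ∀ s : ℂ, 1 < s.re → LSeries (fun n => (a n : ℂ)) s = (6 * κ : ℝ) / (s - 1) + G s := by
  have hB : 0 ≤ B := by
    have h1 := hF 1 le_rfl
    rw [Real.one_rpow, mul_one B] at h1
    exact le_trans (abs_nonneg _) h1
  -- the bound of the error term
  have hE : ∀ T, ‖zmE a κ T‖ ≤ B * |T| ^ (1 - δ) := by
    intro T
    unfold zmE
    split_ifs with hT
    · rw [Complex.norm_real, abs_of_pos (lt_trans one_pos hT)]
      exact hF T hT.le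
    · rw [norm_zero]
      positivity
  -- the terms
  set Fn : ℂ → ℕ → ℝ → ℂ := fun s n T =>
    (a n : ℂ) * (((wgt (n / T) : ℝ) : ℂ) * (T : ℂ) ^ (-s - 1)) with hFn
  have hFint : ∀ s : ℂ, 0 < s.re → ∀ n, IntegrableOn (Fn s n) (Set.Ioi 1) := by
    intro s hs n
    rcases Nat.eq_zero_or_pos n with rfl | hn
    · simp only [hFn, h0, Complex.ofReal_zero, zero_mul]
      exact integrableOn_zero
    · exact (zm_key n hn s hs).1.const_mul _
  have hFval : ∀ s : ℂ, 0 < s.re → ∀ n, ∫ T in Set.Ioi (1 : ℝ), Fn s n T =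
      LSeries.term (fun n => (a n : ℂ)) s n / ((s + 1) * (s + 2)) := by
    intro s hs n
    rcases Nat.eq_zero_or_pos n with rfl | hn
    · simp [hFn, h0]
    · simp only [hFn]
      rw [integral_const_mul, (zm_key n hn s hs).2, LSeries.term_of_ne_zero hn.ne',
        Complex.cpow_neg]
      ring
  have hpos : ∀ s : ℂ, ∀ n : ℕ, ∀ T ∈ Set.Ioi (1 : ℝ), ‖Fn s n T‖ =
      (Fn (s.re : ℂ) n T).re ∧ ‖Fn s n T‖ = a n * wgt (n / T) * T ^ (-s.re - 1) := by
    intro s n T hT
    have hT0 : 0 < T := lt_trans one_pos hT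
    have hw : 0 ≤ wgt (n / T) := zm_wgt_nonneg (by positivity)
    have e1 : ‖Fn s n T‖ = a n * wgt (n / T) * T ^ (-s.re - 1) := by
      simp only [hFn]
      rw [norm_mul, norm_mul, Complex.norm_real, Complex.norm_real, Real.norm_of_nonneg (ha n),
        Real.norm_of_nonneg hw, Complex.norm_cpow_eq_rpow_re_of_pos hT0]
      simp [mul_assoc]
    refine ⟨?_, e1⟩
    rw [e1]
    have e2 : (T : ℂ) ^ (-(s.re : ℂ) - 1) = ((T ^ (-s.re - 1) : ℝ) : ℂ) := by
      rw [Complex.ofReal_cpow hT0.le]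
      push_cast
      rfl
    simp only [hFn]
    rw [e2, ← Complex.ofReal_mul, ← Complex.ofReal_mul, Complex.ofReal_re]
    ring
  have hnormint : ∀ s : ℂ, 0 < s.re → ∀ n, ∫ T in Set.Ioi (1 : ℝ), ‖Fn s n T‖ =
      ‖LSeries.term (fun n => (a n : ℂ)) s n‖ / ((s.re + 1) * (s.re + 2)) := by
    intro s hs n
    have hs' : 0 < ((s.re : ℂ)).re := by simpa using hs
    rw [setIntegral_congr_fun measurableSet_Ioi (fun T hT => (hpos s n T hT).1)]
    have h1 : ∫ T in Set.Ioi (1 : ℝ), (Fn (s.re : ℂ) n T).re =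
        (∫ T in Set.Ioi (1 : ℝ), Fn (s.re : ℂ) n T).re :=
      integral_re (hFint _ hs' n)
    rw [h1, hFval _ hs' n]
    rcases Nat.eq_zero_or_pos n with rfl | hn
    · simp
    · have hn' : (0 : ℝ) < n := by exact_mod_cast hn
      rw [LSeries.term_of_ne_zero hn.ne', LSeries.term_of_ne_zero hn.ne', norm_div,
        Complex.norm_real, Real.norm_of_nonneg (ha n), Complex.norm_natCast_cpow_of_pos hn]
      have e2 : (n : ℂ) ^ (s.re : ℂ) = (((n : ℝ) ^ s.re : ℝ) : ℂ) := by
        rw [Complex.ofReal_cpow hn'.le, Complex.ofReal_natCast]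
      rw [e2]
      norm_cast
  -- summability
  have hsum : ∀ s : ℂ, 1 < s.re → Summable fun n =>
      ‖LSeries.term (fun n => (a n : ℂ)) s n‖ / ((s.re + 1) * (s.re + 2)) := by
    intro s hs
    have hs0 : 0 < s.re := by linarith
    refine summable_of_sum_le (c := ∫ T in Set.Ioi (1 : ℝ), (|κ| + B) * T ^ (-s.re))
      (fun n => by positivity) fun S => ?_
    have h1 : ∑ n ∈ S, ‖LSeries.term (fun n => (a n : ℂ)) s n‖ / ((s.re + 1) * (s.re + 2)) =
        ∫ T in Set.Ioi (1 : ℝ), ∑ n ∈ S, ‖Fn s n T‖ := by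
      rw [integral_finsetSum _ fun n _ => (hFint s hs0 n).norm]
      exact Finset.sum_congr rfl fun n _ => (hnormint s hs0 n).symm
    rw [h1]
    refine setIntegral_mono_on (integrable_finsetSum _ fun n _ => (hFint s hs0 n).norm)
      ((integrableOn_Ioi_rpow_of_lt (by linarith) one_pos).const_mul _) measurableSet_Ioi ?_
    intro T hT
    have hT0 : 0 < T := lt_trans one_pos hT
    rw [Finset.sum_congr rfl fun n _ => (hpos s n T hT).2, ← Finset.sum_mul]
    have h2 : ∑ n ∈ S, a n * wgt (n / T) ≤ ∑' n : ℕ, a n * wgt (n / T) :=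
      (zm_summable a hT0).sum_le_tsum S fun n _ =>
        mul_nonneg (ha n) (zm_wgt_nonneg (by positivity))
    have h3 : (∑' n : ℕ, a n * wgt (n / T)) ≤ (|κ| + B) * T := by
      have h4 := (abs_le.1 (hF T hT.le)).2
      have h5 : T ^ (1 - δ) ≤ T := by
        calc T ^ (1 - δ) ≤ T ^ (1 : ℝ) := Real.rpow_le_rpow_of_exponent_le hT.le (by linarith)
          _ = T := Real.rpow_one T
      have h6 : κ * T ≤ |κ| * T := mul_le_mul_of_nonneg_right (le_abs_self κ) hT0.le
      have h7 : B * T ^ (1 - δ) ≤ B * T := mul_le_mul_of_nonneg_left h5 hB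
      linarith
    calc (∑ n ∈ S, a n * wgt (n / T)) * T ^ (-s.re - 1)
        ≤ ((|κ| + B) * T) * T ^ (-s.re - 1) :=
          mul_le_mul_of_nonneg_right (h2.trans h3) (by positivity)
      _ = (|κ| + B) * T ^ (-s.re) := by
          rw [Real.rpow_sub_one hT0.ne']
          field_simp
  have hS : ∀ s : ℂ, 1 < s.re → LSeriesSummable (fun n => (a n : ℂ)) s := by
    intro s hs
    have hs0 : 0 < s.re := by linarith
    have h1 := (hsum s hs).mul_right ((s.re + 1) * (s.re + 2))
    refine Summable.of_norm (h1.congr fun n => ?_)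
    rw [div_mul_cancel₀ _ (by positivity)]
  -- the continuation
  have hloc : LocallyIntegrableOn (zmE a κ) (Set.Ioi 0) := by
    have h1 : LocallyIntegrable (fun T : ℝ => B * (1 + |T|)) :=
      (continuous_const.mul (continuous_const.add continuous_abs)).locallyIntegrable
    refine (h1.mono (zmE_meas a κ).aestronglyMeasurable
      (Eventually.of_forall fun T => ?_)).locallyIntegrableOn _
    refine le_trans (hE T) ?_
    rw [Real.norm_of_nonneg (by positivity)]
    refine mul_le_mul_of_nonneg_left ?_ hB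
    calc |T| ^ (1 - δ) ≤ (1 + |T|) ^ (1 - δ) :=
          Real.rpow_le_rpow (abs_nonneg T) (by linarith) (by linarith)
      _ ≤ (1 + |T|) ^ (1 : ℝ) := Real.rpow_le_rpow_of_exponent_le
          (by linarith [abs_nonneg T]) (by linarith)
      _ = 1 + |T| := Real.rpow_one _
  have htop : zmE a κ =O[atTop] fun T : ℝ => T ^ (-(δ - 1)) := by
    refine Asymptotics.IsBigO.of_bound B ?_
    filter_upwards [eventually_gt_atTop (0 : ℝ)] with T hT
    rw [Real.norm_of_nonneg (by positivity), show -(δ - 1) = 1 - δ by ring]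
    have := hE T
    rwa [abs_of_pos hT] at this
  have hbot : ∀ b : ℝ, zmE a κ =O[𝓝[>] 0] fun T : ℝ => T ^ (-b) := by
    intro b
    refine Asymptotics.IsBigO.of_bound 0 ?_
    have h1 : ∀ᶠ T : ℝ in 𝓝[>] 0, T < 1 := mem_nhdsWithin_of_mem_nhds (Iio_mem_nhds one_pos)
    filter_upwards [h1] with T hT
    rw [zmE, if_neg (not_lt.2 hT.le), norm_zero, zero_mul]
  refine ⟨hS, fun s => κ * (s + 4) + (s + 1) * (s + 2) * mellin (zmE a κ) (-s), ?_, ?_⟩
  · intro s hs
    have hs' : (-s).re < δ - 1 := by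
      rw [Complex.neg_re]
      have : 1 - δ < s.re := hs
      linarith
    have h0 : DifferentiableAt ℂ (mellin (zmE a κ)) (-s) :=
      mellin_differentiableAt_of_isBigO_rpow hloc htop hs' (hbot ((-s).re - 1)) (by linarith)
    have h1 : DifferentiableAt ℂ (fun s : ℂ => mellin (zmE a κ) (-s)) s :=
      h0.comp s differentiableAt_id.neg
    have h2 : DifferentiableAt ℂ (fun s : ℂ => (κ : ℂ) * (s + 4)) s :=
      (differentiableAt_id.add_const _).const_mul _
    have h3 : DifferentiableAt ℂ (fun s : ℂ => (s + 1) * (s + 2)) s :=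
      (differentiableAt_id.add_const _).mul (differentiableAt_id.add_const _)
    exact (h2.add (h3.mul h1)).differentiableWithinAt
  · intro s hs
    have hs0 : 0 < s.re := by linarith
    have hs1 : s + 1 ≠ 0 := by
      intro h
      have := congrArg Complex.re h
      simp at this
      linarith
    have hs2 : s + 2 ≠ 0 := by
      intro h
      have := congrArg Complex.re h
      simp at this
      linarith
    have hs3 : s - 1 ≠ 0 := by
      intro h
      have := congrArg Complex.re h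
      simp at this
      linarith
    have h1 := hasSum_integral_of_summable_integral_norm (μ := volume.restrict (Set.Ioi (1 : ℝ)))
      (F := fun n T => Fn s n T) (fun n => hFint s hs0 n)
      ((hsum s hs).congr fun n => (hnormint s hs0 n).symm)
    have h2 : HasSum (fun n => LSeries.term (fun n => (a n : ℂ)) s n / ((s + 1) * (s + 2)))
        (LSeries (fun n => (a n : ℂ)) s / ((s + 1) * (s + 2))) :=
      (hS s hs).LSeriesHasSum.div_const _
    have h3 : LSeries (fun n => (a n : ℂ)) s / ((s + 1) * (s + 2)) =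
        ∫ T in Set.Ioi (1 : ℝ), ∑' n, Fn s n T := by
      refine h2.unique ?_
      rw [funext (hFval s hs0)] at h1
      exact h1
    have h4 : ∀ T ∈ Set.Ioi (1 : ℝ), ∑' n, Fn s n T =
        (κ : ℂ) * (T : ℂ) ^ (-s) + (T : ℂ) ^ (-s - 1) • zmE a κ T := by
      intro T hT
      have hT0 : 0 < T := lt_trans one_pos hT
      have hTc : (T : ℂ) ≠ 0 := by exact_mod_cast hT0.ne'
      have e1 : ∑' n, Fn s n T = (zmF a T : ℂ) * (T : ℂ) ^ (-s - 1) := by
        rw [zmF, Complex.ofReal_tsum, ← tsum_mul_right]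
        refine tsum_congr fun n => ?_
        simp only [hFn]
        push_cast
        ring
      have e2 : (T : ℂ) ^ (-s) = (T : ℂ) ^ (-s - 1) * T := by
        rw [Complex.cpow_sub _ _ hTc, Complex.cpow_one, div_mul_cancel₀ _ hTc]
      rw [e1, e2, zmE, if_pos (Set.mem_Ioi.1 hT), smul_eq_mul]
      push_cast
      ring
    have hsre : (-s).re < -1 := by
      rw [Complex.neg_re]
      linarith
    have i1 : IntegrableOn (fun T : ℝ => (κ : ℂ) * (T : ℂ) ^ (-s)) (Set.Ioi 1) :=
      (integrableOn_Ioi_cpow_of_lt hsre one_pos).const_mul _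
    have hc : MellinConvergent (zmE a κ) (-s) :=
      mellinConvergent_of_isBigO_rpow hloc htop (by linarith) (hbot ((-s).re - 1)) (by linarith)
    have i2 : IntegrableOn (fun T : ℝ => (T : ℂ) ^ (-s - 1) • zmE a κ T) (Set.Ioi 1) :=
      IntegrableOn.mono_set hc (Set.Ioi_subset_Ioi zero_le_one)
    have h5 : mellin (zmE a κ) (-s) =
        ∫ T in Set.Ioi (1 : ℝ), (T : ℂ) ^ (-s - 1) • zmE a κ T := by
      rw [mellin]
      refine setIntegral_eq_of_subset_of_forall_sdiff_eq_zero measurableSet_Ioi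
        (Set.Ioi_subset_Ioi zero_le_one) ?_
      rintro T ⟨_, h6⟩
      rw [zmE, if_neg (fun h => h6 (Set.mem_Ioi.2 h)), smul_zero]
    rw [setIntegral_congr_fun measurableSet_Ioi h4, integral_add i1 i2, ← h5,
      integral_const_mul, integral_Ioi_cpow_of_lt hsre one_pos, Complex.ofReal_one,
      Complex.one_cpow] at h3
    have h7 : LSeries (fun n => (a n : ℂ)) s =
        ((κ : ℂ) * (-1 / (-s + 1)) + mellin (zmE a κ) (-s)) * ((s + 1) * (s + 2)) := by
      rw [← h3, div_mul_cancel₀ _ (mul_ne_zero hs1 hs2)]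
    have h8 : (-1 : ℂ) / (-s + 1) = 1 / (s - 1) := by
      rw [show -s + 1 = -(s - 1) by ring, neg_div_neg_eq]
    rw [h7, h8]
    push_cast
    field_simp
    ring

end Pool.Agent.Lib.MP_1a0ddd_nt.LW
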