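import Mathlib

/-! Nonvanishing on the line `Re s = 1` and the logarithmic derivative. -/

set_option autoImplicit false

namespace Pool.Agent.Lib.MP_1a0ddd_nt.LW

open Filter Topology
open scoped ComplexOrder

/-! ### Auxiliary lemmas -/

private theorem nl_absc {f : ℕ → ℂ} (h : ∀ s : ℂ, 1 < s.re → LSeriesSummable f s) {s : ℂ}
    (hs : 1 < s.re) : LSeries.abscissaOfAbsConv f < s.re := by
  refine lt_of_le_of_lt (LSeries.abscissaOfAbsConv_le_of_forall_lt_LSeriesSummable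
    (x := (1 : ℝ)) fun y hy => h y (by simpa using hy)) ?_
  exact_mod_cast hs

private theorem nl_dom {f g : ℕ → ℂ} {s : ℂ} (h : LSeriesSummable g s)
    (hfg : ∀ n, ‖f n‖ ≤ ‖g n‖) : LSeriesSummable f s :=
  Summable.of_norm_bounded (g := fun n => ‖LSeries.term g s n‖) h.norm
    fun n => LSeries.norm_term_le s (hfg n)

private theorem nl_b1 {a b : ℕ → ℝ} (ha1 : a 1 = 1)
    (hconv : ∀ n : ℕ, 0 < n → a n * Real.log n = ∑ x ∈ n.divisorsAntidiagonal, b x.1 * a x.2) :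
    b 1 = 0 := by
  have h := hconv 1 one_pos
  simp [ha1] at h
  exact h.symm

private theorem nl_le {a b : ℕ → ℝ} (ha : ∀ n, 0 ≤ a n) (ha1 : a 1 = 1) (hb : ∀ n, 0 ≤ b n)
    (hconv : ∀ n : ℕ, 0 < n → a n * Real.log n = ∑ x ∈ n.divisorsAntidiagonal, b x.1 * a x.2)
    {n : ℕ} (hn : 0 < n) : b n ≤ a n * Real.log n := by
  rw [hconv n hn]
  have h1 : ((n, 1) : ℕ × ℕ) ∈ n.divisorsAntidiagonal := by
    rw [Nat.mem_divisorsAntidiagonal]
    exact ⟨mul_one n, hn.ne'⟩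
  have h2 := Finset.single_le_sum (f := fun x : ℕ × ℕ => b x.1 * a x.2)
    (fun x _ => mul_nonneg (hb x.1) (ha x.2)) h1
  simpa [ha1] using h2

/-- `3 + 4 cos x + cos 2x ≥ 0` for the terms of a series with nonnegative coefficients -/
private theorem nl_term {c : ℕ → ℝ} (hc : ∀ n, 0 ≤ c n) (σ t : ℝ) (n : ℕ) :
    0 ≤ (3 * LSeries.term (fun n => (c n : ℂ)) (σ : ℂ) n +
      4 * LSeries.term (fun n => (c n : ℂ)) ((σ : ℂ) + t * Complex.I) n +
      LSeries.term (fun n => (c n : ℂ)) ((σ : ℂ) + 2 * t * Complex.I) n).re := by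
  rcases Nat.eq_zero_or_pos n with rfl | hn
  · simp
  have hn0 : (n : ℂ) ≠ 0 := by exact_mod_cast hn.ne'
  set w : ℂ := (n : ℂ) ^ (-(t * Complex.I)) with hw
  have hx : (n : ℂ) ^ (-(σ : ℂ)) = (((n : ℝ) ^ (-σ) : ℝ) : ℂ) := by
    rw [← Complex.ofReal_natCast, ← Complex.ofReal_neg, Complex.ofReal_cpow (Nat.cast_nonneg n)]
  have hw1 : ‖w‖ = 1 := by
    rw [hw, Complex.norm_natCast_cpow_of_pos hn]
    simp
  have e1 : (n : ℂ) ^ (-((σ : ℂ) + t * Complex.I)) = (n : ℂ) ^ (-(σ : ℂ)) * w := by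
    rw [hw, ← Complex.cpow_add _ _ hn0]
    congr 1
    ring
  have e2 : (n : ℂ) ^ (-((σ : ℂ) + 2 * t * Complex.I)) = (n : ℂ) ^ (-(σ : ℂ)) * (w * w) := by
    rw [hw, ← Complex.cpow_add _ _ hn0, ← Complex.cpow_add _ _ hn0]
    congr 1
    ring
  have e3 : ∀ s : ℂ, LSeries.term (fun n => (c n : ℂ)) s n = (c n : ℂ) * (n : ℂ) ^ (-s) := by
    intro s
    rw [LSeries.term_of_ne_zero hn.ne', Complex.cpow_neg, div_eq_mul_inv]
  rw [e3, e3, e3, e1, e2, hx]
  have e4 : 3 * ((c n : ℂ) * (((n : ℝ) ^ (-σ) : ℝ) : ℂ)) +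
      4 * ((c n : ℂ) * ((((n : ℝ) ^ (-σ) : ℝ) : ℂ) * w)) +
      (c n : ℂ) * ((((n : ℝ) ^ (-σ) : ℝ) : ℂ) * (w * w)) =
      ((c n * (n : ℝ) ^ (-σ) : ℝ) : ℂ) * (3 + 4 * w + w * w) := by
    push_cast
    ring
  rw [e4, Complex.re_ofReal_mul]
  refine mul_nonneg (mul_nonneg (hc n) (Real.rpow_nonneg (Nat.cast_nonneg n) _)) ?_
  have h1 : w.re ^ 2 + w.im ^ 2 = 1 := by
    have := Complex.sq_norm w
    rw [hw1, Complex.normSq_apply] at this
    nlinarith
  have h2 : (3 + 4 * w + w * w).re = 2 * (1 + w.re) ^ 2 := by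
    have h3 : (3 + 4 * w + w * w).re = 3 + 4 * w.re + (w.re * w.re - w.im * w.im) := by
      simp
    rw [h3]
    nlinarith
  rw [h2]
  positivity

private theorem nl_comb {c : ℕ → ℝ} (hc : ∀ n, 0 ≤ c n)
    (hs : ∀ s : ℂ, 1 < s.re → LSeriesSummable (fun n => (c n : ℂ)) s) {σ : ℝ} (hσ : 1 < σ)
    (t : ℝ) : 0 ≤ (3 * LSeries (fun n => (c n : ℂ)) (σ : ℂ) +
      4 * LSeries (fun n => (c n : ℂ)) ((σ : ℂ) + t * Complex.I) +
      LSeries (fun n => (c n : ℂ)) ((σ : ℂ) + 2 * t * Complex.I)).re := by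
  have h1 := (hs (σ : ℂ) (by simpa using hσ)).LSeriesHasSum
  have h2 := (hs ((σ : ℂ) + t * Complex.I) (by simpa using hσ)).LSeriesHasSum
  have h3 := (hs ((σ : ℂ) + 2 * t * Complex.I) (by simpa using hσ)).LSeriesHasSum
  have h4 := ((h1.mul_left 3).add (h2.mul_left 4)).add h3
  have h5 := Complex.hasSum_re h4
  exact h5.nonneg fun n => nl_term hc σ t n

/-- `Z = C exp L` -/
private theorem nl_exp {a b : ℕ → ℝ} (ha : ∀ n, 0 ≤ a n) (ha1 : a 1 = 1)
    (hb : ∀ n, 0 ≤ b n) (hb0 : b 0 = 0) (hb1 : b 1 = 0)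
    (hs : ∀ s : ℂ, 1 < s.re → LSeriesSummable (fun n => (a n : ℂ)) s)
    (hsb : ∀ s : ℂ, 1 < s.re → LSeriesSummable (fun n => (b n : ℂ)) s)
    (hd : ∀ s : ℂ, 1 < s.re → HasDerivAt (LSeries fun n => (a n : ℂ))
      (-(LSeries (fun n => (b n : ℂ)) s * LSeries (fun n => (a n : ℂ)) s)) s) :
    ∃ (c : ℕ → ℝ) (C₀ : ℂ), (∀ n, 0 ≤ c n) ∧
      (∀ s : ℂ, 1 < s.re → LSeriesSummable (fun n => (c n : ℂ)) s) ∧ C₀ ≠ 0 ∧
      ∀ s : ℂ, 1 < s.re → LSeries (fun n => (a n : ℂ)) s =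
        C₀ * Complex.exp (LSeries (fun n => (c n : ℂ)) s) := by
  have hc : ∀ n : ℕ, 0 ≤ b n / Real.log n := fun n => div_nonneg (hb n) (Real.log_natCast_nonneg n)
  have hlog : ∀ n : ℕ, 2 ≤ n → Real.log 2 ≤ Real.log n := fun n hn =>
    Real.log_le_log (by norm_num) (by exact_mod_cast hn)
  have hl2 : 0 < Real.log 2 := Real.log_pos (by norm_num)
  have hsc : ∀ s : ℂ, 1 < s.re → LSeriesSummable (fun n => ((b n / Real.log n : ℝ) : ℂ)) s := by
    intro s h
    have h1 : LSeriesSummable ((((Real.log 2)⁻¹ : ℝ) : ℂ) • fun n => (b n : ℂ)) s :=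
      (hsb s h).smul _
    refine nl_dom h1 fun n => ?_
    have e : (((((Real.log 2)⁻¹ : ℝ) : ℂ) • fun n => (b n : ℂ)) n) =
        (((Real.log 2)⁻¹ * b n : ℝ) : ℂ) := by
      push_cast
      rfl
    rw [e, Complex.norm_real, Complex.norm_real, Real.norm_of_nonneg (hc n),
      Real.norm_of_nonneg (mul_nonneg (inv_nonneg.2 hl2.le) (hb n))]
    rcases lt_or_ge n 2 with hn | hn
    · interval_cases n
      · simp [hb0]
      · simp [hb1]
    · rw [inv_mul_eq_div]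
      exact div_le_div_of_nonneg_left (hb n) hl2 (hlog n hn)
  have hlm : LSeries.logMul (fun n => ((b n / Real.log n : ℝ) : ℂ)) = fun n => (b n : ℂ) := by
    funext n
    rcases lt_or_ge n 2 with hn | hn
    · interval_cases n
      · simp [LSeries.logMul, hb0]
      · simp [LSeries.logMul, hb1]
    · have h1 : Real.log n ≠ 0 := (lt_of_lt_of_le hl2 (hlog n hn)).ne'
      have h2 : Complex.log (n : ℂ) = ((Real.log n : ℝ) : ℂ) := by
        rw [Complex.ofReal_log (Nat.cast_nonneg n), Complex.ofReal_natCast]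
      change Complex.log (n : ℂ) * _ = _
      rw [h2, ← Complex.ofReal_mul, mul_div_cancel₀ _ h1]
  have hdc : ∀ s : ℂ, 1 < s.re → HasDerivAt (LSeries fun n => ((b n / Real.log n : ℝ) : ℂ))
      (-LSeries (fun n => (b n : ℂ)) s) s := by
    intro s h
    have h1 := LSeries_hasDerivAt (nl_absc hsc h)
    rwa [hlm] at h1
  have hopen : IsOpen {s : ℂ | 1 < s.re} := isOpen_lt continuous_const Complex.continuous_re
  have hconn : IsPreconnected {s : ℂ | 1 < s.re} :=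
    (convex_halfSpace_re_gt 1).isPreconnected
  have hP : ∀ s : ℂ, 1 < s.re → HasDerivAt (fun z => LSeries (fun n => (a n : ℂ)) z *
      Complex.exp (-LSeries (fun n => ((b n / Real.log n : ℝ) : ℂ)) z)) 0 s := by
    intro s h
    have h1 := (hd s h).mul ((hdc s h).fun_neg.cexp)
    refine h1.congr_deriv ?_
    ring
  have h2re : (1 : ℝ) < (2 : ℂ).re := by norm_num
  have hZ2 : LSeries (fun n => (a n : ℂ)) 2 ≠ 0 := by
    intro h0
    have h1 := (hs 2 h2re).LSeriesHasSum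
    have h3 := Complex.hasSum_re h1
    rw [h0] at h3
    have h4 : ∀ n : ℕ, 0 ≤ (LSeries.term (fun n => (a n : ℂ)) 2 n).re := by
      intro n
      have h5 : 0 ≤ LSeries.term (fun n => (a n : ℂ)) ((2 : ℝ) : ℂ) n :=
        LSeries.term_nonneg (by exact_mod_cast ha n) 2
      have h6 : ((2 : ℝ) : ℂ) = 2 := by norm_num
      rw [h6] at h5
      exact (Complex.nonneg_iff.1 h5).1
    have h7 := sum_le_hasSum {1} (fun n _ => h4 n) h3
    simp [ha1] at h7
    linarith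
  refine ⟨fun n => b n / Real.log n, LSeries (fun n => (a n : ℂ)) 2 *
      Complex.exp (-LSeries (fun n => ((b n / Real.log n : ℝ) : ℂ)) 2), hc, hsc,
      mul_ne_zero hZ2 (Complex.exp_ne_zero _), fun s h => ?_⟩
  have h8 := hopen.is_const_of_deriv_eq_zero (𝕜 := ℂ) hconn
    (fun z hz => (hP z hz).differentiableAt.differentiableWithinAt)
    (fun z hz => (hP z hz).deriv) h h2re
  have h9 := congrArg (fun z => z *
    Complex.exp (LSeries (fun n => ((b n / Real.log n : ℝ) : ℂ)) s)) h8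
  simp only [mul_assoc, ← Complex.exp_add, neg_add_cancel, Complex.exp_zero, mul_one] at h9
  rw [h9, mul_assoc, ← Complex.exp_add]

/-- the numerator `A + (s - 1) G` does not vanish on `Re s ≥ 1` -/
private theorem nl_ne {a : ℕ → ℝ} {c : ℕ → ℝ} {C₀ : ℂ} (hc : ∀ n, 0 ≤ c n)
    (hsc : ∀ s : ℂ, 1 < s.re → LSeriesSummable (fun n => (c n : ℂ)) s) (hC : C₀ ≠ 0)
    (hZ : ∀ s : ℂ, 1 < s.re → LSeries (fun n => (a n : ℂ)) s =
        C₀ * Complex.exp (LSeries (fun n => (c n : ℂ)) s)) {A : ℝ} (hA : 0 < A)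
    {N N' : ℂ → ℂ} (hN : ∀ s : ℂ, 1 ≤ s.re → HasDerivAt N (N' s) s) (hN1 : N 1 = A)
    (hL : ∀ s : ℂ, 1 < s.re → LSeries (fun n => (a n : ℂ)) s * (s - 1) = N s) :
    ∀ s : ℂ, 1 ≤ s.re → N s ≠ 0 := by
  intro s hs
  rcases hs.lt_or_eq with hs | hs
  · rw [← hL s hs, hZ s hs]
    refine mul_ne_zero (mul_ne_zero hC (Complex.exp_ne_zero _)) (sub_ne_zero.2 ?_)
    rintro rfl
    simp at hs
  intro h0
  set t : ℝ := s.im with ht
  have hst : s = 1 + t * Complex.I := by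
    apply Complex.ext <;> simp [← hs, ht]
  have ht0 : t ≠ 0 := by
    intro h
    rw [hst, h] at h0
    simp [hN1] at h0
    exact hA.ne' h0
  have hc1 : ∀ u : ℝ, Tendsto (fun σ : ℝ => ((σ : ℂ) + u * Complex.I)) (𝓝[>] 1)
      (𝓝 (1 + u * Complex.I)) := by
    intro u
    have h1 : Continuous fun σ : ℝ => ((σ : ℂ) + u * Complex.I) := by fun_prop
    have h2 := h1.tendsto 1
    simp only [Complex.ofReal_one] at h2
    exact h2.mono_left nhdsWithin_le_nhds
  have hNc : ∀ u : ℝ, Tendsto (fun σ : ℝ => N ((σ : ℂ) + u * Complex.I)) (𝓝[>] 1)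
      (𝓝 (N (1 + u * Complex.I))) := by
    intro u
    exact ((hN (1 + u * Complex.I) (by simp)).continuousAt.tendsto).comp (hc1 u)
  -- the factor of order one
  have hsl : Tendsto (fun σ : ℝ => N ((σ : ℂ) + t * Complex.I) / ((σ : ℂ) - 1)) (𝓝[>] 1)
      (𝓝 (N' s)) := by
    have h1 : HasDerivAt (fun z : ℂ => N (z + t * Complex.I)) (N' s) ((1 : ℝ) : ℂ) := by
      have h2 := hN s hs.le
      rw [hst] at h2 ⊢
      have h3 : HasDerivAt (fun z : ℂ => z + t * Complex.I) 1 ((1 : ℝ) : ℂ) :=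
        (hasDerivAt_id _).add_const _
      have h4 : HasDerivAt N (N' (1 + t * Complex.I)) (((1 : ℝ) : ℂ) + t * Complex.I) := by
        simpa using h2
      have h5 := h4.comp ((1 : ℝ) : ℂ) h3
      rw [mul_one] at h5
      exact h5
    have h6 := h1.comp_ofReal.tendsto_slope
    have h7 := h6.mono_left (nhdsWithin_mono 1 (s := Set.Ioi 1) fun x hx => ne_of_gt hx)
    refine h7.congr' ?_
    filter_upwards [self_mem_nhdsWithin] with σ _
    have h8 : N (((1 : ℝ) : ℂ) + t * Complex.I) = 0 := by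
      rw [Complex.ofReal_one, ← hst]
      exact h0
    rw [slope_def_module, h8, sub_zero, Complex.real_smul, Complex.ofReal_inv,
      Complex.ofReal_sub, Complex.ofReal_one, inv_mul_eq_div]
  have hsub : Tendsto (fun σ : ℝ => σ - 1) (𝓝[>] 1) (𝓝 0) := by
    have h1 : Continuous fun σ : ℝ => σ - 1 := by fun_prop
    have h2 := h1.tendsto 1
    simp only [sub_self] at h2
    exact h2.mono_left nhdsWithin_le_nhds
  have hden : ∀ u : ℝ, u ≠ 0 → Tendsto (fun σ : ℝ => ‖((σ : ℂ) + u * Complex.I) - 1‖) (𝓝[>] 1)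
      (𝓝 ‖(1 + u * Complex.I : ℂ) - 1‖) := fun u _ => ((hc1 u).sub_const 1).norm
  have hden0 : ∀ u : ℝ, u ≠ 0 → ‖(1 + u * Complex.I : ℂ) - 1‖ ≠ 0 := by
    intro u hu
    rw [norm_ne_zero_iff, add_sub_cancel_left]
    exact mul_ne_zero (by exact_mod_cast hu) Complex.I_ne_zero
  have hN0 : Tendsto (fun σ : ℝ => N (σ : ℂ)) (𝓝[>] 1) (𝓝 (N 1)) := by
    have h1 := hNc 0
    simpa using h1
  have h2t : (2 * t : ℝ) ≠ 0 := mul_ne_zero two_ne_zero ht0
  -- the product tends to zero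
  have hprod := ((((hN0.norm.pow 3).mul (hsl.norm.pow 4)).mul ((hNc (2 * t)).norm)).mul
    hsub).div (((hden t ht0).pow 4).mul (hden (2 * t) h2t))
      (mul_ne_zero (pow_ne_zero 4 (hden0 t ht0)) (hden0 (2 * t) h2t))
  rw [mul_zero, zero_div] at hprod
  -- but it is bounded below
  have hlow : ∀ᶠ σ : ℝ in 𝓝[>] 1, ‖C₀‖ ^ 8 ≤ ‖N (σ : ℂ)‖ ^ 3 *
      ‖N ((σ : ℂ) + t * Complex.I) / ((σ : ℂ) - 1)‖ ^ 4 *
      ‖N ((σ : ℂ) + (2 * t : ℝ) * Complex.I)‖ * (σ - 1) /
      (‖((σ : ℂ) + t * Complex.I) - 1‖ ^ 4 * ‖((σ : ℂ) + (2 * t : ℝ) * Complex.I) - 1‖) := by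
    filter_upwards [self_mem_nhdsWithin] with σ hσ
    have hσ' : (1 : ℝ) < σ := hσ
    have hσ1 : 0 < σ - 1 := sub_pos.2 hσ'
    have r0 : 1 < ((σ : ℂ)).re := by simpa using hσ'
    have r1 : 1 < ((σ : ℂ) + t * Complex.I).re := by simpa using hσ'
    have r2 : 1 < ((σ : ℂ) + (2 * t : ℝ) * Complex.I).re := by simpa using hσ'
    have n1 : ‖(σ : ℂ) - 1‖ = σ - 1 := by
      rw [← Complex.ofReal_one, ← Complex.ofReal_sub, Complex.norm_real,
        Real.norm_of_nonneg hσ1.le]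
    have d1 : ‖((σ : ℂ) + t * Complex.I) - 1‖ ≠ 0 := by
      rw [norm_ne_zero_iff, sub_ne_zero]
      intro h
      rw [h] at r1
      simp at r1
    have d2 : ‖((σ : ℂ) + (2 * t : ℝ) * Complex.I) - 1‖ ≠ 0 := by
      rw [norm_ne_zero_iff, sub_ne_zero]
      intro h
      rw [h] at r2
      simp at r2
    have e0 : ‖N (σ : ℂ)‖ = ‖C₀‖ * Real.exp (LSeries (fun n => (c n : ℂ)) (σ : ℂ)).re *
        (σ - 1) := by
      rw [← hL _ r0, hZ _ r0, norm_mul, norm_mul, Complex.norm_exp, n1]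
    have e1 : ‖N ((σ : ℂ) + t * Complex.I)‖ = ‖C₀‖ *
        Real.exp (LSeries (fun n => (c n : ℂ)) ((σ : ℂ) + t * Complex.I)).re *
        ‖((σ : ℂ) + t * Complex.I) - 1‖ := by
      rw [← hL _ r1, hZ _ r1, norm_mul, norm_mul, Complex.norm_exp]
    have e2 : ‖N ((σ : ℂ) + (2 * t : ℝ) * Complex.I)‖ = ‖C₀‖ *
        Real.exp (LSeries (fun n => (c n : ℂ)) ((σ : ℂ) + (2 * t : ℝ) * Complex.I)).re *
        ‖((σ : ℂ) + (2 * t : ℝ) * Complex.I) - 1‖ := by
      rw [← hL _ r2, hZ _ r2, norm_mul, norm_mul, Complex.norm_exp]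
    rw [norm_div, n1, e0, e1, e2]
    generalize ‖((σ : ℂ) + t * Complex.I) - 1‖ = D1 at d1 ⊢
    generalize ‖((σ : ℂ) + (2 * t : ℝ) * Complex.I) - 1‖ = D2 at d2 ⊢
    set E0 := Real.exp (LSeries (fun n => (c n : ℂ)) (σ : ℂ)).re with hE0
    set E1 := Real.exp (LSeries (fun n => (c n : ℂ)) ((σ : ℂ) + t * Complex.I)).re with hE1
    set E2 := Real.exp (LSeries (fun n => (c n : ℂ)) ((σ : ℂ) + (2 * t : ℝ) * Complex.I)).re
      with hE2
    have hE : 1 ≤ E0 ^ 3 * E1 ^ 4 * E2 := by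
      rw [hE0, hE1, hE2, ← Real.exp_nat_mul, ← Real.exp_nat_mul, ← Real.exp_add, ← Real.exp_add,
        Real.one_le_exp_iff]
      have h1 := nl_comb hc hsc hσ' t
      have h2 : (3 * LSeries (fun n => (c n : ℂ)) (σ : ℂ) +
          4 * LSeries (fun n => (c n : ℂ)) ((σ : ℂ) + t * Complex.I) +
          LSeries (fun n => (c n : ℂ)) ((σ : ℂ) + 2 * t * Complex.I)).re =
          3 * (LSeries (fun n => (c n : ℂ)) (σ : ℂ)).re +
          4 * (LSeries (fun n => (c n : ℂ)) ((σ : ℂ) + t * Complex.I)).re +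
          (LSeries (fun n => (c n : ℂ)) ((σ : ℂ) + 2 * t * Complex.I)).re := by
        simp
      rw [h2] at h1
      push_cast
      exact h1
    have e3 : (‖C₀‖ * E0 * (σ - 1)) ^ 3 * (‖C₀‖ * E1 * D1 / (σ - 1)) ^ 4 *
        (‖C₀‖ * E2 * D2) * (σ - 1) / (D1 ^ 4 * D2) =
        ‖C₀‖ ^ 8 * (E0 ^ 3 * E1 ^ 4 * E2) := by
      have h3 : σ - 1 ≠ 0 := hσ1.ne'
      field_simp
    rw [e3]
    exact le_mul_of_one_le_right (by positivity) hE
  have h9 := ge_of_tendsto hprod hlow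
  have h10 : 0 < ‖C₀‖ ^ 8 := pow_pos (norm_pos_iff.2 hC) 8
  exact absurd h9 (not_le.2 h10)

/-- Proof: `b n = b n a 1 ≤ a n log n`, so the series of `b` converges for `Re s > 1`; put
`Bs = LSeries b`, `Z = LSeries a`, `Z' = - Z Bs` there (`LSeries_deriv`, `LSeries_convolution`), `Z`
is continued by `A/(s - 1) + G s`. (1) `Z ≠ 0` on `Re s > 1`: at a zero of order `m ≥ 1` the order
of `Z'` would be `m - 1` and that of `Z Bs` at least `m` (`Z` is not identically zero, as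
`(s - 1) Z → A > 0`). (2) `Z (1 + i t) ≠ 0` for `t ≠ 0`: if `m ≥ 1` is the order there and `m' ≥ 0`
the order at `1 + 2 i t`, then for `σ → 1+`
`(σ - 1) (3 Bs σ + 4 Bs (σ + i t) + Bs (σ + 2 i t)) → 3 - 4 m - m' < 0`, but its real part is
`≥ 0` because `b ≥ 0` and `3 + 4 cos x + cos 2x ≥ 0`. (3) So `H = - Z'/Z - 1/(s - 1)` extends
continuously to `Re s ≥ 1` (near `s = 1`: `Z = (A + (s - 1) G)/(s - 1)`, hence
`- Z'/Z = 1/(s - 1) - ((s - 1) G)'/(A + (s - 1) G)`). One formula for all `s`: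
`H s = - (G s + (s - 1) G' s)/(A + (s - 1) G s)`. -/
theorem log_deriv_cont (a b : ℕ → ℝ) (ha : ∀ n, 0 ≤ a n) (ha0 : a 0 = 0) (ha1 : a 1 = 1)
    (hb : ∀ n, 0 ≤ b n) (hb0 : b 0 = 0)
    (hconv : ∀ n : ℕ, 0 < n → a n * Real.log n = ∑ x ∈ n.divisorsAntidiagonal, b x.1 * a x.2)
    (hs : ∀ s : ℂ, 1 < s.re → LSeriesSummable (fun n => (a n : ℂ)) s) (A δ : ℝ) (hA : 0 < A)
    (hδ : 0 < δ) (G : ℂ → ℂ) (hG : DifferentiableOn ℂ G {s | 1 - δ < s.re})
    (hL : ∀ s : ℂ, 1 < s.re → LSeries (fun n => (a n : ℂ)) s = (A : ℂ) / (s - 1) + G s) :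
    (∀ s : ℂ, 1 < s.re → LSeriesSummable (fun n => (b n : ℂ)) s) ∧
    ∃ H : ℂ → ℂ, ContinuousOn H {s | 1 ≤ s.re} ∧
      ∀ s : ℂ, 1 < s.re → LSeries (fun n => (b n : ℂ)) s = 1 / (s - 1) + H s := by
  have hb1 := nl_b1 (b := b) ha1 hconv
  have hlogn : ∀ n : ℕ, Complex.log (n : ℂ) = ((Real.log n : ℝ) : ℂ) := fun n => by
    rw [Complex.ofReal_log (Nat.cast_nonneg n), Complex.ofReal_natCast]
  have hsb : ∀ s : ℂ, 1 < s.re → LSeriesSummable (fun n => (b n : ℂ)) s := by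
    intro s h
    refine nl_dom (LSeriesSummable_logMul_of_lt_re (nl_absc hs h)) fun n => ?_
    have e : LSeries.logMul (fun n => (a n : ℂ)) n = ((a n * Real.log n : ℝ) : ℂ) := by
      change Complex.log (n : ℂ) * (a n : ℂ) = _
      rw [hlogn]
      push_cast
      ring
    rw [e, Complex.norm_real, Complex.norm_real, Real.norm_of_nonneg (hb n),
      Real.norm_of_nonneg (mul_nonneg (ha n) (Real.log_natCast_nonneg n))]
    rcases Nat.eq_zero_or_pos n with rfl | hn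
    · simp [hb0]
    · exact nl_le ha ha1 hb hconv hn
  refine ⟨hsb, ?_⟩
  have hcv : LSeries.logMul (fun n => (a n : ℂ)) =
      LSeries.convolution (fun n => (b n : ℂ)) (fun n => (a n : ℂ)) := by
    rw [LSeries.convolution_def]
    funext n
    change Complex.log (n : ℂ) * (a n : ℂ) = _
    rw [hlogn]
    rcases Nat.eq_zero_or_pos n with rfl | hn
    · simp
    · have h1 := congrArg (fun x : ℝ => (x : ℂ)) (hconv n hn)
      simp only [Complex.ofReal_mul, Complex.ofReal_sum] at h1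
      rw [mul_comm, h1]
  have hd : ∀ s : ℂ, 1 < s.re → HasDerivAt (LSeries fun n => (a n : ℂ))
      (-(LSeries (fun n => (b n : ℂ)) s * LSeries (fun n => (a n : ℂ)) s)) s := by
    intro s h
    have h1 := LSeries_hasDerivAt (nl_absc hs h)
    rw [hcv, LSeries_convolution' (hsb s h) (hs s h)] at h1
    exact h1
  obtain ⟨c, C₀, hc, hsc, hC, hZ⟩ := nl_exp ha ha1 hb hb0 hb1 hs hsb hd
  have hopen : IsOpen {s : ℂ | 1 - δ < s.re} := isOpen_lt continuous_const Complex.continuous_re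
  have hmem : ∀ s : ℂ, 1 ≤ s.re → s ∈ {s : ℂ | 1 - δ < s.re} := fun s h => by
    have h1 : 1 - δ < s.re := by linarith
    exact h1
  have hGd : ∀ s : ℂ, 1 ≤ s.re → HasDerivAt G (deriv G s) s := fun s h =>
    (hG.differentiableAt (hopen.mem_nhds (hmem s h))).hasDerivAt
  have hNd : ∀ s : ℂ, 1 ≤ s.re → HasDerivAt (fun s => (A : ℂ) + (s - 1) * G s)
      (G s + (s - 1) * deriv G s) s := by
    intro s h
    have h1 := (((hasDerivAt_id s).sub_const 1).mul (hGd s h)).const_add (A : ℂ)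
    simpa using h1
  have hsne : ∀ s : ℂ, 1 < s.re → s - 1 ≠ 0 := by
    intro s h h0
    rw [sub_eq_zero.1 h0] at h
    simp at h
  have hZN : ∀ s : ℂ, 1 < s.re → LSeries (fun n => (a n : ℂ)) s * (s - 1) =
      (A : ℂ) + (s - 1) * G s := by
    intro s h
    have h1 := hsne s h
    rw [hL s h]
    field_simp
  have hne := nl_ne hc hsc hC hZ hA hNd (by simp) hZN
  have hG' : ContinuousOn (deriv G) {s | 1 - δ < s.re} := (hG.deriv hopen).continuousOn
  refine ⟨fun s => -(G s + (s - 1) * deriv G s) / ((A : ℂ) + (s - 1) * G s), ?_, ?_⟩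
  · have hsubset : {s : ℂ | 1 ≤ s.re} ⊆ {s : ℂ | 1 - δ < s.re} := fun s h => hmem s h
    have hGc : ContinuousOn G {s | 1 ≤ s.re} := hG.continuousOn.mono hsubset
    have hGc' : ContinuousOn (deriv G) {s | 1 ≤ s.re} := hG'.mono hsubset
    have hid : ContinuousOn (fun s : ℂ => s - 1) {s | 1 ≤ s.re} :=
      (continuous_id.sub continuous_const).continuousOn
    exact ((hGc.add (hid.mul hGc')).neg).div (continuousOn_const.add (hid.mul hGc))
      fun s h => hne s h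
  · intro s h
    have h1 := hsne s h
    have h2 := hne s h.le
    have h3 : HasDerivAt (LSeries fun n => (a n : ℂ))
        (((G s + (s - 1) * deriv G s) * (s - 1) - ((A : ℂ) + (s - 1) * G s) * 1) /
          (s - 1) ^ 2) s := by
      have h4 := (hNd s h.le).div ((hasDerivAt_id s).sub_const 1) h1
      refine h4.congr_of_eventuallyEq ?_
      have h5 : {s : ℂ | 1 < s.re} ∈ 𝓝 s :=
        (isOpen_lt continuous_const Complex.continuous_re).mem_nhds h
      filter_upwards [h5] with z hz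
      have h6 := hsne z hz
      change _ = ((A : ℂ) + (z - 1) * G z) / (z - 1)
      rw [← hZN z hz]
      field_simp
    have h7 := (hd s h).unique h3
    have h8 : LSeries (fun n => (a n : ℂ)) s = ((A : ℂ) + (s - 1) * G s) / (s - 1) := by
      rw [← hZN s h]
      field_simp
    rw [h8] at h7
    have h9 : LSeries (fun n => (b n : ℂ)) s * ((A : ℂ) + (s - 1) * G s) =
        ((A : ℂ) + (s - 1) * G s) / (s - 1) - (G s + (s - 1) * deriv G s) := by
      field_simp at h7 ⊢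
      linear_combination (-1 : ℂ) * h7
    have h10 : LSeries (fun n => (b n : ℂ)) s =
        (((A : ℂ) + (s - 1) * G s) / (s - 1) - (G s + (s - 1) * deriv G s)) /
          ((A : ℂ) + (s - 1) * G s) := by
      rw [← h9, mul_div_cancel_right₀ _ h2]
    rw [h10]
    field_simp
    ring

end Pool.Agent.Lib.MP_1a0ddd_nt.LW
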