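import Pool.Agent.Lib.MP_1a0ddd_nt.LW.ZConv

/-! Prime powers, and homomorphisms to the prime fields. -/

set_option autoImplicit false

namespace Pool.Agent.Lib.MP_1a0ddd_nt.LW

open NumberField Module Filter Topology

variable (K : Type) [Field K] [NumberField K]

/-- the ideals of norm `p` are prime, and they are the kernels of the homomorphisms to `ZMod p`
(two homomorphisms with the same kernel are equal) -/
theorem idealB_prime (p : ℕ) (hp : p.Prime) :
    idealB K p = Nat.card (𝓞 K →+* ZMod p) * Real.log p := by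
  classical
  have hfin : Finite {I : Ideal (𝓞 K) // Ideal.absNorm I = p} :=
    Set.finite_coe_iff.2 (Ideal.finite_setOfPred_absNorm_eq (S := 𝓞 K) p)
  have hlam : ∀ I : {I : Ideal (𝓞 K) // Ideal.absNorm I = p}, lamI K I.1 = Real.log p := by
    rintro ⟨I, hI⟩
    have h1 : I.IsPrime := Ideal.isPrime_of_irreducible_absNorm (by rw [hI]; exact hp)
    have h2 : I ≠ ⊥ := by
      intro h
      rw [h, Ideal.absNorm_bot] at hI
      exact hp.ne_zero hI.symm
    have h3 := lamI_pow K I h1 h2 1 one_pos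
    rw [pow_one, hI] at h3
    exact h3
  have hsum : idealB K p = Nat.card {I : Ideal (𝓞 K) // Ideal.absNorm I = p} * Real.log p := by
    rw [idealB, if_neg hp.ne_zero, finsum_congr hlam]
    have := Fintype.ofFinite {I : Ideal (𝓞 K) // Ideal.absNorm I = p}
    rw [finsum_eq_sum_of_fintype, Finset.sum_const, Finset.card_univ, nsmul_eq_mul,
      Nat.card_eq_fintype_card]
  rw [hsum]
  congr 2
  have hcard : ∀ f : 𝓞 K →+* ZMod p, Ideal.absNorm (RingHom.ker f) = p := by
    intro f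
    have hs : Function.Surjective f := ZMod.ringHom_surjective f
    rw [Ideal.absNorm_apply, Submodule.cardQuot_apply,
      Nat.card_congr (RingHom.quotientKerEquivOfSurjective hs).toEquiv, Nat.card_zmod]
  symm
  refine Nat.card_congr (Equiv.ofBijective (fun f => ⟨RingHom.ker f, hcard f⟩) ⟨?_, ?_⟩)
  · intro f g hfg
    exact ZMod.ringHom_eq_of_ker_eq f g (congrArg Subtype.val hfg)
  · rintro ⟨I, hI⟩
    have h1 : Nat.card (𝓞 K ⧸ I) = p := by
      rw [← Submodule.cardQuot_apply, ← Ideal.absNorm_apply, hI]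
    have hf : Finite (𝓞 K ⧸ I) := by
      apply Nat.finite_of_card_ne_zero
      rw [h1]
      exact hp.ne_zero
    have := Fintype.ofFinite (𝓞 K ⧸ I)
    rw [Nat.card_eq_fintype_card] at h1
    let e := ZMod.ringEquivOfPrime (𝓞 K ⧸ I) hp h1
    refine ⟨(e.symm : (𝓞 K ⧸ I) →+* ZMod p).comp (Ideal.Quotient.mk I), ?_⟩
    apply Subtype.ext
    ext x
    rw [RingHom.mem_ker]
    constructor
    · intro hx
      have h2 : e.symm (Ideal.Quotient.mk I x) = 0 := hx
      rw [map_eq_zero_iff _ e.symm.injective] at h2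
      exact Ideal.Quotient.eq_zero_iff_mem.1 h2
    · intro hx
      change e.symm (Ideal.Quotient.mk I x) = 0
      rw [Ideal.Quotient.eq_zero_iff_mem.2 hx, map_zero]

/-- the norm of a prime power ideal is a prime power -/
private theorem norm_pow {P : Ideal (𝓞 K)} (hP : P.IsPrime) (h0 : P ≠ ⊥) :
    ∃ p f : ℕ, p.Prime ∧ 0 < f ∧ Ideal.absNorm P = p ^ f := by
  have hm : P.IsMaximal := hP.isMaximal h0
  have hN0 : Ideal.absNorm P ≠ 0 := by
    rw [Ne, Ideal.absNorm_eq_zero_iff]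
    exact h0
  have hf : Finite (𝓞 K ⧸ P) := (Ideal.absNorm_ne_zero_iff P).1 hN0
  let _ : Field (𝓞 K ⧸ P) := Ideal.Quotient.field P
  have := Fintype.ofFinite (𝓞 K ⧸ P)
  have h1 : IsPrimePow (Fintype.card (𝓞 K ⧸ P)) := Fintype.isPrimePow_card_of_field
  rw [← Nat.card_eq_fintype_card, ← Submodule.cardQuot_apply, ← Ideal.absNorm_apply] at h1
  obtain ⟨p, f, hp, hf, h⟩ := h1
  exact ⟨p, f, hp.nat_prime, hf, h.symm⟩

/-- `idealB n = 0` unless `n` is a prime power -/
theorem idealB_eq_zero (n : ℕ) (hn : ¬ IsPrimePow n) : idealB K n = 0 := by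
  by_cases h0 : n = 0
  · rw [idealB, if_pos h0]
  rw [idealB, if_neg h0]
  have h : ∀ I : {I : Ideal (𝓞 K) // Ideal.absNorm I = n}, lamI K I.1 = 0 := by
    rintro ⟨I, hI⟩
    apply lamI_eq_zero
    rintro ⟨P, k, hP, hP0, hk, rfl⟩
    obtain ⟨p, f, hp, hf, hpf⟩ := norm_pow K hP hP0
    apply hn
    rw [← hI, map_pow, hpf, ← pow_mul]
    exact ⟨p, f * k, hp.prime, Nat.mul_pos hf hk, rfl⟩
  rw [finsum_congr h, finsum_zero]

/-- at most `[K : ℚ]` primes lie over `p` -/
theorem idealB_le (n : ℕ) : idealB K n ≤ finrank ℚ K * Real.log n := by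
  classical
  by_cases hn : IsPrimePow n
  swap
  · rw [idealB_eq_zero K n hn]
    exact mul_nonneg (Nat.cast_nonneg _) (Real.log_natCast_nonneg _)
  obtain ⟨p, m, hp, hm, hpm⟩ := hn
  have hp' := hp.nat_prime
  have hn0 : n ≠ 0 := by
    rw [← hpm]
    exact pow_ne_zero _ hp'.ne_zero
  have hfin : Finite {I : Ideal (𝓞 K) // Ideal.absNorm I = n} :=
    Set.finite_coe_iff.2 (Ideal.finite_setOfPred_absNorm_eq (S := 𝓞 K) n)
  have := Fintype.ofFinite {I : Ideal (𝓞 K) // Ideal.absNorm I = n}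
  rw [idealB, if_neg hn0, finsum_eq_sum_of_fintype]
  let T : Finset {I : Ideal (𝓞 K) // Ideal.absNorm I = n} :=
    Finset.univ.filter fun I => ∃ (P : Ideal (𝓞 K)) (k : ℕ), P.IsPrime ∧ P ≠ ⊥ ∧ 0 < k ∧ I.1 = P ^ k
  have hT : ∀ I ∈ T, ∃ (P : Ideal (𝓞 K)) (k : ℕ), P.IsPrime ∧ P ≠ ⊥ ∧ 0 < k ∧ I.1 = P ^ k :=
    fun I hI => (Finset.mem_filter.1 hI).2
  have h1 : ∑ I : {I : Ideal (𝓞 K) // Ideal.absNorm I = n}, lamI K I.1 =
      ∑ I ∈ T, lamI K (I : Ideal (𝓞 K)) := by
    symm
    apply Finset.sum_subset (Finset.subset_univ _)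
    intro I _ hI
    apply lamI_eq_zero
    intro h
    exact hI (Finset.mem_filter.2 ⟨Finset.mem_univ _, h⟩)
  have h2 : ∀ I ∈ T, lamI K (I : Ideal (𝓞 K)) ≤ Real.log n := by
    intro I hI
    obtain ⟨P, k, hP, hP0, hk, hIP⟩ := hT I hI
    rw [hIP, lamI_pow K P hP hP0 k hk]
    have h3 : Ideal.absNorm P ∣ n := by
      have h4 := I.2
      rw [hIP, map_pow] at h4
      rw [← h4]
      exact dvd_pow_self _ hk.ne'
    have h4 : 0 < Ideal.absNorm P := Nat.pos_of_dvd_of_pos h3 (Nat.pos_of_ne_zero hn0)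
    exact Real.log_le_log (by exact_mod_cast h4)
      (by exact_mod_cast Nat.le_of_dvd (Nat.pos_of_ne_zero hn0) h3)
  rw [h1]
  refine (Finset.sum_le_sum h2).trans ?_
  rw [Finset.sum_const, nsmul_eq_mul]
  refine mul_le_mul_of_nonneg_right ?_ (Real.log_natCast_nonneg _)
  have hcard : T.card ≤ finrank ℚ K := by
    -- the prime ideal of an element of T
    have hch : ∀ I : {I : Ideal (𝓞 K) // Ideal.absNorm I = n}, ∃ (P : Ideal (𝓞 K)),
        I ∈ T → P.IsPrime ∧ P ≠ ⊥ ∧ ∃ k, 0 < k ∧ I.1 = P ^ k := by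
      intro I
      by_cases hI : I ∈ T
      · obtain ⟨P, k, h⟩ := hT I hI
        exact ⟨P, fun _ => ⟨h.1, h.2.1, k, h.2.2⟩⟩
      · exact ⟨⊤, fun h => absurd h hI⟩
    choose Q hQ using hch
    have hone : ∀ I ∈ T, Ideal.absNorm (Q I) ≠ 1 := by
      intro I hI h
      exact (hQ I hI).1.ne_top (Ideal.absNorm_eq_one_iff.1 h)
    have hinj : ∀ I ∈ T, ∀ I' ∈ T, Q I = Q I' → I = I' := by
      intro I hI I' hI' h
      obtain ⟨hP, hP0, k, hk, hIP⟩ := hQ I hI
      obtain ⟨-, -, k', hk', hIP'⟩ := hQ I' hI'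
      have h3 := I.2
      have h4 := I'.2
      rw [hIP, map_pow] at h3
      rw [hIP', map_pow, ← h] at h4
      have h5 : 2 ≤ Ideal.absNorm (Q I) := by
        have h6 := hone I hI
        have h7 : Ideal.absNorm (Q I) ≠ 0 := by
          rw [Ne, Ideal.absNorm_eq_zero_iff]
          exact hP0
        omega
      have h6 : k = k' := Nat.pow_right_injective h5 (h3.trans h4.symm)
      apply Subtype.ext
      rw [hIP, hIP', h6, h]
    have hge : ∀ I ∈ T, p ≤ Ideal.absNorm (Q I) := by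
      intro I hI
      obtain ⟨hP, hP0, k, hk, hIP⟩ := hQ I hI
      have h3 := I.2
      rw [hIP, map_pow, ← hpm] at h3
      have h4 : Ideal.absNorm (Q I) ∣ p ^ m := h3 ▸ dvd_pow_self _ hk.ne'
      obtain ⟨f, -, hf⟩ := (Nat.dvd_prime_pow hp').1 h4
      have hf0 : f ≠ 0 := by
        intro h
        rw [h, pow_zero] at hf
        exact hone I hI hf
      rw [hf]
      exact Nat.le_self_pow hf0 p
    have hdv : ∀ I ∈ T, Q I ∣ Ideal.span {(p : 𝓞 K)} := by
      intro I hI
      obtain ⟨hP, hP0, k, hk, hIP⟩ := hQ I hI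
      rw [Ideal.dvd_span_singleton]
      have h3 : (n : 𝓞 K) ∈ I.1 := by
        have h4 := Ideal.absNorm_mem I.1
        rw [I.2] at h4
        exact h4
      rw [hIP] at h3
      have h4 : (n : 𝓞 K) ∈ Q I := Ideal.pow_le_self hk.ne' h3
      rw [← hpm, Nat.cast_pow] at h4
      exact hP.mem_of_pow_mem _ h4
    have hprod : ∏ I ∈ T, Q I ∣ Ideal.span {(p : 𝓞 K)} := by
      apply Finset.prod_dvd_of_coprime
      · intro I hI I' hI' hne
        have hP := (hQ I hI).1.isMaximal (hQ I hI).2.1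
        have hP' := (hQ I' hI').1.isMaximal (hQ I' hI').2.1
        change IsCoprime (Q I) (Q I')
        rw [Ideal.isCoprime_iff_sup_eq]
        exact Ideal.IsMaximal.coprime_of_ne hP hP' fun h => hne (hinj I hI I' hI' h)
      · exact hdv
    have hnorm : ∏ I ∈ T, Ideal.absNorm (Q I) ∣ p ^ finrank ℚ K := by
      rw [← map_prod, ← RingOfIntegers.rank, ← Ideal.absNorm_span_natCast]
      exact Ideal.absNorm_dvd_absNorm_of_le (Ideal.dvd_iff_le.1 hprod)
    have h3 : p ^ T.card ≤ p ^ finrank ℚ K := by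
      calc p ^ T.card = ∏ _I ∈ T, p := by rw [Finset.prod_const]
        _ ≤ ∏ I ∈ T, Ideal.absNorm (Q I) := Finset.prod_le_prod' hge
        _ ≤ p ^ finrank ℚ K := Nat.le_of_dvd (pow_pos hp'.pos _) hnorm
    exact (Nat.pow_le_pow_iff_right hp'.one_lt).1 h3
  exact_mod_cast hcard

/-- the prime powers `p^j`, `j ≥ 2`, up to `N` are at most `√N log₂ N` -/
theorem pow_negl (b : ℕ → ℝ) (hb : ∀ n, 0 ≤ b n) (C : ℝ) (hC : ∀ n : ℕ, b n ≤ C * Real.log n)
    (h0 : ∀ n : ℕ, ¬ IsPrimePow n → b n = 0) (A : ℝ)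
    (h : Tendsto (fun N : ℕ => (∑ n ∈ Finset.Icc 1 N, b n) / (N : ℝ)) atTop (𝓝 A)) :
    Tendsto (fun N : ℕ => (∑ n ∈ (Finset.Icc 1 N).filter Nat.Prime, b n) / (N : ℝ)) atTop
      (𝓝 A) := by
  classical
  have hC0 : 0 ≤ C := by
    have h2 := (hb 2).trans (hC 2)
    have h3 : 0 < Real.log ((2 : ℕ) : ℝ) := Real.log_pos (by norm_num)
    exact nonneg_of_mul_nonneg_left h2 h3
  -- the sum over the numbers which are not prime
  let D : ℕ → ℝ := fun N => ∑ n ∈ (Finset.Icc 1 N).filter (fun n => ¬ n.Prime), b n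
  have hsplit : ∀ N, ∑ n ∈ (Finset.Icc 1 N).filter Nat.Prime, b n =
      ∑ n ∈ Finset.Icc 1 N, b n - D N := by
    intro N
    rw [← Finset.sum_filter_add_sum_filter_not (Finset.Icc 1 N) Nat.Prime b]
    simp only [D]
    ring
  have hD0 : ∀ N, 0 ≤ D N := fun N => Finset.sum_nonneg fun n _ => hb n
  have hD1 : ∀ N : ℕ, 1 ≤ N → D N ≤ (Nat.sqrt N * Nat.log 2 N : ℕ) * (C * Real.log N) := by
    intro N hN
    let T : Finset ℕ := (Finset.Icc 1 (Nat.sqrt N) ×ˢ Finset.Icc 1 (Nat.log 2 N)).image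
      fun x : ℕ × ℕ => x.1 ^ x.2
    have hT : T.card ≤ Nat.sqrt N * Nat.log 2 N := by
      refine Finset.card_image_le.trans ?_
      rw [Finset.card_product, Nat.card_Icc, Nat.card_Icc, Nat.add_sub_cancel, Nat.add_sub_cancel]
    have h1 : D N = ∑ n ∈ (Finset.Icc 1 N).filter (fun n => ¬ n.Prime ∧ IsPrimePow n), b n := by
      simp only [D]
      rw [← Finset.filter_filter]
      symm
      refine Finset.sum_filter_of_ne fun n _ hne => ?_
      by_contra hn
      exact hne (h0 n hn)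
    have hsub : (Finset.Icc 1 N).filter (fun n => ¬ n.Prime ∧ IsPrimePow n) ⊆ T := by
      intro n hn
      obtain ⟨hn1, hn2, p, j, hp, hj, hpj⟩ := Finset.mem_filter.1 hn
      have hnN := (Finset.mem_Icc.1 hn1).2
      have hp' := hp.nat_prime
      have hj2 : 2 ≤ j := by
        by_contra hj2
        have hj1 : j = 1 := by omega
        rw [hj1, pow_one] at hpj
        exact hn2 (hpj ▸ hp')
      refine Finset.mem_image.2 ⟨(p, j), ?_, hpj⟩
      rw [Finset.mem_product, Finset.mem_Icc, Finset.mem_Icc]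
      refine ⟨⟨hp'.one_le, ?_⟩, hj, ?_⟩
      · rw [Nat.le_sqrt']
        calc p ^ 2 ≤ p ^ j := Nat.pow_le_pow_right hp'.pos hj2
          _ ≤ N := hpj ▸ hnN
      · apply Nat.le_log_of_pow_le (by norm_num)
        calc 2 ^ j ≤ p ^ j := Nat.pow_le_pow_left hp'.two_le j
          _ ≤ N := hpj ▸ hnN
    have hlog : 0 ≤ C * Real.log N := mul_nonneg hC0 (Real.log_natCast_nonneg _)
    rw [h1]
    calc ∑ n ∈ (Finset.Icc 1 N).filter (fun n => ¬ n.Prime ∧ IsPrimePow n), b n
        ≤ ∑ n ∈ (Finset.Icc 1 N).filter (fun n => ¬ n.Prime ∧ IsPrimePow n), C * Real.log N := by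
          refine Finset.sum_le_sum fun n hn => ?_
          have hn1 := Finset.mem_Icc.1 (Finset.mem_filter.1 hn).1
          refine (hC n).trans (mul_le_mul_of_nonneg_left ?_ hC0)
          exact Real.log_le_log (by exact_mod_cast hn1.1) (by exact_mod_cast hn1.2)
      _ = ((Finset.Icc 1 N).filter (fun n => ¬ n.Prime ∧ IsPrimePow n)).card *
            (C * Real.log N) := by
          rw [Finset.sum_const, nsmul_eq_mul]
      _ ≤ (Nat.sqrt N * Nat.log 2 N : ℕ) * (C * Real.log N) := by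
          refine mul_le_mul_of_nonneg_right ?_ hlog
          exact_mod_cast (Finset.card_le_card hsub).trans hT
  have hlog2 : 0 < Real.log 2 := Real.log_pos (by norm_num)
  have hD2 : ∀ N : ℕ, 1 ≤ N → D N / N ≤
      (4 * C / Real.log 2) * (Real.log (Real.sqrt N) ^ 2 / (1 * Real.sqrt N + 0)) := by
    intro N hN
    have hN0 : (0 : ℝ) < N := by exact_mod_cast hN
    have hs : 0 < Real.sqrt N := Real.sqrt_pos.2 hN0
    have hl0 : 0 ≤ Real.log N := Real.log_natCast_nonneg _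
    have h1 : ((Nat.sqrt N : ℕ) : ℝ) ≤ Real.sqrt N := Real.nat_sqrt_le_real_sqrt
    have h2 : ((Nat.log 2 N : ℕ) : ℝ) ≤ Real.log N / Real.log 2 := by
      rw [le_div_iff₀ hlog2, ← Real.log_pow]
      apply Real.log_le_log (by positivity)
      exact_mod_cast Nat.pow_log_le_self 2 (by omega)
    have h3 : D N ≤ (Real.sqrt N * (Real.log N / Real.log 2)) * (C * Real.log N) := by
      refine (hD1 N hN).trans (mul_le_mul_of_nonneg_right ?_ (mul_nonneg hC0 hl0))
      rw [Nat.cast_mul]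
      exact mul_le_mul h1 h2 (Nat.cast_nonneg _) hs.le
    have h4 : Real.log (Real.sqrt N) = Real.log N / 2 := Real.log_sqrt hN0.le
    rw [div_le_iff₀ hN0]
    refine h3.trans (le_of_eq ?_)
    rw [h4, one_mul, add_zero]
    have h5 : (N : ℝ) = Real.sqrt N * Real.sqrt N := (Real.mul_self_sqrt hN0.le).symm
    have h6 : 4 * C / Real.log 2 * ((Real.log N / 2) ^ 2 / Real.sqrt N) * N =
        4 * C / Real.log 2 * ((Real.log N / 2) ^ 2 / Real.sqrt N) *
          (Real.sqrt N * Real.sqrt N) := by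
      rw [← h5]
    rw [h6]
    field_simp
    ring
  have hD3 : Tendsto (fun N : ℕ => D N / N) atTop (𝓝 0) := by
    have h1 : Tendsto (fun N : ℕ => Real.sqrt N) atTop atTop :=
      Real.tendsto_sqrt_atTop.comp tendsto_natCast_atTop_atTop
    have h2 := (Real.tendsto_pow_log_div_mul_add_atTop 1 0 2 one_ne_zero).comp h1
    have h3 := h2.const_mul (4 * C / Real.log 2)
    rw [mul_zero] at h3
    refine tendsto_of_tendsto_of_tendsto_of_le_of_le' tendsto_const_nhds h3 ?_ ?_
    · exact Eventually.of_forall fun N => div_nonneg (hD0 N) (Nat.cast_nonneg _)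
    · filter_upwards [eventually_ge_atTop 1] with N hN
      exact hD2 N hN
  have h1 := h.sub hD3
  rw [sub_zero] at h1
  refine h1.congr fun N => ?_
  rw [hsplit N, sub_div]

end Pool.Agent.Lib.MP_1a0ddd_nt.LW
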