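import Pool.Agent.Lib.MP_1a0ddd_nt.LW.ZDefs

/-! The partition of unity over the units. -/

set_option autoImplicit false

namespace Pool.Agent.Lib.MP_1a0ddd_nt.LW

open NumberField NumberField.mixedEmbedding NumberField.Units
  NumberField.Units.dirichletUnitTheorem

/-- the two integers which contribute -/
private noncomputable def tset (c : ℝ) : Finset ℤ := {-⌊c⌋, -⌊c⌋ - 1}

private theorem tset_sum (c : ℝ) : ∑ m ∈ tset c, tent (c + m) = 1 := by
  have h1 : -⌊c⌋ ≠ -⌊c⌋ - 1 := by omega
  rw [tset, Finset.sum_pair h1]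
  have h2 : 0 ≤ Int.fract c := Int.fract_nonneg c
  have h3 : Int.fract c < 1 := Int.fract_lt_one c
  have h4 : c + ((-⌊c⌋ : ℤ) : ℝ) = Int.fract c := by
    rw [Int.cast_neg, ← sub_eq_add_neg]; rfl
  have h5 : c + ((-⌊c⌋ - 1 : ℤ) : ℝ) = Int.fract c - 1 := by
    rw [Int.cast_sub, Int.cast_one, ← h4]; ring
  rw [h4, h5, tent, tent, abs_of_nonneg h2, abs_of_neg (by linarith), max_eq_left (by linarith),
    max_eq_left (by linarith)]
  ring

private theorem tset_zero (c : ℝ) (m : ℤ) (hm : m ∉ tset c) : tent (c + m) = 0 := by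
  simp only [tset, Finset.mem_insert, Finset.mem_singleton, not_or] at hm
  rw [tent, max_eq_right]
  rw [sub_nonpos]
  have h1 : (⌊c⌋ : ℝ) ≤ c := Int.floor_le c
  have h2 : c < ⌊c⌋ + 1 := Int.lt_floor_add_one c
  rcases lt_or_gt_of_ne hm.1 with h3 | h3
  · have h4 : m ≤ -⌊c⌋ - 2 := by omega
    have h5 : (m : ℝ) ≤ -⌊c⌋ - 2 := by exact_mod_cast h4
    rw [abs_of_neg (by linarith)]
    linarith
  · have h4 : -⌊c⌋ + 1 ≤ m := by omega
    have h5 : -(⌊c⌋ : ℝ) + 1 ≤ m := by exact_mod_cast h4
    rw [abs_of_nonneg (by linarith)]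
    linarith

theorem tent_sum (c : ℝ) : HasSum (fun m : ℤ => tent (c + m)) 1 := by
  have h : HasSum (fun m : ℤ => tent (c + m)) (∑ m ∈ tset c, tent (c + m)) :=
    hasSum_sum_of_ne_finset_zero fun m hm => tset_zero c m hm
  rwa [tset_sum] at h

variable (K : Type) [Field K] [NumberField K]

open Classical in
/-- the finite set of lattice points which contribute -/
private theorem rho_fin (y : logSpace K) : ∃ S : Finset (unitLattice K),
    (∀ v ∉ S, rho K (v + y) = 0) ∧ ∑ v ∈ S, rho K (v + y) = 1 := by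
  set b := basisUnitLattice K with hb
  set bR := b.ofZLatticeBasis ℝ (unitLattice K) with hbR
  set c : Fin (rank K) → ℝ := fun i => bR.repr y i with hc
  have key : ∀ v : unitLattice K, rho K (v + y) = ∏ i, tent (c i + (b.equivFun v i : ℤ)) := by
    intro v
    rw [rho]
    refine Finset.prod_congr rfl fun i _ => ?_
    congr 1
    rw [← hb, ← hbR, map_add, Finsupp.add_apply, hbR, Module.Basis.ofZLatticeBasis_repr_apply,
      add_comm]
    rfl
  set T : Finset (Fin (rank K) → ℤ) := Fintype.piFinset fun i => tset (c i) with hT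
  refine ⟨T.map b.equivFun.symm.toEquiv.toEmbedding, ?_, ?_⟩
  · intro v hv
    rw [key]
    have h1 : b.equivFun v ∉ T := by
      intro h2
      apply hv
      rw [Finset.mem_map]
      exact ⟨b.equivFun v, h2, by simp⟩
    rw [hT, Fintype.mem_piFinset] at h1
    push Not at h1
    obtain ⟨i, hi⟩ := h1
    exact Finset.prod_eq_zero (Finset.mem_univ i) (tset_zero _ _ hi)
  · rw [Finset.sum_map]
    have h1 : ∀ f : Fin (rank K) → ℤ,
        rho K ((b.equivFun.symm.toEquiv.toEmbedding f : unitLattice K) + y) =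
        ∏ i, tent (c i + (f i : ℤ)) := by
      intro f
      rw [key]
      refine Finset.prod_congr rfl fun i _ => ?_
      have h2 : b.equivFun (b.equivFun.symm.toEquiv.toEmbedding f) = f :=
        b.equivFun.apply_symm_apply f
      rw [h2]
    simp only [h1]
    have h3 := Finset.prod_univ_sum (fun i => tset (c i))
      (fun (i : Fin (rank K)) (m : ℤ) => tent (c i + (m : ℝ)))
    rw [hT, ← h3]
    simp only [tset_sum, Finset.prod_const_one]

/-- translation by the unit lattice: product over the coordinates of `tent_sum` -/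
theorem rho_sum (y : logSpace K) : HasSum (fun v : unitLattice K => rho K (v + y)) 1 := by
  obtain ⟨S, h0, h1⟩ := rho_fin K y
  have h : HasSum (fun v : unitLattice K => rho K (v + y)) (∑ v ∈ S, rho K (v + y)) :=
    hasSum_sum_of_ne_finset_zero h0
  rwa [h1] at h

/-- Proof: `logMap (u • x) = logEmbedding u + logMap x` (`logMap_unit_smul`); the map
`u ↦ logEmbedding u` from the units onto `unitLattice K` has all fibres of cardinality
`torsionOrder K` (cosets of `torsion K = ker logEmbedding`). -/
theorem unit_sum (x : mixedSpace K) (hx : mixedEmbedding.norm x ≠ 0) :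
    HasSum (fun u : (𝓞 K)ˣ => rho K (logMap (u • x))) (torsionOrder K : ℝ) := by
  classical
  have := Fintype.ofFinite (torsion K)
  obtain ⟨S, h0, h1⟩ := rho_fin K (logMap x)
  let E : (𝓞 K)ˣ ≃ unitLattice K × torsion K :=
    (Subgroup.groupEquivQuotientProdSubgroup (s := torsion K)).trans
      (Equiv.prodCongr ((Additive.ofMul).trans (logEmbeddingEquiv K).toEquiv) (Equiv.refl _))
  have hE : ∀ u : (𝓞 K)ˣ, ((E u).1 : logSpace K) = logEmbedding K (Additive.ofMul u) := by
    intro u
    have h2 : (E u).1 = logEmbeddingEquiv K (Additive.ofMul (QuotientGroup.mk u)) := rfl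
    rw [h2, logEmbeddingEquiv_apply]
  have h3 : (fun u : (𝓞 K)ˣ => rho K (logMap (u • x))) =
      (fun p : unitLattice K × torsion K => rho K (p.1 + logMap x)) ∘ E := by
    funext u
    rw [Function.comp_apply, hE, logMap_unit_smul u hx]
  rw [h3, E.hasSum_iff]
  have h4 : HasSum (fun p : unitLattice K × torsion K => rho K (p.1 + logMap x))
      (∑ p ∈ S ×ˢ (Finset.univ : Finset (torsion K)), rho K (p.1 + logMap x)) := by
    refine hasSum_sum_of_ne_finset_zero ?_
    rintro ⟨v, t⟩ hvt
    apply h0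
    intro hv
    exact hvt (Finset.mem_product.2 ⟨hv, Finset.mem_univ t⟩)
  rw [Finset.sum_product] at h4
  simp only [Finset.sum_const, Finset.card_univ, nsmul_eq_mul] at h4
  rw [← Finset.mul_sum, h1, mul_one] at h4
  rw [torsionOrder, Nat.card_eq_fintype_card]
  exact h4

end Pool.Agent.Lib.MP_1a0ddd_nt.LW
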