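import Pool.Agent.Lib.MP_1a0ddd_nt.LW.ZLip
import Pool.Agent.Lib.MP_1a0ddd_nt.LW.ZPU

/-! The sum over the ideals of a class is a sum over a lattice. -/

set_option autoImplicit false

namespace Pool.Agent.Lib.MP_1a0ddd_nt.LW

open NumberField NumberField.mixedEmbedding NumberField.Units Module
  NumberField.Units.dirichletUnitTheorem
open scoped nonZeroDivisors

variable (K : Type) [Field K] [NumberField K]

variable {K} in
/-- the norm of an algebraic integer -/
private theorem norm_mix (g : 𝓞 K) :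
    mixedEmbedding.norm (mixedEmbedding K (g : K)) = (Ideal.absNorm (Ideal.span {g}) : ℝ) := by
  rw [Ideal.absNorm_span_singleton, Nat.cast_natAbs, ← Rat.cast_intCast, Int.cast_abs,
    Algebra.coe_norm_int, ← norm_eq_norm]

omit [NumberField K] in
variable {K} in
private theorem unit_smul_mix (u : (𝓞 K)ˣ) (g : 𝓞 K) :
    u • mixedEmbedding K (g : K) = mixedEmbedding K ((u * g : 𝓞 K) : K) := by
  rw [unitSMul_smul, ← map_mul]
  rfl

omit [NumberField K] in
variable {K} in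
private theorem real_smul_unit_smul (s : ℝ) (u : (𝓞 K)ˣ) (x : mixedSpace K) :
    s • (u • x) = u • (s • x) := by
  rw [unitSMul_smul, unitSMul_smul, mul_smul_comm]

variable {K} in
private theorem hfun_unit (u : (𝓞 K)ˣ) (x : mixedSpace K) (hx : mixedEmbedding.norm x ≠ 0) :
    hfun K (u • x) = rho K (logMap (u • x)) * wgt (mixedEmbedding.norm x) := by
  rw [hfun, norm_unit_smul, if_neg hx]

variable {K} in
private theorem exists_gen (J : (Ideal (𝓞 K))⁰) (C : ClassGroup (𝓞 K))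
    (hJ : ClassGroup.mk0 J = C⁻¹) (I : {I : (Ideal (𝓞 K))⁰ // ClassGroup.mk0 I = C}) :
    ∃ g : 𝓞 K, (J : Ideal (𝓞 K)) * (I.1 : Ideal (𝓞 K)) = Ideal.span {g} := by
  have h1 : ClassGroup.mk0 (J * I.1) = 1 := by
    rw [map_mul, hJ, I.2, inv_mul_cancel]
  have h2 : ((J * I.1 : (Ideal (𝓞 K))⁰) : Ideal (𝓞 K)).IsPrincipal :=
    (ClassGroup.mk0_eq_one_iff (J * I.1).2).mp h1
  obtain ⟨g, hg⟩ := h2
  exact ⟨g, hg⟩

variable {K} in
private theorem mem_lattice (J : (Ideal (𝓞 K))⁰) (x : mixedSpace K) :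
    x ∈ idealLattice K (FractionalIdeal.mk0 K J) ↔
      ∃ a : 𝓞 K, a ∈ (J : Ideal (𝓞 K)) ∧ mixedEmbedding K (a : K) = x := by
  rw [mem_idealLattice, FractionalIdeal.coe_mk0]
  constructor
  · rintro ⟨y, ⟨a, ha, rfl⟩, rfl⟩
    exact ⟨a, ha, rfl⟩
  · rintro ⟨a, ha, rfl⟩
    exact ⟨a, ⟨a, ha, rfl⟩, rfl⟩

/-- Proof. The term `v = 0` is zero. The points `v ≠ 0` of the lattice are the `mixedEmbedding α`,
`α ∈ J`, `α ≠ 0`; the ideals `I` of the class `C = [J]⁻¹` correspond to the principal ideals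
`(α) = J I ⊆ J`, each of them to one orbit of the units (freely acting). With
`t = (T N(J))^(1/n)`: `norm (t⁻¹ • v) = |N α|/t^n = N(J I)/(T N(J)) = N(I)/T` and
`logMap (t⁻¹ • v) = logMap v` (`logMap_real_smul`); the sum over one orbit is
`torsionOrder K * wgt (N(I)/T)` by `unit_sum` and `norm_unit_smul`. Only finitely many terms are not
zero (bounded support of `hfun`, discrete lattice; `hfun_supp`), resp. finitely many `I` have
`N(I) < T`. -/
theorem class_sum (J : (Ideal (𝓞 K))⁰) (C : ClassGroup (𝓞 K)) (hJ : ClassGroup.mk0 J = C⁻¹)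
    (T : ℝ) (hT : 0 < T) :
    ∑' v : idealLattice K (FractionalIdeal.mk0 K J),
      hfun K (((T * Ideal.absNorm (J : Ideal (𝓞 K))) ^ ((finrank ℚ K : ℝ)⁻¹))⁻¹ •
        (v : mixedSpace K)) =
    torsionOrder K * ∑' I : {I : (Ideal (𝓞 K))⁰ // ClassGroup.mk0 I = C},
      wgt (Ideal.absNorm (I.1 : Ideal (𝓞 K)) / T) := by
  classical
  have hJpos : (0 : ℝ) < Ideal.absNorm (J : Ideal (𝓞 K)) :=
    Nat.cast_pos.mpr (Ideal.absNorm_pos_of_nonZeroDivisors J)
  set s : ℝ := ((T * Ideal.absNorm (J : Ideal (𝓞 K))) ^ ((finrank ℚ K : ℝ)⁻¹))⁻¹ with hs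
  have hTJ : 0 < T * Ideal.absNorm (J : Ideal (𝓞 K)) := mul_pos hT hJpos
  have hn : finrank ℚ K ≠ 0 := finrank_pos.ne'
  have hs0 : 0 < s := inv_pos.mpr (Real.rpow_pos_of_pos hTJ _)
  have hsn : s ^ finrank ℚ K = (T * Ideal.absNorm (J : Ideal (𝓞 K)))⁻¹ := by
    rw [hs, inv_pow, ← Real.rpow_natCast, ← Real.rpow_mul hTJ.le,
      inv_mul_cancel₀ (Nat.cast_ne_zero.mpr hn), Real.rpow_one]
  choose g hg using exists_gen J C hJ
  have hJ0 : (J : Ideal (𝓞 K)) ≠ 0 := nonZeroDivisors.coe_ne_zero J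
  have hI0 : ∀ I : {I : (Ideal (𝓞 K))⁰ // ClassGroup.mk0 I = C}, (I.1 : Ideal (𝓞 K)) ≠ 0 :=
    fun I => nonZeroDivisors.coe_ne_zero I.1
  have hg0 : ∀ I, g I ≠ 0 := by
    intro I h0
    have h1 := hg I
    rw [h0, Ideal.span_singleton_eq_bot.mpr rfl] at h1
    exact mul_ne_zero hJ0 (hI0 I) h1
  have hgJ : ∀ I, g I ∈ (J : Ideal (𝓞 K)) := by
    intro I
    have h1 : Ideal.span {g I} ≤ (J : Ideal (𝓞 K)) := by
      rw [← hg I]
      exact Ideal.mul_le_left
    exact h1 (Ideal.mem_span_singleton_self _)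
  -- the parametrisation of the points of the lattice
  let Ψ : {I : (Ideal (𝓞 K))⁰ // ClassGroup.mk0 I = C} × (𝓞 K)ˣ →
      idealLattice K (FractionalIdeal.mk0 K J) := fun p =>
    ⟨p.2 • mixedEmbedding K (g p.1 : K), (mem_lattice J _).mpr
      ⟨p.2 * g p.1, Ideal.mul_mem_left _ _ (hgJ p.1), (unit_smul_mix _ _).symm⟩⟩
  have hΨ : ∀ p, ((Ψ p : idealLattice K (FractionalIdeal.mk0 K J)) : mixedSpace K) =
      p.2 • mixedEmbedding K (g p.1 : K) := fun p => rfl
  have hinj : Function.Injective Ψ := by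
    rintro ⟨I, u⟩ ⟨I', u'⟩ h
    have h1 : u • mixedEmbedding K (g I : K) = u' • mixedEmbedding K (g I' : K) :=
      congrArg Subtype.val h
    rw [unit_smul_mix, unit_smul_mix] at h1
    have h2 : (u : 𝓞 K) * g I = u' * g I' :=
      RingOfIntegers.coe_injective (mixedEmbedding_injective K h1)
    have h3 : Ideal.span {g I} = Ideal.span {g I'} := by
      rw [Ideal.span_singleton_eq_span_singleton]
      refine ⟨u * u'⁻¹, ?_⟩
      have h4 : g I * ((u * u'⁻¹ : (𝓞 K)ˣ) : 𝓞 K) = (u * g I) * ((u'⁻¹ : (𝓞 K)ˣ) : 𝓞 K) := by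
        push_cast
        ring
      rw [h4, h2]
      have h5 : (u' : 𝓞 K) * g I' * ((u'⁻¹ : (𝓞 K)ˣ) : 𝓞 K) =
          ((u' : 𝓞 K) * ((u'⁻¹ : (𝓞 K)ˣ) : 𝓞 K)) * g I' := by ring
      rw [h5, Units.mul_inv, one_mul]
    rw [← hg I, ← hg I'] at h3
    have h4 : (I.1 : Ideal (𝓞 K)) = I'.1 := mul_left_cancel₀ hJ0 h3
    have h5 : I = I' := Subtype.ext (Subtype.ext h4)
    subst h5
    have h6 : (u : 𝓞 K) = u' := mul_right_cancel₀ (hg0 I) h2
    have h7 : u = u' := Units.ext h6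
    rw [h7]
  have hrange : ∀ v : idealLattice K (FractionalIdeal.mk0 K J), (v : mixedSpace K) ≠ 0 →
      v ∈ Set.range Ψ := by
    rintro ⟨x, hx⟩ hx0
    obtain ⟨a, haJ, rfl⟩ := (mem_lattice J x).mp hx
    have ha0 : a ≠ 0 := by
      rintro rfl
      apply hx0
      simp
    have h1 : (J : Ideal (𝓞 K)) ∣ Ideal.span {a} := by
      rw [Ideal.dvd_iff_le, Ideal.span_singleton_le_iff_mem]
      exact haJ
    obtain ⟨I', hI'⟩ := h1
    have h2 : I' ≠ 0 := by
      rintro rfl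
      rw [mul_zero] at hI'
      exact ha0 (Ideal.span_singleton_eq_bot.mp hI')
    let I0 : (Ideal (𝓞 K))⁰ := ⟨I', mem_nonZeroDivisors_of_ne_zero h2⟩
    have h3 : ClassGroup.mk0 I0 = C := by
      have h4 : ClassGroup.mk0 (J * I0) = 1 := by
        rw [ClassGroup.mk0_eq_one_iff (J * I0).2]
        exact ⟨a, hI'.symm⟩
      rw [map_mul, hJ, inv_mul_eq_one] at h4
      exact h4.symm
    have h5 : Ideal.span {g ⟨I0, h3⟩} = Ideal.span {a} := by
      rw [← hg ⟨I0, h3⟩, hI']
    rw [Ideal.span_singleton_eq_span_singleton] at h5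
    obtain ⟨u, hu⟩ := h5
    refine ⟨(⟨I0, h3⟩, u), Subtype.ext ?_⟩
    rw [hΨ]
    change u • mixedEmbedding K (g ⟨I0, h3⟩ : K) = _
    rw [unit_smul_mix, mul_comm, hu]
  -- finiteness of the support
  have hfin : (Function.support fun v : idealLattice K (FractionalIdeal.mk0 K J) =>
      hfun K (s • (v : mixedSpace K))).Finite := by
    obtain ⟨R, hR⟩ := hfun_supp K
    have hdisc : DiscreteTopology (idealLattice K (FractionalIdeal.mk0 K J)) := inferInstance
    have hcl : IsClosed ((idealLattice K (FractionalIdeal.mk0 K J) : Submodule ℤ (mixedSpace K)) :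
        Set (mixedSpace K)) :=
      @AddSubgroup.isClosed_of_discrete _ _ _ _ _
        (idealLattice K (FractionalIdeal.mk0 K J)).toAddSubgroup hdisc
    have h1 : (Metric.closedBall (0 : mixedSpace K) (s⁻¹ * R) ∩
        ((idealLattice K (FractionalIdeal.mk0 K J) : Submodule ℤ (mixedSpace K)) :
          Set (mixedSpace K))).Finite :=
      Metric.finite_isBounded_inter_isClosed (@DiscreteTopology.isDiscrete _ _ _ hdisc)
        Metric.isBounded_closedBall hcl
    refine Set.Finite.subset (h1.preimage (f := fun v : idealLattice K (FractionalIdeal.mk0 K J) =>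
      (v : mixedSpace K)) (Set.injOn_of_injective Subtype.val_injective)) ?_
    intro v hv
    refine ⟨?_, v.2⟩
    rw [mem_closedBall_zero_iff]
    by_contra hcon
    push Not at hcon
    apply hv
    apply hR
    rw [_root_.norm_smul, Real.norm_of_nonneg hs0.le]
    have h2 := mul_lt_mul_of_pos_left hcon hs0
    rw [← mul_assoc, mul_inv_cancel₀ hs0.ne', one_mul] at h2
    exact h2.le
  have hsum : Summable fun v : idealLattice K (FractionalIdeal.mk0 K J) =>
      hfun K (s • (v : mixedSpace K)) := summable_of_hasFiniteSupport hfin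
  have hsupp : (Function.support fun v : idealLattice K (FractionalIdeal.mk0 K J) =>
      hfun K (s • (v : mixedSpace K))) ⊆ Set.range Ψ := by
    intro v hv
    refine hrange v fun h0 => hv ?_
    change hfun K (s • (v : mixedSpace K)) = 0
    rw [h0, smul_zero, hfun, if_pos]
    exact mixedEmbedding.norm.map_zero'
  rw [← hinj.tsum_eq hsupp]
  have hsum' : Summable fun p => hfun K (s • ((Ψ p : idealLattice K (FractionalIdeal.mk0 K J)) :
      mixedSpace K)) := hsum.comp_injective hinj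
  rw [hsum'.tsum_prod, ← tsum_mul_left]
  refine tsum_congr fun I => ?_
  have hnx : mixedEmbedding.norm (s • mixedEmbedding K (g I : K)) =
      (Ideal.absNorm (I.1 : Ideal (𝓞 K)) : ℝ) / T := by
    rw [mixedEmbedding.norm_smul, abs_of_pos hs0, hsn, norm_mix, ← hg I, map_mul, Nat.cast_mul]
    field_simp
  have hI1 : (0 : ℝ) < Ideal.absNorm (I.1 : Ideal (𝓞 K)) :=
    Nat.cast_pos.mpr (Ideal.absNorm_pos_of_nonZeroDivisors I.1)
  have hnx0 : mixedEmbedding.norm (s • mixedEmbedding K (g I : K)) ≠ 0 := by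
    rw [hnx]
    positivity
  have h1 : ∀ u : (𝓞 K)ˣ, hfun K (s • ((Ψ (I, u) :
      idealLattice K (FractionalIdeal.mk0 K J)) : mixedSpace K)) =
      rho K (logMap (u • (s • mixedEmbedding K (g I : K)))) *
        wgt (Ideal.absNorm (I.1 : Ideal (𝓞 K)) / T) := by
    intro u
    rw [hΨ]
    change hfun K (s • (u • mixedEmbedding K (g I : K))) = _
    rw [real_smul_unit_smul, hfun_unit u _ hnx0, hnx]
  rw [tsum_congr h1]
  exact ((unit_sum K _ hnx0).mul_right _).tsum_eq

end Pool.Agent.Lib.MP_1a0ddd_nt.LW
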