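import Pool.Agent.Lib.MP_1a0ddd_nt.LW.ZRiem
import Pool.Agent.Lib.MP_1a0ddd_nt.LW.ZCls

/-! The smoothed count of ideals with power saving. -/

set_option autoImplicit false

namespace Pool.Agent.Lib.MP_1a0ddd_nt.LW

open NumberField NumberField.mixedEmbedding NumberField.Units Module MeasureTheory
  NumberField.Units.dirichletUnitTheorem
open scoped nonZeroDivisors

variable (K : Type) [Field K] [NumberField K]

private theorem zt_wgt {u : ℝ} (h : 1 ≤ u) : wgt u = 0 := by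
  unfold wgt
  rw [max_eq_right (by linarith), mul_zero]

private theorem zt_norm_pos (I : (Ideal (𝓞 K))⁰) : 0 < Ideal.absNorm (I : Ideal (𝓞 K)) :=
  Ideal.absNorm_pos_of_nonZeroDivisors I

private theorem zt_summable (T : ℝ) (hT : 0 < T) :
    Summable fun I : (Ideal (𝓞 K))⁰ => wgt (Ideal.absNorm (I : Ideal (𝓞 K)) / T) := by
  refine summable_of_hasFiniteSupport ?_
  have h1 : {I : Ideal (𝓞 K) | Ideal.absNorm I ≤ ⌊T⌋₊}.Finite := by
    have : {I : Ideal (𝓞 K) | Ideal.absNorm I ≤ ⌊T⌋₊} =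
        ⋃ n ∈ Finset.range (⌊T⌋₊ + 1), {I : Ideal (𝓞 K) | Ideal.absNorm I = n} := by
      ext I
      simp
    rw [this]
    exact (Finset.range _).finite_toSet.biUnion fun n _ => Ideal.finite_setOfPred_absNorm_eq n
  refine Set.Finite.of_finite_image (f := fun I : (Ideal (𝓞 K))⁰ => (I : Ideal (𝓞 K)))
    (h1.subset ?_) Subtype.val_injective.injOn
  rintro _ ⟨I, hI, rfl⟩
  have h2 : wgt (Ideal.absNorm (I : Ideal (𝓞 K)) / T) ≠ 0 := hI
  have h3 : (Ideal.absNorm (I : Ideal (𝓞 K)) : ℝ) / T < 1 := by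
    by_contra hcon
    exact h2 (zt_wgt (not_lt.1 hcon))
  rw [div_lt_one hT] at h3
  exact Nat.le_floor h3.le

private theorem zt_norm (T : ℝ) (hT : 0 < T) :
    ∑' n : ℕ, idealA K n * wgt (n / T) =
      ∑' I : (Ideal (𝓞 K))⁰, wgt (Ideal.absNorm (I : Ideal (𝓞 K)) / T) := by
  classical
  set g : (Ideal (𝓞 K))⁰ → ℕ := fun I => Ideal.absNorm (I : Ideal (𝓞 K)) with hg
  have hs := zt_summable K T hT
  refine Eq.trans ?_ ((Equiv.sigmaFiberEquiv g).tsum_eq
    fun I : (Ideal (𝓞 K))⁰ => wgt (Ideal.absNorm (I : Ideal (𝓞 K)) / T))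
  refine Eq.trans ?_ ((Equiv.sigmaFiberEquiv g).summable_iff.2 hs).tsum_sigma.symm
  refine tsum_congr fun n => ?_
  have h1 : ∀ I : {I : (Ideal (𝓞 K))⁰ // g I = n},
      wgt (Ideal.absNorm (((Equiv.sigmaFiberEquiv g) ⟨n, I⟩ : (Ideal (𝓞 K))⁰) : Ideal (𝓞 K)) / T) =
        wgt (n / T) := by
    intro I
    have h2 : Ideal.absNorm (((Equiv.sigmaFiberEquiv g) ⟨n, I⟩ : (Ideal (𝓞 K))⁰) :
      Ideal (𝓞 K)) = n := I.2
    rw [h2]
  refine Eq.trans ?_ (tsum_congr h1).symm
  rw [tsum_const, nsmul_eq_mul]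
  congr 1
  unfold idealA
  by_cases hn : n = 0
  · rw [if_pos hn]
    have : IsEmpty {I : (Ideal (𝓞 K))⁰ // g I = n} := by
      refine ⟨fun I => ?_⟩
      have h3 := zt_norm_pos K I.1
      have h4 : g I.1 = n := I.2
      exact h3.ne' (h4.trans hn)
    rw [Nat.card_of_isEmpty]
    simp
  · rw [if_neg hn]
    congr 1
    refine (Nat.card_congr (Equiv.ofBijective
      (fun I : {I : (Ideal (𝓞 K))⁰ // g I = n} =>
        (⟨I.1.val, I.2⟩ : {I : Ideal (𝓞 K) // Ideal.absNorm I = n})) ⟨?_, ?_⟩)).symm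
    · intro I J hIJ
      have h5 : I.1.val = J.1.val := congrArg (fun x => x.val) hIJ
      exact Subtype.ext (Subtype.ext h5)
    · intro I
      have h6 : I.val ∈ (Ideal (𝓞 K))⁰ := by
        rw [mem_nonZeroDivisors_iff_ne_zero]
        intro h0
        have h5 := I.2
        rw [h0, Ideal.zero_eq_bot, Ideal.absNorm_bot] at h5
        exact hn h5.symm
      exact ⟨⟨⟨I.val, h6⟩, I.2⟩, rfl⟩

private theorem zt_class (T : ℝ) (hT : 0 < T) :
    ∑' I : (Ideal (𝓞 K))⁰, wgt (Ideal.absNorm (I : Ideal (𝓞 K)) / T) =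
      ∑ C : ClassGroup (𝓞 K), ∑' I : {I : (Ideal (𝓞 K))⁰ // ClassGroup.mk0 I = C},
        wgt (Ideal.absNorm (I.1 : Ideal (𝓞 K)) / T) := by
  classical
  have hs := zt_summable K T hT
  set g : (Ideal (𝓞 K))⁰ → ClassGroup (𝓞 K) := fun I => ClassGroup.mk0 I with hg
  refine ((Equiv.sigmaFiberEquiv g).tsum_eq
    fun I : (Ideal (𝓞 K))⁰ => wgt (Ideal.absNorm (I : Ideal (𝓞 K)) / T)).symm.trans ?_
  refine (((Equiv.sigmaFiberEquiv g).summable_iff.2 hs).tsum_sigma).trans ?_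
  rw [tsum_fintype]
  rfl

open Classical in
private theorem zt_int_pos : 0 < ∫ x, hfun K x := by
  obtain ⟨C, hC⟩ := hfun_lip K
  obtain ⟨R, hR⟩ := hfun_supp K
  obtain ⟨x, hx⟩ := hfun_pos K
  have hcont : Continuous (hfun K) := by
    have : LipschitzWith (Real.toNNReal |C|) (hfun K) := LipschitzWith.of_dist_le_mul fun x y => by
      rw [Real.dist_eq, dist_eq_norm, Real.coe_toNNReal _ (abs_nonneg C)]
      exact (hC x y).trans (mul_le_mul_of_nonneg_right (le_abs_self C) (norm_nonneg _))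
    exact this.continuous
  have hcs : HasCompactSupport (hfun K) := by
    refine HasCompactSupport.intro (isCompact_closedBall (0 : mixedSpace K) R) fun x hx => ?_
    rw [mem_closedBall_zero_iff, not_le] at hx
    exact hR x hx.le
  exact hcont.integral_pos_of_hasCompactSupport_nonneg_nonzero hcs (fun x => hfun_nonneg K x)
    hx.ne'

open Classical in
/-- one class -/
private theorem zt_one (C : ClassGroup (𝓞 K)) : ∃ κ B : ℝ, 0 < κ ∧ ∀ T : ℝ, 1 ≤ T →
    |(∑' I : {I : (Ideal (𝓞 K))⁰ // ClassGroup.mk0 I = C},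
        wgt (Ideal.absNorm (I.1 : Ideal (𝓞 K)) / T)) - κ * T| ≤
      B * T ^ (1 - (finrank ℚ K : ℝ)⁻¹) := by
  obtain ⟨J, hJ⟩ := ClassGroup.mk0_surjective C⁻¹
  obtain ⟨Cl, hC⟩ := hfun_lip K
  obtain ⟨R, hR⟩ := hfun_supp K
  have hn : 0 < finrank ℚ K := finrank_pos
  have hfin : finrank ℝ (mixedSpace K) = finrank ℚ K := mixedEmbedding.finrank K
  obtain ⟨B, hB⟩ := riem (volume : Measure (mixedSpace K))
    (idealLattice K (FractionalIdeal.mk0 K J)) (by rw [hfin]; exact hn) (hfun K) Cl R hC hR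
  set N : ℝ := (Ideal.absNorm (J : Ideal (𝓞 K)) : ℝ) with hN
  have hN1 : 1 ≤ N := by
    have := zt_norm_pos K J
    rw [hN]
    exact_mod_cast this
  have hN0 : 0 < N := by linarith
  have hw : (0 : ℝ) < torsionOrder K := by
    have := torsionOrder_pos K
    exact_mod_cast this
  have hcov := ZLattice.covolume_pos (idealLattice K (FractionalIdeal.mk0 K J))
    (volume : Measure (mixedSpace K))
  set c := ZLattice.covolume (idealLattice K (FractionalIdeal.mk0 K J))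
    (volume : Measure (mixedSpace K)) with hc
  have hint := zt_int_pos K
  set A := ∫ x, hfun K x with hA
  refine ⟨A / c * N / torsionOrder K, B * N ^ (1 - (finrank ℚ K : ℝ)⁻¹) / torsionOrder K,
    by positivity, fun T hT => ?_⟩
  have hT0 : 0 < T := by linarith
  have hTN : 0 ≤ T * N := by positivity
  have hn0 : (finrank ℚ K : ℝ) ≠ 0 := by exact_mod_cast hn.ne'
  set t : ℝ := (T * N) ^ ((finrank ℚ K : ℝ)⁻¹) with ht
  have ht1 : 1 ≤ t := Real.one_le_rpow (by nlinarith) (by positivity)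
  have h1 := hB t ht1
  rw [hfin] at h1
  have h2 : t ^ finrank ℚ K = T * N := by
    rw [ht, ← Real.rpow_natCast, ← Real.rpow_mul hTN, inv_mul_cancel₀ hn0, Real.rpow_one]
  have h3 : t ^ (finrank ℚ K - 1) = T ^ (1 - (finrank ℚ K : ℝ)⁻¹) *
      N ^ (1 - (finrank ℚ K : ℝ)⁻¹) := by
    rw [ht, ← Real.rpow_natCast, ← Real.rpow_mul hTN, ← Real.mul_rpow hT0.le hN0.le]
    congr 1
    rw [Nat.cast_sub hn]
    field_simp
    simp
  have h4 := class_sum K J C hJ T hT0
  rw [← hN, ← ht] at h4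
  rw [h4, h2, h3] at h1
  set S := ∑' I : {I : (Ideal (𝓞 K))⁰ // ClassGroup.mk0 I = C},
    wgt (Ideal.absNorm (I.1 : Ideal (𝓞 K)) / T) with hS
  have h5 : S - A / c * N / torsionOrder K * T =
      (torsionOrder K * S - A / c * (T * N)) / torsionOrder K := by
    field_simp
  rw [h5, abs_div, abs_of_pos hw, div_le_iff₀ hw]
  refine h1.trans (le_of_eq ?_)
  field_simp

/-- Proof. `∑ n, idealA n wgt(n/T)` is the sum over the classes `C` of the sums
`∑' I : {I // mk0 I = C}, wgt (N(I)/T)`; for each `C` choose `J` with `mk0 J = C⁻¹`, apply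
`class_sum` and `riem` with `t = (T N(J))^(1/n)` (`t ≥ 1`; `finrank ℝ (mixedSpace K) = n`); the
main terms are `c_C T` with `c_C = (∫ hfun / covolume) N(J) / torsionOrder > 0` (`hfun` is
continuous, nonnegative, positive somewhere), the error terms `O(T^(1 - 1/n))`. -/
theorem ideal_count : ∃ κ B : ℝ, 0 < κ ∧ ∀ T : ℝ, 1 ≤ T →
    |(∑' n : ℕ, idealA K n * wgt (n / T)) - κ * T| ≤ B * T ^ (1 - (finrank ℚ K : ℝ)⁻¹) := by
  classical
  choose κ B hκ h using zt_one K
  refine ⟨∑ C, κ C, ∑ C, B C, Finset.sum_pos (fun C _ => hκ C) Finset.univ_nonempty,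
    fun T hT => ?_⟩
  have hT0 : 0 < T := by linarith
  rw [zt_norm K T hT0, zt_class K T hT0, Finset.sum_mul, Finset.sum_mul, ← Finset.sum_sub_distrib]
  exact (Finset.abs_sum_le_sum_abs _ _).trans (Finset.sum_le_sum fun C _ => h C T hT)

end Pool.Agent.Lib.MP_1a0ddd_nt.LW
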