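import Pool.Agent.Lib.MP_3e612f_nt.Tauber

/-! The theorem of Wiener and Ikehara for nonnegative coefficients. -/

set_option autoImplicit false

namespace Pool.Agent.Lib.MP_1a0ddd_nt.LW

open Filter Topology MeasureTheory

open Pool.Agent.Lib.MP_3e612f_nt.SA

/-- the normalised sum in the exponential variable -/
private noncomputable def wiB (a : ℕ → ℝ) (u : ℝ) : ℝ :=
  Real.exp (-u) * ∑ k ∈ Finset.Icc 1 ⌊Real.exp u⌋₊, a k

private theorem wi_measurable (a : ℕ → ℝ) : Measurable (wiB a) := by
  unfold wiB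
  apply Measurable.mul
  · fun_prop
  · exact (measurable_from_nat (f := fun n => ∑ k ∈ Finset.Icc 1 n, a k)).comp
      (Nat.measurable_floor.comp Real.measurable_exp)

private theorem wi_nonneg {a : ℕ → ℝ} (ha : ∀ n, 0 ≤ a n) (u : ℝ) : 0 ≤ wiB a u :=
  mul_nonneg (Real.exp_pos _).le (Finset.sum_nonneg fun k _ => ha k)

private theorem wi_mono {a : ℕ → ℝ} (ha : ∀ n, 0 ≤ a n) {u v : ℝ} (huv : u ≤ v) :
    wiB a u ≤ Real.exp (v - u) * wiB a v := by
  unfold wiB
  rw [← mul_assoc, ← Real.exp_add, show v - u + -v = -u by ring]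
  apply mul_le_mul_of_nonneg_left _ (Real.exp_pos _).le
  apply Finset.sum_le_sum_of_subset_of_nonneg
  · apply Finset.Icc_subset_Icc_right
    exact Nat.floor_le_floor (Real.exp_le_exp.2 huv)
  · intro k _ _
    exact ha k

/-- growth of the partial sums -/
private theorem wi_growth {a : ℕ → ℝ} (ha : ∀ n, 0 ≤ a n)
    (hs : ∀ s : ℂ, 1 < s.re → LSeriesSummable (fun n => (a n : ℂ)) s) (r : ℝ) (hr : 1 < r) :
    ∃ C : ℝ, 0 ≤ C ∧ ∀ n : ℕ, ∑ k ∈ Finset.Icc 1 n, a k ≤ C * (n : ℝ) ^ r := by
  have h1 : Summable fun n => ‖LSeries.term (fun n => (a n : ℂ)) (r : ℂ) n‖ :=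
    (hs (r : ℂ) (by simpa using hr)).norm
  refine ⟨∑' n, ‖LSeries.term (fun n => (a n : ℂ)) (r : ℂ) n‖,
    tsum_nonneg fun _ => norm_nonneg _, fun n => ?_⟩
  have h2 : ∀ k ∈ Finset.Icc 1 n, a k ≤
      ‖LSeries.term (fun n => (a n : ℂ)) (r : ℂ) k‖ * (n : ℝ) ^ r := by
    intro k hk
    rw [Finset.mem_Icc] at hk
    have hk0 : k ≠ 0 := by omega
    rw [LSeries.norm_term_eq, if_neg hk0, Complex.ofReal_re, Complex.norm_real,
      Real.norm_of_nonneg (ha k)]
    have hk1 : (0 : ℝ) < k := by
      have : 0 < k := by omega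
      exact_mod_cast this
    have h3 : (0 : ℝ) < (k : ℝ) ^ r := Real.rpow_pos_of_pos hk1 r
    have h4 : (k : ℝ) ^ r ≤ (n : ℝ) ^ r :=
      Real.rpow_le_rpow hk1.le (by exact_mod_cast hk.2) (by linarith)
    rw [div_mul_eq_mul_div, le_div_iff₀ h3]
    exact mul_le_mul_of_nonneg_left h4 (ha k)
  calc ∑ k ∈ Finset.Icc 1 n, a k
      ≤ ∑ k ∈ Finset.Icc 1 n,
          ‖LSeries.term (fun n => (a n : ℂ)) (r : ℂ) k‖ * (n : ℝ) ^ r := Finset.sum_le_sum h2
    _ = (∑ k ∈ Finset.Icc 1 n, ‖LSeries.term (fun n => (a n : ℂ)) (r : ℂ) k‖) * (n : ℝ) ^ r := by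
        rw [Finset.sum_mul]
    _ ≤ _ := by
        apply mul_le_mul_of_nonneg_right _ (by positivity)
        exact h1.sum_le_tsum _ fun _ _ => norm_nonneg _

private theorem wi_le {a : ℕ → ℝ} (ha : ∀ n, 0 ≤ a n)
    (hs : ∀ s : ℂ, 1 < s.re → LSeriesSummable (fun n => (a n : ℂ)) s) (ε : ℝ) (hε : 0 < ε) :
    ∃ C : ℝ, 0 ≤ C ∧ ∀ u : ℝ, wiB a u ≤ C * Real.exp (ε * u) := by
  obtain ⟨C, hC, h⟩ := wi_growth ha hs (1 + ε) (by linarith)
  refine ⟨C, hC, fun u => ?_⟩
  have h1 := h ⌊Real.exp u⌋₊
  have h2 : (⌊Real.exp u⌋₊ : ℝ) ^ (1 + ε) ≤ Real.exp u ^ (1 + ε) :=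
    Real.rpow_le_rpow (Nat.cast_nonneg _) (Nat.floor_le (Real.exp_pos u).le) (by linarith)
  have h3 : Real.exp u ^ (1 + ε) = Real.exp (u * (1 + ε)) := (Real.exp_mul _ _).symm
  unfold wiB
  calc Real.exp (-u) * ∑ k ∈ Finset.Icc 1 ⌊Real.exp u⌋₊, a k
      ≤ Real.exp (-u) * (C * Real.exp (u * (1 + ε))) := by
        apply mul_le_mul_of_nonneg_left _ (Real.exp_pos _).le
        rw [← h3]
        exact h1.trans (mul_le_mul_of_nonneg_left h2 hC)
    _ = C * (Real.exp (-u) * Real.exp (u * (1 + ε))) := by ring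
    _ = C * Real.exp (ε * u) := by
        rw [← Real.exp_add]
        congr 2
        ring

private theorem wi_laplace_aux {a : ℕ → ℝ} (ha : ∀ n, 0 ≤ a n)
    (hs : ∀ s : ℂ, 1 < s.re → LSeriesSummable (fun n => (a n : ℂ)) s) {s : ℂ} (hs0 : 0 < s.re) :
    ∫ u in Set.Ioi (0 : ℝ), (wiB a u : ℂ) * Complex.exp (-(s * u)) =
      LSeries (fun n => (a n : ℂ)) (s + 1) / (s + 1) := by
  have hs1 : s + 1 ≠ 0 := by
    intro h
    have := congrArg Complex.re h
    simp at this
    linarith
  obtain ⟨C, hC, hgr⟩ := wi_growth ha hs (1 + s.re / 2) (by linarith)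
  have h1 : LSeries (fun n => (a n : ℂ)) (s + 1) = (s + 1) * ∫ t in Set.Ioi (1 : ℝ),
      (∑ k ∈ Finset.Icc 1 ⌊t⌋₊, (a k : ℂ)) * (t : ℂ) ^ (-(s + 1 + 1)) := by
    apply LSeries_eq_mul_integral_of_nonneg a (r := 1 + s.re / 2) (by linarith)
      (by rw [Complex.add_re, Complex.one_re]; linarith) _ ha
    refine Asymptotics.IsBigO.of_bound C ?_
    filter_upwards with n
    rw [Real.norm_of_nonneg (Finset.sum_nonneg fun _ _ => ha _),
      Real.norm_of_nonneg (by positivity)]
    exact hgr n
  rw [h1, mul_div_cancel_left₀ _ hs1]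
  have h2 : Real.exp '' Set.Ioi (0 : ℝ) = Set.Ioi 1 := by
    ext t
    constructor
    · rintro ⟨u, hu, rfl⟩
      exact Real.one_lt_exp_iff.2 hu
    · intro ht
      have ht' : (1 : ℝ) < t := ht
      exact ⟨Real.log t, Real.log_pos ht', Real.exp_log (by linarith)⟩
  rw [← h2, integral_image_eq_integral_abs_deriv_smul measurableSet_Ioi
    (fun x _ => (Real.hasDerivAt_exp x).hasDerivWithinAt) Real.exp_injective.injOn]
  congr 1
  ext u
  rw [abs_of_pos (Real.exp_pos u), Complex.real_smul]
  unfold wiB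
  have h3 : ((Real.exp u : ℝ) : ℂ) ^ (-(s + 1 + 1)) = Complex.exp (-(s + 1 + 1) * u) := by
    rw [Complex.cpow_def_of_ne_zero (by exact_mod_cast (Real.exp_pos u).ne'),
      ← Complex.ofReal_log (Real.exp_pos u).le, Real.log_exp, mul_comm]
  rw [h3]
  have h4 : (Real.exp (-u) : ℂ) * Complex.exp (-(s * u)) =
      (Real.exp u : ℂ) * Complex.exp (-(s + 1 + 1) * u) := by
    rw [Complex.ofReal_exp, Complex.ofReal_exp, ← Complex.exp_add, ← Complex.exp_add]
    congr 1
    push_cast
    ring
  push_cast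
  push_cast at h4
  linear_combination (∑ k ∈ Finset.Icc 1 ⌊Real.exp u⌋₊, (a k : ℂ)) * h4

private theorem wi_norm_exp (s : ℂ) (u : ℝ) : ‖Complex.exp (-(s * u))‖ = Real.exp (-(s.re * u)) := by
  rw [Complex.norm_exp]
  congr 1
  simp

/-- the Laplace transform of `B - A` -/
private theorem wi_laplace {a : ℕ → ℝ} (ha : ∀ n, 0 ≤ a n)
    (hs : ∀ s : ℂ, 1 < s.re → LSeriesSummable (fun n => (a n : ℂ)) s) (A : ℝ) (G : ℂ → ℂ)
    (hL : ∀ s : ℂ, 1 < s.re → LSeries (fun n => (a n : ℂ)) s = A / (s - 1) + G s)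
    {s : ℂ} (hs0 : 0 < s.re) :
    ∫ u in Set.Ioi (0 : ℝ), ((wiB a u - A : ℝ) : ℂ) * Complex.exp (-(s * u)) =
      (G (s + 1) - A) / (s + 1) := by
  have hs1 : s + 1 ≠ 0 := by
    intro h
    have := congrArg Complex.re h
    simp at this
    linarith
  have hsz : s ≠ 0 := by
    intro h
    rw [h] at hs0
    simp at hs0
  obtain ⟨C, hC, hB⟩ := wi_le ha hs (s.re / 2) (by linarith)
  have hm := wi_measurable a
  have i1 : Integrable (fun u : ℝ => (wiB a u : ℂ) * Complex.exp (-(s * u)))
      (volume.restrict (Set.Ioi 0)) := by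
    have h1 : Integrable (fun u : ℝ => C * Real.exp (-(s.re / 2) * u))
        (volume.restrict (Set.Ioi 0)) :=
      (integrableOn_exp_mul_Ioi (a := -(s.re / 2)) (by linarith) 0).const_mul C
    refine h1.mono' ?_ ?_
    · apply Measurable.aestronglyMeasurable
      fun_prop
    · filter_upwards with u
      rw [norm_mul, Complex.norm_real, Real.norm_of_nonneg (wi_nonneg ha u), wi_norm_exp]
      calc wiB a u * Real.exp (-(s.re * u))
          ≤ (C * Real.exp (s.re / 2 * u)) * Real.exp (-(s.re * u)) :=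
            mul_le_mul_of_nonneg_right (hB u) (Real.exp_pos _).le
        _ = C * Real.exp (-(s.re / 2) * u) := by
            rw [mul_assoc, ← Real.exp_add]
            congr 2
            ring
  have i2 : Integrable (fun u : ℝ => (A : ℂ) * Complex.exp (-(s * u)))
      (volume.restrict (Set.Ioi 0)) := by
    have h1 := (integrableOn_exp_mul_complex_Ioi (a := -s) (by simpa using hs0) 0).const_mul
      (A : ℂ)
    refine h1.congr ?_
    filter_upwards with u
    rw [neg_mul]
  have e1 : ∫ u in Set.Ioi (0 : ℝ), (A : ℂ) * Complex.exp (-(s * u)) = A / s := by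
    rw [integral_const_mul]
    have h1 := integral_exp_mul_complex_Ioi (a := -s) (by simpa using hs0) 0
    have h2 : ∫ u in Set.Ioi (0 : ℝ), Complex.exp (-(s * u)) = 1 / s := by
      calc ∫ u in Set.Ioi (0 : ℝ), Complex.exp (-(s * u))
          = ∫ u in Set.Ioi (0 : ℝ), Complex.exp (-s * u) := by
            congr 1
            ext u
            rw [neg_mul]
        _ = 1 / s := by
            rw [h1]
            simp
    rw [h2]
    ring
  have e2 : ∫ u in Set.Ioi (0 : ℝ), ((wiB a u - A : ℝ) : ℂ) * Complex.exp (-(s * u)) =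
      (∫ u in Set.Ioi (0 : ℝ), (wiB a u : ℂ) * Complex.exp (-(s * u))) -
        ∫ u in Set.Ioi (0 : ℝ), (A : ℂ) * Complex.exp (-(s * u)) := by
    rw [← integral_sub i1 i2]
    congr 1
    ext u
    push_cast
    ring
  rw [e2, e1, wi_laplace_aux ha hs hs0, hL (s + 1) (by rw [Complex.add_re, Complex.one_re]; linarith)]
  rw [add_sub_cancel_right]
  field_simp
  ring

/-- the boundary identity for a bounded real function -/
private theorem wi_bdry {b : ℝ → ℝ} (hbm : Measurable b) (M : ℝ) (hM : 0 < M)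
    (hb : ∀ u, 0 < u → |b u| ≤ M) (H : ℂ → ℂ) (hH : ContinuousOn H {s | 0 ≤ s.re})
    (hHb : ∀ s : ℂ, 0 < s.re →
      ∫ u in Set.Ioi (0 : ℝ), (b u : ℂ) * Complex.exp (-(s * u)) = H s)
    (L U : ℝ) (hL : 0 < L) :
    ((∫ u in Set.Ioi (0 : ℝ), b u * t7_K (L * (U - u)) : ℝ) : ℂ) =
      ∫ t in (-1 : ℝ)..1, ((1 - |t| : ℝ) : ℂ) * Complex.exp (Complex.I * t * (L * U)) *
        H (Complex.I * (L * t)) := by
  have hMc : (M : ℂ) ≠ 0 := by exact_mod_cast hM.ne'
  set h : ℝ → ℂ := Set.indicator (Set.Ioi (0 : ℝ)) fun u => ((b u / M : ℝ) : ℂ) with hh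
  have hm : Measurable h := by
    apply Measurable.indicator _ measurableSet_Ioi
    fun_prop
  have h1 : ∀ u, ‖h u‖ ≤ 1 := by
    intro u
    by_cases hu : u ∈ Set.Ioi (0 : ℝ)
    · rw [hh, Set.indicator_of_mem hu, Complex.norm_real, Real.norm_eq_abs, abs_div,
        abs_of_pos hM, div_le_one hM]
      exact hb u hu
    · rw [hh, Set.indicator_of_notMem hu]
      simp
  have h2 : ContinuousOn (fun s => H s / M) {s : ℂ | 0 ≤ s.re} := hH.div_const _
  have h3 : ∀ s : ℂ, 0 < s.re →
      ∫ u in Set.Ioi (0 : ℝ), h u * Complex.exp (-(s * u)) = H s / M := by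
    intro s hs
    rw [← hHb s hs, ← integral_div]
    apply setIntegral_congr_fun measurableSet_Ioi
    intro u hu
    simp only
    rw [hh, Set.indicator_of_mem hu]
    push_cast
    ring
  have h4 := t7_boundary hm h1 (fun s => H s / M) h2 h3 L U hL
  have h5 : ∫ u in Set.Ioi (0 : ℝ), h u * t7_K (L * (U - u)) =
      ((∫ u in Set.Ioi (0 : ℝ), b u * t7_K (L * (U - u)) : ℝ) : ℂ) / M := by
    rw [← integral_complex_ofReal, ← integral_div]
    apply setIntegral_congr_fun measurableSet_Ioi
    intro u hu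
    simp only
    rw [hh, Set.indicator_of_mem hu]
    push_cast
    ring
  have h6 : ∫ t in (-1 : ℝ)..1, ((1 - |t| : ℝ) : ℂ) * Complex.exp (Complex.I * t * (L * U)) *
        (H (Complex.I * (L * t)) / M) = (∫ t in (-1 : ℝ)..1, ((1 - |t| : ℝ) : ℂ) *
        Complex.exp (Complex.I * t * (L * U)) * H (Complex.I * (L * t))) / M := by
    rw [← intervalIntegral.integral_div]
    congr 1
    ext t
    ring
  rw [h5] at h4
  rw [h6] at h4
  exact (div_left_inj' hMc).1 h4

private theorem wi_K_int (L U : ℝ) (hL : 0 < L) : Integrable (fun u : ℝ => t7_K (L * (U - u))) := by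
  have h2 : Integrable (fun u : ℝ => t7_K (L * u)) := t7_K_integrable.comp_mul_left' hL.ne'
  exact h2.comp_sub_left U

private theorem wi_K_full (L U : ℝ) (hL : 0 < L) :
    ∫ u : ℝ, t7_K (L * (U - u)) = (∫ v, t7_K v) / L := by
  have e3 : ∫ u : ℝ, t7_K (L * (U - u)) = ∫ v : ℝ, t7_K (L * v) := by
    rw [← integral_sub_left_eq_self _ volume U]
    congr 1
    ext v
    rw [sub_sub_cancel]
  rw [e3, Measure.integral_comp_mul_left, abs_of_pos (by positivity), smul_eq_mul]
  ring

private theorem wi_K_low {v : ℝ} (hv : |v| ≤ 1) : 1 / 4 ≤ t7_K v := by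
  unfold t7_K
  split_ifs with h
  · norm_num
  · have h1 := Real.cos_bound hv
    have h2 : 0 < v ^ 2 := by positivity
    rw [le_div_iff₀ h2]
    have h3 := (abs_le.1 h1).2
    have h4 : |v| ^ 4 = v ^ 2 * v ^ 2 := by
      rw [show (4 : ℕ) = 2 * 2 by norm_num, pow_mul, sq_abs]
      ring
    have h5 : v ^ 2 ≤ 1 := by
      rw [← sq_abs]
      exact pow_le_one₀ (abs_nonneg v) hv
    rw [h4] at h3
    nlinarith

section main

variable {a : ℕ → ℝ} (ha : ∀ n, 0 ≤ a n)
  (hs : ∀ s : ℂ, 1 < s.re → LSeriesSummable (fun n => (a n : ℂ)) s) (A : ℝ) (G : ℂ → ℂ)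
  (hG : ContinuousOn G {s | 1 ≤ s.re})
  (hL : ∀ s : ℂ, 1 < s.re → LSeries (fun n => (a n : ℂ)) s = A / (s - 1) + G s)

include hG in
private theorem wi_H_cont :
    ContinuousOn (fun s : ℂ => (G (s + 1) - A) / (s + 1)) {s : ℂ | 0 ≤ s.re} := by
  apply ContinuousOn.div
  · apply ContinuousOn.sub
    · apply hG.comp (f := fun s : ℂ => s + 1)
      · fun_prop
      · intro s hs
        have hs' : 0 ≤ s.re := hs
        have : 1 ≤ (s + 1).re := by
          rw [Complex.add_re, Complex.one_re]
          linarith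
        exact this
    · exact continuousOn_const
  · fun_prop
  · intro s hs h
    have hs' : 0 ≤ s.re := hs
    have := congrArg Complex.re h
    rw [Complex.add_re, Complex.one_re, Complex.zero_re] at this
    linarith

include ha hs hG hL in
/-- `B` is bounded -/
private theorem wi_bounded : ∃ C : ℝ, 0 ≤ C ∧ ∀ u : ℝ, 0 ≤ u → wiB a u ≤ C := by
  set H : ℂ → ℂ := fun s : ℂ => (G (s + 1) - A) / (s + 1) with hHd
  have hHc : ContinuousOn H {s : ℂ | 0 ≤ s.re} := wi_H_cont A G hG
  obtain ⟨D, hD⟩ := t7_bound hHc 1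
  have hD0 : 0 ≤ D := (norm_nonneg _).trans (hD 0 0 le_rfl zero_le_one (by norm_num) (by norm_num))
  have hK0 : 0 < ∫ v, t7_K v := t7_K_integral_pos
  set c : ℝ := ∫ v, t7_K v with hc
  have hm := wi_measurable a
  -- the bound for every `ε`
  have key : ∀ ε : ℝ, 0 < ε → ε ≤ 1 → ∀ U : ℝ, 0 ≤ U →
      1 / 4 * (Real.exp (-1) * wiB a U * Real.exp (-(ε * (U + 1)))) ≤ D * 2 + |A| * c := by
    intro ε hε hε1 U hU
    obtain ⟨C, hC, hB⟩ := wi_le ha hs ε hε
    set b : ℝ → ℝ := fun u => (wiB a u - A) * Real.exp (-(ε * u)) with hbd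
    have hbm : Measurable b := by fun_prop
    have hBe : ∀ u : ℝ, wiB a u * Real.exp (-(ε * u)) ≤ C := by
      intro u
      calc wiB a u * Real.exp (-(ε * u)) ≤ C * Real.exp (ε * u) * Real.exp (-(ε * u)) :=
            mul_le_mul_of_nonneg_right (hB u) (Real.exp_pos _).le
        _ = C := by rw [mul_assoc, ← Real.exp_add]; simp
    have hbb : ∀ u, 0 < u → |b u| ≤ C + |A| + 1 := by
      intro u hu
      have h1 : b u = wiB a u * Real.exp (-(ε * u)) - A * Real.exp (-(ε * u)) := by
        rw [hbd]; ring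
      rw [h1]
      refine (abs_sub _ _).trans ?_
      rw [abs_of_nonneg (mul_nonneg (wi_nonneg ha u) (Real.exp_pos _).le), abs_mul,
        abs_of_pos (Real.exp_pos _)]
      have h2 : Real.exp (-(ε * u)) ≤ 1 := by
        rw [Real.exp_le_one_iff, neg_nonpos]
        positivity
      have h3 := mul_le_mul_of_nonneg_left h2 (abs_nonneg A)
      have h4 := hBe u
      linarith
    have hHe : ContinuousOn (fun s => H (s + ε)) {s : ℂ | 0 ≤ s.re} := by
      apply hHc.comp (f := fun s : ℂ => s + ε)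
      · fun_prop
      · intro s hs
        have hs' : 0 ≤ s.re := hs
        have : 0 ≤ (s + (ε : ℂ)).re := by
          rw [Complex.add_re, Complex.ofReal_re]
          linarith
        exact this
    have hLap : ∀ s : ℂ, 0 < s.re →
        ∫ u in Set.Ioi (0 : ℝ), (b u : ℂ) * Complex.exp (-(s * u)) = H (s + ε) := by
      intro s hs0
      have h1 := wi_laplace ha hs A G hL (s := s + ε)
        (by rw [Complex.add_re, Complex.ofReal_re]; linarith)
      rw [hHd]
      simp only
      rw [← h1]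
      congr 1
      ext u
      rw [hbd]
      simp only
      have h2 : Complex.exp (-((s + ε) * u)) = Complex.exp (-(ε * u)) * Complex.exp (-(s * u)) := by
        rw [← Complex.exp_add]
        congr 1
        ring
      rw [h2]
      push_cast
      ring
    have h1 := wi_bdry hbm (C + |A| + 1) (by positivity) hbb (fun s => H (s + ε)) hHe hLap 1 U
      one_pos
    have h2 : ‖∫ t in (-1 : ℝ)..1, ((1 - |t| : ℝ) : ℂ) *
        Complex.exp (Complex.I * t * ((1 : ℝ) * U)) *
        (fun s => H (s + ε)) (Complex.I * ((1 : ℝ) * t))‖ ≤ D * |1 - (-1)| := by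
      apply intervalIntegral.norm_integral_le_of_norm_le_const
      intro t ht
      rw [Set.uIoc_of_le (by norm_num)] at ht
      rw [norm_mul, norm_mul]
      have n2 : ‖Complex.exp (Complex.I * t * ((1 : ℝ) * U))‖ = 1 := by
        rw [Complex.norm_exp]
        simp
      have ht' : |t| ≤ 1 := abs_le.2 ⟨ht.1.le, ht.2⟩
      have n3 : ‖((1 - |t| : ℝ) : ℂ)‖ ≤ 1 := by
        rw [Complex.norm_real, Real.norm_of_nonneg (by linarith)]
        have := abs_nonneg t
        linarith
      have n5 := hD ε t hε.le hε1 ht.1.le ht.2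
      rw [add_comm] at n5
      rw [n2, mul_one]
      have n4 := norm_nonneg (H (Complex.I * ((1 : ℝ) * t) + ε))
      calc ‖((1 - |t| : ℝ) : ℂ)‖ * ‖H (Complex.I * ((1 : ℝ) * t) + ε)‖
          ≤ 1 * ‖H (Complex.I * ((1 : ℝ) * t) + ε)‖ := by gcongr
        _ ≤ D := by rw [one_mul]; exact n5
    rw [← h1, Complex.norm_real, Real.norm_eq_abs] at h2
    have h3 : |(1 : ℝ) - (-1)| = 2 := by norm_num
    rw [h3] at h2
    have h4 := (abs_le.1 h2).2
    simp only [one_mul] at h4
    have hKi : Integrable (fun u : ℝ => t7_K (U - u)) := by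
      have := wi_K_int 1 U one_pos
      simpa using this
    have hKf : ∫ u : ℝ, t7_K (U - u) = c := by
      have := wi_K_full 1 U one_pos
      simpa using this
    have hKm : Measurable fun u : ℝ => t7_K (U - u) := by
      have := t7_K_measurable
      fun_prop
    have i1 : Integrable (fun u : ℝ => wiB a u * Real.exp (-(ε * u)) * t7_K (U - u))
        (volume.restrict (Set.Ioi 0)) := by
      refine Integrable.mono' (hKi.integrableOn.const_mul C) ?_ ?_
      · apply Measurable.aestronglyMeasurable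
        fun_prop
      · filter_upwards with u
        rw [Real.norm_of_nonneg (mul_nonneg (mul_nonneg (wi_nonneg ha u) (Real.exp_pos _).le)
          (t7_K_nonneg _))]
        exact mul_le_mul_of_nonneg_right (hBe u) (t7_K_nonneg _)
    have i2 : Integrable (fun u : ℝ => A * Real.exp (-(ε * u)) * t7_K (U - u))
        (volume.restrict (Set.Ioi 0)) := by
      refine Integrable.mono' (hKi.integrableOn.const_mul |A|) ?_ ?_
      · apply Measurable.aestronglyMeasurable
        fun_prop
      · filter_upwards [ae_restrict_mem measurableSet_Ioi] with u hu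
        have hu' : 0 < u := hu
        rw [Real.norm_eq_abs, abs_mul, abs_mul, abs_of_pos (Real.exp_pos _),
          abs_of_nonneg (t7_K_nonneg _)]
        have h5 : Real.exp (-(ε * u)) ≤ 1 := by
          rw [Real.exp_le_one_iff, neg_nonpos]
          positivity
        have h6 := mul_le_mul_of_nonneg_left h5 (abs_nonneg A)
        rw [mul_one] at h6
        exact mul_le_mul_of_nonneg_right h6 (t7_K_nonneg _)
    have e1 : ∫ u in Set.Ioi (0 : ℝ), b u * t7_K (U - u) =
        (∫ u in Set.Ioi (0 : ℝ), wiB a u * Real.exp (-(ε * u)) * t7_K (U - u)) -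
          ∫ u in Set.Ioi (0 : ℝ), A * Real.exp (-(ε * u)) * t7_K (U - u) := by
      rw [← integral_sub i1 i2]
      congr 1
      ext u
      rw [hbd]
      ring
    have e2 : ∫ u in Set.Ioi (0 : ℝ), A * Real.exp (-(ε * u)) * t7_K (U - u) ≤ |A| * c := by
      calc ∫ u in Set.Ioi (0 : ℝ), A * Real.exp (-(ε * u)) * t7_K (U - u)
          ≤ ∫ u in Set.Ioi (0 : ℝ), |A| * t7_K (U - u) := by
            apply setIntegral_mono_on i2 (hKi.integrableOn.const_mul _) measurableSet_Ioi
            intro u hu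
            have hu' : 0 < u := hu
            apply mul_le_mul_of_nonneg_right _ (t7_K_nonneg _)
            have h5 : Real.exp (-(ε * u)) ≤ 1 := by
              rw [Real.exp_le_one_iff, neg_nonpos]
              positivity
            calc A * Real.exp (-(ε * u)) ≤ |A| * Real.exp (-(ε * u)) :=
                  mul_le_mul_of_nonneg_right (le_abs_self A) (Real.exp_pos _).le
              _ ≤ |A| * 1 := mul_le_mul_of_nonneg_left h5 (abs_nonneg A)
              _ = |A| := mul_one _
        _ ≤ ∫ u : ℝ, |A| * t7_K (U - u) := by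
            apply setIntegral_le_integral (hKi.const_mul _)
            filter_upwards with u
            exact mul_nonneg (abs_nonneg A) (t7_K_nonneg _)
        _ = |A| * c := by rw [integral_const_mul, hKf]
    have e3 : 1 / 4 * (Real.exp (-1) * wiB a U * Real.exp (-(ε * (U + 1)))) ≤
        ∫ u in Set.Ioi (0 : ℝ), wiB a u * Real.exp (-(ε * u)) * t7_K (U - u) := by
      calc 1 / 4 * (Real.exp (-1) * wiB a U * Real.exp (-(ε * (U + 1))))
          = ∫ u in Set.Ioc U (U + 1), Real.exp (-1) * wiB a U * Real.exp (-(ε * (U + 1))) *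
              (1 / 4) := by
            rw [setIntegral_const]
            simp [Measure.real]
            ring
        _ ≤ ∫ u in Set.Ioc U (U + 1), wiB a u * Real.exp (-(ε * u)) * t7_K (U - u) := by
            apply setIntegral_mono_on
            · exact integrableOn_const (by simp)
            · exact i1.mono_measure (Measure.restrict_mono (fun x hx => by
                have := hx.1
                have h9 : 0 < x := by linarith
                exact h9) le_rfl)
            · exact measurableSet_Ioc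
            · intro u hu
              have hu1 := hu.1
              have hu2 := hu.2
              have k1 : 1 / 4 ≤ t7_K (U - u) := by
                apply wi_K_low
                rw [abs_le]
                constructor <;> linarith
              have k2 : Real.exp (-1) * wiB a U ≤ wiB a u := by
                have h5 := wi_mono ha hu1.le
                have h6 : Real.exp (u - U) ≤ Real.exp 1 := Real.exp_le_exp.2 (by linarith)
                have h7 : wiB a U ≤ Real.exp 1 * wiB a u :=
                  h5.trans (mul_le_mul_of_nonneg_right h6 (wi_nonneg ha u))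
                calc Real.exp (-1) * wiB a U ≤ Real.exp (-1) * (Real.exp 1 * wiB a u) :=
                      mul_le_mul_of_nonneg_left h7 (Real.exp_pos _).le
                  _ = wiB a u := by rw [← mul_assoc, ← Real.exp_add]; simp
              have k3 : Real.exp (-(ε * (U + 1))) ≤ Real.exp (-(ε * u)) := by
                apply Real.exp_le_exp.2
                nlinarith
              have k4 := wi_nonneg ha U
              have k5 := wi_nonneg ha u
              gcongr
        _ ≤ ∫ u in Set.Ioi (0 : ℝ), wiB a u * Real.exp (-(ε * u)) * t7_K (U - u) := by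
            apply setIntegral_mono_set i1
            · filter_upwards with u
              exact mul_nonneg (mul_nonneg (wi_nonneg ha u) (Real.exp_pos _).le)
                (t7_K_nonneg _)
            · refine Eventually.of_forall fun x hx => ?_
              have h8 : U < x := hx.1
              have h9 : 0 < x := by linarith
              exact h9
    rw [e1] at h4
    linarith
  refine ⟨4 * Real.exp 1 * (D * 2 + |A| * c), by positivity, fun U hU => ?_⟩
  have hσ0 : Tendsto (fun n : ℕ => 1 / ((n : ℝ) + 1)) atTop (𝓝 0) :=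
    tendsto_one_div_add_atTop_nhds_zero_nat
  have t1 : Tendsto (fun n : ℕ => 1 / 4 * (Real.exp (-1) * wiB a U *
      Real.exp (-((1 / ((n : ℝ) + 1)) * (U + 1))))) atTop
      (𝓝 (1 / 4 * (Real.exp (-1) * wiB a U * Real.exp (-(0 * (U + 1)))))) := by
    apply Tendsto.const_mul
    apply Tendsto.const_mul
    exact (Real.continuous_exp.tendsto _).comp ((hσ0.mul_const (U + 1)).neg)
  have t2 := le_of_tendsto t1 (Eventually.of_forall fun n : ℕ => key (1 / ((n : ℝ) + 1))
    (by positivity) (by
      rw [div_le_one (by positivity)]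
      have : (0 : ℝ) ≤ n := by positivity
      linarith) U hU)
  rw [zero_mul, neg_zero, Real.exp_zero, mul_one] at t2
  have t3 : Real.exp 1 * Real.exp (-1) = 1 := by rw [← Real.exp_add]; simp
  have t4 := Real.exp_pos 1
  calc wiB a U = 4 * Real.exp 1 * (1 / 4 * (Real.exp (-1) * wiB a U)) := by
        linear_combination -(wiB a U) * t3
    _ ≤ _ := mul_le_mul_of_nonneg_left t2 (by positivity)

include ha hs hG hL in
/-- the smoothed means of `B - A` tend to `0` -/
private theorem wi_smooth (L : ℝ) (hLp : 0 < L) :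
    Tendsto (fun U : ℝ => ∫ u in Set.Ioi (0 : ℝ), (wiB a u - A) * t7_K (L * (U - u))) atTop
      (𝓝 0) := by
  obtain ⟨C, hC, hB⟩ := wi_bounded ha hs A G hG hL
  have hHc : ContinuousOn (fun s : ℂ => (G (s + 1) - A) / (s + 1)) {s : ℂ | 0 ≤ s.re} :=
    wi_H_cont A G hG
  have hm := wi_measurable a
  have h1 : ∀ U : ℝ, ((∫ u in Set.Ioi (0 : ℝ), (wiB a u - A) * t7_K (L * (U - u)) : ℝ) : ℂ) =
      ∫ t in (-1 : ℝ)..1, ((1 - |t| : ℝ) : ℂ) * Complex.exp (Complex.I * t * (L * U)) *
        (fun s : ℂ => (G (s + 1) - A) / (s + 1)) (Complex.I * (L * t)) := by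
    intro U
    apply wi_bdry (b := fun u => wiB a u - A) (by fun_prop) (C + |A| + 1) (by positivity) _
      (fun s : ℂ => (G (s + 1) - A) / (s + 1)) hHc _ L U hLp
    · intro u hu
      refine (abs_sub _ _).trans ?_
      rw [abs_of_nonneg (wi_nonneg ha u)]
      have := hB u hu.le
      linarith
    · intro s hs0
      exact wi_laplace ha hs A G hL hs0
  have h2 := t7_RL (fun s : ℂ => (G (s + 1) - A) / (s + 1)) L hLp
  have h3 : Tendsto (fun U : ℝ =>
      ((∫ u in Set.Ioi (0 : ℝ), (wiB a u - A) * t7_K (L * (U - u)) : ℝ) : ℂ)) atTop (𝓝 0) :=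
    h2.congr fun U => (h1 U).symm
  have h4 := (Complex.continuous_re.tendsto 0).comp h3
  simpa [Function.comp_def] using h4

/-- the mass of the kernel near `0` -/
private noncomputable def wik (R : ℝ) : ℝ := ∫ v in (-R)..R, t7_K v

private theorem wik_eq (L U η : ℝ) (hLp : 0 < L) (hη : 0 < η) :
    ∫ u in Set.Ioc (U - η) (U + η), t7_K (L * (U - u)) = wik (L * η) / L := by
  rw [← intervalIntegral.integral_of_le (by linarith)]
  have h1 := intervalIntegral.integral_comp_sub_mul (a := U - η) (b := U + η) t7_K hLp.ne' (L * U)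
  have h2 : ∀ u : ℝ, L * U - L * u = L * (U - u) := fun u => by ring
  simp only [h2] at h1
  rw [h1, smul_eq_mul, wik]
  rw [show L * (U - (U + η)) = -(L * η) by ring, show L * (U - (U - η)) = L * η by ring]
  ring

private theorem wik_tendsto : Tendsto (fun n : ℕ => wik ((n : ℝ) + 1)) atTop
    (𝓝 (∫ v, t7_K v)) := by
  have h1 : Tendsto (fun n : ℕ => (n : ℝ) + 1) atTop atTop :=
    tendsto_atTop_add_const_right _ _ tendsto_natCast_atTop_atTop
  exact intervalIntegral_tendsto_integral t7_K_integrable (tendsto_neg_atTop_atBot.comp h1) h1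

include ha hs hG hL in
/-- the two inequalities -/
private theorem wi_two : ∃ C : ℝ, 0 ≤ C ∧ ∀ L η U : ℝ, 0 < L → 0 < η → η < U →
    Real.exp (-(2 * η)) * wiB a (U - η) * wik (L * η) ≤
      L * (∫ u in Set.Ioi (0 : ℝ), (wiB a u - A) * t7_K (L * (U - u))) + A * (∫ v, t7_K v) +
        |A| * ((∫ v, t7_K v) - wik (L * η)) ∧
    L * (∫ u in Set.Ioi (0 : ℝ), (wiB a u - A) * t7_K (L * (U - u))) + A * (∫ v, t7_K v) -
        |A| * ((∫ v, t7_K v) - wik (L * η)) ≤
      Real.exp (2 * η) * wiB a (U + η) * (∫ v, t7_K v) +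
        C * ((∫ v, t7_K v) - wik (L * η)) := by
  obtain ⟨C, hC, hB⟩ := wi_bounded ha hs A G hG hL
  refine ⟨C, hC, fun L η U hLp hη hU => ?_⟩
  have hm := wi_measurable a
  set c : ℝ := ∫ v, t7_K v with hc
  have hKi := wi_K_int L U hLp
  have hKf := wi_K_full L U hLp
  rw [← hc] at hKf
  have hKm : Measurable fun u : ℝ => t7_K (L * (U - u)) := by
    have := t7_K_measurable
    fun_prop
  have hk := wik_eq L U η hLp hη
  have hsub : Set.Ioc (U - η) (U + η) ⊆ Set.Ioi 0 := by
    intro x hx
    have := hx.1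
    have h9 : 0 < x := by linarith
    exact h9
  have i1 : Integrable (fun u : ℝ => wiB a u * t7_K (L * (U - u)))
      (volume.restrict (Set.Ioi 0)) := by
    refine Integrable.mono' (hKi.integrableOn.const_mul C) ?_ ?_
    · apply Measurable.aestronglyMeasurable
      fun_prop
    · filter_upwards [ae_restrict_mem measurableSet_Ioi] with u hu
      have hu' : 0 < u := hu
      rw [Real.norm_of_nonneg (mul_nonneg (wi_nonneg ha u) (t7_K_nonneg _))]
      exact mul_le_mul_of_nonneg_right (hB u hu'.le) (t7_K_nonneg _)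
  have i2 : Integrable (fun u : ℝ => A * t7_K (L * (U - u))) (volume.restrict (Set.Ioi 0)) :=
    hKi.integrableOn.const_mul A
  -- the mass of the kernel on the half line
  obtain ⟨κ, hκ⟩ : ∃ κ, κ = ∫ u in Set.Ioi (0 : ℝ), t7_K (L * (U - u)) := ⟨_, rfl⟩
  have hκ1 : κ ≤ c / L := by
    rw [hκ, ← hKf]
    exact setIntegral_le_integral hKi (Eventually.of_forall fun u => t7_K_nonneg _)
  have hκ2 : wik (L * η) / L ≤ κ := by
    rw [hκ, ← hk]
    exact setIntegral_mono_set hKi.integrableOn (Eventually.of_forall fun u => t7_K_nonneg _)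
      hsub.eventuallyLE
  obtain ⟨J, hJ⟩ : ∃ J, J = ∫ u in Set.Ioi (0 : ℝ), wiB a u * t7_K (L * (U - u)) := ⟨_, rfl⟩
  have hE : ∫ u in Set.Ioi (0 : ℝ), (wiB a u - A) * t7_K (L * (U - u)) = J - A * κ := by
    rw [hJ, hκ, ← integral_const_mul, ← integral_sub i1 i2]
    congr 1
    ext u
    ring
  rw [hE]
  have hAk1 : L * (A * κ) ≤ A * c + |A| * (c - wik (L * η)) := by
    have h1 : L * κ ≤ c := by
      have := mul_le_mul_of_nonneg_left hκ1 hLp.le
      rwa [mul_div_cancel₀ _ hLp.ne'] at this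
    have h2 : wik (L * η) ≤ L * κ := by
      have := mul_le_mul_of_nonneg_left hκ2 hLp.le
      rwa [mul_div_cancel₀ _ hLp.ne'] at this
    have h3 : (-A) * (c - L * κ) ≤ |A| * (c - wik (L * η)) := by
      calc (-A) * (c - L * κ) ≤ |A| * (c - L * κ) :=
            mul_le_mul_of_nonneg_right (neg_le_abs A) (by linarith)
        _ ≤ |A| * (c - wik (L * η)) := mul_le_mul_of_nonneg_left (by linarith) (abs_nonneg A)
    linarith
  have hAk2 : A * c - |A| * (c - wik (L * η)) ≤ L * (A * κ) := by
    have h1 : L * κ ≤ c := by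
      have := mul_le_mul_of_nonneg_left hκ1 hLp.le
      rwa [mul_div_cancel₀ _ hLp.ne'] at this
    have h2 : wik (L * η) ≤ L * κ := by
      have := mul_le_mul_of_nonneg_left hκ2 hLp.le
      rwa [mul_div_cancel₀ _ hLp.ne'] at this
    have h3 : A * (c - L * κ) ≤ |A| * (c - wik (L * η)) := by
      calc A * (c - L * κ) ≤ |A| * (c - L * κ) :=
            mul_le_mul_of_nonneg_right (le_abs_self A) (by linarith)
        _ ≤ |A| * (c - wik (L * η)) := mul_le_mul_of_nonneg_left (by linarith) (abs_nonneg A)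
    linarith
  constructor
  · have h1 : Real.exp (-(2 * η)) * wiB a (U - η) * (wik (L * η) / L) ≤ J := by
      calc Real.exp (-(2 * η)) * wiB a (U - η) * (wik (L * η) / L)
          = ∫ u in Set.Ioc (U - η) (U + η), Real.exp (-(2 * η)) * wiB a (U - η) *
              t7_K (L * (U - u)) := by rw [integral_const_mul, hk]
        _ ≤ ∫ u in Set.Ioc (U - η) (U + η), wiB a u * t7_K (L * (U - u)) := by
            apply setIntegral_mono_on (hKi.integrableOn.const_mul _)
              (i1.mono_measure (Measure.restrict_mono hsub le_rfl)) measurableSet_Ioc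
            intro u hu
            apply mul_le_mul_of_nonneg_right _ (t7_K_nonneg _)
            have h5 := wi_mono ha hu.1.le
            have h6 : Real.exp (u - (U - η)) ≤ Real.exp (2 * η) :=
              Real.exp_le_exp.2 (by linarith [hu.2])
            have h7 : wiB a (U - η) ≤ Real.exp (2 * η) * wiB a u :=
              h5.trans (mul_le_mul_of_nonneg_right h6 (wi_nonneg ha u))
            calc Real.exp (-(2 * η)) * wiB a (U - η)
                ≤ Real.exp (-(2 * η)) * (Real.exp (2 * η) * wiB a u) :=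
                  mul_le_mul_of_nonneg_left h7 (Real.exp_pos _).le
              _ = wiB a u := by rw [← mul_assoc, ← Real.exp_add]; simp
        _ ≤ J := by
            rw [hJ]
            apply setIntegral_mono_set i1
            · filter_upwards with u
              exact mul_nonneg (wi_nonneg ha u) (t7_K_nonneg _)
            · exact hsub.eventuallyLE
    have h2 := mul_le_mul_of_nonneg_left h1 hLp.le
    have h3 : L * (Real.exp (-(2 * η)) * wiB a (U - η) * (wik (L * η) / L)) =
        Real.exp (-(2 * η)) * wiB a (U - η) * wik (L * η) := by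
      field_simp
    rw [h3] at h2
    have h4 : L * (J - A * κ) = L * J - L * (A * κ) := by ring
    linarith
  · have h1 : J ≤ Real.exp (2 * η) * wiB a (U + η) * κ + C * (κ - wik (L * η) / L) := by
      have i3 : Integrable (fun u : ℝ => Real.exp (2 * η) * wiB a (U + η) * t7_K (L * (U - u)))
          (volume.restrict (Set.Ioi 0)) := hKi.integrableOn.const_mul _
      have i4 : Integrable (fun u : ℝ => C * (t7_K (L * (U - u)) -
          Set.indicator (Set.Ioc (U - η) (U + η)) (fun u => t7_K (L * (U - u))) u))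
          (volume.restrict (Set.Ioi 0)) := by
        apply Integrable.const_mul
        apply Integrable.sub hKi.integrableOn
        exact (hKi.indicator measurableSet_Ioc).integrableOn
      have e1 : ∫ u in Set.Ioi (0 : ℝ), Set.indicator (Set.Ioc (U - η) (U + η))
          (fun u => t7_K (L * (U - u))) u = wik (L * η) / L := by
        rw [setIntegral_indicator measurableSet_Ioc, Set.inter_eq_right.2 hsub, hk]
      have e2 : ∫ u in Set.Ioi (0 : ℝ), (Real.exp (2 * η) * wiB a (U + η) * t7_K (L * (U - u)) +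
          C * (t7_K (L * (U - u)) - Set.indicator (Set.Ioc (U - η) (U + η))
            (fun u => t7_K (L * (U - u))) u)) =
          Real.exp (2 * η) * wiB a (U + η) * κ + C * (κ - wik (L * η) / L) := by
        rw [integral_add i3 i4, integral_const_mul, integral_const_mul, ← hκ,
          integral_sub hKi.integrableOn (hKi.indicator measurableSet_Ioc).integrableOn, ← hκ, e1]
      rw [hJ, ← e2]
      apply setIntegral_mono_on i1 (i3.add i4) measurableSet_Ioi
      intro u hu
      have hu' : 0 < u := hu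
      have hKn := t7_K_nonneg (L * (U - u))
      change wiB a u * t7_K (L * (U - u)) ≤ Real.exp (2 * η) * wiB a (U + η) * t7_K (L * (U - u)) +
          C * (t7_K (L * (U - u)) - Set.indicator (Set.Ioc (U - η) (U + η))
            (fun u => t7_K (L * (U - u))) u)
      by_cases hu2 : u ∈ Set.Ioc (U - η) (U + η)
      · rw [Set.indicator_of_mem hu2, sub_self, mul_zero, add_zero]
        apply mul_le_mul_of_nonneg_right _ hKn
        have h5 := wi_mono ha hu2.2
        have h6 : Real.exp (U + η - u) ≤ Real.exp (2 * η) :=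
          Real.exp_le_exp.2 (by linarith [hu2.1])
        exact h5.trans (mul_le_mul_of_nonneg_right h6 (wi_nonneg ha _))
      · rw [Set.indicator_of_notMem hu2, sub_zero]
        have h5 := mul_le_mul_of_nonneg_right (hB u hu'.le) hKn
        have h6 : 0 ≤ Real.exp (2 * η) * wiB a (U + η) * t7_K (L * (U - u)) :=
          mul_nonneg (mul_nonneg (Real.exp_pos _).le (wi_nonneg ha _)) hKn
        linarith
    have h2 := mul_le_mul_of_nonneg_left h1 hLp.le
    have h3 : L * (Real.exp (2 * η) * wiB a (U + η) * κ + C * (κ - wik (L * η) / L)) =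
        Real.exp (2 * η) * wiB a (U + η) * (L * κ) + C * (L * κ - wik (L * η)) := by
      field_simp
    rw [h3] at h2
    have h5 : L * κ ≤ c := by
      have := mul_le_mul_of_nonneg_left hκ1 hLp.le
      rwa [mul_div_cancel₀ _ hLp.ne'] at this
    have h6 : Real.exp (2 * η) * wiB a (U + η) * (L * κ) ≤
        Real.exp (2 * η) * wiB a (U + η) * c :=
      mul_le_mul_of_nonneg_left h5 (mul_nonneg (Real.exp_pos _).le (wi_nonneg ha _))
    have h7 : C * (L * κ - wik (L * η)) ≤ C * (c - wik (L * η)) :=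
      mul_le_mul_of_nonneg_left (by linarith) hC
    have h4 : L * (J - A * κ) = L * J - L * (A * κ) := by ring
    linarith

include ha hs hG hL in
private theorem wi_limit : Tendsto (wiB a) atTop (𝓝 A) := by
  obtain ⟨C, hC, h⟩ := wi_two ha hs A G hG hL
  have hcp : 0 < ∫ v, t7_K v := t7_K_integral_pos
  set c : ℝ := ∫ v, t7_K v with hc
  have hσ0 : Tendsto (fun n : ℕ => 1 / ((n : ℝ) + 1)) atTop (𝓝 0) :=
    tendsto_one_div_add_atTop_nhds_zero_nat
  have hk := wik_tendsto
  rw [← hc] at hk
  have hkpos : ∀ᶠ n : ℕ in atTop, 0 < wik ((n : ℝ) + 1) := hk.eventually_const_lt hcp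
  have hLη : ∀ n : ℕ, ((n : ℝ) + 1) ^ 2 * (1 / ((n : ℝ) + 1)) = (n : ℝ) + 1 := by
    intro n
    have : (n : ℝ) + 1 ≠ 0 := by positivity
    field_simp
  have up : Tendsto (fun n : ℕ => Real.exp (2 * (1 / ((n : ℝ) + 1))) *
      (1 / ((n : ℝ) + 1) + A * c + |A| * (c - wik ((n : ℝ) + 1))) / wik ((n : ℝ) + 1)) atTop
      (𝓝 (Real.exp (2 * 0) * (0 + A * c + |A| * (c - c)) / c)) := by
    apply Tendsto.div _ hk hcp.ne'
    apply Tendsto.mul
    · exact (Real.continuous_exp.tendsto _).comp (hσ0.const_mul 2)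
    · exact (hσ0.add_const _).add ((hk.const_sub c).const_mul _)
  have up' : Real.exp (2 * 0) * (0 + A * c + |A| * (c - c)) / c = A := by
    rw [mul_zero, Real.exp_zero, sub_self]
    field_simp
    ring
  have lo : Tendsto (fun n : ℕ => Real.exp (-(2 * (1 / ((n : ℝ) + 1)))) *
      (-(1 / ((n : ℝ) + 1)) + A * c - |A| * (c - wik ((n : ℝ) + 1)) -
        C * (c - wik ((n : ℝ) + 1))) / c) atTop
      (𝓝 (Real.exp (-(2 * 0)) * (-0 + A * c - |A| * (c - c) - C * (c - c)) / c)) := by
    apply Tendsto.div_const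
    apply Tendsto.mul
    · exact (Real.continuous_exp.tendsto _).comp (hσ0.const_mul 2).neg
    · exact ((hσ0.neg.add_const _).sub ((hk.const_sub c).const_mul _)).sub
        ((hk.const_sub c).const_mul _)
  have lo' : Real.exp (-(2 * 0)) * (-0 + A * c - |A| * (c - c) - C * (c - c)) / c = A := by
    rw [mul_zero, neg_zero, Real.exp_zero, sub_self]
    field_simp
    ring
  rw [up'] at up
  rw [lo'] at lo
  have hexp : ∀ x : ℝ, Real.exp x * Real.exp (-x) = 1 := fun x => by
    rw [← Real.exp_add]; simp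
  rw [Metric.tendsto_atTop]
  intro δ hδ
  obtain ⟨n, hn1, hn2, hn3⟩ := ((up.eventually_lt_const (show A < A + δ by linarith)).and
    ((lo.eventually_const_lt (show A - δ < A by linarith)).and hkpos)).exists
  set η : ℝ := 1 / ((n : ℝ) + 1) with hη
  have hηp : 0 < η := by positivity
  have hLp : 0 < ((n : ℝ) + 1) ^ 2 := by positivity
  have hsm := wi_smooth ha hs A G hG hL (((n : ℝ) + 1) ^ 2) hLp
  obtain ⟨U0, hU0⟩ := Metric.tendsto_atTop.1 hsm (η / (((n : ℝ) + 1) ^ 2)) (by positivity)
  refine ⟨max U0 η + 2 * η + 1, fun V hV => ?_⟩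
  have hVa : U0 + 2 * η + 1 ≤ V := by
    have := le_max_left U0 η
    linarith
  have hVb : η + 2 * η + 1 ≤ V := by
    have := le_max_right U0 η
    linarith
  have hEE : ∀ U : ℝ, U0 ≤ U → |((n : ℝ) + 1) ^ 2 * ∫ u in Set.Ioi (0 : ℝ),
      (wiB a u - A) * t7_K (((n : ℝ) + 1) ^ 2 * (U - u))| < η := by
    intro U hU
    have h1 := hU0 U hU
    rw [dist_zero_right, Real.norm_eq_abs, lt_div_iff₀ hLp] at h1
    rw [abs_mul, abs_of_pos hLp, mul_comm]
    exact h1
  have a1 := (h (((n : ℝ) + 1) ^ 2) η (V + η) hLp hηp (by linarith)).1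
  have a2 := (h (((n : ℝ) + 1) ^ 2) η (V - η) hLp hηp (by linarith)).2
  rw [hη, hLη n, ← hη] at a1 a2
  rw [add_sub_cancel_right] at a1
  rw [sub_add_cancel] at a2
  have b1 := (abs_lt.1 (hEE (V + η) (by linarith))).2
  have b2 := (abs_lt.1 (hEE (V - η) (by linarith))).1
  rw [Real.dist_eq, abs_lt]
  constructor
  · -- lower bound
    have c1 : -η + A * c - |A| * (c - wik ((n : ℝ) + 1)) - C * (c - wik ((n : ℝ) + 1)) ≤
        Real.exp (2 * η) * wiB a V * c := by linarith
    have c2 := mul_le_mul_of_nonneg_left c1 (Real.exp_pos (-(2 * η))).le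
    have c3 : Real.exp (-(2 * η)) * (Real.exp (2 * η) * wiB a V * c) = wiB a V * c := by
      have := hexp (2 * η)
      linear_combination (wiB a V * c) * this
    rw [c3] at c2
    have c4 : Real.exp (-(2 * η)) * (-η + A * c - |A| * (c - wik ((n : ℝ) + 1)) -
        C * (c - wik ((n : ℝ) + 1))) / c ≤ wiB a V := by
      rw [div_le_iff₀ hcp]
      exact c2
    linarith
  · have c1 : Real.exp (-(2 * η)) * wiB a V * wik ((n : ℝ) + 1) ≤
        η + A * c + |A| * (c - wik ((n : ℝ) + 1)) := by linarith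
    have c2 := mul_le_mul_of_nonneg_left c1 (Real.exp_pos (2 * η)).le
    have c3 : Real.exp (2 * η) * (Real.exp (-(2 * η)) * wiB a V * wik ((n : ℝ) + 1)) =
        wiB a V * wik ((n : ℝ) + 1) := by
      have := hexp (2 * η)
      linear_combination (wiB a V * wik ((n : ℝ) + 1)) * this
    rw [c3] at c2
    have c4 : wiB a V ≤ Real.exp (2 * η) * (η + A * c + |A| * (c - wik ((n : ℝ) + 1))) /
        wik ((n : ℝ) + 1) := by
      rw [le_div_iff₀ hn3]
      exact c2
    linarith

end main

/-- **Wiener and Ikehara.** Proof: `S(x) = ∑_{n ≤ x} a n`, `B(u) = e^(-u) S(e^u) ≥ 0`. For `Re s > 0`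
`∫_0^∞ B(u) e^(-s u) du = L(s + 1)/(s + 1) = A/s + H(s)` with `H` continuous on `Re s ≥ 0`
(`LSeries_eq_mul_integral`; compare `t7_laplace` in `Tauber.lean`). With the Fejer kernel `t7_K`,
`L > 0` fixed: for `σ > 0`, `∫_0^∞ (B(u) - A) e^(-σ u) K(L (U - u)) du =
∫_(-1)^1 (1 - |t|) e^(i t L U) H(σ + i L t) dt` (as `t7_fubini`; first show `S(x) = O(x^(1 + σ))`,
so that everything converges absolutely); `σ → 0`: monotone convergence gives that
`B(u) K(L (U - u))` is integrable and the identity holds at `σ = 0` (as `t7_boundary`); the right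
side tends to 0 for `U → ∞` (`t7_RL`); hence `∫_0^∞ B(u) K(L (U - u)) du → A ∫ K /L`. Since
`e^u B(u)` is nondecreasing, `B(u) ≥ e^(-2 η) B(U - η)` for `|u - U| ≤ η`: this gives first `B`
bounded and then, with `η = L^(-1/2)`, `limsup B ≤ A (1 + o(1))` and then `liminf B ≥ A (1 - o(1))`
for `L → ∞`. (Or: first the bound `B ≤ C`, then `h = (B - A)/(C + A)` and the argument
of `t7_slow`.) -/
theorem wiener_ikehara (a : ℕ → ℝ) (ha : ∀ n, 0 ≤ a n) (h0 : a 0 = 0)
    (hs : ∀ s : ℂ, 1 < s.re → LSeriesSummable (fun n => (a n : ℂ)) s) (A : ℝ) (G : ℂ → ℂ)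
    (hG : ContinuousOn G {s | 1 ≤ s.re})
    (hL : ∀ s : ℂ, 1 < s.re → LSeries (fun n => (a n : ℂ)) s = A / (s - 1) + G s) :
    Tendsto (fun N : ℕ => (∑ n ∈ Finset.Icc 1 N, a n) / (N : ℝ)) atTop (𝓝 A) := by
  have h1 := wi_limit ha hs A G hG hL
  have h2 : Tendsto (fun N : ℕ => wiB a (Real.log N)) atTop (𝓝 A) :=
    h1.comp (Real.tendsto_log_atTop.comp tendsto_natCast_atTop_atTop)
  refine h2.congr' ?_
  filter_upwards [eventually_gt_atTop 0] with N hN
  have hN' : (0 : ℝ) < N := by exact_mod_cast hN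
  unfold wiB
  rw [Real.exp_neg, Real.exp_log hN', Nat.floor_natCast]
  ring

end Pool.Agent.Lib.MP_1a0ddd_nt.LW
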