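import Pool.Agent.Lib.MP_1a0ddd_nt.Quad.TDefs
import Pool.Agent.Lib.MP_1a0ddd_nt.LW.ZWi
import Pool.Agent.Lib.MP_1a0ddd_nt.LW.ZMel
import Pool.Agent.Lib.MP_1a0ddd_nt.LW.ZNon
import Pool.Agent.Lib.MP_1a0ddd_nt.LW.ZTot
import Pool.Agent.Lib.MP_1a0ddd_nt.LW.ZPow

/-! The prime ideal theorem. -/

set_option autoImplicit false

namespace Pool.Agent.Lib.MP_1a0ddd_nt.LW

open NumberField Module Filter Topology Quad

/-- the abstract prime number theorem -/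
theorem pnt_abstract (a b : ℕ → ℝ) (ha : ∀ n, 0 ≤ a n) (ha0 : a 0 = 0) (ha1 : a 1 = 1)
    (hb : ∀ n, 0 ≤ b n) (hb0 : b 0 = 0)
    (hconv : ∀ n : ℕ, 0 < n → a n * Real.log n = ∑ x ∈ n.divisorsAntidiagonal, b x.1 * a x.2)
    (κ B δ : ℝ) (hκ : 0 < κ) (hδ : 0 < δ) (hδ1 : δ ≤ 1)
    (hF : ∀ T : ℝ, 1 ≤ T → |(∑' n : ℕ, a n * wgt (n / T)) - κ * T| ≤ B * T ^ (1 - δ)) :
    Tendsto (fun N : ℕ => (∑ n ∈ Finset.Icc 1 N, b n) / (N : ℝ)) atTop (𝓝 1) := by
  obtain ⟨h1, G, hG, hG'⟩ := zeta_cont a ha ha0 κ B δ hδ hδ1 hF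
  obtain ⟨h2, H, hH, hH'⟩ := log_deriv_cont a b ha ha0 ha1 hb hb0 hconv h1 (6 * κ) δ
    (by positivity) hδ G hG hG'
  refine wiener_ikehara b hb hb0 h2 1 H hH fun s hs => ?_
  rw [hH' s hs]
  simp

/-- **The prime ideal theorem**, counted by homomorphisms to the prime fields -/
theorem prime_ideal (K : Type) [Field K] [NumberField K] :
    TauMean (fun p => (Nat.card (𝓞 K →+* ZMod p) : ℝ)) 1 := by
  obtain ⟨κ, B, hκ, hF⟩ := ideal_count K
  have hn : 0 < finrank ℚ K := finrank_pos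
  have hn' : (1 : ℝ) ≤ finrank ℚ K := by exact_mod_cast hn
  have hB0 : ∀ n, 0 ≤ idealB K n := by
    intro n
    rw [idealB]
    split_ifs
    · exact le_rfl
    · exact finsum_nonneg fun I => lamI_nonneg K I.1
  have h1 := pnt_abstract (idealA K) (idealB K) (fun n => by rw [idealA]; split_ifs <;> positivity)
    (by rw [idealA, if_pos rfl]) (idealA_one K) hB0 (by rw [idealB, if_pos rfl]) (ideal_conv K)
    κ B _ hκ (by positivity) (inv_le_one_of_one_le₀ hn') hF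
  have h2 := pow_negl (idealB K) hB0 _ (idealB_le K) (idealB_eq_zero K) 1 h1
  unfold TauMean
  refine h2.congr fun N => ?_
  congr 1
  refine Finset.sum_congr rfl fun p hp => ?_
  rw [idealB_prime K p (Finset.mem_filter.1 hp).2]

end Pool.Agent.Lib.MP_1a0ddd_nt.LW
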