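import Pool.Agent.Lib.MP_1a0ddd_nt.LW.CNeg
import Pool.Agent.Lib.MP_1a0ddd_nt.LW.ZLand

/-! Dimension zero. -/

set_option autoImplicit false

namespace Pool.Agent.Lib.MP_1a0ddd_nt.LW

open Polynomial Quad NumberField

/-- `D` divides its norm, so `z D ≠ 0` for all large `p` -/
theorem langWeilT_int (K : Type) [Field K] [NumberField K] : LangWeilT (𝓞 K) 0 := by
  intro D hD
  have hn : Ideal.absNorm (Ideal.span {D}) ≠ 0 := by
    rw [Ne, Ideal.absNorm_eq_zero_iff, Ideal.span_singleton_eq_bot]
    exact hD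
  refine (prime_ideal K).congr' (Ideal.absNorm (Ideal.span {D}) + 1) ?_
  intro p hp hpp
  rw [pow_zero, div_one]
  have hall : ∀ z : 𝓞 K →+* ZMod p, z D ≠ 0 := by
    intro z hz
    obtain ⟨c, hc⟩ := Ideal.mem_span_singleton.1 (Ideal.absNorm_mem (Ideal.span {D}))
    have h1 : z ((Ideal.absNorm (Ideal.span {D}) : ℕ) : 𝓞 K) = 0 := by
      rw [hc, map_mul, hz, zero_mul]
    rw [map_natCast, ZMod.natCast_eq_zero_iff] at h1
    have h2 := Nat.le_of_dvd (Nat.pos_of_ne_zero hn) h1
    omega
  rw [Nat.card_congr (Equiv.subtypeUnivEquiv hall)]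

private theorem numberField_of (R K : Type) [CommRing R] [IsDomain R] [CharZero R]
    [Algebra.FiniteType ℤ R] (hd : Algebra.trdeg ℤ R = ((0 : ℕ) : Cardinal)) [Field K] [Algebra R K]
    [IsFractionRing R K] : NumberField K := by
  have hc : CharZero K := charZero_of_injective_algebraMap (IsFractionRing.injective R K)
  have halg : Algebra.IsAlgebraic ℤ R := by
    apply trdeg_eq_zero_iff.1
    simpa using hd
  have h1 : Algebra.IsAlgebraic R K := IsLocalization.isAlgebraic K (nonZeroDivisors R)
  have h2 : Algebra.IsAlgebraic ℤ K := Algebra.IsAlgebraic.trans ℤ R K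
  have h3 : Algebra.IsAlgebraic ℚ K := IsFractionRing.comap_isAlgebraic_iff.1 h2
  have h4 : Algebra.EssFiniteType ℤ R := Algebra.EssFiniteType.of_finiteType ℤ R
  have h5 : Algebra.EssFiniteType R K := Algebra.EssFiniteType.of_isLocalization K (nonZeroDivisors R)
  have h6 : Algebra.EssFiniteType ℤ K := Algebra.EssFiniteType.comp ℤ R K
  have h7 : Algebra.EssFiniteType ℚ K := Algebra.EssFiniteType.of_comp ℤ ℚ K
  have hfin : FiniteDimensional ℚ K := by
    obtain ⟨S, hS⟩ := IntermediateField.fg_top ℚ K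
    have h8 : FiniteDimensional ℚ (IntermediateField.adjoin ℚ (S : Set K)) :=
      IntermediateField.finiteDimensional_adjoin fun x _ => (h3.isAlgebraic x).isIntegral
    rw [hS] at h8
    exact IntermediateField.topEquiv.toLinearEquiv.finiteDimensional
  exact ⟨⟩

/-- the fraction field of `R` is a number field; `langWeilT_birat` for `𝓞 K` and `R` -/
theorem langWeilT_zero (R : Type) [CommRing R] [IsDomain R] [CharZero R]
    [Algebra.FiniteType ℤ R] (hd : Algebra.trdeg ℤ R = ((0 : ℕ) : Cardinal)) :
    LangWeilT R 0 := by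
  have hnf : NumberField (FractionRing R) := numberField_of R (FractionRing R) hd
  have hft : Algebra.FiniteType ℤ (𝓞 (FractionRing R)) := inferInstance
  refine langWeilT_birat 0 (fun e he => absurd he (Nat.not_lt_zero e)) (𝓞 (FractionRing R)) R hd
    ?_ (langWeilT_int (FractionRing R))
  exact birat_of_fraction (K := FractionRing R)

end Pool.Agent.Lib.MP_1a0ddd_nt.LW
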