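import Mathlib

/-! Birational domains. -/

set_option autoImplicit false

namespace Pool.Agent.Lib.MP_1a0ddd_nt.LW

/-- isomorphic after inverting one element -/
def Birat (A B : Type) [CommRing A] [CommRing B] : Prop :=
  ∃ (a : A) (b : B), a ≠ 0 ∧ b ≠ 0 ∧ Nonempty (Localization.Away a ≃+* Localization.Away b)

/-- the subring `A[1/a]` of `K` -/
private def locR (A : Type) {K : Type} [CommRing A] [Field K] [Algebra A K] (a : A) : Subring K :=
  Subring.closure (Set.range (algebraMap A K) ∪ {(algebraMap A K a)⁻¹})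

section

variable {A K : Type} [CommRing A] [IsDomain A] [Field K] [Algebra A K] [IsFractionRing A K]

omit [IsDomain A] [IsFractionRing A K] in
private theorem mem_locR (a r : A) : algebraMap A K r ∈ locR A a :=
  Subring.subset_closure (Or.inl ⟨r, rfl⟩)

omit [IsDomain A] [IsFractionRing A K] in
private theorem inv_locR (a : A) : (algebraMap A K a)⁻¹ ∈ locR A a :=
  Subring.subset_closure (Or.inr rfl)

omit [IsDomain A] [IsFractionRing A K] in
private theorem locR_le {a : A} {S : Subring K} (h1 : ∀ r : A, algebraMap A K r ∈ S)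
    (h2 : (algebraMap A K a)⁻¹ ∈ S) : locR A a ≤ S := by
  rw [locR, Subring.closure_le]
  rintro x (⟨r, rfl⟩ | hx)
  · exact h1 r
  · rw [Set.mem_singleton_iff.1 hx]
    exact h2

private theorem ne_K {a : A} (ha : a ≠ 0) : algebraMap A K a ≠ 0 := fun h =>
  ha ((IsFractionRing.injective A K) (by rw [h, map_zero]))

/-- the localisation is isomorphic to the subring -/
private theorem locR_equiv {a : A} (ha : a ≠ 0) :
    Nonempty (Localization.Away a ≃+* locR A (K := K) a) := by
  have hu : IsUnit (algebraMap A K a) := isUnit_iff_ne_zero.2 (ne_K ha)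
  let φ : Localization.Away a →+* K := IsLocalization.Away.lift a hu
  have h1 : ∀ r, φ (algebraMap _ _ r) = algebraMap A K r := fun r =>
    IsLocalization.Away.lift_eq a hu r
  have h2 : φ (IsLocalization.Away.invSelf a) = (algebraMap A K a)⁻¹ := by
    have h3 : algebraMap A K a * φ (IsLocalization.Away.invSelf a) = 1 := by
      rw [← h1 a, ← map_mul, IsLocalization.Away.mul_invSelf, map_one]
    exact eq_inv_of_mul_eq_one_right h3
  have hsurj : ∀ x : Localization.Away a, ∃ (n : ℕ) (r : A),
      x * algebraMap A (Localization.Away a) a ^ n = algebraMap A (Localization.Away a) r := by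
    intro x
    obtain ⟨n, r, h⟩ := IsLocalization.Away.surj a x
    exact ⟨n, r, h⟩
  have hinj : Function.Injective φ := by
    rw [injective_iff_map_eq_zero]
    intro x hx
    obtain ⟨n, r, h⟩ := hsurj x
    have h4 : algebraMap A K r = 0 := by
      rw [← h1 r, ← h, map_mul, hx, zero_mul]
    have h5 : r = 0 := by
      by_contra h6
      exact ne_K h6 h4
    rw [h5, map_zero] at h
    have h7 : IsUnit (algebraMap A (Localization.Away a) a ^ n) :=
      (IsLocalization.Away.algebraMap_isUnit a).pow n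
    exact (h7.mul_left_eq_zero).1 h
  have hrange : φ.range = locR A a := by
    apply le_antisymm
    · rintro _ ⟨x, rfl⟩
      obtain ⟨n, r, h⟩ := hsurj x
      have h4 : φ x * algebraMap A K a ^ n = algebraMap A K r := by
        rw [← h1 r, ← h, map_mul, map_pow, h1]
      have h5 : φ x = algebraMap A K r * ((algebraMap A K a)⁻¹) ^ n := by
        rw [inv_pow, ← h4, mul_inv_cancel_right₀ (pow_ne_zero n (ne_K ha))]
      rw [h5]
      exact (locR A a).mul_mem (mem_locR a r) ((locR A a).pow_mem (inv_locR a) n)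
    · exact locR_le (fun r => ⟨_, h1 r⟩) ⟨_, h2⟩
  have e1 : Localization.Away a ≃+* φ.range :=
    RingEquiv.ofBijective φ.rangeRestrict
      ⟨fun x y hxy => hinj (congrArg Subtype.val hxy), φ.rangeRestrict_surjective⟩
  rw [hrange] at e1
  exact ⟨e1⟩

private theorem locR_surj {a : A} (ha : a ≠ 0) {x : K} (hx : x ∈ locR A a) :
    ∃ (n : ℕ) (r : A), x * algebraMap A K a ^ n = algebraMap A K r := by
  have ha' : algebraMap A K a ≠ 0 := ne_K ha
  rw [locR] at hx
  induction hx using Subring.closure_induction with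
  | mem x hx =>
    rcases hx with ⟨r, rfl⟩ | hx
    · exact ⟨0, r, by simp⟩
    · refine ⟨1, 1, ?_⟩
      rw [Set.mem_singleton_iff.1 hx, pow_one, inv_mul_cancel₀ ha', map_one]
  | zero => exact ⟨0, 0, by simp⟩
  | one => exact ⟨0, 1, by simp⟩
  | add x y _ _ hx hy =>
    obtain ⟨n, r, h⟩ := hx
    obtain ⟨k, q, h'⟩ := hy
    refine ⟨n + k, r * a ^ k + q * a ^ n, ?_⟩
    simp only [map_add, map_mul, map_pow, ← h, ← h', pow_add]
    ring
  | neg x _ hx =>
    obtain ⟨n, r, h⟩ := hx
    exact ⟨n, -r, by rw [neg_mul, h, map_neg]⟩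
  | mul x y _ _ hx hy =>
    obtain ⟨n, r, h⟩ := hx
    obtain ⟨k, q, h'⟩ := hy
    refine ⟨n + k, r * q, ?_⟩
    simp only [map_mul, ← h, ← h', pow_add]
    ring

/-- a finitely generated ring is contained in `A[1/s]` -/
private theorem exists_s {B : Type} [CommRing B] [Algebra B K] [Algebra.FiniteType ℤ B] :
    ∃ s : A, s ≠ 0 ∧ ∀ b : B, algebraMap B K b ∈ locR A (K := K) s := by
  classical
  obtain ⟨T, hT⟩ := (Algebra.FiniteType.out : (⊤ : Subalgebra ℤ B).FG)
  have hfrac : ∀ b : B, ∃ q : A, q ≠ 0 ∧ ∃ r : A, algebraMap B K b * algebraMap A K q =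
      algebraMap A K r := by
    intro b
    obtain ⟨⟨r, q⟩, h⟩ := IsLocalization.surj (nonZeroDivisors A) (algebraMap B K b)
    exact ⟨q, nonZeroDivisors.ne_zero q.2, r, h⟩
  choose q hq r hr using hfrac
  have hs : ∏ b ∈ T, q b ≠ 0 := Finset.prod_ne_zero_iff.2 fun b _ => hq b
  refine ⟨∏ b ∈ T, q b, hs, ?_⟩
  set s := ∏ b ∈ T, q b with hsd
  have hgen : ∀ b ∈ T, algebraMap B K b ∈ locR A (K := K) s := by
    intro b hb
    have h1 : s = q b * ∏ c ∈ T.erase b, q c := (Finset.mul_prod_erase T q hb).symm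
    have h2 : algebraMap B K b * algebraMap A K s =
        algebraMap A K (r b * ∏ c ∈ T.erase b, q c) := by
      rw [h1, map_mul, ← mul_assoc, hr, ← map_mul]
    have h3 : algebraMap B K b = algebraMap A K (r b * ∏ c ∈ T.erase b, q c) *
        (algebraMap A K s)⁻¹ := by
      rw [← h2, mul_inv_cancel_right₀ (ne_K hs)]
    rw [h3]
    exact (locR A s).mul_mem (mem_locR s _) (inv_locR s)
  intro b
  have hb : b ∈ Algebra.adjoin ℤ (T : Set B) := by rw [hT]; trivial
  induction hb using Algebra.adjoin_induction with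
  | mem x hx => exact hgen x hx
  | algebraMap n =>
    have h1 : algebraMap B K (algebraMap ℤ B n) = ((n : ℤ) : K) := by
      simp
    rw [h1]
    exact intCast_mem _ n
  | add x y _ _ hx hy => rw [map_add]; exact (locR A s).add_mem hx hy
  | mul x y _ _ hx hy => rw [map_mul]; exact (locR A s).mul_mem hx hy

end

/-- Proof: inside `K`: there is `s ∈ A`, `s ≠ 0`, with `B ⊆ A[1/s]` (finitely many generators), and
`t ∈ B`, `t ≠ 0`, with `A[1/s] ⊆ B[1/t]`; `t = r/s^n` with `r ∈ A`; then `A[1/(s r)] = B[1/t]` inside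
`K`. -/
theorem birat_of_fraction {A B K : Type} [CommRing A] [IsDomain A] [CommRing B] [IsDomain B]
    [Field K] [Algebra A K] [IsFractionRing A K] [Algebra B K] [IsFractionRing B K]
    [Algebra.FiniteType ℤ A] [Algebra.FiniteType ℤ B] : Birat A B := by
  obtain ⟨s, hs, hB⟩ := exists_s (A := A) (K := K) (B := B)
  obtain ⟨u, hu, hA⟩ := exists_s (A := B) (K := K) (B := A)
  have hsK : algebraMap A K s ≠ 0 := ne_K hs
  have huK : algebraMap B K u ≠ 0 := ne_K hu
  obtain ⟨n, x, hx⟩ := locR_surj hu (hA s)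
  have hxK : algebraMap B K x ≠ 0 := by
    rw [← hx]
    exact mul_ne_zero hsK (pow_ne_zero n huK)
  have hx0 : x ≠ 0 := fun h => hxK (by rw [h, map_zero])
  -- the element `t`
  set t : B := u * x with ht
  have ht0 : t ≠ 0 := mul_ne_zero hu hx0
  have htK : algebraMap B K t ≠ 0 := ne_K ht0
  have hiu : (algebraMap B K u)⁻¹ ∈ locR B (K := K) t := by
    have h1 : (algebraMap B K u)⁻¹ = algebraMap B K x * (algebraMap B K t)⁻¹ := by
      rw [ht, map_mul, mul_inv, mul_comm (algebraMap B K u)⁻¹, ← mul_assoc,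
        mul_inv_cancel₀ hxK, one_mul]
    rw [h1]
    exact (locR B t).mul_mem (mem_locR t x) (inv_locR t)
  have hix : (algebraMap B K x)⁻¹ ∈ locR B (K := K) t := by
    have h1 : (algebraMap B K x)⁻¹ = algebraMap B K u * (algebraMap B K t)⁻¹ := by
      rw [ht, map_mul, mul_inv, ← mul_assoc, mul_inv_cancel₀ huK, one_mul]
    rw [h1]
    exact (locR B t).mul_mem (mem_locR t u) (inv_locR t)
  have hut : locR B (K := K) u ≤ locR B t := locR_le (fun r => mem_locR t r) hiu
  have hAt : ∀ r : A, algebraMap A K r ∈ locR B (K := K) t := fun r => hut (hA r)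
  have his : (algebraMap A K s)⁻¹ ∈ locR B (K := K) t := by
    have h1 : (algebraMap A K s)⁻¹ = algebraMap B K u ^ n * (algebraMap B K x)⁻¹ := by
      rw [← hx, mul_inv, mul_comm (algebraMap A K s)⁻¹, ← mul_assoc,
        mul_inv_cancel₀ (pow_ne_zero n huK), one_mul]
    rw [h1]
    exact (locR B t).mul_mem ((locR B t).pow_mem (mem_locR t u) n) hix
  -- the element `r`
  obtain ⟨k, r, hr⟩ := locR_surj hs (hB t)
  have hrK : algebraMap A K r ≠ 0 := by
    rw [← hr]
    exact mul_ne_zero htK (pow_ne_zero k hsK)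
  have hr0 : r ≠ 0 := fun h => hrK (by rw [h, map_zero])
  have hsr : s * r ≠ 0 := mul_ne_zero hs hr0
  have hsrK : algebraMap A K (s * r) ≠ 0 := ne_K hsr
  have hEq : locR A (K := K) (s * r) = locR B t := by
    apply le_antisymm
    · refine locR_le hAt ?_
      rw [map_mul, mul_inv, ← hr, mul_inv]
      refine (locR B t).mul_mem his ((locR B t).mul_mem (inv_locR t) ?_)
      rw [← inv_pow]
      exact (locR B t).pow_mem his k
    · have h1 : (algebraMap A K s)⁻¹ ∈ locR A (K := K) (s * r) := by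
        have h2 : (algebraMap A K s)⁻¹ = algebraMap A K r * (algebraMap A K (s * r))⁻¹ := by
          rw [map_mul, mul_inv, mul_comm (algebraMap A K s)⁻¹, ← mul_assoc,
            mul_inv_cancel₀ hrK, one_mul]
        rw [h2]
        exact (locR A (s * r)).mul_mem (mem_locR _ r) (inv_locR _)
      have h3 : (algebraMap A K r)⁻¹ ∈ locR A (K := K) (s * r) := by
        have h2 : (algebraMap A K r)⁻¹ = algebraMap A K s * (algebraMap A K (s * r))⁻¹ := by
          rw [map_mul, mul_inv, ← mul_assoc, mul_inv_cancel₀ hsK, one_mul]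
        rw [h2]
        exact (locR A (s * r)).mul_mem (mem_locR _ s) (inv_locR _)
      have h4 : locR A (K := K) s ≤ locR A (s * r) := locR_le (fun q => mem_locR _ q) h1
      refine locR_le (fun b => h4 (hB b)) ?_
      have h5 : (algebraMap B K t)⁻¹ = algebraMap A K s ^ k * (algebraMap A K r)⁻¹ := by
        rw [← hr, mul_inv, mul_comm (algebraMap B K t)⁻¹, ← mul_assoc,
          mul_inv_cancel₀ (pow_ne_zero k hsK), one_mul]
      rw [h5]
      exact (locR A (s * r)).mul_mem ((locR A (s * r)).pow_mem (mem_locR _ s) k) h3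
  obtain ⟨e1⟩ := locR_equiv (K := K) hsr
  obtain ⟨e2⟩ := locR_equiv (K := K) ht0
  refine ⟨s * r, t, hsr, ht0, ⟨?_⟩⟩
  rw [hEq] at e1
  exact e1.trans e2.symm

end Pool.Agent.Lib.MP_1a0ddd_nt.LW
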