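import Pool.Agent.Lib.MP_1a0ddd_nt.LW.CFldA

/-! Fields of transcendence degree one over a relatively algebraically closed subfield. -/

set_option autoImplicit false

namespace Pool.Agent.Lib.MP_1a0ddd_nt.LW

open Polynomial IntermediateField

/-- Proof: a transcendence basis `x₀, ..., x_d` of `K` over `ℚ`, `k₀ = ℚ(x₁, ..., x_d)`, `x = x₀`, `k` the
algebraic closure of `k₀` in `K`. `K` is finite over `k₀(x)` (finitely generated and algebraic). An
element of `k` has the same degree over `k₀` and over `k₀(x)` (`x` is transcendental over `k`), so the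
degrees are bounded and `k` is finite over `k₀` (primitive element). -/
theorem exists_regular (K : Type) [Field K] [CharZero K] (hfg : (⊤ : IntermediateField ℚ K).FG)
    (d : ℕ) (hd : Algebra.trdeg ℚ K = ((d + 1 : ℕ) : Cardinal)) :
    ∃ (k : IntermediateField ℚ K) (x : K), k.FG ∧ Algebra.trdeg ℚ k = (d : Cardinal) ∧
      (∀ a : K, IsAlgebraic k a → a ∈ (algebraMap k K).range) ∧ Transcendental k x ∧
      FiniteDimensional (IntermediateField.adjoin k {x}) K := by
  exact exists_regular_aux K hfg d hd

open scoped IntermediateField.algebraAdjoinAdjoin in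
private theorem exists_integral_gen {k K : Type} [Field k] [CharZero k] [Field K] [Algebra k K]
    (x : K) [FiniteDimensional (IntermediateField.adjoin k {x}) K] :
    ∃ y : K, IsIntegral (Algebra.adjoin k {x}) y ∧ IntermediateField.adjoin k {x, y} = ⊤ := by
  obtain ⟨α, hα⟩ := Field.exists_primitive_element (IntermediateField.adjoin k {x}) K
  have h1 : IsAlgebraic (IntermediateField.adjoin k {x}) α := Algebra.IsAlgebraic.isAlgebraic α
  have h2 : IsAlgebraic (Algebra.adjoin k {x}) α :=
    (IsFractionRing.isAlgebraic_iff (Algebra.adjoin k {x}) (IntermediateField.adjoin k {x}) K).2 h1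
  obtain ⟨a, ha, hi⟩ := h2.exists_integral_multiple
  refine ⟨a • α, hi, ?_⟩
  rw [← IntermediateField.adjoin_simple_adjoin_simple]
  have h3 : IntermediateField.adjoin (IntermediateField.adjoin k {x}) {a • α} = ⊤ := by
    rw [eq_top_iff, ← hα, IntermediateField.adjoin_simple_le_iff]
    have ha' : (a : K) ≠ 0 := by simpa using ha
    have h4 : a • α ∈ IntermediateField.adjoin (IntermediateField.adjoin k {x}) {a • α} :=
      IntermediateField.mem_adjoin_simple_self _ _
    have hmem : (a : K) ∈ IntermediateField.adjoin k {x} :=
      IntermediateField.algebra_adjoin_le_adjoin k {x} a.2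
    have h5 : (⟨(a : K), hmem⟩ : IntermediateField.adjoin k {x})⁻¹ • (a • α) = α := by
      rw [Subalgebra.smul_def]
      change ((⟨(a : K), hmem⟩ : IntermediateField.adjoin k {x})⁻¹ : IntermediateField.adjoin k {x})
        * ((a : K) * α) = α
      simp only [IntermediateField.coe_inv]
      field_simp
    have h6 := IntermediateField.smul_mem _ h4
      (x := (⟨(a : K), hmem⟩ : IntermediateField.adjoin k {x})⁻¹)
    rwa [h5] at h6
  rw [h3]
  exact IntermediateField.restrictScalars_top

private theorem evalEval_map_aeval {k K : Type} [Field k] [Field K] [Algebra k K] (x y : K)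
    (f : k[X][X]) : (f.map (mapRingHom (algebraMap k K))).evalEval x y =
      f.eval₂ (aeval (R := k) x).toRingHom y := by
  rw [← eval₂_evalRingHom, eval₂_map]
  congr 1
  ext <;> simp

/-- Proof: a primitive element, multiplied by an element of `k[x]` to be integral over `k[x]`; its
minimal polynomial over `k(x)` has coefficients in `k[x]` (`k[x]` is integrally closed) and is
irreducible in `k[x][Y]` (Gauss, monic). -/
theorem exists_curve {k K : Type} [Field k] [CharZero k] [Field K] [Algebra k K] (x : K)
    (hx : Transcendental k x) [FiniteDimensional (IntermediateField.adjoin k {x}) K] :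
    ∃ (y : K) (f : k[X][X]), f.Monic ∧ 0 < f.natDegree ∧ Irreducible f ∧
      (f.map (mapRingHom (algebraMap k K))).evalEval x y = 0 ∧
      IntermediateField.adjoin k {x, y} = ⊤ := by
  obtain ⟨y, hy, htop⟩ := exists_integral_gen (k := k) x
  let _ : Algebra k[X] K := (aeval (R := k) x).toRingHom.toAlgebra
  have hinj : Function.Injective (algebraMap k[X] K) :=
    transcendental_iff_injective.1 hx
  have : FaithfulSMul k[X] K := (faithfulSMul_iff_algebraMap_injective _ _).2 hinj
  have hint : IsIntegral k[X] y := by
    obtain ⟨p, hp, hp0⟩ := hy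
    have hle : ∀ a : k[X], aeval x a ∈ Algebra.adjoin k {x} := fun a => aeval_mem_adjoin_singleton k x
    let φ : k[X] →+* Algebra.adjoin k {x} := (aeval (R := k) x).toRingHom.codRestrict
      (Algebra.adjoin k {x}) hle
    have hφ : Function.Surjective φ := by
      rintro ⟨b, hb⟩
      rw [Algebra.adjoin_singleton_eq_range_aeval] at hb
      obtain ⟨q, hq⟩ := hb
      exact ⟨q, Subtype.ext hq⟩
    have hlift : p ∈ lifts φ := by
      rw [mem_lifts]
      exact map_surjective φ hφ p
    obtain ⟨q, hq, -, hqm⟩ := lifts_and_natDegree_eq_and_monic hlift hp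
    refine ⟨q, hqm, ?_⟩
    rw [← hp0, ← hq, eval₂_map]
    rfl
  refine ⟨y, minpoly k[X] y, minpoly.monic hint, minpoly.natDegree_pos hint,
    (minpoly.prime_of_isIntegrallyClosed hint).irreducible, ?_, htop⟩
  rw [evalEval_map_aeval]
  exact minpoly.aeval k[X] y

end Pool.Agent.Lib.MP_1a0ddd_nt.LW
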