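import Mathlib

/-! Fields of transcendence degree one over a relatively algebraically closed subfield: lemmas. -/

set_option autoImplicit false

namespace Pool.Agent.Lib.MP_1a0ddd_nt.LW

open Polynomial IntermediateField

/-- elements of an algebraic extension which are independent stay independent over `k₀(x)` -/
theorem linInd_adjoin {k₀ k K : Type} [Field k₀] [Field k] [Field K] [Algebra k₀ k]
    [Algebra k K] [Algebra k₀ K] [IsScalarTower k₀ k K] [Algebra.IsAlgebraic k₀ k] (x : K)
    (hx : Transcendental k₀ x) {ι : Type} (b : ι → k) (hb : LinearIndependent k₀ b) :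
    LinearIndependent (IntermediateField.adjoin k₀ {x}) (fun i => algebraMap k K (b i)) := by
  classical
  open scoped IntermediateField.algebraAdjoinAdjoin in
  rw [← LinearIndependent.iff_fractionRing (Algebra.adjoin k₀ {x})
    (IntermediateField.adjoin k₀ {x})]
  have hxk : Transcendental k x := fun h => hx (h.restrictScalars k₀)
  rw [linearIndependent_iff']
  intro s g hg i hi
  have hp : ∀ i, ∃ p : k₀[X], aeval x p = (g i : K) := fun i => by
    have h : (g i : K) ∈ (aeval x : k₀[X] →ₐ[k₀] K).range :=
      (Algebra.adjoin_singleton_eq_range_aeval k₀ x) ▸ (g i).2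
    exact h
  choose p hp using hp
  have h1 : aeval x (∑ i ∈ s, (p i).map (algebraMap k₀ k) * C (b i)) = 0 := by
    rw [map_sum, ← hg]
    refine Finset.sum_congr rfl fun i _ => ?_
    rw [map_mul, aeval_C, aeval_map_algebraMap, hp]
    rfl
  have h2 : ∑ i ∈ s, (p i).map (algebraMap k₀ k) * C (b i) = 0 := by
    by_contra h0
    exact hxk ⟨_, h0, h1⟩
  have h3 : p i = 0 := by
    ext n
    rw [coeff_zero]
    have h4 := congrArg (fun q : k[X] => q.coeff n) h2
    simp only [finsetSum_coeff, coeff_mul_C, coeff_map, coeff_zero] at h4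
    refine (linearIndependent_iff'.1 hb) s (fun i => (p i).coeff n) ?_ i hi
    rw [← h4]
    exact Finset.sum_congr rfl fun i _ => by rw [Algebra.smul_def]
  apply Subtype.ext
  rw [← hp i, h3, map_zero]
  rfl

/-- the relative algebraic closure is finite -/
theorem finite_algClosure {k₀ k K : Type} [Field k₀] [Field k] [Field K] [Algebra k₀ k]
    [Algebra k K] [Algebra k₀ K] [IsScalarTower k₀ k K] [Algebra.IsAlgebraic k₀ k] (x : K)
    (hx : Transcendental k₀ x) [FiniteDimensional (IntermediateField.adjoin k₀ {x}) K] :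
    FiniteDimensional k₀ k := by
  rw [FiniteDimensional, ← Module.rank_lt_aleph0_iff]
  let b := Module.Basis.ofVectorSpace k₀ k
  have h := (linInd_adjoin x hx b b.linearIndependent).cardinal_lift_le_rank
  rw [← b.mk_eq_rank'']
  have h2 := Module.rank_lt_aleph0 (IntermediateField.adjoin k₀ {x}) K
  rw [Cardinal.lift_id, Cardinal.lift_id] at h
  exact h.trans_lt h2

/-- finiteness over a field which contains a transcendence basis -/
theorem finite_of_basis {K : Type} [Field K] [CharZero K] [Algebra.EssFiniteType ℚ K]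
    (E₀ : IntermediateField ℚ K) [Algebra.IsAlgebraic E₀ K] (k : IntermediateField ℚ K)
    (L : IntermediateField k K) (h : ∀ y ∈ E₀, y ∈ L) : FiniteDimensional L K := by
  have : Algebra.EssFiniteType L K := Algebra.EssFiniteType.of_comp ℚ L K
  let f : E₀ →+* L := 
    { toFun := fun y => ⟨y.1, h _ y.2⟩
      map_one' := rfl
      map_mul' := fun _ _ => rfl
      map_zero' := rfl
      map_add' := fun _ _ => rfl }
  let _ : Algebra E₀ L := f.toAlgebra
  have : IsScalarTower E₀ L K := IsScalarTower.of_algebraMap_eq fun _ => rfl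
  have : Algebra.IsAlgebraic L K := Algebra.IsAlgebraic.extendScalars (R := E₀) f.injective
  exact Algebra.finite_of_essFiniteType_of_isAlgebraic

theorem ess_congr {k : Type} [Field k] (i j : Algebra ℚ k)
    (h : @Algebra.EssFiniteType ℚ k _ _ i) : @Algebra.EssFiniteType ℚ k _ _ j := by
  have e : i = j := Subsingleton.elim _ _
  rw [← e]
  exact h

theorem exists_regular_aux (K : Type) [Field K] [CharZero K]
    (hfg : (⊤ : IntermediateField ℚ K).FG)
    (d : ℕ) (hd : Algebra.trdeg ℚ K = ((d + 1 : ℕ) : Cardinal)) :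
    ∃ (k : IntermediateField ℚ K) (x : K), k.FG ∧ Algebra.trdeg ℚ k = (d : Cardinal) ∧
      (∀ a : K, IsAlgebraic k a → a ∈ (algebraMap k K).range) ∧ Transcendental k x ∧
      FiniteDimensional (IntermediateField.adjoin k {x}) K := by
  have hess : Algebra.EssFiniteType ℚ K := IntermediateField.fg_top_iff.1 hfg
  obtain ⟨s, hs⟩ := exists_isTranscendenceBasis ℚ K
  have hcard := hs.cardinalMk_eq_trdeg
  rw [hd] at hcard
  have hfin : s.Finite := Cardinal.lt_aleph0_iff_set_finite.1 (by rw [hcard]; exact Cardinal.natCast_lt_aleph0)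
  have hne : s.Nonempty := by
    rw [← Set.nonempty_coe_sort, ← Cardinal.mk_ne_zero_iff, hcard]
    exact_mod_cast Nat.succ_ne_zero d
  obtain ⟨x, hxs⟩ := hne
  set S₀ : Set K := (fun y : s => (y : K)) '' {⟨x, hxs⟩}ᶜ with hS₀
  have hS₀f : S₀.Finite := by
    have := hfin.to_subtype
    exact (Set.toFinite _).image _
  set k₀ : IntermediateField ℚ K := IntermediateField.adjoin ℚ S₀ with hk₀
  have hx₀ : Transcendental k₀ x := by
    rw [hk₀, IntermediateField.transcendental_adjoin_iff]
    exact ((AlgebraicIndependent.iff_transcendental_adjoin_image (⟨x, hxs⟩ : s)).1 hs.1).2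
  have hsub : ∀ y ∈ s, y = x ∨ y ∈ S₀ := by
    intro y hy
    by_cases h : y = x
    · exact Or.inl h
    · exact Or.inr ⟨⟨y, hy⟩, fun h' => h (congrArg Subtype.val h'), rfl⟩
  set E₀ : IntermediateField ℚ K := IntermediateField.adjoin ℚ (Set.range (Subtype.val : s → K))
    with hE₀
  have halg : Algebra.IsAlgebraic E₀ K := hs.isAlgebraic_field
  -- a field which contains `k₀` and `x` contains `E₀`
  have hcont : ∀ (k : IntermediateField ℚ K), k₀ ≤ k → ∀ y ∈ E₀,
      y ∈ IntermediateField.adjoin k {x} := by
    intro k hk y hy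
    have h1 : E₀ ≤ (IntermediateField.adjoin k {x}).restrictScalars ℚ := by
      rw [hE₀, IntermediateField.adjoin_le_iff]
      rintro z ⟨⟨z, hz⟩, rfl⟩
      rcases hsub z hz with h | h
      · show z ∈ IntermediateField.adjoin k {x}
        rw [h]
        exact IntermediateField.mem_adjoin_simple_self k x
      · have h2 : z ∈ k := hk (IntermediateField.subset_adjoin ℚ S₀ h)
        exact (IntermediateField.adjoin k {x}).algebraMap_mem ⟨z, h2⟩
    exact h1 hy
  have hfd₀ : FiniteDimensional (IntermediateField.adjoin k₀ {x}) K :=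
    finite_of_basis E₀ k₀ _ (hcont k₀ le_rfl)
  -- the algebraic closure
  let kc : IntermediateField k₀ K := algebraicClosure k₀ K
  let k : IntermediateField ℚ K := kc.restrictScalars ℚ
  have hk₀k : k₀ ≤ k := fun y hy => kc.algebraMap_mem ⟨y, hy⟩
  have hfin2 : FiniteDimensional k₀ kc := finite_algClosure x hx₀
  have hk₀ess : Algebra.EssFiniteType ℚ k₀ := by
    have h := (IntermediateField.essFiniteType_iff (K := k₀)).2
      (IntermediateField.fg_adjoin_of_finite hS₀f)
    exact ess_congr _ _ h
  have hkcess : Algebra.EssFiniteType ℚ kc := Algebra.EssFiniteType.comp ℚ k₀ kc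
  have hkfg : k.FG := by
    rw [← IntermediateField.essFiniteType_iff]
    exact ess_congr (k := kc) _ _ hkcess
  -- transcendence degrees
  have hadj : Algebra.IsAlgebraic (IntermediateField.adjoin k₀ {x}) K := inferInstance
  have htr1 : Algebra.trdeg k₀ K = 1 := by
    have h1 : AlgebraicIndependent k₀ (fun _ : Unit => x) :=
      algebraicIndependent_unique_type_iff.2 hx₀
    have h2 : IsTranscendenceBasis k₀ (fun _ : Unit => x) := by
      rw [h1.isTranscendenceBasis_iff_isAlgebraic, Set.range_const]
      exact IntermediateField.isAlgebraic_adjoin_iff_top.1 hadj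
    rw [← h2.cardinalMk_eq_trdeg]
    simp
  have htr2 : Algebra.trdeg ℚ k₀ = (d : Cardinal) := by
    have h1 := trdeg_add_eq ℚ k₀ (A := K)
    rw [htr1, hd] at h1
    push_cast at h1
    exact Cardinal.add_one_inj.1 h1
  have htr3 : Algebra.trdeg ℚ k = (d : Cardinal) := by
    have h1 := trdeg_add_eq ℚ k₀ (A := kc)
    have h2 : Algebra.trdeg k₀ kc = 0 := trdeg_eq_zero
    rw [h2, add_zero, htr2] at h1
    exact h1.symm
  refine ⟨k, x, hkfg, htr3, ?_, ?_, ?_⟩
  · intro a ha
    have h1 : IsAlgebraic kc a := ha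
    have h2 : IsAlgebraic k₀ a := h1.restrictScalars k₀
    exact ⟨⟨a, (mem_algebraicClosure_iff).2 h2⟩, rfl⟩
  · intro h
    have h1 : IsAlgebraic kc x := h
    exact hx₀ (h1.restrictScalars k₀)
  · exact finite_of_basis E₀ k _ (hcont k hk₀k)

end Pool.Agent.Lib.MP_1a0ddd_nt.LW
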