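import Pool.Agent.Lib.MP_1a0ddd_nt.LW.SCnt
import Pool.Agent.Lib.MP_1a0ddd_nt.LW.BNoe
import Pool.Agent.Lib.MP_1a0ddd_nt.Quad.TwFib

/-! Families of absolutely irreducible curves. -/

set_option autoImplicit false

namespace Pool.Agent.Lib.MP_1a0ddd_nt.LW

open Polynomial Filter Topology Quad

/-- `fibT` of `Quad/TwFib.lean` with fibres of at most `K p` points (copy of that proof) -/
theorem fibK {R : Type} [CommRing R] [Nontrivial R] [Algebra.FiniteType ℤ R] {d : ℕ} (K : ℕ)
    (hR : LangWeilT R d) (e : R) (he : e ≠ 0) (c : ℕ → ℕ) (N : (p : ℕ) → (R →+* ZMod p) → ℕ)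
    (hc : ∀ p : ℕ, p.Prime → ∀ [Fintype (R →+* ZMod p)], c p = ∑ z, N p z)
    (hlow : ∀ ε : ℝ, 0 < ε → ∀ᶠ p : ℕ in atTop, p.Prime → ∀ z : R →+* ZMod p, z e ≠ 0 →
      (1 - ε) * (p : ℝ) ≤ N p z)
    (hup : ∀ ε : ℝ, 0 < ε → ∀ᶠ p : ℕ in atTop, p.Prime → ∀ z : R →+* ZMod p, z e ≠ 0 →
      (N p z : ℝ) ≤ (1 + ε) * p)
    (hbad : ∀ p : ℕ, p.Prime → ∀ z : R →+* ZMod p, (N p z : ℝ) ≤ K * p) :
    TauMean (fun p : ℕ => (c p : ℝ) / (p : ℝ) ^ (d + 1)) 1 := by
  classical
  have hfinhom : ∀ p : ℕ, p.Prime → Finite (R →+* ZMod p) := by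
    intro p hp
    have : Fact p.Prime := ⟨hp⟩
    exact finite_hom R p
  set Q : R → ℕ → ℝ := fun D p =>
    (Nat.card {z : R →+* ZMod p // z D ≠ 0} : ℝ) / (p : ℝ) ^ d with hQ
  have hQe : TauMean (Q e) 1 := hR e he
  have hB : TauMean (fun p => Q 1 p - Q e p) 0 := by
    have := (hR 1 one_ne_zero).sub (hR e he)
    rwa [sub_self] at this
  have hkey : ∀ ε : ℝ, 0 < ε → ∃ p₀ : ℕ, ∀ p : ℕ, p₀ ≤ p → p.Prime →
      0 ≤ Q 1 p - Q e p ∧
      |(c p : ℝ) / (p : ℝ) ^ (d + 1) - Q e p| ≤ ε * Q e p + K * (Q 1 p - Q e p) := by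
    intro ε hε
    obtain ⟨p₀, hp₀⟩ := eventually_atTop.1 ((hlow ε hε).and (hup ε hε))
    refine ⟨p₀, fun p hpp hp => ?_⟩
    obtain ⟨hl, hu⟩ := hp₀ p hpp
    have : Fact p.Prime := ⟨hp⟩
    have := hfinhom p hp
    have : Fintype (R →+* ZMod p) := Fintype.ofFinite _
    have hp0 : (0 : ℝ) < p := by exact_mod_cast hp.pos
    have h7 : (0 : ℝ) < (p : ℝ) ^ d := by positivity
    simp only [hQ]
    rw [dbl_card (fun z : R →+* ZMod p => z e ≠ 0), dbl_card (fun z : R →+* ZMod p => z 1 ≠ 0),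
      hc p hp]
    have h8 : (Finset.univ.filter fun z : R →+* ZMod p => z 1 ≠ 0) = Finset.univ := by
      ext z
      simp
    rw [h8]
    have h9 := Finset.card_filter_add_card_filter_not
      (s := (Finset.univ : Finset (R →+* ZMod p))) (fun z => z e ≠ 0)
    have h10 : ((Finset.univ.filter fun z : R →+* ZMod p => z e ≠ 0).card : ℝ) +
        (Finset.univ.filter fun z : R →+* ZMod p => ¬ z e ≠ 0).card =
        ((Finset.univ : Finset (R →+* ZMod p)).card : ℝ) := by exact_mod_cast h9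
    have h6 : ((∑ z, N p z : ℕ) : ℝ) ≤
        ((Finset.univ.filter fun z : R →+* ZMod p => z e ≠ 0).card : ℝ) * ((1 + ε) * p) +
        ((Finset.univ.filter fun z : R →+* ZMod p => ¬ z e ≠ 0).card : ℝ) * (K * p) := by
      rw [← Finset.sum_filter_add_sum_filter_not Finset.univ (fun z : R →+* ZMod p => z e ≠ 0)]
      push_cast
      refine add_le_add ?_ ?_
      · rw [← nsmul_eq_mul]
        exact Finset.sum_le_card_nsmul _ _ _ fun z hz => hu hp z (Finset.mem_filter.1 hz).2
      · rw [← nsmul_eq_mul]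
        exact Finset.sum_le_card_nsmul _ _ _ fun z _ => hbad p hp z
    have h5 : ((Finset.univ.filter fun z : R →+* ZMod p => z e ≠ 0).card : ℝ) *
        ((1 - ε) * p) ≤ ((∑ z, N p z : ℕ) : ℝ) := by
      rw [← nsmul_eq_mul]
      push_cast
      calc _ ≤ ∑ z ∈ Finset.univ.filter (fun z : R →+* ZMod p => z e ≠ 0), (N p z : ℝ) := by
            refine Finset.card_nsmul_le_sum _ _ _ fun z hz => ?_
            exact hl hp z (Finset.mem_filter.1 hz).2
        _ ≤ _ := Finset.sum_le_sum_of_subset_of_nonneg (Finset.filter_subset _ _)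
            fun z _ _ => by positivity
    rw [← h10]
    set n₁ : ℝ := ((Finset.univ.filter fun z : R →+* ZMod p => z e ≠ 0).card : ℝ) with hn₁
    set n₂ : ℝ := ((Finset.univ.filter fun z : R →+* ZMod p => ¬ z e ≠ 0).card : ℝ) with hn₂
    have h11 : 0 ≤ n₂ := by rw [hn₂]; positivity
    have e1 : (n₁ + n₂) / (p : ℝ) ^ d - n₁ / (p : ℝ) ^ d = n₂ / (p : ℝ) ^ d := by ring
    rw [e1]
    refine ⟨by positivity, ?_⟩
    have e2 : (((∑ z, N p z : ℕ) : ℝ)) / (p : ℝ) ^ (d + 1) - n₁ / (p : ℝ) ^ d =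
        ((((∑ z, N p z : ℕ) : ℝ)) - n₁ * p) / (p : ℝ) ^ (d + 1) := by
      rw [pow_succ]
      field_simp
    have e3 : ε * (n₁ / (p : ℝ) ^ d) + K * (n₂ / (p : ℝ) ^ d) =
        (ε * n₁ * p + K * n₂ * p) / (p : ℝ) ^ (d + 1) := by
      rw [pow_succ]
      field_simp
    rw [e2, e3, abs_div, abs_of_pos (pow_pos hp0 (d + 1))]
    refine div_le_div_of_nonneg_right ?_ (pow_pos hp0 (d + 1)).le
    rw [abs_le]
    constructor
    · nlinarith [mul_nonneg h11 hp0.le]
    · nlinarith
  set A : ℕ → ℝ := fun p => (c p : ℝ) / (p : ℝ) ^ (d + 1) - Q e p with hA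
  set B : ℕ → ℝ := fun p => Q 1 p - Q e p with hBd
  set A₂ : ℕ → ℝ := fun p => max (-(K * B p)) (min (A p) (K * B p)) with hA₂
  have hA₂0 : TauMean A₂ 0 := by
    obtain ⟨p₀, hp₀⟩ := hkey 1 one_pos
    refine hB.of_abs_le K p₀ fun p hpp hp => ?_
    have h1 := (hp₀ p hpp hp).1
    have h1' : (0 : ℝ) ≤ K * B p := mul_nonneg (Nat.cast_nonneg K) h1
    simp only [hA₂]
    rw [abs_le]
    constructor
    · exact le_max_left _ _
    · refine max_le ?_ (min_le_right _ _)
      linarith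
  have hA₁0 : TauMean (fun p => A p - A₂ p) 0 := by
    refine hQe.squeeze fun ε hε => ?_
    obtain ⟨p₀, hp₀⟩ := hkey ε hε
    refine ⟨p₀, fun p hpp hp => ?_⟩
    obtain ⟨h1, h2⟩ := hp₀ p hpp hp
    have h3 : 0 ≤ Q e p := by simp only [hQ]; positivity
    have h4 : 0 ≤ ε * Q e p := by positivity
    change |A p| ≤ ε * Q e p + K * B p at h2
    change 0 ≤ B p at h1
    have h1' : (0 : ℝ) ≤ K * B p := mul_nonneg (Nat.cast_nonneg K) h1
    rw [abs_le] at h2
    simp only [hA₂]
    rw [abs_le]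
    rcases le_total (A p) (K * B p) with h5 | h5
    · rw [min_eq_left h5]
      rcases le_total (-(K * B p)) (A p) with h6 | h6
      · rw [max_eq_right h6]
        constructor <;> linarith
      · rw [max_eq_left h6]
        constructor <;> linarith
    · rw [min_eq_right h5]
      rw [max_eq_right (by linarith)]
      constructor <;> linarith
  have h3 := hQe.add (hA₁0.add hA₂0)
  rw [add_zero, add_zero] at h3
  refine h3.congr' 0 fun p _ _ => ?_
  simp only [hA]
  ring

/-- the ring of a family of absolutely irreducible curves is a domain of characteristic zero -/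
theorem adjoin_domain {R : Type} [CommRing R] [IsDomain R] [CharZero R] (f : R[X][X])
    (hm : f.Monic) (habs : AbsIrr f) :
    IsDomain (AdjoinRoot f) ∧ CharZero (AdjoinRoot f) := by
  have hinj : Function.Injective (algebraMap R (FractionRing R)) :=
    IsFractionRing.injective R (FractionRing R)
  have hirr := habs (FractionRing R) (algebraMap R (FractionRing R)) hinj
  have hinj2 : Function.Injective (mapRingHom (algebraMap R (FractionRing R))) :=
    Polynomial.map_injective _ hinj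
  have hprime : Prime f := by
    have hp := hirr.prime
    refine ⟨hm.ne_zero, fun hu => hp.not_isUnit ?_, fun a b hab => ?_⟩
    · exact hu.map (mapRingHom (mapRingHom (algebraMap R (FractionRing R))))
    · have h1 : f.map (mapRingHom (algebraMap R (FractionRing R))) ∣
          a.map (mapRingHom (algebraMap R (FractionRing R))) *
            b.map (mapRingHom (algebraMap R (FractionRing R))) := by
        rw [← Polynomial.map_mul]
        exact Polynomial.map_dvd _ hab
      rcases hp.dvd_or_dvd h1 with h2 | h2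
      · exact Or.inl ((Polynomial.map_dvd_map _ hinj2 hm).1 h2)
      · exact Or.inr ((Polynomial.map_dvd_map _ hinj2 hm).1 h2)
  have hdom : IsDomain (AdjoinRoot f) := AdjoinRoot.isDomain_of_prime hprime
  refine ⟨hdom, ?_⟩
  have hdeg : f.degree ≠ 0 := by
    intro h0
    have h1 : f = 1 :=
      eq_one_of_monic_natDegree_zero hm (natDegree_eq_zero_iff_degree_le_zero.2 h0.le)
    exact hprime.not_isUnit (h1 ▸ isUnit_one)
  have h2 : Function.Injective ((AdjoinRoot.of f).comp (C : R →+* R[X])) :=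
    (AdjoinRoot.of.injective_of_degree_ne_zero hdeg).comp C_injective
  exact charZero_of_injective_ringHom h2

private theorem cs_ev {R k : Type} [CommRing R] [CommRing k] (z : R →+* k) (x y : k)
    (h : R[X][X]) :
    (h.map (mapRingHom z)).evalEval x y = eval₂RingHom (eval₂RingHom z x) y h := by
  have e : (((evalRingHom x).comp (evalRingHom (C y))).comp (mapRingHom (mapRingHom z))) =
      eval₂RingHom (eval₂RingHom z x) y := by
    refine Polynomial.ringHom_ext' ?_ ?_
    · refine Polynomial.ringHom_ext' ?_ ?_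
      · ext a
        simp
      · simp
    · simp
  rw [← e]
  rfl

private theorem cs_hom {R k : Type} [CommRing R] [CommRing k] (f : R[X][X])
    (φ : AdjoinRoot f →+* k) (h : R[X][X]) :
    (h.map (mapRingHom ((φ.comp (AdjoinRoot.of f)).comp C))).evalEval (φ (AdjoinRoot.of f X))
      (φ (AdjoinRoot.root f)) = φ (AdjoinRoot.mk f h) := by
  rw [cs_ev]
  have e : eval₂RingHom (eval₂RingHom ((φ.comp (AdjoinRoot.of f)).comp C)
      (φ (AdjoinRoot.of f X))) (φ (AdjoinRoot.root f)) = φ.comp (AdjoinRoot.mk f) := by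
    refine Polynomial.ringHom_ext' ?_ ?_
    · refine Polynomial.ringHom_ext' ?_ ?_
      · ext a
        simp
      · simp
    · simp
  rw [e]
  rfl

/-- the points of the ring of a family of curves -/
private noncomputable def cs_equiv {R : Type} [CommRing R] (p : ℕ) (f g : R[X][X]) :
    {φ : AdjoinRoot f →+* ZMod p // φ (AdjoinRoot.mk f g) ≠ 0} ≃
      Σ z : R →+* ZMod p, {Q : ZMod p × ZMod p // (f.map (mapRingHom z)).evalEval Q.1 Q.2 = 0 ∧
        (g.map (mapRingHom z)).evalEval Q.1 Q.2 ≠ 0} where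
  toFun φ := ⟨(φ.1.comp (AdjoinRoot.of f)).comp C, (φ.1 (AdjoinRoot.of f X), φ.1 (AdjoinRoot.root f)),
    by rw [cs_hom, AdjoinRoot.mk_self, map_zero], by rw [cs_hom]; exact φ.2⟩
  invFun y := ⟨AdjoinRoot.lift (eval₂RingHom y.1 y.2.1.1) y.2.1.2
      ((cs_ev y.1 y.2.1.1 y.2.1.2 f).symm.trans y.2.2.1), by
    rw [AdjoinRoot.lift_mk]
    have h1 := y.2.2.2
    rw [cs_ev] at h1
    exact h1⟩
  left_inv φ := by
    apply Subtype.ext
    refine AdjoinRoot.ringHom_ext ?_ ?_
    · refine Polynomial.ringHom_ext' ?_ ?_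
      · ext a
        simp
      · simp
    · simp
  right_inv y := by
    obtain ⟨z, Q, hQ⟩ := y
    have hQ0 : eval₂ (eval₂RingHom z Q.1) Q.2 f = 0 := (cs_ev z Q.1 Q.2 f).symm.trans hQ.1
    have h1 : ((AdjoinRoot.lift (eval₂RingHom z Q.1) Q.2 hQ0).comp (AdjoinRoot.of f)).comp C =
        z := by
      ext a
      simp
    have h2 : AdjoinRoot.lift (eval₂RingHom z Q.1) Q.2 hQ0 (AdjoinRoot.of f X) = Q.1 := by simp
    have h3 : AdjoinRoot.lift (eval₂RingHom z Q.1) Q.2 hQ0 (AdjoinRoot.root f) = Q.2 := by simp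
    refine Sigma.ext h1 ?_
    rw [Subtype.heq_iff_coe_eq]
    · exact Prod.ext h2 h3
    · intro Q'
      change ((f.map (mapRingHom (((AdjoinRoot.lift (eval₂RingHom z Q.1) Q.2 hQ0).comp
        (AdjoinRoot.of f)).comp C))).evalEval Q'.1 Q'.2 = 0 ∧
        (g.map (mapRingHom (((AdjoinRoot.lift (eval₂RingHom z Q.1) Q.2 hQ0).comp
        (AdjoinRoot.of f)).comp C))).evalEval Q'.1 Q'.2 ≠ 0) ↔ _
      rw [h1]

/-- at most `deg_y f` points over each `x` -/
private theorem cs_fib {p : ℕ} [Fact p.Prime] (f : (ZMod p)[X][X]) (hm : f.Monic)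
    (A : Finset (ZMod p × ZMod p)) (hA : ∀ Q ∈ A, f.evalEval Q.1 Q.2 = 0) :
    A.card ≤ f.natDegree * (A.image Prod.fst).card := by
  classical
  refine Finset.card_le_mul_card_image _ _ fun x _ => ?_
  have h1 : f.map (evalRingHom x) ≠ 0 := (hm.map _).ne_zero
  have h2 := dbl_roots (f.map (evalRingHom x)) h1
  have h3 : (f.map (evalRingHom x)).natDegree = f.natDegree := hm.natDegree_map _
  rw [h3] at h2
  refine le_trans ?_ h2
  refine Finset.card_le_card_of_injOn Prod.snd ?_ ?_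
  · intro Q hQ
    have hQ' := Finset.mem_filter.1 hQ
    have hQ2 := hA Q hQ'.1
    simp only [Finset.coe_filter, Finset.mem_univ, true_and, Set.mem_ofPred_eq]
    rw [← hQ'.2, map_evalRingHom_eval, hQ2]
  · intro Q hQ Q' hQ' e
    have h7 := (Finset.mem_filter.1 hQ).2
    have h8 := (Finset.mem_filter.1 hQ').2
    exact Prod.ext (h7.trans h8.symm) e

/-- Proof: `fibK` with `N p z = #{Q ∈ F_p^2 : f^z(Q) = 0, D^z(Q) ≠ 0}` and `e = h · (leading
coefficient of the norm of D)`, `h` from `bertini_noether`; `curve_count`; the points with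
`D = 0` are over the zeros of the norm `N(D) ∈ R[x]` of `D` (which is not zero, and is a multiple of
`D`), at most `deg f` over each. -/
theorem langWeilT_curve (R : Type) [CommRing R] [IsDomain R] [CharZero R]
    [Algebra.FiniteType ℤ R] (d : ℕ) (hR : LangWeilT R d) (f : R[X][X]) (hm : f.Monic)
    (hd : 0 < f.natDegree) (habs : AbsIrr f) : LangWeilT (AdjoinRoot f) (d + 1) := by
  classical
  obtain ⟨hdom, _⟩ := adjoin_domain f hm habs
  intro D hD
  obtain ⟨g, rfl⟩ := AdjoinRoot.mk_surjective D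
  -- the norm
  obtain ⟨Nm, hNm0, a, b, hab⟩ : ∃ Nm : R[X], Nm ≠ 0 ∧ ∃ a b : R[X][X],
      C Nm = g * a + f * b := by
    have hfin : Module.Finite R[X] (AdjoinRoot f) := hm.finite_adjoinRoot
    have halg : IsAlgebraic R[X] (AdjoinRoot.mk f g) :=
      (Algebra.IsIntegral.isIntegral (R := R[X]) (AdjoinRoot.mk f g)).isAlgebraic
    obtain ⟨r, hr0, hr⟩ := halg.exists_nonzero_dvd (mem_nonZeroDivisors_of_ne_zero hD)
    obtain ⟨s, hs⟩ := hr
    obtain ⟨a, rfl⟩ := AdjoinRoot.mk_surjective s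
    rw [AdjoinRoot.algebraMap_eq, ← AdjoinRoot.mk_C, ← map_mul, ← sub_eq_zero, ← map_sub,
      AdjoinRoot.mk_eq_zero] at hs
    obtain ⟨b, hb⟩ := hs
    exact ⟨r, hr0, a, b, by rw [← hb]; ring⟩
  obtain ⟨h, hh0, hh⟩ := bertini_noether f hm habs
  obtain ⟨c, hc⟩ : ∃ c, ∀ i, (f.coeff i).natDegree ≤ c := by
    refine ⟨f.support.sup fun i => (f.coeff i).natDegree, fun i => ?_⟩
    by_cases hi : i ∈ f.support
    · exact Finset.le_sup (f := fun i => (f.coeff i).natDegree) hi
    · rw [notMem_support_iff.1 hi, natDegree_zero]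
      exact Nat.zero_le _
  have hle : ∀ (p : ℕ) [Fact p.Prime] (z : R →+* ZMod p),
      (Finset.univ.filter fun Q : ZMod p × ZMod p =>
        (f.map (mapRingHom z)).evalEval Q.1 Q.2 = 0 ∧
        (g.map (mapRingHom z)).evalEval Q.1 Q.2 ≠ 0).card ≤
        (Finset.univ.filter fun Q : ZMod p × ZMod p =>
          (f.map (mapRingHom z)).evalEval Q.1 Q.2 = 0).card := by
    intro p _ z
    refine Finset.card_le_card fun Q hQ => ?_
    rw [Finset.mem_filter] at hQ ⊢
    exact ⟨hQ.1, hQ.2.1⟩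
  have hcount : ∀ ε : ℝ, 0 < ε → ∃ p₀ : ℕ, ∀ p : ℕ, p₀ ≤ p → ∀ [Fact p.Prime],
      ∀ z : R →+* ZMod p, z h ≠ 0 →
      (1 - ε) * p ≤ ((Finset.univ.filter fun Q : ZMod p × ZMod p =>
          (f.map (mapRingHom z)).evalEval Q.1 Q.2 = 0).card : ℝ) ∧
      ((Finset.univ.filter fun Q : ZMod p × ZMod p =>
          (f.map (mapRingHom z)).evalEval Q.1 Q.2 = 0).card : ℝ) ≤ (1 + ε) * p := by
    intro ε hε
    obtain ⟨p₀, hp₀⟩ := curve_count f.natDegree c hd ε hε
    refine ⟨p₀, fun p hp _ z hz => ?_⟩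
    have hpp : p.Prime := Fact.out
    have h1 := hp₀ p hp hpp (f.map (mapRingHom z)) (hm.map _) (hm.natDegree_map _) (fun i => by
      rw [coeff_map, coe_mapRingHom]
      exact natDegree_map_le.trans (hc i)) (fun E _ φ => by
      rw [Polynomial.map_map, mapRingHom_comp]
      refine hh E (φ.comp z) ?_
      rw [RingHom.comp_apply]
      exact (map_ne_zero_iff _ φ.injective).2 hz)
    rw [dbl_card (fun Q : ZMod p × ZMod p => (f.map (mapRingHom z)).evalEval Q.1 Q.2 = 0)] at h1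
    exact h1
  refine fibK f.natDegree hR (h * Nm.leadingCoeff)
    (mul_ne_zero hh0 (leadingCoeff_ne_zero.2 hNm0))
    (fun p => Nat.card {φ : AdjoinRoot f →+* ZMod p // φ (AdjoinRoot.mk f g) ≠ 0})
    (fun p z => Nat.card {Q : ZMod p × ZMod p // (f.map (mapRingHom z)).evalEval Q.1 Q.2 = 0 ∧
        (g.map (mapRingHom z)).evalEval Q.1 Q.2 ≠ 0}) ?_ ?_ ?_ ?_
  · intro p hpp _
    have : Fact p.Prime := ⟨hpp⟩
    rw [Nat.card_congr (cs_equiv p f g), Nat.card_sigma]
  · intro ε hε
    obtain ⟨p₀, hp₀⟩ := hcount (ε / 2) (half_pos hε)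
    filter_upwards [dbl_big (ε / 2) (half_pos hε) (f.natDegree * Nm.natDegree),
      eventually_ge_atTop p₀] with p hp hp1 hpp z hz
    have : Fact p.Prime := ⟨hpp⟩
    rw [map_mul, mul_ne_zero_iff] at hz
    have h0 := (hp₀ p hp1 z hz.1).1
    rw [dbl_card (fun Q : ZMod p × ZMod p => (f.map (mapRingHom z)).evalEval Q.1 Q.2 = 0 ∧
        (g.map (mapRingHom z)).evalEval Q.1 Q.2 ≠ 0)]
    have h2 : Nm.map z ≠ 0 := by
      intro h3
      apply hz.2
      have h4 := congrArg (fun P => P.coeff Nm.natDegree) h3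
      simpa using h4
    have h3 := dbl_roots (Nm.map z) h2
    have h4 : (Nm.map z).natDegree ≤ Nm.natDegree := natDegree_map_le
    set A := Finset.univ.filter fun Q : ZMod p × ZMod p =>
      (f.map (mapRingHom z)).evalEval Q.1 Q.2 = 0 with hA
    set B := Finset.univ.filter fun Q : ZMod p × ZMod p =>
      (f.map (mapRingHom z)).evalEval Q.1 Q.2 = 0 ∧
      (g.map (mapRingHom z)).evalEval Q.1 Q.2 ≠ 0 with hB
    have h5 : (A \ B).card ≤ f.natDegree * Nm.natDegree := by
      have h6 : (A \ B).card ≤ f.natDegree * ((A \ B).image Prod.fst).card := by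
        have h7 := cs_fib (f.map (mapRingHom z)) (hm.map _) (A \ B) (fun Q hQ => by
          have hQ2 := (Finset.mem_sdiff.1 hQ).1
          rw [hA, Finset.mem_filter] at hQ2
          exact hQ2.2)
        rwa [hm.natDegree_map] at h7
      have h9 : ((A \ B).image Prod.fst).card ≤ Nm.natDegree := by
        refine le_trans (Finset.card_le_card ?_) (h3.trans h4)
        intro x hx
        obtain ⟨Q, hQ, rfl⟩ := Finset.mem_image.1 hx
        rw [Finset.mem_sdiff, hA, hB, Finset.mem_filter, Finset.mem_filter] at hQ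
        obtain ⟨⟨_, hQ1⟩, hQ2⟩ := hQ
        have hQ3 : (g.map (mapRingHom z)).evalEval Q.1 Q.2 = 0 := by
          by_contra h10
          exact hQ2 ⟨Finset.mem_univ _, hQ1, h10⟩
        rw [Finset.mem_filter]
        refine ⟨Finset.mem_univ _, ?_⟩
        have e1 := cs_ev z Q.1 Q.2 (C Nm)
        have e2 : (eval₂RingHom (eval₂RingHom z Q.1) Q.2) (C Nm) = (Nm.map z).eval Q.1 := by
          simp [eval_map]
        rw [← e2, hab, map_add, map_mul, map_mul, ← cs_ev z Q.1 Q.2 g, ← cs_ev z Q.1 Q.2 f, hQ1,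
          hQ3, zero_mul, zero_mul, add_zero]
      exact h6.trans (Nat.mul_le_mul_left _ h9)
    have h6 : A.card ≤ B.card + f.natDegree * Nm.natDegree := by
      have h7 := Finset.card_le_card_sdiff_add_card (s := A) (t := B)
      omega
    have h7 : (A.card : ℝ) ≤ B.card + (f.natDegree * Nm.natDegree : ℕ) := by exact_mod_cast h6
    linarith
  · intro ε hε
    obtain ⟨p₀, hp₀⟩ := hcount ε hε
    filter_upwards [eventually_ge_atTop p₀] with p hp1 hpp z hz
    have : Fact p.Prime := ⟨hpp⟩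
    rw [map_mul, mul_ne_zero_iff] at hz
    have h0 := (hp₀ p hp1 z hz.1).2
    rw [dbl_card (fun Q : ZMod p × ZMod p => (f.map (mapRingHom z)).evalEval Q.1 Q.2 = 0 ∧
        (g.map (mapRingHom z)).evalEval Q.1 Q.2 ≠ 0)]
    refine le_trans ?_ h0
    exact_mod_cast hle p z
  · intro p hpp z
    have : Fact p.Prime := ⟨hpp⟩
    rw [dbl_card (fun Q : ZMod p × ZMod p => (f.map (mapRingHom z)).evalEval Q.1 Q.2 = 0 ∧
        (g.map (mapRingHom z)).evalEval Q.1 Q.2 ≠ 0)]
    have h1 : (Finset.univ.filter fun Q : ZMod p × ZMod p =>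
        (f.map (mapRingHom z)).evalEval Q.1 Q.2 = 0).card ≤ f.natDegree * p := by
      have h6 := cs_fib (f.map (mapRingHom z)) (hm.map _)
        (Finset.univ.filter fun Q : ZMod p × ZMod p =>
          (f.map (mapRingHom z)).evalEval Q.1 Q.2 = 0) (fun Q hQ => (Finset.mem_filter.1 hQ).2)
      rw [hm.natDegree_map] at h6
      refine h6.trans (Nat.mul_le_mul_left _ ?_)
      exact (Finset.card_le_univ _).trans (ZMod.card p).le
    exact_mod_cast (hle p z).trans h1

end Pool.Agent.Lib.MP_1a0ddd_nt.LW
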