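import Pool.Agent.Lib.MP_1a0ddd_nt.LW.CMod
import Pool.Agent.Lib.MP_1a0ddd_nt.LW.CStep
import Pool.Agent.Lib.MP_1a0ddd_nt.LW.CBase

/-! The induction on the dimension. -/

set_option autoImplicit false

namespace Pool.Agent.Lib.MP_1a0ddd_nt.LW

open Polynomial Quad

theorem langWeilT_all (d : ℕ) : ∀ (R : Type) [CommRing R] [IsDomain R] [CharZero R]
    [Algebra.FiniteType ℤ R], Algebra.trdeg ℤ R = (d : Cardinal) → LangWeilT R d := by
  induction d using Nat.strong_induction_on with
  | _ d IH =>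
    intro R _ _ _ _ hd
    rcases d with _ | d
    · exact langWeilT_zero R hd
    · obtain ⟨R', _, _, _, _, f, h1, h2, h3, h4, h5⟩ := exists_model R d hd
      have h6 : LangWeilT R' d := IH d (Nat.lt_succ_self d) R' h1
      have h7 : LangWeilT (AdjoinRoot f) (d + 1) := langWeilT_curve R' d h6 f h2 h3 h4
      obtain ⟨_, _⟩ := adjoin_domain f h2 h4
      exact langWeilT_birat (d + 1) (fun e he S _ _ _ _ hS => IH e he S hS) (AdjoinRoot f) R hd
        h5 h7

/-- **Lang, Weil, Landau.** -/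
theorem langWeil_main (R : Type) [CommRing R] [IsDomain R] [CharZero R] [Algebra.FiniteType ℤ R]
    (d : ℕ) (hd : Algebra.trdeg ℤ R = d) : Quad.LangWeilT R d :=
  langWeilT_all d R hd

end Pool.Agent.Lib.MP_1a0ddd_nt.LW
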