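import Pool.Agent.Lib.MP_1a0ddd_nt.LW.CReg
import Pool.Agent.Lib.MP_1a0ddd_nt.LW.CFld
import Pool.Agent.Lib.MP_1a0ddd_nt.LW.CBir

/-! Every finitely generated domain is birational to a family of absolutely irreducible curves. -/

set_option autoImplicit false

namespace Pool.Agent.Lib.MP_1a0ddd_nt.LW

open Polynomial

private theorem cm_ft (S : Type) [CommRing S] [a : Algebra ℤ S]
    (h : @Algebra.FiniteType ℤ S _ _ a) : @Algebra.FiniteType ℤ S _ _ (Ring.toIntAlgebra S) := by
  have e : a = Ring.toIntAlgebra S := Subsingleton.elim _ _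
  rw [← e]
  exact h

private theorem cm_trdeg (A K : Type) [CommRing A] [IsDomain A] [CharZero A] [Field K]
    [CharZero K] [Algebra A K] [IsFractionRing A K] :
    Algebra.trdeg ℤ A = Algebra.trdeg ℚ K := by
  have h1 : Algebra.trdeg ℤ A + Algebra.trdeg A K = Algebra.trdeg ℤ K :=
    trdeg_add_eq ℤ A
  have h2 : Algebra.trdeg ℤ ℚ + Algebra.trdeg ℚ K = Algebra.trdeg ℤ K :=
    trdeg_add_eq ℤ ℚ
  have h3 : Algebra.IsAlgebraic A K := IsLocalization.isAlgebraic K (nonZeroDivisors A)
  have h4 : Algebra.IsAlgebraic ℤ ℚ := IsLocalization.isAlgebraic ℚ (nonZeroDivisors ℤ)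
  rw [trdeg_eq_zero (R := A), add_zero] at h1
  rw [trdeg_eq_zero (R := ℤ) (A := ℚ), zero_add] at h2
  rw [h1, h2]

private theorem cm_frac {A K : Type} [CommRing A] [IsDomain A] [Field K] [Algebra A K]
    (hinj : Function.Injective (algebraMap A K))
    (hcl : ∀ z : K, z ∈ Subfield.closure (Set.range (algebraMap A K))) :
    IsFractionRing A K := by
  have : FaithfulSMul A K := (faithfulSMul_iff_algebraMap_injective A K).2 hinj
  refine IsFractionRing.of_field A K fun z => ?_
  obtain ⟨y, hy, w, hw, e⟩ := Subfield.mem_closure_iff.1 (hcl z)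
  have hr : Subring.closure (Set.range (algebraMap A K)) = (algebraMap A K).range := by
    have h1 : Set.range (algebraMap A K) = ((algebraMap A K).range : Set K) := by
      rw [RingHom.coe_range]
    rw [h1, Subring.closure_eq]
  rw [hr] at hy hw
  obtain ⟨a, rfl⟩ := hy
  obtain ⟨b, rfl⟩ := hw
  exact ⟨a, b, e.symm⟩

private theorem cm_fg (R K : Type) [CommRing R] [IsDomain R] [Algebra.FiniteType ℤ R] [Field K]
    [CharZero K] [Algebra R K] [IsFractionRing R K] : (⊤ : IntermediateField ℚ K).FG := by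
  classical
  obtain ⟨s, hs⟩ := (Algebra.FiniteType.out : (⊤ : Subalgebra ℤ R).FG)
  refine ⟨s.image (algebraMap R K), ?_⟩
  rw [eq_top_iff]
  intro z _
  obtain ⟨a, b, hb, rfl⟩ := IsFractionRing.div_surjective R z
  have key : ∀ a : R, algebraMap R K a ∈
      IntermediateField.adjoin ℚ (↑(s.image (algebraMap R K)) : Set K) := by
    intro a
    have ha : a ∈ Algebra.adjoin ℤ (s : Set R) := by rw [hs]; trivial
    induction ha using Algebra.adjoin_induction with
    | mem x hx =>
      exact IntermediateField.subset_adjoin _ _ (by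
        rw [Finset.coe_image]
        exact ⟨x, hx, rfl⟩)
    | algebraMap r =>
      rw [eq_intCast, map_intCast]
      exact intCast_mem _ r
    | add x y _ _ hx hy =>
      rw [map_add]
      exact add_mem hx hy
    | mul x y _ _ hx hy =>
      rw [map_mul]
      exact mul_mem hx hy
  exact div_mem (key a) (key b)

/-- a finitely generated ring with fraction field `k` and containing a given finite set -/
private theorem cm_ring {K : Type} [Field K] [CharZero K] (k : IntermediateField ℚ K) (hk : k.FG)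
    (c : Set k) (hc : c.Finite) :
    ∃ R' : Subalgebra ℤ k, R'.FG ∧ c ⊆ R' ∧
      ∀ z : k, z ∈ Subfield.closure (Set.range (algebraMap R' k)) := by
  classical
  obtain ⟨t, ht⟩ := hk
  have hfin : ((Subtype.val ⁻¹' (t : Set K) : Set k) ∪ c).Finite :=
    (Set.Finite.preimage Subtype.val_injective.injOn t.finite_toSet).union hc
  refine ⟨Algebra.adjoin ℤ ((Subtype.val ⁻¹' (t : Set K) : Set k) ∪ c), ?_, ?_, ?_⟩
  · exact Subalgebra.fg_def.2 ⟨_, hfin, rfl⟩
  · exact fun x hx => Algebra.subset_adjoin (Or.inr hx)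
  · intro z
    set R' := Algebra.adjoin ℤ ((Subtype.val ⁻¹' (t : Set K) : Set k) ∪ c) with hR'
    let F : Subfield k := Subfield.closure (Set.range (algebraMap R' k))
    let G : IntermediateField ℚ K := (F.map (algebraMap k K)).toIntermediateField (fun q => by
      refine ⟨algebraMap ℚ k q, ?_, ?_⟩
      · rw [eq_ratCast]
        exact SubfieldClass.ratCast_mem F q
      · exact (IsScalarTower.algebraMap_apply ℚ k K q).symm)
    have h1 : IntermediateField.adjoin ℚ (t : Set K) ≤ G := by
      rw [IntermediateField.adjoin_le_iff]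
      intro x hx
      have hxk : x ∈ k := by
        rw [← ht]
        exact IntermediateField.subset_adjoin _ _ hx
      refine ⟨⟨x, hxk⟩, ?_, rfl⟩
      apply Subfield.subset_closure
      exact ⟨⟨⟨x, hxk⟩, Algebra.subset_adjoin (Or.inl hx)⟩, rfl⟩
    have h2 : (z : K) ∈ G := h1 (by rw [ht]; exact z.2)
    obtain ⟨w, hw, e⟩ := h2
    have h3 : w = z := Subtype.ext e
    rw [← h3]
    exact hw

/-- a polynomial with coefficients in the image -/
private theorem cm_lift {A k : Type} [CommRing A] [IsDomain A] [Field k] [Algebra A k]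
    (f₀ : k[X][X]) (hm : f₀.Monic)
    (hc : ∀ i j, ((f₀.coeff i).coeff j) ∈ Set.range (algebraMap A k)) :
    ∃ f : A[X][X], f.map (mapRingHom (algebraMap A k)) = f₀ ∧ f.natDegree = f₀.natDegree ∧
      f.Monic := by
  have hlift : f₀ ∈ lifts (mapRingHom (algebraMap A k)) := by
    rw [lifts_iff_coeff_lifts]
    intro i
    have h1 : f₀.coeff i ∈ lifts (algebraMap A k) := by
      rw [lifts_iff_coeff_lifts]
      exact hc i
    obtain ⟨q, hq⟩ := (mem_lifts _).1 h1
    exact ⟨q, hq⟩
  exact lifts_and_natDegree_eq_and_monic hlift hm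

private theorem cm_abs {A k : Type} [CommRing A] [IsDomain A] [Field k] [Algebra A k]
    [IsFractionRing A k] (f₀ : k[X][X]) (f : A[X][X])
    (hf₀ : f.map (mapRingHom (algebraMap A k)) = f₀) (h : AbsIrr f₀) : AbsIrr f := by
  intro E _ φ hφ
  have h1 := h E (IsFractionRing.lift hφ) (RingHom.injective _)
  rw [← hf₀, Polynomial.map_map, mapRingHom_comp] at h1
  have h2 : (IsFractionRing.lift hφ : k →+* E).comp (algebraMap A k) = φ :=
    RingHom.ext fun r => IsFractionRing.lift_algebraMap hφ r
  rw [h2] at h1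
  exact h1

/-- `f₀` is the minimal polynomial of `y` over `k(x)` -/
private theorem cm_min {k K : Type} [Field k] [Field K] (G₀ : k[X] →+* K)
    (hG₀ : Function.Injective G₀) (y : K) (f₀ : k[X][X]) (hm : f₀.Monic) (hirr : Irreducible f₀)
    (hf₀y : f₀.eval₂ G₀ y = 0) (r : k[X][X]) (hr : r.eval₂ G₀ y = 0)
    (hdeg : r.degree < f₀.degree) : r = 0 := by
  let ψ : FractionRing k[X] →+* K := IsFractionRing.lift hG₀
  have hψ : ψ.comp (algebraMap k[X] (FractionRing k[X])) = G₀ :=
    RingHom.ext fun r => IsFractionRing.lift_algebraMap hG₀ r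
  letI := ψ.toAlgebra
  have h1 : ∀ q : k[X][X], aeval y (q.map (algebraMap k[X] (FractionRing k[X]))) =
      q.eval₂ G₀ y := by
    intro q
    rw [aeval_def, eval₂_map, ← hψ]
    rfl
  have h2 : f₀.map (algebraMap k[X] (FractionRing k[X])) =
      minpoly (FractionRing k[X]) y :=
    minpoly.eq_of_irreducible_of_monic
      (hm.irreducible_iff_irreducible_map_fraction_map.1 hirr) (by rw [h1, hf₀y])
      (hm.map _)
  have h3 : r.map (algebraMap k[X] (FractionRing k[X])) = 0 := by
    by_contra h4
    have h5 := minpoly.degree_le_of_ne_zero (FractionRing k[X]) y h4 (by rw [h1, hr])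
    rw [← h2, degree_map_eq_of_injective (IsFractionRing.injective _ _),
      degree_map_eq_of_injective (IsFractionRing.injective _ _)] at h5
    exact absurd h5 (not_le.2 hdeg)
  exact (Polynomial.map_eq_zero_iff (IsFractionRing.injective _ _)).1 h3

private theorem cm_theta {A k K : Type} [CommRing A] [IsDomain A] [Field k] [Algebra A k]
    [IsFractionRing A k] [Field K] [Algebra k K] (x y : K) (hx : Transcendental k x)
    (f₀ : k[X][X]) (hm : f₀.Monic) (hirr : Irreducible f₀)
    (hxy : (f₀.map (mapRingHom (algebraMap k K))).evalEval x y = 0)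
    (htop : IntermediateField.adjoin k {x, y} = ⊤) (f : A[X][X]) (hfm : f.Monic)
    (hf₀ : f.map (mapRingHom (algebraMap A k)) = f₀) :
    ∃ θ : AdjoinRoot f →+* K, Function.Injective θ ∧
      ∀ z : K, z ∈ Subfield.closure (Set.range θ) := by
  let G₀ : k[X] →+* K := eval₂RingHom (algebraMap k K) x
  have hG₀ : Function.Injective G₀ := transcendental_iff_injective.1 hx
  have hf₀y : f₀.eval₂ G₀ y = 0 := by
    have h1 := eval₂RingHom_eval₂RingHom (algebraMap k K) x y
    have h2 := RingHom.congr_fun h1 f₀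
    rw [RingHom.comp_apply, coe_mapRingHom, coe_evalEvalRingHom, hxy] at h2
    exact h2
  let g : A[X] →+* K := G₀.comp (mapRingHom (algebraMap A k))
  have hg : ∀ q : A[X][X], q.eval₂ g y = (q.map (mapRingHom (algebraMap A k))).eval₂ G₀ y := by
    intro q
    rw [eval₂_map]
  have hmapinj : Function.Injective (mapRingHom (algebraMap A k)) :=
    Polynomial.map_injective _ (IsFractionRing.injective A k)
  let θ : AdjoinRoot f →+* K := AdjoinRoot.lift g y (by rw [hg, hf₀, hf₀y])
  have hθ : Function.Injective θ := by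
    rw [injective_iff_map_eq_zero]
    intro z hz
    obtain ⟨P, rfl⟩ := AdjoinRoot.mk_surjective z
    have h1 : AdjoinRoot.mk f P = AdjoinRoot.mk f (P %ₘ f) := by
      rw [AdjoinRoot.mk_eq_mk]
      exact ⟨P /ₘ f, by
        have := modByMonic_add_div P f
        linear_combination -this⟩
    rw [h1] at hz ⊢
    have h2 : (P %ₘ f).eval₂ g y = 0 := by
      rw [← hz]
      exact (AdjoinRoot.lift_mk _ _).symm
    rw [hg] at h2
    have h3 := cm_min G₀ hG₀ y f₀ hm hirr hf₀y _ h2 (by
      rw [← hf₀, degree_map_eq_of_injective hmapinj, degree_map_eq_of_injective hmapinj]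
      exact degree_modByMonic_lt P hfm)
    have h4 : P %ₘ f = 0 := (Polynomial.map_eq_zero_iff hmapinj).1 h3
    rw [h4, map_zero]
  have hof : ∀ a : A, θ (AdjoinRoot.of f (C a)) = algebraMap k K (algebraMap A k a) := by
    intro a
    simp only [θ, g, G₀]
    rw [AdjoinRoot.lift_of, RingHom.comp_apply, coe_mapRingHom, map_C, coe_eval₂RingHom, eval₂_C]
  have hofx : θ (AdjoinRoot.of f X) = x := by
    simp only [θ, g, G₀]
    rw [AdjoinRoot.lift_of, RingHom.comp_apply, coe_mapRingHom, map_X, coe_eval₂RingHom, eval₂_X]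
  have hofy : θ (AdjoinRoot.root f) = y := AdjoinRoot.lift_root _
  refine ⟨θ, hθ, fun z => ?_⟩
  let F : Subfield K := Subfield.closure (Set.range θ)
  have hF : ∀ w : AdjoinRoot f, θ w ∈ F := fun w => Subfield.subset_closure ⟨w, rfl⟩
  have hkF : ∀ w : k, algebraMap k K w ∈ F := by
    intro w
    obtain ⟨a, b, hb, rfl⟩ := IsFractionRing.div_surjective A w
    rw [map_div₀, ← hof, ← hof]
    exact div_mem (hF _) (hF _)
  let G : IntermediateField k K := F.toIntermediateField hkF
  have h1 : IntermediateField.adjoin k {x, y} ≤ G := by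
    rw [IntermediateField.adjoin_le_iff]
    intro w hw
    rcases hw with hw | hw
    · change w ∈ F
      rw [hw, ← hofx]
      exact hF _
    · rw [Set.mem_singleton_iff] at hw
      change w ∈ F
      rw [hw, ← hofy]
      exact hF _
  have h2 : z ∈ IntermediateField.adjoin k {x, y} := by
    rw [htop]
    trivial
  exact h1 h2

private theorem cm_birat {A R K : Type} [CommRing A] [IsDomain A] [Algebra.FiniteType ℤ A]
    [CommRing R] [IsDomain R] [Algebra.FiniteType ℤ R] [Field K] [Algebra R K]
    [IsFractionRing R K] (f : A[X][X]) (θ : AdjoinRoot f →+* K) (hθ : Function.Injective θ)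
    (hcl : ∀ z : K, z ∈ Subfield.closure (Set.range θ)) : Birat (AdjoinRoot f) R := by
  have hdomA : IsDomain (AdjoinRoot f) := hθ.isDomain θ
  letI : Algebra (AdjoinRoot f) K := θ.toAlgebra
  have hfracA : IsFractionRing (AdjoinRoot f) K := cm_frac hθ hcl
  have hftA : @Algebra.FiniteType ℤ (AdjoinRoot f) _ _ (Ring.toIntAlgebra _) := by
    have h1 : Algebra.FiniteType ℤ A[X] :=
      Algebra.FiniteType.trans (S := A) inferInstance inferInstance
    have h2 : Algebra.FiniteType ℤ A[X][X] :=
      Algebra.FiniteType.trans (S := A[X]) h1 inferInstance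
    have h3 := cm_ft _ h2
    exact Algebra.FiniteType.of_surjective (AdjoinRoot.mk f).toIntAlgHom
      AdjoinRoot.mk_surjective
  exact birat_of_fraction (K := K)

private theorem cm_main (R K : Type) [CommRing R] [IsDomain R] [CharZero R]
    [Algebra.FiniteType ℤ R] [Field K] [CharZero K] [Algebra R K] [IsFractionRing R K]
    (d : ℕ) (hd : Algebra.trdeg ℤ R = ((d + 1 : ℕ) : Cardinal)) :
    ∃ (R' : Type) (_ : CommRing R') (_ : IsDomain R') (_ : CharZero R')
      (_ : Algebra.FiniteType ℤ R') (f : R'[X][X]), Algebra.trdeg ℤ R' = (d : Cardinal) ∧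
      f.Monic ∧ 0 < f.natDegree ∧ AbsIrr f ∧ Birat (AdjoinRoot f) R := by
  classical
  have hdK : Algebra.trdeg ℚ K = ((d + 1 : ℕ) : Cardinal) := (cm_trdeg R K).symm.trans hd
  obtain ⟨k, x, hkfg, hkd, hkreg, hx, hfin⟩ := exists_regular K (cm_fg R K) d hdK
  obtain ⟨y, f₀, hm, hpos, hirr, hxy, htop⟩ := exists_curve x hx
  have habs₀ : AbsIrr f₀ := absIrr_of_regular hkreg x y hx f₀ hm hirr hxy
  let c : Set k := ↑(f₀.coeffs.biUnion fun q => q.coeffs)
  obtain ⟨R', hfgR', hcR', hclR'⟩ := cm_ring k hkfg c (Finset.finite_toSet _)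
  have hinj' : Function.Injective (algebraMap R' k) := Subtype.val_injective
  have hfrac : IsFractionRing R' k := cm_frac hinj' hclR'
  have hftR' : Algebra.FiniteType ℤ R' := R'.fg_iff_finiteType.1 hfgR'
  have hftR'' := cm_ft R' hftR'
  have hcR'' : ∀ i j, ((f₀.coeff i).coeff j) ∈ Set.range (algebraMap R' k) := by
    intro i j
    by_cases h0 : (f₀.coeff i).coeff j = 0
    · exact ⟨0, by rw [map_zero, h0]⟩
    · have h1 : f₀.coeff i ≠ 0 := by
        intro h1
        rw [h1, coeff_zero] at h0
        exact h0 rfl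
      have h2 : (f₀.coeff i).coeff j ∈ c := by
        simp only [c, Finset.coe_biUnion, Set.mem_iUnion, Finset.mem_coe]
        exact ⟨f₀.coeff i, coeff_mem_coeffs h1, coeff_mem_coeffs h0⟩
      exact ⟨⟨_, hcR' h2⟩, rfl⟩
  obtain ⟨f, hf₀, hfdeg, hfm⟩ := cm_lift f₀ hm hcR''
  obtain ⟨θ, hθ, hcl⟩ := cm_theta x y hx f₀ hm hirr hxy htop f hfm hf₀
  refine ⟨R', inferInstance, inferInstance, inferInstance, hftR'', f, ?_, hfm, ?_,
    cm_abs f₀ f hf₀ habs₀, ?_⟩
  · have h1 := cm_trdeg R' k
    exact h1.trans hkd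
  · rw [hfdeg]
    exact hpos
  · exact cm_birat f θ hθ hcl

/-- Proof: `K` the fraction field of `R` (finitely generated over `ℚ`, `trdeg = d + 1`);
`exists_regular` gives `k`, `x`, `exists_curve` gives `y`, `f₀ ∈ k[x][Y]`, `absIrr_of_regular` gives
`AbsIrr f₀`. Let `R'` be the subring of `k` generated by the coefficients of `f₀` and by finitely many
generators of the field `k` over `ℚ`; `k` is its fraction field, `f₀` comes from `f ∈ R'[x][Y]`, and
every injective `R' → E` extends to `k`, so `AbsIrr f`. `AdjoinRoot f → K`, `x, y ↦ x, y`, is injective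
(`f₀` is the minimal polynomial) and `K` is its fraction field; `birat_of_fraction`. -/
theorem exists_model (R : Type) [CommRing R] [IsDomain R] [CharZero R] [Algebra.FiniteType ℤ R]
    (d : ℕ) (hd : Algebra.trdeg ℤ R = ((d + 1 : ℕ) : Cardinal)) :
    ∃ (R' : Type) (_ : CommRing R') (_ : IsDomain R') (_ : CharZero R')
      (_ : Algebra.FiniteType ℤ R') (f : R'[X][X]), Algebra.trdeg ℤ R' = (d : Cardinal) ∧
      f.Monic ∧ 0 < f.natDegree ∧ AbsIrr f ∧ Birat (AdjoinRoot f) R := by
  have : CharZero (FractionRing R) :=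
    charZero_of_injective_algebraMap (IsFractionRing.injective R (FractionRing R))
  exact cm_main R (FractionRing R) d hd

end Pool.Agent.Lib.MP_1a0ddd_nt.LW
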