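import Pool.Agent.Lib.MP_1a0ddd_nt.LW.CBir
import Pool.Agent.Lib.MP_1a0ddd_nt.Quad.Cyc4
import Pool.Agent.Lib.MP_1a0ddd_nt.W.Cnt

/-! Closed subsets are negligible; birational invariance of the point count. -/

set_option autoImplicit false

namespace Pool.Agent.Lib.MP_1a0ddd_nt.LW

open Polynomial Quad

/-- the point count in the dimensions smaller than `d` -/
def CountBelow (d : ℕ) : Prop :=
  ∀ e : ℕ, e < d → ∀ (S : Type) [CommRing S] [IsDomain S] [CharZero S] [Algebra.FiniteType ℤ S],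
    Algebra.trdeg ℤ S = (e : Cardinal) → LangWeilT S e

/-- a proper quotient has smaller transcendence degree -/
theorem trdeg_quotient_lt (R : Type) [CommRing R] [IsDomain R] [CharZero R]
    [Algebra.FiniteType ℤ R] (d : ℕ) (hd : Algebra.trdeg ℤ R = (d : Cardinal)) (P : Ideal R)
    (hP : P.IsPrime) (h0 : P ≠ ⊥) (hc : CharZero (R ⧸ P)) :
    ∃ e : ℕ, e < d ∧ Algebra.trdeg ℤ (R ⧸ P) = (e : Cardinal) := by
  classical
  have hD : IsDomain (R ⧸ P) := Ideal.Quotient.isDomain P
  have hF : FaithfulSMul ℤ (R ⧸ P) := by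
    rw [faithfulSMul_iff_algebraMap_injective]
    exact RingHom.injective_int _
  obtain ⟨ι, y, hy⟩ := exists_isTranscendenceBasis' ℤ (R ⧸ P)
  choose x hx using fun i : ι => Ideal.Quotient.mk_surjective (y i)
  have hcomp : (Ideal.Quotient.mkₐ ℤ P) ∘ x = y := funext fun i => hx i
  have hxi : AlgebraicIndependent ℤ x := by
    apply AlgebraicIndependent.of_comp (Ideal.Quotient.mkₐ ℤ P)
    rw [hcomp]
    exact hy.1
  obtain ⟨g, hgP, hg0⟩ := Submodule.exists_mem_ne_zero_of_ne_bot h0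
  have htr : Transcendental (Algebra.adjoin ℤ (Set.range x)) g := by
    intro halg
    obtain ⟨a, ha0, c, hc⟩ := halg.exists_nonzero_dvd (mem_nonZeroDivisors_of_ne_zero hg0)
    have haP : (a : R) ∈ P := by
      have h1 : (a : R) = g * c := hc
      rw [h1]
      exact P.mul_mem_right _ hgP
    obtain ⟨F, hF⟩ := (Algebra.adjoin_range_eq_range_aeval ℤ x).le a.2
    have h2 : MvPolynomial.aeval y F = 0 := by
      have h3 : Ideal.Quotient.mkₐ ℤ P (MvPolynomial.aeval x F) = 0 := by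
        have h4 : MvPolynomial.aeval x F = (a : R) := hF
        rw [h4]
        exact Ideal.Quotient.eq_zero_iff_mem.2 haP
      rw [← hcomp, ← h3, MvPolynomial.comp_aeval_apply]
      rfl
    have h5 : F = 0 := (algebraicIndependent_iff.1 hy.1) F h2
    apply ha0
    apply Subtype.ext
    rw [h5] at hF
    rw [← hF]
    simp
  have h6 := ((hxi.option_iff_transcendental g).2 htr).cardinalMk_le_trdeg
  rw [Cardinal.mk_option, hy.cardinalMk_eq_trdeg, hd] at h6
  have h7 : Algebra.trdeg ℤ (R ⧸ P) < Cardinal.aleph0 :=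
    lt_of_le_of_lt (le_trans (self_le_add_right _ _) h6) (Cardinal.natCast_lt_aleph0)
  obtain ⟨e, he⟩ := Cardinal.lt_aleph0.1 h7
  refine ⟨e, ?_, he⟩
  rw [he] at h6
  exact_mod_cast h6

/-- the points of a proper irreducible closed subset are negligible -/
theorem negl_prime (d : ℕ) (IH : CountBelow d) (R : Type) [CommRing R] [IsDomain R] [CharZero R]
    [Algebra.FiniteType ℤ R] (hd : Algebra.trdeg ℤ R = (d : Cardinal)) (P : Ideal R)
    (hP : P.IsPrime) (h0 : P ≠ ⊥) :
    TauMean (fun p => (Nat.card (R ⧸ P →+* ZMod p) : ℝ) / (p : ℝ) ^ d) 0 := by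
  have hD : IsDomain (R ⧸ P) := Ideal.Quotient.isDomain P
  by_cases hc : CharZero (R ⧸ P)
  · obtain ⟨e, hed, he⟩ := trdeg_quotient_lt R d hd P hP h0 hc
    have hft : @Algebra.FiniteType ℤ (R ⧸ P) _ _ (Ring.toIntAlgebra (R ⧸ P)) :=
      (inferInstance : Algebra.FiniteType ℤ R).of_surjective (Ideal.Quotient.mk P).toIntAlgHom
        Ideal.Quotient.mk_surjective
    have h1 := IH e hed (R ⧸ P) he 1 one_ne_zero
    refine TauMean.squeeze h1 fun ε hε => ?_
    obtain ⟨p₀, hp₀⟩ := exists_nat_gt (1 / ε)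
    refine ⟨p₀, fun p hp hpp => ?_⟩
    have : Fact p.Prime := ⟨hpp⟩
    have hall : ∀ z : R ⧸ P →+* ZMod p, z 1 ≠ 0 := fun z => by
      rw [map_one]
      exact one_ne_zero
    have h5 : Nat.card {z : R ⧸ P →+* ZMod p // z 1 ≠ 0} = Nat.card (R ⧸ P →+* ZMod p) :=
      Nat.card_congr (Equiv.subtypeUnivEquiv hall)
    rw [h5]
    have hpR : (1 : ℝ) ≤ p := by exact_mod_cast hpp.one_le
    have hp0 : (0 : ℝ) < p := by linarith
    rw [abs_of_nonneg (by positivity), ← mul_div_assoc, div_le_div_iff₀ (by positivity)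
      (by positivity)]
    have h6 : (p : ℝ) ^ e ≤ ε * (p : ℝ) ^ d := by
      obtain ⟨k, rfl⟩ := Nat.exists_eq_add_of_lt hed
      have h7 : 1 ≤ ε * p := by
        have h8 : 1 / ε < p := hp₀.trans_le (by exact_mod_cast hp)
        rw [div_lt_iff₀ hε] at h8
        linarith
      have h9 : (1 : ℝ) ≤ (p : ℝ) ^ k := one_le_pow₀ hpR
      calc (p : ℝ) ^ e = (p : ℝ) ^ e * (1 * 1) := by ring
        _ ≤ (p : ℝ) ^ e * ((ε * p) * (p : ℝ) ^ k) := by
            refine mul_le_mul_of_nonneg_left ?_ (by positivity)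
            exact mul_le_mul h7 h9 zero_le_one (by positivity)
        _ = ε * (p : ℝ) ^ (e + k + 1) := by ring
    calc (Nat.card (R ⧸ P →+* ZMod p) : ℝ) * (p : ℝ) ^ e ≤
        (Nat.card (R ⧸ P →+* ZMod p) : ℝ) * (ε * (p : ℝ) ^ d) :=
          mul_le_mul_of_nonneg_left h6 (by positivity)
      _ = ε * (Nat.card (R ⧸ P →+* ZMod p) : ℝ) * (p : ℝ) ^ d := by ring
  · obtain ⟨n, hn0, hn⟩ : ∃ n : ℕ, (n : R ⧸ P) = 0 ∧ n ≠ 0 := by
      by_contra hcon
      push Not at hcon
      exact hc (charZero_of_inj_zero hcon)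
    refine TauMean.zero.congr' (n + 1) fun p hp hpp => ?_
    have : Fact p.Prime := ⟨hpp⟩
    have hem : IsEmpty (R ⧸ P →+* ZMod p) := by
      refine ⟨fun z => ?_⟩
      have h1 := congrArg z hn0
      rw [map_natCast, map_zero, ZMod.natCast_eq_zero_iff] at h1
      have := Nat.le_of_dvd (Nat.pos_of_ne_zero hn) h1
      omega
    rw [Nat.card_of_isEmpty]
    simp

/-- Proof: finitely many minimal primes `P` over `(s)` (`R` is noetherian), `z s = 0` implies that
`z` factors through some `R ⧸ P`. If `R ⧸ P` has characteristic `ℓ > 0` it contributes only for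
`p = ℓ`; if it has characteristic zero, `LangWeilT (R ⧸ P) e` with `e < d` and
`p^(-d) ≤ p^(-e)/p` (`TauMean.squeeze`, `TauMean.sum`, `TauMean.of_abs_le`). -/
theorem negl (d : ℕ) (IH : CountBelow d) (R : Type) [CommRing R] [IsDomain R] [CharZero R]
    [Algebra.FiniteType ℤ R] (hd : Algebra.trdeg ℤ R = (d : Cardinal)) (s : R) (hs : s ≠ 0) :
    TauMean (fun p => (Nat.card {z : R →+* ZMod p // z s = 0} : ℝ) / (p : ℝ) ^ d) 0 := by
  classical
  have hN : IsNoetherianRing R := Algebra.FiniteType.isNoetherianRing ℤ R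
  have hfinM := Ideal.finite_minimalPrimes_of_isNoetherianRing R (Ideal.span {s})
  set M : Finset (Ideal R) := hfinM.toFinset with hMdef
  have hM : ∀ P ∈ M, P.IsPrime ∧ s ∈ P := by
    intro P hP
    rw [hMdef, Set.Finite.mem_toFinset] at hP
    exact ⟨hP.1.1, hP.1.2 (Ideal.subset_span rfl)⟩
  have hsum := TauMean.sum M (fun P p => (Nat.card (R ⧸ P →+* ZMod p) : ℝ) / (p : ℝ) ^ d)
    (fun _ => 0) fun P hP => negl_prime d IH R hd P (hM P hP).1 (fun h => hs (by
      have h1 := (hM P hP).2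
      rw [h] at h1
      exact (Submodule.mem_bot R).1 h1))
  rw [Finset.sum_const_zero] at hsum
  refine TauMean.of_abs_le hsum 1 0 fun p _ hp => ?_
  have : Fact p.Prime := ⟨hp⟩
  have hpp : (0 : ℝ) < (p : ℝ) ^ d := by
    have : (0 : ℝ) < p := by exact_mod_cast hp.pos
    positivity
  rw [one_mul, ← Finset.sum_div, abs_of_nonneg (by positivity)]
  refine div_le_div_of_nonneg_right ?_ hpp.le
  have hfin : ∀ P : {P // P ∈ M}, Finite (R ⧸ P.1 →+* ZMod p) := fun P => by
    have hft : @Algebra.FiniteType ℤ (R ⧸ P.1) _ _ (Ring.toIntAlgebra (R ⧸ P.1)) :=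
      (inferInstance : Algebra.FiniteType ℤ R).of_surjective (Ideal.Quotient.mk P.1).toIntAlgHom
        Ideal.Quotient.mk_surjective
    exact W.finite_hom _ p hp
  have key : ∀ z : {z : R →+* ZMod p // z s = 0}, ∃ P : {P // P ∈ M}, ∀ u ∈ P.1, z.1 u = 0 := by
    intro z
    have h1 : (RingHom.ker z.1).IsPrime := RingHom.ker_isPrime z.1
    obtain ⟨P, hP, hPz⟩ := Ideal.exists_minimalPrimes_le (I := Ideal.span {s})
      (J := RingHom.ker z.1) (by
        rw [Ideal.span_singleton_le_iff_mem]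
        exact z.2)
    exact ⟨⟨P, by rw [hMdef, Set.Finite.mem_toFinset]; exact hP⟩, fun u hu => hPz hu⟩
  choose Q hQ using key
  have h2 : Nat.card {z : R →+* ZMod p // z s = 0} ≤
      Nat.card ((P : {P // P ∈ M}) × (R ⧸ P.1 →+* ZMod p)) := by
    refine Nat.card_le_card_of_injective
      (fun z => ⟨Q z, Ideal.Quotient.lift (Q z).1 z.1 (hQ z)⟩) ?_
    intro z z' h
    apply Subtype.ext
    refine RingHom.ext fun u => ?_
    have h4 := congrArg (fun w : (P : {P // P ∈ M}) × (R ⧸ P.1 →+* ZMod p) =>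
      w.2 (Ideal.Quotient.mk w.1.1 u)) h
    simpa using h4
  rw [Nat.card_sigma] at h2
  have h5 : ∑ P : {P // P ∈ M}, Nat.card (R ⧸ P.1 →+* ZMod p) =
      ∑ P ∈ M, Nat.card (R ⧸ P →+* ZMod p) :=
    Finset.sum_coe_sort M (fun P => Nat.card (R ⧸ P →+* ZMod p))
  rw [h5] at h2
  exact_mod_cast h2

/-- Proof: `langWeilT_loc` for `A[1/a]`, `langWeilT_iso` for `B[1/b]`; for `D ≠ 0` in `B` the
homomorphisms `z` with `z D ≠ 0`, `z b ≠ 0` are those of `B[1/b]`, and those with `z b = 0` are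
negligible. -/
theorem langWeilT_birat (d : ℕ) (IH : CountBelow d) (A B : Type) [CommRing A] [IsDomain A]
    [CommRing B] [IsDomain B] [CharZero B] [Algebra.FiniteType ℤ B]
    (hd : Algebra.trdeg ℤ B = (d : Cardinal)) (h : Birat A B) (hA : LangWeilT A d) :
    LangWeilT B d := by
  obtain ⟨a, b, ha, hb, ⟨e⟩⟩ := h
  have h1 := langWeilT_iso d e (langWeilT_loc d hA a ha)
  intro D hD
  have hinj : Function.Injective (algebraMap B (Localization.Away b)) :=
    IsLocalization.injective _ (powers_le_nonZeroDivisors_of_noZeroDivisors hb)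
  have h2 := h1 (algebraMap B (Localization.Away b) D)
    ((map_ne_zero_iff _ hinj).2 hD)
  have h3 : TauMean (fun p => (Nat.card {z : B →+* ZMod p // z D ≠ 0 ∧ z b = 0} : ℝ) /
      (p : ℝ) ^ d) 0 := by
    refine TauMean.of_abs_le (negl d IH B hd b hb) 1 0 fun p _ hp => ?_
    have : Fact p.Prime := ⟨hp⟩
    have hpp : (0 : ℝ) < (p : ℝ) ^ d := by
      have : (0 : ℝ) < p := by exact_mod_cast hp.pos
      positivity
    rw [one_mul, abs_of_nonneg (by positivity)]
    refine div_le_div_of_nonneg_right ?_ hpp.le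
    have hfin : Finite (B →+* ZMod p) := W.finite_hom B p hp
    have h4 : Nat.card {z : B →+* ZMod p // z D ≠ 0 ∧ z b = 0} ≤
        Nat.card {z : B →+* ZMod p // z b = 0} :=
      Nat.card_le_card_of_injective (fun z => ⟨z.1, z.2.2⟩) fun z z' h =>
        Subtype.ext (congrArg (fun w : {z : B →+* ZMod p // z b = 0} => w.1) h)
    exact_mod_cast h4
  have h4 := h2.add h3
  rw [add_zero] at h4
  refine h4.congr' 0 fun p _ hp => ?_
  have : Fact p.Prime := ⟨hp⟩
  have hfin : Finite (B →+* ZMod p) := W.finite_hom B p hp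
  have hu : IsUnit (algebraMap B (Localization.Away b) b) :=
    IsLocalization.Away.algebraMap_isUnit b
  have h5 : Nat.card {z : Localization.Away b →+* ZMod p //
      z (algebraMap B (Localization.Away b) D) ≠ 0} =
      Nat.card {z : B →+* ZMod p // z D ≠ 0 ∧ z b ≠ 0} := by
    refine Nat.card_congr ⟨fun z => ⟨z.1.comp (algebraMap B (Localization.Away b)), z.2, ?_⟩,
      fun z => ⟨IsLocalization.Away.lift (S := Localization.Away b) b (g := z.1)
        (isUnit_iff_ne_zero.2 z.2.2), ?_⟩, fun z => ?_, fun z => ?_⟩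
    · exact (hu.map z.1).ne_zero
    · rw [IsLocalization.Away.lift_eq]
      exact z.2.1
    · refine Subtype.ext (IsLocalization.ringHom_ext (Submonoid.powers b) ?_)
      exact IsLocalization.Away.lift_comp (S := Localization.Away b) b
        (g := z.1.comp (algebraMap B (Localization.Away b))) (hu.map z.1)
    · refine Subtype.ext ?_
      exact IsLocalization.Away.lift_comp (S := Localization.Away b) b (g := z.1)
        (isUnit_iff_ne_zero.2 z.2.2)
  have h6 : Nat.card {z : B →+* ZMod p // z D ≠ 0} =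
      Nat.card {z : B →+* ZMod p // z D ≠ 0 ∧ z b ≠ 0} +
        Nat.card {z : B →+* ZMod p // z D ≠ 0 ∧ z b = 0} := by
    rw [← Nat.card_sum]
    refine Nat.card_congr ?_
    classical
    refine ⟨fun z => if h : z.1 b = 0 then Sum.inr ⟨z.1, z.2, h⟩ else Sum.inl ⟨z.1, z.2, h⟩,
      fun w => Sum.elim (fun z => ⟨z.1, z.2.1⟩) (fun z => ⟨z.1, z.2.1⟩) w, fun z => ?_,
      fun w => ?_⟩
    · by_cases h : z.1 b = 0
      · simp [h]
      · simp [h]
    · rcases w with z | z
      · simp [z.2.2]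
      · simp [z.2.2]
  show ((Nat.card {z : B →+* ZMod p // z D ≠ 0} : ℕ) : ℝ) / (p : ℝ) ^ d = _
  rw [h6, h5]
  push_cast
  ring

end Pool.Agent.Lib.MP_1a0ddd_nt.LW
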