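import Mathlib

/-! Irreducibility over finite extensions: helper lemmas for `irr_of_regular`. -/

set_option autoImplicit false

namespace Pool.Agent.Lib.MP_1a0ddd_nt.LW.RegA

open Polynomial

/-- evaluation of `k[x][y]` at a point of an extension -/
noncomputable def ev {k K : Type} [CommRing k] [CommRing K] (φ : k →+* K) (x y : K) :
    k[X][X] →+* K :=
  eval₂RingHom (eval₂RingHom φ x) y

theorem ev_CC {k K : Type} [CommRing k] [CommRing K] (φ : k →+* K) (x y : K) (a : k) :
    ev φ x y (C (C a)) = φ a := by
  simp [ev]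

theorem ev_CX {k K : Type} [CommRing k] [CommRing K] (φ : k →+* K) (x y : K) :
    ev φ x y (C X) = x := by
  simp [ev]

theorem ev_X {k K : Type} [CommRing k] [CommRing K] (φ : k →+* K) (x y : K) :
    ev φ x y X = y := by
  simp [ev]

theorem ev_ext {k K : Type} [CommRing k] [CommRing K] (g h : k[X][X] →+* K)
    (h1 : ∀ a, g (C (C a)) = h (C (C a))) (h2 : g (C X) = h (C X)) (h3 : g X = h X) : g = h := by
  apply Polynomial.ringHom_ext'
  · apply Polynomial.ringHom_ext
    · intro a
      exact h1 a
    · exact h2
  · exact h3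

theorem ev_eq_evalEval {k K : Type} [CommRing k] [CommRing K] (φ : k →+* K) (x y : K)
    (f : k[X][X]) : ev φ x y f = (f.map (mapRingHom φ)).evalEval x y := by
  have h : ev φ x y = (evalEvalRingHom x y).comp (mapRingHom (mapRingHom φ)) := by
    apply ev_ext
    · intro a
      simp [ev_CC, evalEvalRingHom]
    · simp [ev_CX, evalEvalRingHom]
    · simp [ev_X, evalEvalRingHom]
  rw [h]
  rfl

/-- the kernel of the evaluation at a generic point of the curve -/
theorem dvd_of_ev {k K : Type} [Field k] [Field K] [Algebra k K] (x y : K)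
    (hx : Transcendental k x) (f : k[X][X]) (hm : f.Monic) (hirr : Irreducible f)
    (hf : ev (algebraMap k K) x y f = 0) (u : k[X][X]) (hu : ev (algebraMap k K) x y u = 0) :
    f ∣ u := by
  letI : Algebra k[X] K := (eval₂RingHom (algebraMap k K) x).toAlgebra
  have hinj : Function.Injective (algebraMap k[X] K) := by
    rw [injective_iff_map_eq_zero]
    intro p hp
    by_contra h0
    apply hx
    exact ⟨p, h0, hp⟩
  haveI : FaithfulSMul k[X] K := (faithfulSMul_iff_algebraMap_injective k[X] K).2 hinj
  haveI : Module.IsTorsionFree k[X] K := Module.IsTorsionFree.trans_faithfulSMul k[X] K K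
  have haev : ∀ p : k[X][X], aeval y p = ev (algebraMap k K) x y p := fun p => rfl
  have hint : IsIntegral k[X] y := ⟨f, hm, hf⟩
  have h1 : minpoly k[X] y ∣ f := minpoly.isIntegrallyClosed_dvd hint (by rw [haev, hf])
  have h2 : minpoly k[X] y ∣ u := minpoly.isIntegrallyClosed_dvd hint (by rw [haev, hu])
  have h3 : f ∣ minpoly k[X] y := by
    obtain ⟨w, hw⟩ := h1
    rcases hirr.isUnit_or_isUnit hw with h4 | h4
    · exact absurd h4 (minpoly.not_isUnit k[X] y)
    · obtain ⟨v, hv⟩ := h4
      refine ⟨((v⁻¹ : (k[X][X])ˣ) : k[X][X]), ?_⟩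
      rw [hw, ← hv, mul_assoc, Units.mul_inv, mul_one]
  exact h3.trans h2

/-- a minimal polynomial stays irreducible over a field in which `k` is relatively algebraically
closed -/
theorem irr_map {k K : Type} [Field k] [Field K] [Algebra k K]
    (hk : ∀ a : K, IsAlgebraic k a → a ∈ (algebraMap k K).range) (m : k[X]) (hm : m.Monic)
    (hirr : Irreducible m) : Irreducible (m.map (algebraMap k K)) := by
  have hinj : Function.Injective (algebraMap k K) := (algebraMap k K).injective
  have hlift : ∀ g : K[X], g.Monic → g ∣ m.map (algebraMap k K) →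
      ∃ q : k[X], q.map (algebraMap k K) = g ∧ q.Monic := by
    intro g hg hd
    have h1 := integralClosure.mem_lifts_of_monic_of_dvd_map K hm hg hd
    have h2 : g ∈ lifts (algebraMap k K) := by
      rw [lifts_iff_coeff_lifts] at h1 ⊢
      intro i
      obtain ⟨z, hz⟩ := h1 i
      have h3 : IsAlgebraic k (g.coeff i) := by
        rw [← hz]
        exact IsIntegral.isAlgebraic z.2
      obtain ⟨w, hw⟩ := hk _ h3
      exact ⟨w, hw⟩
    obtain ⟨q, h3, _, h4⟩ := lifts_and_natDegree_eq_and_monic h2 hg
    exact ⟨q, h3, h4⟩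
  rw [(hm.map _).irreducible_iff_natDegree]
  refine ⟨?_, ?_⟩
  · intro h1
    have h2 : m = 1 := by
      apply Polynomial.map_injective _ hinj
      rw [h1, Polynomial.map_one]
    exact hirr.ne_one h2
  · intro g h hg hh hgh
    obtain ⟨g', hg', hgm⟩ := hlift g hg ⟨h, hgh.symm⟩
    obtain ⟨h', hh', hhm⟩ := hlift h hh ⟨g, by rw [mul_comm, hgh]⟩
    have h3 : g' * h' = m := by
      apply Polynomial.map_injective _ hinj
      rw [Polynomial.map_mul, hg', hh', hgh]
    have h4 := (hm.irreducible_iff_natDegree.1 hirr).2 g' h' hgm hhm h3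
    rw [← hg', ← hh', natDegree_map, natDegree_map]
    exact h4

/-- coordinates of a polynomial over a finite extension -/
theorem decomp {k L : Type} [Field k] [Field L] [Algebra k L] {d : ℕ}
    (b : Module.Basis (Fin d) k L) (u : L[X][X]) : ∃ c : Fin d → k[X][X],
      u = ∑ i, C (C (b i)) * (c i).map (mapRingHom (algebraMap k L)) := by
  induction u using Polynomial.induction_on' with
  | add p q hp hq =>
    obtain ⟨c, hc⟩ := hp
    obtain ⟨e, he⟩ := hq
    refine ⟨fun i => c i + e i, ?_⟩
    rw [hc, he, ← Finset.sum_add_distrib]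
    refine Finset.sum_congr rfl fun i _ => ?_
    rw [Polynomial.map_add, mul_add]
  | monomial n a =>
    induction a using Polynomial.induction_on' with
    | add p q hp hq =>
      obtain ⟨c, hc⟩ := hp
      obtain ⟨e, he⟩ := hq
      refine ⟨fun i => c i + e i, ?_⟩
      rw [map_add, hc, he, ← Finset.sum_add_distrib]
      refine Finset.sum_congr rfl fun i _ => ?_
      rw [Polynomial.map_add, mul_add]
    | monomial j l =>
      refine ⟨fun i => monomial n (monomial j (b.repr l i)), ?_⟩
      have h1 : l = ∑ i, b i * algebraMap k L (b.repr l i) := by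
        conv_lhs => rw [← b.sum_repr l]
        refine Finset.sum_congr rfl fun i _ => ?_
        rw [Algebra.smul_def, mul_comm]
      conv_lhs => rw [h1]
      rw [map_sum, map_sum]
      refine Finset.sum_congr rfl fun i _ => ?_
      rw [map_monomial, coe_mapRingHom, map_monomial, C_mul_monomial, C_mul_monomial]

theorem irr_main {k K : Type} [Field k] [CharZero k] [Field K] [Algebra k K]
    (hk : ∀ a : K, IsAlgebraic k a → a ∈ (algebraMap k K).range) (x y : K)
    (hx : Transcendental k x) (f : k[X][X]) (hm : f.Monic) (hirr : Irreducible f)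
    (hf : ev (algebraMap k K) x y f = 0) (L : Type) [Field L]
    [Algebra k L] [FiniteDimensional k L] :
    Irreducible (f.map (mapRingHom (algebraMap k L))) := by
  classical
  let pb := Field.powerBasisOfFiniteOfSeparable k L
  set mk : k[X] := minpoly k pb.gen with hmk
  have hgi : IsIntegral k pb.gen := Algebra.IsIntegral.isIntegral pb.gen
  have hmm : mk.Monic := minpoly.monic hgi
  have hmi : Irreducible mk := minpoly.irreducible hgi
  set mK : K[X] := mk.map (algebraMap k K) with hmK
  have hmKi : Irreducible mK := irr_map hk mk hmm hmi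
  haveI : Fact (Irreducible mK) := ⟨hmKi⟩
  have hroot : aeval (AdjoinRoot.root mK) mk = 0 := by
    have h1 := AdjoinRoot.eval₂_root mK
    rw [hmK, eval₂_map] at h1
    exact h1
  let j : L →ₐ[k] AdjoinRoot mK := pb.lift (AdjoinRoot.root mK) hroot
  have hj : ∀ i : Fin pb.dim, j (pb.basis i) = AdjoinRoot.root mK ^ (i : ℕ) := by
    intro i
    rw [pb.coe_basis, map_pow]
    simp [j]
  have hdim : (minpoly K (AdjoinRoot.root mK)).natDegree = pb.dim := by
    rw [AdjoinRoot.minpoly_root hmKi.ne_zero, (hmm.map _ : mK.Monic).leadingCoeff, inv_one, C_1,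
      mul_one, hmK, natDegree_map, hmk, pb.natDegree_minpoly]
  have hli : LinearIndependent K fun i : Fin pb.dim => AdjoinRoot.root mK ^ (i : ℕ) := by
    have h1 := linearIndependent_pow (K := K) (AdjoinRoot.root mK)
    rw [hdim] at h1
    exact h1
  set κ : K →+* AdjoinRoot mK := AdjoinRoot.of mK with hκ
  let φ : L[X][X] →+* AdjoinRoot mK := ev (j : L →+* AdjoinRoot mK) (κ x) (κ y)
  have hφ : ∀ c : k[X][X], φ (c.map (mapRingHom (algebraMap k L))) =
      κ (ev (algebraMap k K) x y c) := by
    have h1 : φ.comp (mapRingHom (mapRingHom (algebraMap k L))) =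
        κ.comp (ev (algebraMap k K) x y) := by
      apply ev_ext
      · intro a
        rw [RingHom.comp_apply, RingHom.comp_apply, ev_CC, coe_mapRingHom, map_C, coe_mapRingHom,
          map_C]
        show ev _ _ _ _ = _
        rw [ev_CC]
        exact j.commutes a
      · rw [RingHom.comp_apply, RingHom.comp_apply, ev_CX, coe_mapRingHom, map_C, coe_mapRingHom,
          map_X]
        exact ev_CX _ _ _
      · rw [RingHom.comp_apply, RingHom.comp_apply, ev_X, coe_mapRingHom, map_X]
        exact ev_X _ _ _
    intro c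
    exact congrArg (fun g : k[X][X] →+* AdjoinRoot mK => g c) h1
  have hker : RingHom.ker φ = Ideal.span {f.map (mapRingHom (algebraMap k L))} := by
    apply le_antisymm
    · intro u hu
      rw [RingHom.mem_ker] at hu
      obtain ⟨c, hc⟩ := decomp pb.basis u
      have h1 : ∑ i, ev (algebraMap k K) x y (c i) • (AdjoinRoot.root mK ^ (i : ℕ)) = 0 := by
        rw [hc, map_sum] at hu
        rw [← hu]
        refine Finset.sum_congr rfl fun i _ => ?_
        rw [map_mul, hφ]
        have h2 : φ (C (C (pb.basis i))) = j (pb.basis i) := ev_CC _ _ _ _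
        rw [h2, hj, Algebra.smul_def, mul_comm]
        rfl
      have h2 := Fintype.linearIndependent_iff.1 hli _ h1
      rw [Ideal.mem_span_singleton, hc]
      refine Finset.dvd_sum fun i _ => ?_
      exact dvd_mul_of_dvd_right (Polynomial.map_dvd _ (dvd_of_ev x y hx f hm hirr hf _ (h2 i))) _
    · rw [Ideal.span_le, Set.singleton_subset_iff, SetLike.mem_coe, RingHom.mem_ker, hφ, hf,
        map_zero]
  have hprime : (RingHom.ker φ).IsPrime := RingHom.ker_isPrime φ
  rw [hker] at hprime
  have h0 : f.map (mapRingHom (algebraMap k L)) ≠ 0 := (hm.map _).ne_zero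
  exact ((Ideal.span_singleton_prime h0).1 hprime).irreducible

end Pool.Agent.Lib.MP_1a0ddd_nt.LW.RegA
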