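import Pool.Agent.Lib.MP_1a0ddd_nt.LW.BNoe
import Pool.Agent.Lib.MP_1a0ddd_nt.LW.CRegA

/-! Absolutely irreducible polynomials from relatively algebraically closed fields. -/

set_option autoImplicit false

namespace Pool.Agent.Lib.MP_1a0ddd_nt.LW

open Polynomial

/-- lifting a monic polynomial of `E[x][y]` to a subring containing its coefficients -/
private theorem lift_sub {k E : Type} [Field k] [Field E] [Algebra k E] (A : Subalgebra k E)
    (g : E[X][X]) (hg : g.Monic) (hA : ∀ i j, (g.coeff i).coeff j ∈ A) :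
    ∃ g₀ : A[X][X], g₀.map (mapRingHom (algebraMap A E)) = g ∧ g₀.natDegree = g.natDegree ∧
      g₀.Monic := by
  apply lifts_and_natDegree_eq_and_monic _ hg
  rw [lifts_iff_coeff_lifts]
  intro i
  have h1 : g.coeff i ∈ lifts (algebraMap A E) := by
    rw [lifts_iff_coeff_lifts]
    intro j
    exact ⟨⟨_, hA i j⟩, rfl⟩
  obtain ⟨u, hu⟩ := (mem_lifts _).1 h1
  exact ⟨u, by rw [coe_mapRingHom, hu]⟩

/-- Proof: let `f = g k` over `E ⊇ k₀`, `g`, `k` monic of smaller degree (`monic_factors`). The algebra
`A` generated over `k₀` by the coefficients of `g`, `k` has a maximal ideal `m`, and `A/m` is finite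
over `k₀` (Zariski's lemma); over `A/m` the polynomial `f` still factors. -/
theorem absIrr_of_finite {k : Type} [Field k] (f : k[X][X]) (hm : f.Monic)
    (h : ∀ (L : Type) [Field L] [Algebra k L] [FiniteDimensional k L],
      Irreducible (f.map (mapRingHom (algebraMap k L)))) : AbsIrr f := by
  classical
  intro E _ φ hφ
  let _ : Algebra k E := φ.toAlgebra
  by_contra hred
  obtain ⟨f', hf'⟩ : ∃ f', f' = f.map (mapRingHom φ) := ⟨_, rfl⟩
  rw [← hf'] at hred
  have hm' : f'.Monic := by rw [hf']; exact hm.map _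
  have hdeg : f'.natDegree = f.natDegree := by rw [hf']; exact hm.natDegree_map _
  have hd : 0 < f'.natDegree := by
    rw [hdeg]
    by_contra h0
    have h2 : f = 1 := hm.natDegree_eq_zero.1 (by omega)
    have h1 := h k
    rw [h2, Polynomial.map_one] at h1
    exact h1.not_isUnit isUnit_one
  obtain ⟨c, hc⟩ : ∃ c, ∀ i, (f'.coeff i).natDegree ≤ c := by
    refine ⟨(Finset.range (f'.natDegree + 1)).sup fun i => (f'.coeff i).natDegree, fun i => ?_⟩
    by_cases hi : i ≤ f'.natDegree
    · exact Finset.le_sup (f := fun i => (f'.coeff i).natDegree) (Finset.mem_range.2 (by omega))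
    · rw [coeff_eq_zero_of_natDegree_lt (by omega), natDegree_zero]
      exact Nat.zero_le _
  obtain ⟨g, q, hgq, hg, hq, hg1, hq1, -, -⟩ := monic_factors f' hm' hd c hc hred
  -- the algebra generated by the coefficients
  obtain ⟨S, hS⟩ : ∃ S : Finset E, ∀ i j, ((g.coeff i).coeff j = 0 ∨ (g.coeff i).coeff j ∈ S) ∧
      ((q.coeff i).coeff j = 0 ∨ (q.coeff i).coeff j ∈ S) := by
    refine ⟨(g.support.biUnion fun i => (g.coeff i).coeffs) ∪
      (q.support.biUnion fun i => (q.coeff i).coeffs), fun i j => ⟨?_, ?_⟩⟩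
    · by_cases h0 : (g.coeff i).coeff j = 0
      · exact Or.inl h0
      · right
        refine Finset.mem_union_left _ (Finset.mem_biUnion.2 ⟨i, ?_, coeff_mem_coeffs h0⟩)
        rw [mem_support_iff]
        intro h1
        rw [h1, coeff_zero] at h0
        exact h0 rfl
    · by_cases h0 : (q.coeff i).coeff j = 0
      · exact Or.inl h0
      · right
        refine Finset.mem_union_right _ (Finset.mem_biUnion.2 ⟨i, ?_, coeff_mem_coeffs h0⟩)
        rw [mem_support_iff]
        intro h1
        rw [h1, coeff_zero] at h0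
        exact h0 rfl
  obtain ⟨A, hA⟩ : ∃ A, A = Algebra.adjoin k (S : Set E) := ⟨_, rfl⟩
  have hAg : ∀ i j, (g.coeff i).coeff j ∈ A := by
    intro i j
    rcases (hS i j).1 with h0 | h0
    · rw [h0]; exact zero_mem _
    · rw [hA]; exact Algebra.subset_adjoin h0
  have hAq : ∀ i j, (q.coeff i).coeff j ∈ A := by
    intro i j
    rcases (hS i j).2 with h0 | h0
    · rw [h0]; exact zero_mem _
    · rw [hA]; exact Algebra.subset_adjoin h0
  have hft : Algebra.FiniteType k A := by
    rw [← Subalgebra.fg_iff_finiteType, hA]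
    exact Subalgebra.fg_adjoin_finset S
  obtain ⟨g₀, hg₀, hg₀d, hg₀m⟩ := lift_sub A g hg hAg
  obtain ⟨q₀, hq₀, hq₀d, hq₀m⟩ := lift_sub A q hq hAq
  have hinj : Function.Injective (mapRingHom (mapRingHom (algebraMap A E))) := by
    have h1 : Function.Injective (mapRingHom (algebraMap A E)) :=
      map_injective _ (Subtype.val_injective)
    exact map_injective _ h1
  have hfac : f.map (mapRingHom (algebraMap k A)) = g₀ * q₀ := by
    apply hinj
    rw [map_mul, coe_mapRingHom, hg₀, hq₀, Polynomial.map_map, ← hgq, hf']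
    congr 1
    rw [mapRingHom_comp]
    congr 1
  obtain ⟨m, hmax⟩ := Ideal.exists_maximal A
  let _ : Field (A ⧸ m) := Ideal.Quotient.field m
  have hft2 : Algebra.FiniteType k (A ⧸ m) :=
    Algebra.FiniteType.of_surjective (Ideal.Quotient.mkₐ k m) (Ideal.Quotient.mkₐ_surjective k m)
  have hfin : Module.Finite k (A ⧸ m) := finite_of_finite_type_of_isJacobsonRing k (A ⧸ m)
  have h1 := h (A ⧸ m)
  have h2 : f.map (mapRingHom (algebraMap k (A ⧸ m))) =
      g₀.map (mapRingHom (Ideal.Quotient.mk m)) * q₀.map (mapRingHom (Ideal.Quotient.mk m)) := by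
    rw [← Polynomial.map_mul, ← hfac, Polynomial.map_map]
    congr 1
    rw [mapRingHom_comp]
    congr 1
  have hgm := hg₀m.map (mapRingHom (Ideal.Quotient.mk m))
  have hqm := hq₀m.map (mapRingHom (Ideal.Quotient.mk m))
  have hsum : g.natDegree + q.natDegree = f'.natDegree := by
    rw [hgq, hg.natDegree_mul hq]
  rcases h1.isUnit_or_isUnit h2 with h3 | h3
  · have h4 := hgm.natDegree_eq_zero.2 (hgm.eq_one_of_isUnit h3)
    rw [hg₀m.natDegree_map] at h4
    omega
  · have h4 := hqm.natDegree_eq_zero.2 (hqm.eq_one_of_isUnit h3)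
    rw [hq₀m.natDegree_map] at h4
    omega

/-- Proof: `L = k(θ)`, `m` the minimal polynomial of `θ` over `k`. `m` is irreducible over `K`: the
coefficients of a monic factor are algebraic over `k`, so they are in `k`. Let `K₀ = k(x, y)`,
`[K₀ : k(x)] = n = deg f` (`f(x, Y)` is the minimal polynomial of `y` over `k(x)`: `f` is irreducible
and monic, Gauss). `m` is irreducible over `K₀`, so `[K₀(θ) : k(x)] = n [L : k]`, and
`[L(x) : k(x)] ≤ [L : k]`, so `[K₀(θ) : L(x)] ≥ n`; but `K₀(θ) = L(x)(y)`, and if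
`f = g h` over `L` with monic factors of smaller degree, `y` is a root of `g(x, Y)` or
`h(x, Y)`. -/
theorem irr_of_regular {k K : Type} [Field k] [CharZero k] [Field K] [Algebra k K]
    (hk : ∀ a : K, IsAlgebraic k a → a ∈ (algebraMap k K).range) (x y : K)
    (hx : Transcendental k x) (f : k[X][X]) (hm : f.Monic) (hirr : Irreducible f)
    (hf : (f.map (mapRingHom (algebraMap k K))).evalEval x y = 0) (L : Type) [Field L]
    [Algebra k L] [FiniteDimensional k L] :
    Irreducible (f.map (mapRingHom (algebraMap k L))) :=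
  RegA.irr_main hk x y hx f hm hirr (by rw [RegA.ev_eq_evalEval, hf]) L

theorem absIrr_of_regular {k K : Type} [Field k] [CharZero k] [Field K] [Algebra k K]
    (hk : ∀ a : K, IsAlgebraic k a → a ∈ (algebraMap k K).range) (x y : K)
    (hx : Transcendental k x) (f : k[X][X]) (hm : f.Monic) (hirr : Irreducible f)
    (hf : (f.map (mapRingHom (algebraMap k K))).evalEval x y = 0) : AbsIrr f :=
  absIrr_of_finite f hm fun L _ _ _ => irr_of_regular hk x y hx f hm hirr hf L

end Pool.Agent.Lib.MP_1a0ddd_nt.LW
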