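import Pool.Agent.Lib.MP_1a0ddd_nt.LW.QCou
import Pool.Agent.Lib.MP_1a0ddd_nt.LW.QRed

/-! Nagao's statement for all families of degree at most two in the parameter. -/

set_option autoImplicit false

namespace Pool.Agent.Lib.MP_1a0ddd_nt.LW

open Polynomial Quad

theorem pencil_main (R : Type) [CommRing R] [IsDomain R] [CharZero R] [Algebra.FiniteType ℤ R]
    (d : ℕ) (hd : Algebra.trdeg ℤ R = (d : Cardinal)) {m : ℕ} (a b c : R[X])
    (π : Fin m → R[X]) (k : Fin m → ℕ) (δ : R) (h : Pencil a b c π k δ) :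
    RankOverAll a b c ∧ NagaoLimit (quad a b c) (d + 1) (pencilRank (toF a) (toF b) (toF c)) :=
  ⟨quad_rank4 R a b c π k δ h, quad_limit4 R a b c π k δ h d (counted_of R d hd a b c π k δ h)⟩

theorem family_main (R : Type) [CommRing R] [IsDomain R] [CharZero R] [Algebra.FiniteType ℤ R]
    (d : ℕ) (hd : Algebra.trdeg ℤ R = (d : Cardinal)) (a b c : R[X]) (h : Family a b c) :
    RankOverAll a b c ∧ NagaoLimit (quad a b c) (d + 1) (pencilRank (toF a) (toF b) (toF c)) := by
  obtain ⟨s, hs, i0, m, π, k, δ, hp⟩ := exists_pencil R a b c h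
  obtain ⟨i1, i2, i3, htr, hinj⟩ := loc_facts R s hs (Localization.Away s)
  have h0 := pencil_main (Localization.Away s) d (htr.trans hd) (toL s a) (toL s b) (toL s c)
    π k δ hp
  refine ⟨rank_descend R s hs a b c h0.1, nagao_descend R s hs a b c _ _ ?_⟩
  rw [← pencilRank_loc R s hs a b c]
  exact h0.2

end Pool.Agent.Lib.MP_1a0ddd_nt.LW
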