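import Pool.Agent.Lib.MP_1a0ddd_nt.LW.SXD

/-! Existence of the auxiliary function by linear algebra. -/

set_option autoImplicit false

namespace Pool.Agent.Lib.MP_1a0ddd_nt.LW

open Polynomial

variable {F : Type} [Field F]

/-- Proof: the unknowns `a_jk` run through the subspace `XD f (L - 1)` of dimension `d L`
(`xdSub_finrank`, `L ≥ 1` by `hineq`), so there are `K d (d L)` of them; each of the `M e` conditions
is linear with values in the subspace of the elements of degree
`≤ L + M c1 + K + c3 + 2 d c` (`XD.of_mul`, `XD.mul`), of dimension `d (L + M c1 + K + c3 + 2 d c + 1)`.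
A linear map to a space of smaller dimension has a kernel. -/
theorem exists_aux (f : F[X][X]) (hm : f.Monic) (hd : 0 < f.natDegree) (c : ℕ)
    (hc : ∀ i, (f.coeff i).natDegree ≤ c) (δ : Derivation F (AdjoinRoot f) (AdjoinRoot f)) (c1 : ℕ)
    (hδ : ∀ n b, XD f n b → XD f (n + c1) (δ b)) (e c3 : ℕ)
    (γ : Fin e → Fin f.natDegree → AdjoinRoot f) (hγ : ∀ s k, XD f c3 (γ s k)) (K L M : ℕ)
    (hineq : M * e * (L + M * c1 + K + c3 + 2 * f.natDegree * c + 1) < K * f.natDegree * L) :
    ∃ a : Fin K → Fin f.natDegree → AdjoinRoot f, (∀ j k, XD f L (a j k)) ∧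
      (∃ j k, a j k ≠ 0) ∧
      ∀ m < M, ∀ s, ∑ k, γ s k * ∑ j : Fin K, AdjoinRoot.of f X ^ (j : ℕ) * δ^[m] (a j k) = 0 := by
  classical
  have hL : 1 ≤ L := by
    rcases Nat.eq_zero_or_pos L with h | h
    · rw [h, Nat.mul_zero] at hineq
      exact absurd hineq (Nat.not_lt_zero _)
    · exact h
  set D := L + M * c1 + K + c3 + 2 * f.natDegree * c with hD
  -- iterates of the derivation
  have hit : ∀ (m n : ℕ) (b : AdjoinRoot f), XD f n b → XD f (n + m * c1) (δ^[m] b) := by
    intro m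
    induction m with
    | zero => intro n b hb; simpa using hb
    | succ m ih =>
      intro n b hb
      rw [Function.iterate_succ_apply']
      have h1 := hδ _ _ (ih n b hb)
      have e1 : n + m * c1 + c1 = n + (m + 1) * c1 := by ring
      rwa [e1] at h1
  let δl : Module.End F (AdjoinRoot f) := (δ : AdjoinRoot f →ₗ[F] AdjoinRoot f)
  have hδl : ∀ (m : ℕ) (b : AdjoinRoot f), (δl ^ m) b = δ^[m] b := by
    intro m b
    rw [Module.End.pow_apply]
    rfl
  let V := Fin K → Fin f.natDegree → xdSub f hm (L - 1)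
  let Ψ : ℕ → Fin e → V →ₗ[F] AdjoinRoot f := fun m s =>
    ∑ k : Fin f.natDegree, LinearMap.mulLeft F (γ s k) ∘ₗ ∑ j : Fin K,
      LinearMap.mulLeft F (AdjoinRoot.of f X ^ (j : ℕ)) ∘ₗ (δl ^ m) ∘ₗ
        (xdSub f hm (L - 1)).subtype ∘ₗ LinearMap.proj k ∘ₗ LinearMap.proj j
  have hΨ : ∀ m s (v : V), Ψ m s v =
      ∑ k, γ s k * ∑ j : Fin K, AdjoinRoot.of f X ^ (j : ℕ) * δ^[m] (v j k : AdjoinRoot f) := by
    intro m s v
    simp only [Ψ, LinearMap.sum_apply, LinearMap.comp_apply, LinearMap.mulLeft_apply, hδl]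
    rfl
  have hmem : ∀ m, m < M → ∀ s (v : V), Ψ m s v ∈ xdSub f hm D := by
    intro m hmM s v
    rw [hΨ]
    refine XD.sum hm _ _ _ fun k _ => ?_
    have h1 : XD f (L - 1 + m * c1 + K) (∑ j : Fin K, AdjoinRoot.of f X ^ (j : ℕ) *
        δ^[m] (v j k : AdjoinRoot f)) := by
      refine XD.sum hm _ _ _ fun j _ => ?_
      rw [← map_pow]
      have h2 : XD f (L - 1 + m * c1) (δ^[m] (v j k : AdjoinRoot f)) := hit m _ _ (v j k).2
      refine h2.of_mul (X ^ (j : ℕ)) (m := K) ?_
      rw [natDegree_X_pow]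
      exact j.2.le
    refine XD.mono ?_ (XD.mul hm c hc (hγ s k) h1)
    have h3 : m * c1 ≤ M * c1 := Nat.mul_le_mul_right _ hmM.le
    omega
  let Φ : V →ₗ[F] (Fin M → Fin e → xdSub f hm D) :=
    LinearMap.pi fun m => LinearMap.pi fun s =>
      LinearMap.codRestrict (xdSub f hm D) (Ψ m s) (hmem m m.2 s)
  obtain ⟨hf1, hr1⟩ := xdSub_finrank hm (L - 1)
  obtain ⟨hf2, hr2⟩ := xdSub_finrank hm D
  have hV : Module.finrank F V = K * (f.natDegree * (f.natDegree * L)) := by
    simp only [V]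
    rw [Module.finrank_pi_fintype]
    simp only [Module.finrank_pi_fintype, hr1, Finset.sum_const, Finset.card_univ,
      Fintype.card_fin, smul_eq_mul]
    rw [Nat.sub_add_cancel hL]
  have hW : Module.finrank F (Fin M → Fin e → xdSub f hm D) = M * (e * (f.natDegree * (D + 1))) := by
    rw [Module.finrank_pi_fintype]
    simp only [Module.finrank_pi_fintype, hr2, Finset.sum_const, Finset.card_univ,
      Fintype.card_fin, smul_eq_mul]
  have hlt : Module.finrank F (Fin M → Fin e → xdSub f hm D) < Module.finrank F V := by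
    rw [hV, hW]
    calc M * (e * (f.natDegree * (D + 1))) = f.natDegree * (M * e * (D + 1)) := by ring
      _ < f.natDegree * (K * f.natDegree * L) := Nat.mul_lt_mul_of_pos_left hineq hd
      _ = K * (f.natDegree * (f.natDegree * L)) := by ring
  have hker : LinearMap.ker Φ ≠ ⊥ := LinearMap.ker_ne_bot_of_finrank_lt hlt
  obtain ⟨v, hv, hv0⟩ := (Submodule.ne_bot_iff _).1 hker
  refine ⟨fun j k => (v j k : AdjoinRoot f), fun j k => ?_, ?_, ?_⟩
  · exact XD.mono (Nat.sub_le _ _) (v j k).2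
  · by_contra hcon
    push Not at hcon
    apply hv0
    funext j k
    exact Subtype.ext (hcon j k)
  · intro m hmM s
    have h1 : Φ v = 0 := hv
    have h2 := congrFun (congrFun h1 ⟨m, hmM⟩) s
    have h3 := congrArg (Subtype.val) h2
    have h4 : Ψ m s v = 0 := h3
    rw [hΨ] at h4
    exact h4

end Pool.Agent.Lib.MP_1a0ddd_nt.LW
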