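import Pool.Agent.Lib.MP_1a0ddd_nt.LW.STwo

/-! The number of points of an absolutely irreducible plane curve over `F_p`. -/

set_option autoImplicit false

namespace Pool.Agent.Lib.MP_1a0ddd_nt.LW

open Polynomial

/-- the homomorphism of a point -/
private theorem exists_pt {F : Type} [Field F] (g : F[X][X]) (x y : F)
    (h : g.evalEval x y = 0) : ∃ ψ : AdjoinRoot g →ₐ[F] F, ψ (AdjoinRoot.of g X) = x ∧
      ψ (AdjoinRoot.root g) = y ∧ ∀ q : F[X][X], ψ (AdjoinRoot.mk g q) = q.evalEval x y := by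
  have h1 : ((Polynomial.aeval x : F[X] →ₐ[F] F) : F[X] →+* F) = evalRingHom x := by
    ext <;> simp
  have h2 : g.eval₂ ((Polynomial.aeval x : F[X] →ₐ[F] F) : F[X] →+* F) y = 0 := by
    rw [h1, eval₂_evalRingHom, h]
  refine ⟨AdjoinRoot.liftAlgHom g (Polynomial.aeval x) y h2, ?_, ?_, ?_⟩
  · rw [AdjoinRoot.liftAlgHom_of, aeval_X]
  · rw [AdjoinRoot.liftAlgHom_root]
  · intro q
    rw [AdjoinRoot.liftAlgHom_mk]
    change q.eval₂ ((Polynomial.aeval x : F[X] →ₐ[F] F) : F[X] →+* F) y = _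
    rw [h1, eval₂_evalRingHom]

/-- the homomorphisms of a finite set of points -/
private theorem exists_image {F : Type} [Field F] (g : F[X][X]) (T : Finset (F × F))
    (hT : ∀ Q ∈ T, g.evalEval Q.1 Q.2 = 0) :
    ∃ S : Finset (AdjoinRoot g →ₐ[F] F), S.card = T.card ∧ ∀ ψ ∈ S, ∃ Q ∈ T,
      ψ (AdjoinRoot.of g X) = Q.1 ∧ ψ (AdjoinRoot.root g) = Q.2 ∧
        ∀ q : F[X][X], ψ (AdjoinRoot.mk g q) = q.evalEval Q.1 Q.2 := by
  classical
  have hex : ∀ Q : {Q // Q ∈ T}, ∃ ψ : AdjoinRoot g →ₐ[F] F, ψ (AdjoinRoot.of g X) = Q.1.1 ∧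
      ψ (AdjoinRoot.root g) = Q.1.2 ∧
        ∀ q : F[X][X], ψ (AdjoinRoot.mk g q) = q.evalEval Q.1.1 Q.1.2 :=
    fun Q => exists_pt g Q.1.1 Q.1.2 (hT Q.1 Q.2)
  choose P hP using hex
  have hinj : Function.Injective P := by
    intro Q Q' h
    have h1 : Q.1.1 = Q'.1.1 := by rw [← (hP Q).1, ← (hP Q').1, h]
    have h2 : Q.1.2 = Q'.1.2 := by rw [← (hP Q).2.1, ← (hP Q').2.1, h]
    exact Subtype.ext (Prod.ext h1 h2)
  refine ⟨T.attach.image P, ?_, ?_⟩
  · rw [Finset.card_image_of_injective _ hinj, Finset.card_attach]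
  · intro ψ hψ
    obtain ⟨Q, _, rfl⟩ := Finset.mem_image.mp hψ
    exact ⟨Q.1, Q.2, hP Q⟩

/-- few points with `f_y = 0` -/
private theorem bad_le {F : Type} [Field F] (f : F[X][X]) (hm : f.Monic) (habs : AbsIrr f)
    (c : ℕ) (hc : ∀ i, (f.coeff i).natDegree ≤ c) (hd : ((f.natDegree : ℕ) : F) ≠ 0)
    (T : Finset (F × F)) (hT : ∀ Q ∈ T, f.evalEval Q.1 Q.2 = 0)
    (hT' : ∀ Q ∈ T, (derivative f).evalEval Q.1 Q.2 = 0) :
    T.card ≤ f.natDegree * (c + 2 * f.natDegree * c) := by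
  obtain ⟨S, hS, hS'⟩ := exists_image f T hT
  have hd0 : f.natDegree ≠ 0 := by
    intro h
    rw [h, Nat.cast_zero] at hd
    exact hd rfl
  have hirr : Irreducible f := by
    have h1 := habs F (RingHom.id F) Function.injective_id
    rwa [mapRingHom_id, Polynomial.map_id] at h1
  have hdeg : (derivative f).degree < f.degree := degree_derivative_lt hm.ne_zero
  have hder : derivative f ≠ 0 := by
    intro h0
    have h1 := coeff_derivative f (f.natDegree - 1)
    have h2 : f.natDegree - 1 + 1 = f.natDegree := Nat.succ_pred_eq_of_ne_zero hd0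
    rw [h0, coeff_zero, h2, hm.coeff_natDegree, one_mul] at h1
    have h3 : ((f.natDegree - 1 : ℕ) : F[X]) + 1 = C ((f.natDegree : ℕ) : F) := by
      rw [← Nat.cast_succ, Nat.succ_eq_add_one, h2]
      simp
    rw [h3] at h1
    exact hd (C_eq_zero.mp h1.symm)
  have hA : XD f c (AdjoinRoot.mk f (derivative f)) := by
    refine ⟨derivative f, hdeg, fun i => ?_, rfl⟩
    rw [coeff_derivative]
    have h3 : ((i : ℕ) : F[X]) + 1 = C (((i + 1 : ℕ) : ℕ) : F) := by
      simp
    rw [h3]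
    exact (natDegree_mul_C_le _ _).trans (hc (i + 1))
  have hA0 : AdjoinRoot.mk f (derivative f) ≠ 0 :=
    AdjoinRoot.mk_ne_zero_of_degree_lt hm hder hdeg
  obtain ⟨h1, h2⟩ := quotient_le f hm hirr c hc c _ hA hA0
  rw [← hS]
  refine (zeros_le_one S (AdjoinRoot.mk f (derivative f)) ?_).trans h2
  intro ψ hψ
  obtain ⟨Q, hQ, _, _, hq⟩ := hS' ψ hψ
  rw [hq, hT' Q hQ]

/-- the roots over a good point -/
private theorem card_roots_good {F : Type} [Field F] [IsAlgClosed F] [DecidableEq F] (h : F[X])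
    (hm : h.Monic) (hgood : ∀ y ∈ h.roots.toFinset, (derivative h).eval y ≠ 0) :
    h.roots.toFinset.card = h.natDegree := by
  rw [Multiset.toFinset_card_of_nodup, IsAlgClosed.card_roots_eq_natDegree]
  rw [Multiset.nodup_iff_count_le_one]
  intro y
  by_contra hcon
  push Not at hcon
  rw [count_roots, one_lt_rootMultiplicity_iff_isRoot hm.ne_zero] at hcon
  refine hgood y ?_ hcon.2
  rw [Multiset.mem_toFinset, mem_roots hm.ne_zero]
  exact hcon.1

/-- **Lang and Weil for plane curves.** Proof: `F` the algebraic closure of `F_p`, `f'` the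
polynomial over `F` (it is `AbsIrr`, fixed by Frobenius), `p > d`. The homomorphisms
`ψ : F[x][y]/(f) → F` are the points `(x, y) ∈ F × F`, `f(x, y) = 0`. At most `d (c + 2 d c)` of them
have `f_y = 0` (`zeros_le_one`, `quotient_le` for `A = f_y`, which is not zero in `AdjoinRoot f`
because `p ∤ d` and its degree is `< d`). If `x ∈ F_p` and no point over `x` has `f_y = 0`, then
there are exactly `d` points over `x` (a polynomial of degree `d` with simple roots in the
algebraically closed `F`). So `N₁ + N₂ ≥ d (p - d (c + 2 d c))` with `N₁`, `N₂` the numbers of the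
points of `bound_one`, `bound_two` (`x ∈ F_p`, `f_y ≠ 0`, `y ∈ F_p` resp. `y ∉ F_p`), and the number
of the theorem is between `N₁` and `N₁ + d (c + 2 d c)`. -/
theorem curve_count (d c : ℕ) (hd : 0 < d) (ε : ℝ) (hε : 0 < ε) : ∃ p₀ : ℕ, ∀ p : ℕ, p₀ ≤ p →
    p.Prime → ∀ f : (ZMod p)[X][X], f.Monic → f.natDegree = d →
    (∀ i, (f.coeff i).natDegree ≤ c) →
    (∀ (E : Type) [Field E] (φ : ZMod p →+* E), Irreducible (f.map (mapRingHom φ))) →
    (1 - ε) * p ≤ (Nat.card {Q : ZMod p × ZMod p // f.evalEval Q.1 Q.2 = 0} : ℝ) ∧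
    (Nat.card {Q : ZMod p × ZMod p // f.evalEval Q.1 Q.2 = 0} : ℝ) ≤ (1 + ε) * p := by
  classical
  obtain ⟨p₁, h₁⟩ := bound_one d c hd (ε / 2) (by positivity)
  obtain ⟨p₂, h₂⟩ := bound_two d c hd (ε / 2) (by positivity)
  set D : ℕ := d * (c + 2 * d * c) with hD
  refine ⟨max (max p₁ p₂) (max (d + 1) ⌈(d * D : ℝ) / (ε / 2)⌉₊), ?_⟩
  intro p hp hprime f hm hfd hc hirr
  have hp1 : p₁ ≤ p := (le_max_left _ _).trans ((le_max_left _ _).trans hp)
  have hp2 : p₂ ≤ p := (le_max_right _ _).trans ((le_max_left _ _).trans hp)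
  have hpd : d + 1 ≤ p := (le_max_left _ _).trans ((le_max_right _ _).trans hp)
  have hpD : (d * D : ℝ) ≤ ε / 2 * p := by
    have h3 : ⌈(d * D : ℝ) / (ε / 2)⌉₊ ≤ p := (le_max_right _ _).trans ((le_max_right _ _).trans hp)
    have h4 : (d * D : ℝ) / (ε / 2) ≤ p := (Nat.le_ceil _).trans (by exact_mod_cast h3)
    rw [div_le_iff₀ (by positivity)] at h4
    linarith
  have : Fact p.Prime := ⟨hprime⟩
  let F := AlgebraicClosure (ZMod p)
  have : CharP F p := charP_of_injective_algebraMap (algebraMap (ZMod p) F).injective p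
  set φ : ZMod p →+* F := algebraMap (ZMod p) F with hφ
  have hφi : Function.Injective φ := φ.injective
  set g : F[X][X] := f.map (mapRingHom φ) with hg
  have hgm : g.Monic := hm.map _
  have hgd : g.natDegree = d := by rw [hg, hm.natDegree_map, hfd]
  have hgc : ∀ i, (g.coeff i).natDegree ≤ c := by
    intro i
    rw [hg, coeff_map, coe_mapRingHom]
    exact natDegree_map_le.trans (hc i)
  have hgabs : AbsIrr g := by
    intro E _ φ' _
    have h3 := hirr E (φ'.comp φ)
    rwa [hg, Polynomial.map_map, mapRingHom_comp]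
  have hgfrob : g.map (mapRingHom (frobenius F p)) = g := by
    rw [hg, Polynomial.map_map, mapRingHom_comp]
    congr 2
    refine RingHom.ext fun a => ?_
    rw [RingHom.comp_apply, frobenius_def, ← map_pow, ZMod.pow_card]
  have hev : ∀ a b : ZMod p, g.evalEval (φ a) (φ b) = φ (f.evalEval a b) :=
    fun a b => map_mapRingHom_evalEval φ f a b
  have hfr : ∀ a : ZMod p, φ a ^ p = φ a := by
    intro a
    rw [← map_pow, ZMod.pow_card]
  have hfix : ∀ y : F, y ^ p = y → ∃ b : ZMod p, φ b = y := by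
    intro y hy
    have h3 := (Subfield.mem_bot_iff_pow_eq_self F p).mpr hy
    rw [← ZMod.fieldRange_castHom_eq_bot p] at h3
    obtain ⟨b, hb⟩ := h3
    refine ⟨b, ?_⟩
    rw [← hb]
    exact congrArg (fun r : ZMod p →+* F => r b) (Subsingleton.elim _ _)
  have hdF : ((g.natDegree : ℕ) : F) ≠ 0 := by
    rw [hgd, Ne, CharP.cast_eq_zero_iff F p]
    intro h3
    have := Nat.le_of_dvd hd h3
    omega
  -- the three bounds for finite sets of points
  have hbad : ∀ T : Finset (F × F), (∀ Q ∈ T, g.evalEval Q.1 Q.2 = 0) →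
      (∀ Q ∈ T, (derivative g).evalEval Q.1 Q.2 = 0) → T.card ≤ D := by
    intro T hT hT'
    have h3 := bad_le g hgm hgabs c hgc hdF T hT hT'
    rwa [hgd] at h3
  have hone : ∀ T : Finset (F × F), (∀ Q ∈ T, g.evalEval Q.1 Q.2 = 0) →
      (∀ Q ∈ T, Q.1 ^ p = Q.1) → (∀ Q ∈ T, Q.2 ^ p = Q.2) →
      (∀ Q ∈ T, (derivative g).evalEval Q.1 Q.2 ≠ 0) → (T.card : ℝ) ≤ (1 + ε / 2) * p := by
    intro T hT hx hy hT'
    obtain ⟨S, hS, hS'⟩ := exists_image g T hT
    rw [← hS]
    refine h₁ p hp1 F g hgm hgd hgc hgabs hgfrob S ?_ ?_ ?_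
    · intro ψ hψ
      obtain ⟨Q, hQ, h3, _, _⟩ := hS' ψ hψ
      rw [h3, hx Q hQ]
    · intro ψ hψ
      obtain ⟨Q, hQ, _, h3, _⟩ := hS' ψ hψ
      rw [h3, hy Q hQ]
    · intro ψ hψ
      obtain ⟨Q, hQ, _, _, h3⟩ := hS' ψ hψ
      rw [h3]
      exact hT' Q hQ
  have htwo : ∀ T : Finset (F × F), (∀ Q ∈ T, g.evalEval Q.1 Q.2 = 0) →
      (∀ Q ∈ T, Q.1 ^ p = Q.1) → (∀ Q ∈ T, Q.2 ^ p ≠ Q.2) →
      (∀ Q ∈ T, (derivative g).evalEval Q.1 Q.2 ≠ 0) →
      (T.card : ℝ) ≤ (((d - 1 : ℕ) : ℝ) + ε / 2) * p := by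
    intro T hT hx hy hT'
    obtain ⟨S, hS, hS'⟩ := exists_image g T hT
    rw [← hS]
    refine h₂ p hp2 F g hgm hgd hgc hgabs hgfrob S ?_ ?_ ?_
    · intro ψ hψ
      obtain ⟨Q, hQ, h3, _, _⟩ := hS' ψ hψ
      rw [h3, hx Q hQ]
    · intro ψ hψ
      obtain ⟨Q, hQ, _, h3, _⟩ := hS' ψ hψ
      rw [h3]
      exact hy Q hQ
    · intro ψ hψ
      obtain ⟨Q, hQ, _, _, h3⟩ := hS' ψ hψ
      rw [h3]
      exact hT' Q hQ
  -- the number of points
  set Z : Finset (ZMod p × ZMod p) := Finset.univ.filter fun Q => f.evalEval Q.1 Q.2 = 0 with hZ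
  have hN : Nat.card {Q : ZMod p × ZMod p // f.evalEval Q.1 Q.2 = 0} = Z.card := by
    rw [Nat.card_eq_fintype_card, Fintype.card_subtype]
  rw [hN]
  let ι : ZMod p × ZMod p → F × F := fun Q => (φ Q.1, φ Q.2)
  have hι : Function.Injective ι := by
    rintro ⟨a, b⟩ ⟨a', b'⟩ h
    have h3 := congrArg Prod.fst h
    have h4 := congrArg Prod.snd h
    exact Prod.ext (hφi h3) (hφi h4)
  constructor
  · -- the lower bound
    let R : ZMod p → Finset F := fun a => (g.map (evalRingHom (φ a))).roots.toFinset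
    have hRm : ∀ a, (g.map (evalRingHom (φ a))).Monic := fun a => hgm.map _
    have hR : ∀ a y, y ∈ R a ↔ g.evalEval (φ a) y = 0 := by
      intro a y
      simp only [R]
      rw [Multiset.mem_toFinset, mem_roots (hRm a).ne_zero, IsRoot.def, map_evalRingHom_eval]
    set Gd : Finset (ZMod p) := Finset.univ.filter fun a =>
      ∀ y ∈ R a, (derivative g).evalEval (φ a) y ≠ 0 with hGd
    have hRcard : ∀ a ∈ Gd, (R a).card = d := by
      intro a ha
      have h3 := (Finset.mem_filter.mp ha).2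
      have h4 := card_roots_good (g.map (evalRingHom (φ a))) (hRm a) (by
        intro y hy
        rw [derivative_map, map_evalRingHom_eval]
        exact h3 y hy)
      change (R a).card = _ at h4
      rw [h4, hgm.natDegree_map, hgd]
    have hbadcard : (Gdᶜ).card ≤ D := by
      have hex : ∀ a : {a // a ∈ Gdᶜ}, ∃ y, y ∈ R a.1 ∧
          (derivative g).evalEval (φ a.1) y = 0 := by
        rintro ⟨a, ha⟩
        rw [Finset.mem_compl, hGd, Finset.mem_filter] at ha
        push Not at ha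
        exact ha (Finset.mem_univ a)
      choose yb hyb using hex
      have h3 : (Gdᶜ.attach.image fun a => (φ a.1, yb a)).card = Gdᶜ.card := by
        rw [Finset.card_image_of_injective, Finset.card_attach]
        intro a a' h
        exact Subtype.ext (hφi (congrArg Prod.fst h))
      rw [← h3]
      refine hbad _ ?_ ?_
      · intro Q hQ
        obtain ⟨a, _, rfl⟩ := Finset.mem_image.mp hQ
        exact (hR _ _).mp (hyb a).1
      · intro Q hQ
        obtain ⟨a, _, rfl⟩ := Finset.mem_image.mp hQ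
        exact (hyb a).2
    have hGcard : p ≤ Gd.card + D := by
      have h3 := Finset.card_add_card_compl Gd
      rw [ZMod.card] at h3
      omega
    set A : Finset (F × F) := (Gd.sigma R).image (fun s => (φ s.1, s.2)) with hA
    have hAcard : A.card = Gd.card * d := by
      rw [hA, Finset.card_image_of_injective, Finset.card_sigma, Finset.sum_congr rfl hRcard,
        Finset.sum_const, smul_eq_mul]
      rintro ⟨a, y⟩ ⟨a', y'⟩ h
      have h3 := hφi (congrArg Prod.fst h)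
      have h4 := congrArg Prod.snd h
      simp only at h3 h4
      subst h3
      subst h4
      rfl
    have hAmem : ∀ Q ∈ A, ∃ a ∈ Gd, φ a = Q.1 ∧ Q.2 ∈ R a := by
      intro Q hQ
      obtain ⟨⟨a, y⟩, hs, rfl⟩ := Finset.mem_image.mp hQ
      rw [Finset.mem_sigma] at hs
      exact ⟨a, hs.1, rfl, hs.2⟩
    have hA2 : ((A.filter fun Q => ¬ Q.2 ^ p = Q.2).card : ℝ) ≤
        (((d - 1 : ℕ) : ℝ) + ε / 2) * p := by
      refine htwo _ ?_ ?_ ?_ ?_
      · intro Q hQ
        obtain ⟨a, _, h3, h4⟩ := hAmem Q (Finset.mem_filter.mp hQ).1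
        rw [← h3]
        exact (hR _ _).mp h4
      · intro Q hQ
        obtain ⟨a, _, h3, h4⟩ := hAmem Q (Finset.mem_filter.mp hQ).1
        rw [← h3, hfr]
      · intro Q hQ
        exact (Finset.mem_filter.mp hQ).2
      · intro Q hQ
        obtain ⟨a, ha, h3, h4⟩ := hAmem Q (Finset.mem_filter.mp hQ).1
        rw [← h3]
        exact (Finset.mem_filter.mp ha).2 _ h4
    have hA1 : (A.filter fun Q => Q.2 ^ p = Q.2).card ≤ Z.card := by
      rw [← Finset.card_image_of_injective Z hι]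
      refine Finset.card_le_card ?_
      intro Q hQ
      obtain ⟨hQA, hQp⟩ := Finset.mem_filter.mp hQ
      obtain ⟨a, _, h3, h4⟩ := hAmem Q hQA
      obtain ⟨b, hb⟩ := hfix Q.2 hQp
      refine Finset.mem_image.mpr ⟨(a, b), ?_, Prod.ext h3 hb⟩
      rw [hZ, Finset.mem_filter]
      refine ⟨Finset.mem_univ _, ?_⟩
      have h5 := (hR _ _).mp h4
      rw [← hb, hev] at h5
      exact hφi (h5.trans (map_zero φ).symm)
    have hsum : (A.filter fun Q => Q.2 ^ p = Q.2).card +
        (A.filter fun Q => ¬ Q.2 ^ p = Q.2).card = Gd.card * d := by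
      rw [Finset.card_filter_add_card_filter_not, hAcard]
    have h5 : (p : ℝ) ≤ Gd.card + D := by exact_mod_cast hGcard
    have h6 : ((A.filter fun Q => Q.2 ^ p = Q.2).card : ℝ) ≤ Z.card := by exact_mod_cast hA1
    have h7 : ((A.filter fun Q => Q.2 ^ p = Q.2).card : ℝ) +
        (A.filter fun Q => ¬ Q.2 ^ p = Q.2).card = Gd.card * d := by exact_mod_cast hsum
    have h8 : ((d - 1 : ℕ) : ℝ) = d - 1 := by
      rw [Nat.cast_sub hd, Nat.cast_one]
    rw [h8] at hA2
    have h9 : (0 : ℝ) ≤ d := Nat.cast_nonneg d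
    nlinarith [mul_le_mul_of_nonneg_left h5 h9]
  · -- the upper bound
    have hZev : ∀ Q ∈ Z, g.evalEval (φ Q.1) (φ Q.2) = 0 := by
      intro Q hQ
      rw [hev, (Finset.mem_filter.mp hQ).2, map_zero]
    have hZ1 : ((Z.filter fun Q => (derivative g).evalEval (φ Q.1) (φ Q.2) ≠ 0).card : ℝ) ≤
        (1 + ε / 2) * p := by
      rw [← Finset.card_image_of_injective _ hι]
      refine hone _ ?_ ?_ ?_ ?_
      · intro Q hQ
        obtain ⟨P, hP, rfl⟩ := Finset.mem_image.mp hQ
        exact hZev P (Finset.mem_filter.mp hP).1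
      · intro Q hQ
        obtain ⟨P, hP, rfl⟩ := Finset.mem_image.mp hQ
        exact hfr _
      · intro Q hQ
        obtain ⟨P, hP, rfl⟩ := Finset.mem_image.mp hQ
        exact hfr _
      · intro Q hQ
        obtain ⟨P, hP, rfl⟩ := Finset.mem_image.mp hQ
        exact (Finset.mem_filter.mp hP).2
    have hZ2 : (Z.filter fun Q => ¬ (derivative g).evalEval (φ Q.1) (φ Q.2) ≠ 0).card ≤ D := by
      rw [← Finset.card_image_of_injective _ hι]
      refine hbad _ ?_ ?_
      · intro Q hQ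
        obtain ⟨P, hP, rfl⟩ := Finset.mem_image.mp hQ
        exact hZev P (Finset.mem_filter.mp hP).1
      · intro Q hQ
        obtain ⟨P, hP, rfl⟩ := Finset.mem_image.mp hQ
        exact not_not.mp (Finset.mem_filter.mp hP).2
    have hsum : (Z.filter fun Q => (derivative g).evalEval (φ Q.1) (φ Q.2) ≠ 0).card +
        (Z.filter fun Q => ¬ (derivative g).evalEval (φ Q.1) (φ Q.2) ≠ 0).card = Z.card :=
      Finset.card_filter_add_card_filter_not _
    have h5 : ((Z.filter fun Q => (derivative g).evalEval (φ Q.1) (φ Q.2) ≠ 0).card : ℝ) +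
        (Z.filter fun Q => ¬ (derivative g).evalEval (φ Q.1) (φ Q.2) ≠ 0).card = Z.card := by
      exact_mod_cast hsum
    have h6 : ((Z.filter fun Q => ¬ (derivative g).evalEval (φ Q.1) (φ Q.2) ≠ 0).card : ℝ) ≤ D := by
      exact_mod_cast hZ2
    have h7 : (D : ℝ) ≤ d * D := by
      have h8 : (1 : ℝ) ≤ d := by exact_mod_cast hd
      have h9 : (0 : ℝ) ≤ D := Nat.cast_nonneg D
      nlinarith
    linarith

end Pool.Agent.Lib.MP_1a0ddd_nt.LW
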