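import Pool.Agent.Lib.MP_1a0ddd_nt.LW.SXD

/-! The derivation `f_y ∂/∂x - f_x ∂/∂y` of `F[x][y]/(f)`. -/

set_option autoImplicit false

namespace Pool.Agent.Lib.MP_1a0ddd_nt.LW

open Polynomial

variable {F : Type} [Field F]

/-- `∂/∂x` on `F[x][y]` -/
private noncomputable def sdX : Derivation F F[X][X] F[X][X] :=
  PolynomialModule.equivPolynomialSelf.compDer
    (derivative' : Derivation F F[X] F[X]).mapCoeffs

/-- `∂/∂y` on `F[x][y]` -/
private noncomputable def sdY : Derivation F F[X][X] F[X][X] :=
  (derivative' : Derivation F[X] F[X][X] F[X][X]).restrictScalars F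

private theorem sdX_coeff (g : F[X][X]) (i : ℕ) :
    (sdX g).coeff i = derivative (g.coeff i) := rfl

private theorem sdY_apply (g : F[X][X]) : sdY g = derivative g := rfl

private theorem sd_coeff_mul {a b : ℕ} {p q : F[X][X]} (hp : ∀ i, (p.coeff i).natDegree ≤ a)
    (hq : ∀ i, (q.coeff i).natDegree ≤ b) (i : ℕ) : ((p * q).coeff i).natDegree ≤ a + b := by
  rw [coeff_mul]
  refine natDegree_sum_le_of_forall_le _ _ fun x _ => ?_
  exact natDegree_mul_le.trans (add_le_add (hp _) (hq _))

private theorem sd_coeff_derivative (g : F[X][X]) (i : ℕ) :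
    ((derivative g).coeff i).natDegree ≤ (g.coeff (i + 1)).natDegree := by
  rw [coeff_derivative, ← Nat.cast_succ]
  refine natDegree_mul_le.trans ?_
  rw [natDegree_natCast, add_zero]

private theorem sdX_natDegree (g : F[X][X]) : (sdX g).natDegree ≤ g.natDegree := by
  refine natDegree_le_iff_coeff_eq_zero.2 fun N hN => ?_
  rw [sdX_coeff, coeff_eq_zero_of_natDegree_lt hN, derivative_zero]

/-- Proof: `∂_x` on `F[x][y]` is the derivative of the coefficients; `f_y ∂_x - f_x ∂_y` is a
derivation of `F[x][y]` which kills `f`, so it maps the ideal `(f)` to itself. In degrees: the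
representative `g` has `deg_y g < d` and `deg_x ≤ n`, so `f_y g_x - f_x g_y` has `deg_y ≤ 2 d`,
`deg_x ≤ n + c`; `xd_mk`. -/
theorem exists_der (f : F[X][X]) (hm : f.Monic) (c : ℕ) (hc : ∀ i, (f.coeff i).natDegree ≤ c) :
    ∃ δ : Derivation F (AdjoinRoot f) (AdjoinRoot f),
      δ (AdjoinRoot.of f X) = AdjoinRoot.mk f (derivative f) ∧
      ∀ n b, XD f n b → XD f (n + (2 * f.natDegree + 1) * c) (δ b) := by
  let D : Derivation F F[X][X] F[X][X] := derivative f • sdX - sdX f • sdY
  have hD : ∀ g, D g = derivative f * sdX g - sdX f * derivative g := fun g => rfl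
  have hDf : D f = 0 := by rw [hD]; ring
  let π : F[X][X] →ₐ[F] AdjoinRoot f := (AdjoinRoot.mkₐ f).restrictScalars F
  have hmk : ∀ x, π x = AdjoinRoot.mk f x := fun x => rfl
  have hker : ∀ x, π x = 0 → π (D x) = 0 := by
    intro x hx
    rw [hmk, AdjoinRoot.mk_eq_zero] at hx
    obtain ⟨y, rfl⟩ := hx
    rw [Derivation.leibniz, hDf, smul_zero, add_zero, smul_eq_mul, hmk, AdjoinRoot.mk_eq_zero]
    exact dvd_mul_right _ _
  have hsur : Function.Surjective π := AdjoinRoot.mk_surjective
  let δ : Derivation F (AdjoinRoot f) (AdjoinRoot f) := Derivation.liftOfSurjective hsur hker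
  have hδ : ∀ x, δ (AdjoinRoot.mk f x) = AdjoinRoot.mk f (D x) := fun x =>
    Derivation.liftOfSurjective_apply hsur hker x
  refine ⟨δ, ?_, ?_⟩
  · have h1 : AdjoinRoot.of f X = AdjoinRoot.mk f (C X) := rfl
    have h2 : sdX (C X : F[X][X]) = 1 := by
      ext i : 1
      rw [sdX_coeff, coeff_C, coeff_one]
      split_ifs <;> simp
    rw [h1, hδ, hD, h2, derivative_C, mul_zero, sub_zero, mul_one]
  · rintro n b ⟨g, hg1, hg2, rfl⟩
    rw [hδ]
    have hc1 : ∀ i, ((derivative f).coeff i).natDegree ≤ c := fun i =>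
      (sd_coeff_derivative f i).trans (hc _)
    have hc2 : ∀ i, ((sdX f).coeff i).natDegree ≤ c := by
      intro i
      rw [sdX_coeff]
      exact (natDegree_derivative_le _).trans ((Nat.sub_le _ _).trans (hc i))
    have hc3 : ∀ i, ((sdX g).coeff i).natDegree ≤ n := by
      intro i
      rw [sdX_coeff]
      exact (natDegree_derivative_le _).trans ((Nat.sub_le _ _).trans (hg2 i))
    have hc4 : ∀ i, ((derivative g).coeff i).natDegree ≤ n := fun i =>
      (sd_coeff_derivative g i).trans (hg2 _)
    have h1 : ∀ i, ((D g).coeff i).natDegree ≤ n + c := by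
      intro i
      rw [hD, coeff_sub]
      refine (natDegree_sub_le _ _).trans (max_le ?_ ?_)
      · rw [add_comm n c]; exact sd_coeff_mul hc1 hc3 i
      · rw [add_comm n c]; exact sd_coeff_mul hc2 hc4 i
    have hgn : g.natDegree ≤ f.natDegree := natDegree_le_natDegree hg1.le
    have h2 : (D g).natDegree ≤ 2 * f.natDegree := by
      rw [hD]
      refine (natDegree_sub_le _ _).trans (max_le ?_ ?_)
      · have ha := natDegree_derivative_le f
        have hb := sdX_natDegree g
        have := natDegree_mul_le (p := derivative f) (q := sdX g)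
        omega
      · have ha := natDegree_derivative_le g
        have hb := sdX_natDegree f
        have := natDegree_mul_le (p := sdX f) (q := derivative g)
        omega
    refine (xd_mk hm c hc (n + c) (D g) h1).mono ?_
    have := Nat.mul_le_mul_right c h2
    nlinarith

/-- a derivation in characteristic `p` kills the `p`-th powers and is linear over them -/
theorem der_iterate_pow {B : Type} [CommRing B] [Algebra F B] (δ : Derivation F B B) (p : ℕ)
    [CharP B p] (a u : B) (m : ℕ) : δ^[m] (a * u ^ p) = δ^[m] a * u ^ p := by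
  have h : ∀ b : B, δ (b * u ^ p) = δ b * u ^ p := by
    intro b
    have h1 : δ (u ^ p) = 0 := by
      rw [Derivation.leibniz_pow, ← Nat.cast_smul_eq_nsmul B, CharP.cast_eq_zero, zero_smul]
    rw [Derivation.leibniz, h1, smul_zero, zero_add, smul_eq_mul, mul_comm]
  induction m generalizing a with
  | zero => rfl
  | succ m ih => rw [Function.iterate_succ_apply, Function.iterate_succ_apply, h, ih]

end Pool.Agent.Lib.MP_1a0ddd_nt.LW
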