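import Mathlib

/-! Zeros of high order at many points. -/

set_option autoImplicit false

namespace Pool.Agent.Lib.MP_1a0ddd_nt.LW

open Polynomial

section aux

variable {F B : Type} [Field F] [CommRing B] [Algebra F B]

private theorem it_succ (δ : Derivation F B B) (m : ℕ) (a : B) : δ^[m + 1] a = δ^[m] (δ a) :=
  Function.iterate_succ_apply _ _ _

private theorem it_add (δ : Derivation F B B) (m : ℕ) (a b : B) :
    δ^[m] (a + b) = δ^[m] a + δ^[m] b := by
  induction m generalizing a b with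
  | zero => rfl
  | succ m ih => rw [it_succ, it_succ, it_succ, map_add, ih]

private theorem it_smul (δ : Derivation F B B) (m : ℕ) (c : F) (a : B) :
    δ^[m] (c • a) = c • δ^[m] a := by
  induction m generalizing a with
  | zero => rfl
  | succ m ih => rw [it_succ, it_succ, Derivation.map_smul, ih]

private theorem it_nsmul (δ : Derivation F B B) (m n : ℕ) (a : B) :
    δ^[m] (n • a) = n • δ^[m] a := by
  induction m generalizing a with
  | zero => rfl
  | succ m ih => rw [it_succ, it_succ, map_nsmul, ih]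

/-- the Taylor coefficients at `ψ` as a linear map -/
private def tay (δ : Derivation F B B) (ψ : B →ₐ[F] F) (M : ℕ) : B →ₗ[F] (Fin M → F) where
  toFun a m := ψ (δ^[m] a)
  map_add' a b := by
    funext m
    simp only [it_add, map_add, Pi.add_apply]
  map_smul' c a := by
    funext m
    simp only [it_smul, map_smul, Pi.smul_apply, RingHom.id_apply]

private theorem ideal_aux (δ : Derivation F B B) (ψ : B →ₐ[F] F) (m : ℕ) :
    ∀ a b : B, (∀ k ≤ m, ψ (δ^[k] a) = 0) → ψ (δ^[m] (b * a)) = 0 := by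
  induction m with
  | zero =>
    intro a b h
    have h0 := h 0 le_rfl
    simp only [Function.iterate_zero, id_eq] at h0 ⊢
    rw [map_mul, h0, mul_zero]
  | succ m ih =>
    intro a b h
    rw [it_succ, Derivation.leibniz, it_add, map_add, smul_eq_mul, smul_eq_mul]
    have h1 := ih (δ a) b (fun k hk => by
      rw [← it_succ]
      exact h (k + 1) (by omega))
    have h2 := ih a (δ b) (fun k hk => h k (by omega))
    rw [h1, mul_comm a, h2, add_zero]

/-- the ideal of the elements vanishing to order `M` at `ψ` -/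
private def jet (δ : Derivation F B B) (ψ : B →ₐ[F] F) (M : ℕ) : Ideal B where
  carrier := {a | ∀ m < M, ψ (δ^[m] a) = 0}
  add_mem' := by
    intro a b ha hb m hm
    rw [it_add, map_add, ha m hm, hb m hm, add_zero]
  zero_mem' := by
    intro m _
    have h := it_smul δ m (0 : F) (0 : B)
    rw [zero_smul, zero_smul] at h
    rw [h, map_zero]
  smul_mem' := by
    intro c a ha m hm
    rw [smul_eq_mul]
    exact ideal_aux δ ψ m a c (fun k hk => ha k (by omega))

private theorem mem_jet (δ : Derivation F B B) (ψ : B →ₐ[F] F) (M : ℕ) (a : B) :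
    a ∈ jet δ ψ M ↔ tay δ ψ M a = 0 := by
  constructor
  · intro h
    funext m
    exact h m.1 m.2
  · intro h m hm
    exact congrFun h ⟨m, hm⟩

private theorem pow_aux (δ : Derivation F B B) (ψ : B →ₐ[F] F) (v : B) (hv : ψ v = 0) (m : ℕ) :
    ∀ (i : ℕ) (c : B), (m < i → ψ (δ^[m] (v ^ i * c)) = 0) ∧
      (m = i → ψ (δ^[m] (v ^ i * c)) = (i.factorial : F) * ψ (δ v) ^ i * ψ c) := by
  induction m with
  | zero =>
    intro i c
    constructor
    · intro hi
      rw [Function.iterate_zero, id_eq, map_mul, map_pow, hv, zero_pow (by omega), zero_mul]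
    · rintro rfl
      simp
  | succ m ih =>
    intro i c
    rcases Nat.eq_zero_or_pos i with h0 | h0
    · subst h0
      constructor
      · intro h
        omega
      · intro h
        omega
    · obtain ⟨j, rfl⟩ : ∃ j, i = j + 1 := ⟨i - 1, by omega⟩
      have key : ψ (δ^[m + 1] (v ^ (j + 1) * c)) =
          ((j + 1 : ℕ) : F) * ψ (δ^[m] (v ^ j * (δ v * c))) + ψ (δ^[m] (v ^ (j + 1) * δ c)) := by
        rw [it_succ, Derivation.leibniz, Derivation.leibniz_pow, Nat.add_sub_cancel]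
        have h1 : v ^ (j + 1) • δ c + c • (j + 1) • v ^ j • δ v =
            (j + 1) • (v ^ j * (δ v * c)) + v ^ (j + 1) * δ c := by
          simp only [smul_eq_mul, nsmul_eq_mul]
          ring
        rw [h1, it_add, it_nsmul, map_add, map_nsmul, nsmul_eq_mul]
      rw [key]
      constructor
      · intro hm
        rw [(ih j (δ v * c)).1 (by omega), (ih (j + 1) (δ c)).1 (by omega), mul_zero, add_zero]
      · intro hm
        rw [(ih j (δ v * c)).2 (by omega), (ih (j + 1) (δ c)).1 (by omega), add_zero, map_mul,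
          Nat.factorial_succ]
        push_cast
        ring

private theorem coprime_aux (δ : Derivation F B B) (ψ ψ' : B →ₐ[F] F) (M : ℕ) (hne : ψ ≠ ψ') :
    IsCoprime (jet δ ψ M) (jet δ ψ' M) := by
  obtain ⟨b, hb⟩ : ∃ b, ψ b ≠ ψ' b := by
    by_contra hcon
    push Not at hcon
    exact hne (AlgHom.ext hcon)
  have hu : ∀ φ : B →ₐ[F] F, (b - algebraMap F B (φ b)) ^ M ∈ jet δ φ M := by
    intro φ m hm
    have h := (pow_aux δ φ (b - algebraMap F B (φ b)) (by
      rw [map_sub, AlgHom.commutes, Algebra.algebraMap_self_apply, sub_self]) m M 1).1 hm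
    rwa [mul_one] at h
  have h1 : IsCoprime (b - algebraMap F B (ψ b)) (b - algebraMap F B (ψ' b)) := by
    have hne' : ψ' b - ψ b ≠ 0 := sub_ne_zero.mpr hb.symm
    refine ⟨algebraMap F B (ψ' b - ψ b)⁻¹, -algebraMap F B (ψ' b - ψ b)⁻¹, ?_⟩
    have h2 : algebraMap F B (ψ' b - ψ b)⁻¹ * (algebraMap F B (ψ' b) - algebraMap F B (ψ b)) =
        1 := by
      rw [← map_sub, ← map_mul, inv_mul_cancel₀ hne', map_one]
    calc _ = algebraMap F B (ψ' b - ψ b)⁻¹ * (algebraMap F B (ψ' b) - algebraMap F B (ψ b)) := by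
          ring
      _ = 1 := h2
  obtain ⟨p, q, hpq⟩ := h1.pow (m := M) (n := M)
  rw [Ideal.isCoprime_iff_exists]
  exact ⟨p * (b - algebraMap F B (ψ b)) ^ M, Ideal.mul_mem_left _ _ (hu ψ),
    q * (b - algebraMap F B (ψ' b)) ^ M, Ideal.mul_mem_left _ _ (hu ψ'), hpq⟩

private theorem core (δ : Derivation F B B) (S : Finset (B →ₐ[F] F)) (M : ℕ)
    (hsurj : ∀ ψ ∈ S, ∀ t : Fin M → F, ∃ a, tay δ ψ M a = t) (A : B)
    (hA : ∀ ψ ∈ S, ∀ m < M, ψ (δ^[m] A) = 0) [Module.Finite F (B ⧸ Ideal.span {A})] :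
    S.card * M ≤ Module.finrank F (B ⧸ Ideal.span {A}) := by
  classical
  let Λ : B →ₗ[F] (S → Fin M → F) := LinearMap.pi fun ψ => tay δ ψ.1 M
  have hΛ : Function.Surjective Λ := by
    intro t
    choose a ha using fun ψ : S => hsurj ψ.1 ψ.2 (t ψ)
    obtain ⟨r, hr⟩ := Ideal.exists_forall_sub_mem_ideal (I := fun ψ : S => jet δ ψ.1 M)
      (fun ψ ψ' hne => coprime_aux δ ψ.1 ψ'.1 M (fun h => hne (Subtype.ext h))) a
    refine ⟨r, ?_⟩
    funext ψ
    have h1 := (mem_jet δ ψ.1 M _).mp (hr ψ)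
    rw [map_sub, sub_eq_zero] at h1
    change tay δ ψ.1 M r = t ψ
    rw [h1, ha]
  have hker : (Ideal.span {A}).restrictScalars F ≤ LinearMap.ker Λ := by
    intro a ha
    rw [Submodule.restrictScalars_mem] at ha
    rw [LinearMap.mem_ker]
    funext ψ
    have h1 : Ideal.span {A} ≤ jet δ ψ.1 M := by
      rw [Ideal.span_singleton_le_iff_mem]
      exact hA ψ.1 ψ.2
    exact (mem_jet δ ψ.1 M a).mp (h1 ha)
  let g : (B ⧸ (Ideal.span {A}).restrictScalars F) →ₗ[F] (S → Fin M → F) :=
    Submodule.liftQ _ Λ hker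
  have hg : Function.Surjective g := by
    intro t
    obtain ⟨r, hr⟩ := hΛ t
    exact ⟨Submodule.Quotient.mk r, by rw [← hr]; rfl⟩
  let e := Submodule.Quotient.restrictScalarsEquiv F (Ideal.span {A})
  have h1 : Function.Surjective (g ∘ₗ e.symm.toLinearMap) := hg.comp e.symm.surjective
  have h2 := LinearMap.finrank_le_finrank_of_surjective h1
  rw [Module.finrank_pi_fintype] at h2
  simpa using h2

end aux

/-- Proof. For `ψ ∈ S` let `J ψ = {a | ∀ m < M, ψ (δ^m a) = 0}`; this is an ideal (Leibniz). (1) The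
linear map `a ↦ (ψ (δ^m a))_(m < M)` to `F^M` is onto: on the powers of `v = x - ψ x` it is
triangular, `ψ (δ^m (v^i)) = 0` for `m < i` and `= i! ψ(δ x)^i ≠ 0` for `m = i`. So
`dim B/J ψ = M`. (2) For `ψ ≠ ψ'` the ideals are coprime: there is `b` with `ψ b ≠ ψ' b`, and
`u = b - ψ b`, `u' = b - ψ' b` differ by a unit, `u^M ∈ J ψ`, `u'^M ∈ J ψ'`. (3) Chinese remainder
theorem: `B/(A) → ∏ B/J ψ` is onto. -/
theorem zeros_le {F B : Type} [Field F] [CommRing B] [Algebra F B] (δ : Derivation F B B)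
    (S : Finset (B →ₐ[F] F)) (x : B) (M : ℕ) (hx : ∀ ψ ∈ S, ψ (δ x) ≠ 0)
    (hM : ∀ i : ℕ, i < M → ((i.factorial : ℕ) : F) ≠ 0) (A : B)
    (hA : ∀ ψ ∈ S, ∀ m < M, ψ (δ^[m] A) = 0) [Module.Finite F (B ⧸ Ideal.span {A})] :
    S.card * M ≤ Module.finrank F (B ⧸ Ideal.span {A}) := by
  classical
  refine core δ S M (fun ψ hψ t => ?_) A hA
  set v : B := x - algebraMap F B (ψ x) with hv
  have hv0 : ψ v = 0 := by
    rw [hv, map_sub, AlgHom.commutes, Algebra.algebraMap_self_apply, sub_self]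
  have hδv : δ v = δ x := by
    rw [hv, map_sub, Derivation.map_algebraMap, sub_zero]
  let T : Matrix (Fin M) (Fin M) F := Matrix.of fun m i => ψ (δ^[m] (v ^ (i : ℕ)))
  have hT : T.BlockTriangular OrderDual.toDual := by
    intro m i hmi
    have hlt : (m : ℕ) < (i : ℕ) := hmi
    have h := (pow_aux δ ψ v hv0 m i 1).1 hlt
    rw [mul_one] at h
    exact h
  have hdet : IsUnit T.det := by
    rw [Matrix.det_of_isLowerTriangular T hT, isUnit_iff_ne_zero, Finset.prod_ne_zero_iff]
    intro i _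
    have h := (pow_aux δ ψ v hv0 i i 1).2 rfl
    rw [mul_one, map_one, mul_one, hδv] at h
    change ψ (δ^[i] (v ^ (i : ℕ))) ≠ 0
    rw [h]
    exact mul_ne_zero (hM i i.2) (pow_ne_zero _ (hx ψ hψ))
  obtain ⟨c, hc⟩ : ∃ c : Fin M → F, T.mulVec c = t := by
    refine ⟨(T⁻¹).mulVec t, ?_⟩
    rw [Matrix.mulVec_mulVec, Matrix.mul_nonsing_inv T hdet, Matrix.one_mulVec]
  refine ⟨∑ i, c i • v ^ (i : ℕ), ?_⟩
  rw [map_sum, ← hc]
  funext m
  rw [Finset.sum_apply]
  simp only [Matrix.mulVec, dotProduct]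
  refine Finset.sum_congr rfl fun i _ => ?_
  rw [map_smul, Pi.smul_apply, smul_eq_mul, mul_comm]
  rfl

/-- the same with `M = 1` and no derivation -/
theorem zeros_le_one {F B : Type} [Field F] [CommRing B] [Algebra F B]
    (S : Finset (B →ₐ[F] F)) (A : B) (hA : ∀ ψ ∈ S, ψ A = 0)
    [Module.Finite F (B ⧸ Ideal.span {A})] :
    S.card ≤ Module.finrank F (B ⧸ Ideal.span {A}) := by
  have h := core (0 : Derivation F B B) S 1 (fun ψ _ t => ⟨algebraMap F B (t 0), ?_⟩) A
    (fun ψ hψ m hm => by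
      obtain rfl : m = 0 := by omega
      exact hA ψ hψ)
  · rwa [mul_one] at h
  · funext m
    obtain rfl : m = 0 := Subsingleton.elim _ _
    change ψ (algebraMap F B (t 0)) = t 0
    rw [AlgHom.commutes, Algebra.algebraMap_self_apply]

end Pool.Agent.Lib.MP_1a0ddd_nt.LW
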