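import Pool.Agent.Lib.MP_1a0ddd_nt.LW.SNorm

/-! The auxiliary function does not vanish. -/

set_option autoImplicit false

namespace Pool.Agent.Lib.MP_1a0ddd_nt.LW

open Polynomial

variable {F : Type} [Field F]

/-- `f` over `F[x][y]/(f) [z]`, in the variables `z`, `w` -/
noncomputable def overB (f : F[X][X]) : (AdjoinRoot f)[X][X] :=
  f.map (mapRingHom ((AdjoinRoot.of f).comp C))

private theorem irr_of_abs {f : F[X][X]} (habs : AbsIrr f) : Irreducible f := by
  have h := habs F (RingHom.id F) Function.injective_id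
  rwa [mapRingHom_id, Polynomial.map_id] at h

private theorem domB {f : F[X][X]} (habs : AbsIrr f) : IsDomain (AdjoinRoot f) :=
  AdjoinRoot.isDomain_of_prime (UniqueFactorizationMonoid.irreducible_iff_prime.1
    (irr_of_abs habs))

/-- a monic polynomial is prime if its image is prime -/
private theorem prime_of_map {R S : Type} [CommRing R] [CommRing S] (φ : R →+* S)
    (hφ : Function.Injective φ) {q : R[X]} (hq : q.Monic) (hp : Prime (q.map φ)) : Prime q := by
  refine ⟨?_, ?_, ?_⟩
  · intro h
    exact hp.ne_zero (by rw [h, Polynomial.map_zero])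
  · intro h
    exact hp.not_isUnit (h.map (mapRingHom φ))
  · intro a b hab
    have h : q.map φ ∣ a.map φ * b.map φ := by
      rw [← Polynomial.map_mul]
      exact Polynomial.map_dvd φ hab
    rcases hp.dvd_or_dvd h with h | h
    · exact Or.inl ((map_dvd_map φ hφ hq).1 h)
    · exact Or.inr ((map_dvd_map φ hφ hq).1 h)

/-- `B[z][w]/(f(z, w))`, `B = F[x][y]/(f)`, is a domain: with `E` the fraction field of `B` it
embeds (division with remainder by the monic `f(z, w)`) into `E[z][w]/(f(z, w))`, which is a domain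
because `f` is irreducible over `E` (`AbsIrr`) and `E[z][w]` is factorial -/
theorem overB_domain (f : F[X][X]) (hm : f.Monic) (habs : AbsIrr f) :
    IsDomain (AdjoinRoot (overB f)) := by
  have := domB habs
  let E := FractionRing (AdjoinRoot f)
  let ι : AdjoinRoot f →+* E := algebraMap (AdjoinRoot f) E
  have hι : Function.Injective ι := IsFractionRing.injective (AdjoinRoot f) E
  let φ : F →+* E := ι.comp ((AdjoinRoot.of f).comp C)
  have hirr := habs E φ φ.injective
  have hpr := UniqueFactorizationMonoid.irreducible_iff_prime.1 hirr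
  have hmap : f.map (mapRingHom φ) = (overB f).map (mapRingHom ι) := by
    rw [overB, Polynomial.map_map, mapRingHom_comp]
  rw [hmap] at hpr
  exact AdjoinRoot.isDomain_of_prime (prime_of_map (mapRingHom ι) (map_injective ι hι)
    (hm.map _) hpr)

/-! ### Coefficients -/

/-- all coefficients have small degree -/
private def CC (f : F[X][X]) (L : ℕ) (g : (AdjoinRoot f)[X][X]) : Prop :=
  ∀ k j, XD f L ((g.coeff k).coeff j)

private theorem CC.sum {f : F[X][X]} (hm : f.Monic) {L : ℕ} {ι : Type} (s : Finset ι)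
    (g : ι → (AdjoinRoot f)[X][X]) (h : ∀ i ∈ s, CC f L (g i)) : CC f L (∑ i ∈ s, g i) := by
  intro k j
  rw [finsetSum_coeff, finsetSum_coeff]
  exact XD.sum hm s _ L fun i hi => h i hi k j

private theorem CC.term {f : F[X][X]} {L : ℕ} {b : AdjoinRoot f}
    (hb : XD f L b) (g : F[X][X]) :
    CC f L ((C b : (AdjoinRoot f)[X]) • g.map (mapRingHom ((AdjoinRoot.of f).comp C))) := by
  intro k j
  rw [coeff_smul, coeff_map, smul_eq_mul, coe_mapRingHom, coeff_C_mul, coeff_map]
  have e : b * ((AdjoinRoot.of f).comp C) ((g.coeff k).coeff j) = ((g.coeff k).coeff j) • b := by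
    rw [Algebra.smul_def, mul_comm, AdjoinRoot.algebraMap_eq']
    rfl
  rw [e]
  exact hb.smul _

private theorem CC.modByMonic {f : F[X][X]} (hm : f.Monic) {L : ℕ} {g : (AdjoinRoot f)[X][X]}
    (hg : CC f L g) : CC f L (g %ₘ overB f) := by
  have hq : (overB f).Monic := hm.map _
  have e1 : g = ∑ k ∈ g.support, ∑ j ∈ (g.coeff k).support,
      (C ((g.coeff k).coeff j) : (AdjoinRoot f)[X]) •
        ((monomial k (monomial j (1 : F))).map (mapRingHom ((AdjoinRoot.of f).comp C))) := by
    conv_lhs => rw [g.as_sum_support]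
    refine Finset.sum_congr rfl fun k _ => ?_
    conv_lhs => rw [(g.coeff k).as_sum_support, map_sum]
    refine Finset.sum_congr rfl fun j _ => ?_
    rw [map_monomial, coe_mapRingHom, map_monomial, smul_monomial, smul_eq_mul,
      C_mul_monomial, map_one, mul_one]
  have e2 : g %ₘ overB f = ∑ k ∈ g.support, ∑ j ∈ (g.coeff k).support,
      (C ((g.coeff k).coeff j) : (AdjoinRoot f)[X]) •
        ((monomial k (monomial j (1 : F)) %ₘ f).map
          (mapRingHom ((AdjoinRoot.of f).comp C))) := by
    have e3 : g %ₘ overB f = Polynomial.modByMonicHom (overB f) g := rfl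
    rw [e3]
    conv_lhs => rw [e1]
    rw [map_sum]
    refine Finset.sum_congr rfl fun k _ => ?_
    rw [map_sum]
    refine Finset.sum_congr rfl fun j _ => ?_
    rw [map_smul]
    congr 1
    show _ %ₘ overB f = _
    rw [overB, ← map_modByMonic _ hm]
  rw [e2]
  exact CC.sum hm _ _ fun k _ => CC.sum hm _ _ fun j _ => CC.term (hg k j) _

private theorem CC.mul_X_pow {f : F[X][X]} (hm : f.Monic) {L : ℕ} {g : (AdjoinRoot f)[X][X]}
    (hg : CC f L g) (n : ℕ) : CC f L (g * X ^ n) := by
  intro k j
  rw [coeff_mul_X_pow']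
  split
  · exact hg _ _
  · rw [coeff_zero]
    exact XD.zero hm L

/-- the norm is a multiple -/
private theorem dvd_norm {R S : Type} [CommRing R] [CommRing S] [Algebra R S] {ι : Type}
    [Fintype ι] [DecidableEq ι] (b : Module.Basis ι R S) (x : S) :
    x ∣ algebraMap R S (Matrix.det (Algebra.leftMulMatrix b x)) := by
  set M := Algebra.leftMulMatrix b x with hM
  have h1 : aeval x M.charpoly = 0 := by
    apply Algebra.leftMulMatrix_injective b
    rw [map_zero, ← Polynomial.aeval_algHom_apply, ← hM]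
    exact Matrix.aeval_self_charpoly M
  have h2 : M.det = (-1) ^ Fintype.card ι * M.charpoly.coeff 0 := Matrix.det_eq_sign_charpoly_coeff M
  have h3 : x ∣ algebraMap R S (M.charpoly.coeff 0) := by
    rw [← Polynomial.divX_mul_X_add M.charpoly] at h1
    rw [map_add, map_mul, aeval_X, aeval_C] at h1
    have : algebraMap R S (M.charpoly.coeff 0) = x * (-(aeval x M.charpoly.divX)) := by
      linear_combination h1
    rw [this]
    exact dvd_mul_right _ _
  rw [h2, map_mul]
  exact Dvd.dvd.mul_left h3 _

/-- Proof. In `T = B[z][w]/(f(z, w))` let `𝒜 = ∑ a_jk z^j w^k`, it is not zero because `k < d`. Its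
norm `N ∈ B[z]` is not zero (`Algebra.norm_ne_zero_iff`, `T` is a domain by `overB_domain`, free over
`B[z]` with basis `1, w, ..., w^(d-1)`). In this basis the entries of the matrix of `𝒜` are
`B`-coefficientwise `F`-linear combinations of the `a_jk` (`f(z, w)` has coefficients in `F`), so all
their coefficients are `XD f L`, and the coefficients of `N` are `XD f (d (L + 2 d c))`
(`det_filtered` on `B[z]` with `P n q = ∀ i, XD f n (q.coeff i)`, `κ = 2 d c`, `XD.mul`). As
`f(x^p, y^p) = f(x, y)^p = 0` (`hfrob`) there is a `B`-algebra homomorphism `Θ : T → B`, `z ↦ x^p`,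
`w ↦ y^p`; it maps `𝒜` to the sum of the theorem and `N` to `∑ N_j x^(p j)`, which is not zero by
`xd_spread`; `N` is a multiple of `𝒜` (Cayley-Hamilton). -/
theorem nonvanish (p : ℕ) [Fact p.Prime] [CharP F p] (f : F[X][X]) (hm : f.Monic)
    (hd : 0 < f.natDegree) (c : ℕ) (hc : ∀ i, (f.coeff i).natDegree ≤ c) (habs : AbsIrr f)
    (hfrob : f.map (mapRingHom (frobenius F p)) = f) (K L : ℕ)
    (hL : f.natDegree * (L + 2 * f.natDegree * c) < p)
    (a : Fin K → Fin f.natDegree → AdjoinRoot f) (ha : ∀ j k, XD f L (a j k))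
    (h0 : ∃ j k, a j k ≠ 0) :
    ∑ j, ∑ k, a j k * AdjoinRoot.of f X ^ (p * (j : ℕ)) * AdjoinRoot.root f ^ (p * (k : ℕ)) ≠ 0 := by
  classical
  have := domB habs
  have := overB_domain f hm habs
  have hq : (overB f).Monic := hm.map _
  have hqd : (overB f).natDegree = f.natDegree := hm.natDegree_map _
  set x : AdjoinRoot f := AdjoinRoot.of f X with hx
  set y : AdjoinRoot f := AdjoinRoot.root f with hy
  -- the element of the quotient
  set g : (AdjoinRoot f)[X][X] := ∑ k : Fin f.natDegree, monomial (k : ℕ)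
    (∑ j : Fin K, monomial (j : ℕ) (a j k)) with hg
  have hgc : ∀ k j : ℕ, (g.coeff k).coeff j =
      if h : k < f.natDegree ∧ j < K then a ⟨j, h.2⟩ ⟨k, h.1⟩ else 0 := by
    intro k j
    rw [hg, finsetSum_coeff]
    simp only [coeff_monomial]
    by_cases hk : k < f.natDegree
    · rw [Finset.sum_eq_single (⟨k, hk⟩ : Fin f.natDegree)]
      · rw [if_pos rfl, finsetSum_coeff]
        simp only [coeff_monomial]
        by_cases hj : j < K
        · rw [Finset.sum_eq_single (⟨j, hj⟩ : Fin K), if_pos rfl, dif_pos ⟨hk, hj⟩]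
          · intro i _ hi
            exact if_neg fun h => hi (Fin.ext h)
          · intro h
            exact absurd (Finset.mem_univ _) h
        · rw [dif_neg fun h => hj h.2]
          exact Finset.sum_eq_zero fun i _ => if_neg fun h => hj (by rw [← h]; exact i.2)
      · intro i _ hi
        exact if_neg fun h => hi (Fin.ext h)
      · intro h
        exact absurd (Finset.mem_univ _) h
    · rw [dif_neg fun h => hk h.1, Finset.sum_eq_zero, coeff_zero]
      exact fun i _ => if_neg fun h => hk (by rw [← h]; exact i.2)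
  have hgCC : CC f L g := by
    intro k j
    rw [hgc]
    split
    · exact ha _ _
    · exact XD.zero hm L
  have hg0 : g ≠ 0 := by
    obtain ⟨j, k, hjk⟩ := h0
    intro h
    have := hgc k j
    rw [h, coeff_zero, coeff_zero, dif_pos ⟨k.2, j.2⟩] at this
    exact hjk this.symm
  have hgd : g.degree < (overB f).degree := by
    have h1 : (overB f).degree = f.natDegree := by
      rw [degree_eq_natDegree hq.ne_zero, hqd]
    rw [h1, degree_lt_iff_coeff_zero]
    intro k hk
    ext j
    rw [hgc, dif_neg (fun h => absurd h.1 (by simpa using hk)), coeff_zero]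
  set A : AdjoinRoot (overB f) := AdjoinRoot.mk (overB f) g with hA
  have hA0 : A ≠ 0 := by
    rw [hA, Ne, AdjoinRoot.mk_eq_zero]
    exact hq.not_dvd_of_degree_lt hg0 hgd
  -- the matrix
  set b := AdjoinRoot.powerBasisAux' hq with hb
  have hfin : Module.Finite (AdjoinRoot f)[X] (AdjoinRoot (overB f)) := Module.Finite.of_basis b
  have hfree : Module.Free (AdjoinRoot f)[X] (AdjoinRoot (overB f)) := Module.Free.of_basis b
  set M := Algebra.leftMulMatrix b A with hM
  have hN : M.det ≠ 0 := by
    have := (Algebra.norm_ne_zero_iff (R := (AdjoinRoot f)[X])).2 hA0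
    rwa [Algebra.norm_eq_matrix_det b] at this
  have hbi : ∀ i : Fin (overB f).natDegree, b i = AdjoinRoot.mk (overB f) (X ^ (i : ℕ)) := by
    intro i
    have h := AdjoinRoot.powerBasisAux'_repr_symm_apply hq (Finsupp.single i 1)
    rw [Module.Basis.repr_symm_single_one] at h
    rw [hb, h]
    congr 1
    rw [Finset.sum_eq_single i]
    · rw [Finsupp.single_eq_same, monomial_one_right_eq_X_pow]
    · intro k _ hk
      rw [Finsupp.single_eq_of_ne hk, map_zero]
    · intro h
      exact absurd (Finset.mem_univ _) h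
  have hMe : ∀ l i j, XD f L ((M l i).coeff j) := by
    intro l i j
    rw [hM, Algebra.leftMulMatrix_eq_repr_mul, hbi, hA, ← map_mul, hb,
      AdjoinRoot.powerBasisAux'_repr_apply_to_fun, AdjoinRoot.modByMonicHom_mk]
    exact (hgCC.mul_X_pow hm i).modByMonic hm l j
  have hdet := det_filtered (B := (AdjoinRoot f)[X]) (fun n q => ∀ i, XD f n (q.coeff i))
    (2 * f.natDegree * c) (fun n m q h hq i => (hq i).mono h)
    (fun i => by rw [coeff_zero]; exact XD.zero hm 0)
    (fun i => by
      rw [coeff_one]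
      split
      · exact XD.one hm
      · exact XD.zero hm 0)
    (fun n q hq i => by rw [coeff_neg]; exact (hq i).neg)
    (fun n q r hq hr i => by rw [coeff_add]; exact (hq i).add (hr i))
    (fun n m q r hq hr i => by
      rw [coeff_mul]
      exact XD.sum hm _ _ _ fun u _ => XD.mul hm c hc (hq u.1) (hr u.2))
    (overB f).natDegree L M hMe
  have hdet' : ∀ i, XD f (f.natDegree * (L + 2 * f.natDegree * c)) (M.det.coeff i) :=
    fun i => (hdet i).mono (by rw [hqd])
  -- the homomorphism
  have hchar : CharP (AdjoinRoot f) p := charP_of_injective_algebraMap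
    (algebraMap F (AdjoinRoot f)).injective p
  let ι₀ : F →+* AdjoinRoot f := (AdjoinRoot.of f).comp C
  let θ₀ : (AdjoinRoot f)[X] →+* AdjoinRoot f := evalRingHom (x ^ p)
  let ψ : F[X] →+* AdjoinRoot f := θ₀.comp (mapRingHom ι₀)
  have hψ : (frobenius (AdjoinRoot f) p).comp (AdjoinRoot.of f) =
      ψ.comp (mapRingHom (frobenius F p)) := by
    refine Polynomial.ringHom_ext (fun u => ?_) ?_
    · simp [ψ, θ₀, ι₀, frobenius_def]
    · simp [ψ, θ₀, ι₀, frobenius_def, hx]
  have hroot : (overB f).eval₂ θ₀ (y ^ p) = 0 := by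
    have h1 : (overB f).eval₂ θ₀ (y ^ p) = f.eval₂ ψ (y ^ p) := by
      rw [overB, eval₂_map]
    have h2 : f.eval₂ ψ (y ^ p) = f.eval₂ (ψ.comp (mapRingHom (frobenius F p))) (y ^ p) := by
      have h := eval₂_map (p := f) (mapRingHom (frobenius F p)) ψ (y ^ p)
      rw [hfrob] at h
      exact h
    have h3 : f.eval₂ (AdjoinRoot.of f) y = 0 := AdjoinRoot.eval₂_root f
    have h4 := congrArg (frobenius (AdjoinRoot f) p) h3
    rw [Polynomial.hom_eval₂, map_zero, frobenius_def] at h4
    rw [h1, h2, ← hψ, h4]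
  let Θ : AdjoinRoot (overB f) →+* AdjoinRoot f := AdjoinRoot.lift θ₀ (y ^ p) hroot
  have hΘA : Θ A = ∑ j, ∑ k, a j k * x ^ (p * (j : ℕ)) * y ^ (p * (k : ℕ)) := by
    have h1 : Θ A = g.eval₂ θ₀ (y ^ p) := AdjoinRoot.lift_mk hroot g
    rw [h1, hg, eval₂_finsetSum, Finset.sum_comm]
    refine Finset.sum_congr rfl fun k _ => ?_
    rw [eval₂_monomial, map_sum, Finset.sum_mul]
    refine Finset.sum_congr rfl fun j _ => ?_
    show eval (x ^ p) (monomial (j : ℕ) (a j k)) * _ = _
    rw [eval_monomial, ← pow_mul, ← pow_mul]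
  intro hzero
  have hΘ0 : Θ A = 0 := by rw [hΘA]; exact hzero
  obtain ⟨t, ht⟩ := dvd_norm b A
  have h5 : Θ (algebraMap (AdjoinRoot f)[X] (AdjoinRoot (overB f)) M.det) = 0 := by
    rw [← hM] at ht
    rw [ht, map_mul, hΘ0, zero_mul]
  have h6 : Θ (algebraMap (AdjoinRoot f)[X] (AdjoinRoot (overB f)) M.det) =
      eval (x ^ p) M.det := by
    rw [AdjoinRoot.algebraMap_eq]
    exact AdjoinRoot.lift_of hroot
  rw [h6, eval_eq_sum_range] at h5
  apply hN
  have hz := xd_spread hm p (f.natDegree * (L + 2 * f.natDegree * c)) (M.det.natDegree + 1) hL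
    (fun j => M.det.coeff (j : ℕ)) (fun j => hdet' j) (by
      rw [← h5, Finset.sum_range]
      refine Finset.sum_congr rfl fun j _ => ?_
      rw [← hx, ← pow_mul]
      ring)
  ext j
  rw [coeff_zero]
  by_cases hj : j < M.det.natDegree + 1
  · exact hz ⟨j, hj⟩
  · exact coeff_eq_zero_of_natDegree_lt (by omega)

end Pool.Agent.Lib.MP_1a0ddd_nt.LW
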