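import Pool.Agent.Lib.MP_1a0ddd_nt.LW.SXD

/-! The degree of the norm. -/

set_option autoImplicit false

namespace Pool.Agent.Lib.MP_1a0ddd_nt.LW

open Polynomial

/-- determinants in a filtered ring -/
theorem det_filtered {B : Type} [CommRing B] (P : ℕ → B → Prop) (κ : ℕ)
    (hmono : ∀ n m a, n ≤ m → P n a → P m a) (hzero : P 0 0) (hone : P 0 1)
    (hneg : ∀ n a, P n a → P n (-a)) (hadd : ∀ n a b, P n a → P n b → P n (a + b))
    (hmul : ∀ n m a b, P n a → P m b → P (n + m + κ) (a * b)) (d n : ℕ)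
    (M : Matrix (Fin d) (Fin d) B) (hM : ∀ i j, P n (M i j)) : P (d * (n + κ)) M.det := by
  have hprod : ∀ (a : Fin d → B), (∀ i, P n (a i)) → ∀ s : Finset (Fin d),
      P (s.card * (n + κ)) (∏ i ∈ s, a i) := by
    intro a ha s
    induction s using Finset.induction_on with
    | empty =>
      rw [Finset.prod_empty, Finset.card_empty, zero_mul]
      exact hone
    | insert i s hi ih =>
      rw [Finset.prod_insert hi, Finset.card_insert_of_notMem hi]
      refine hmono _ _ _ ?_ (hmul _ _ _ _ (ha i) ih)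
      exact le_of_eq (by ring)
  rw [Matrix.det_apply]
  refine Finset.sum_induction _ (fun x => P (d * (n + κ)) x) (fun a b => hadd _ a b)
    (hmono _ _ _ (Nat.zero_le _) hzero) fun σ _ => ?_
  have h1 : P (d * (n + κ)) (∏ i, M (σ i) i) := by
    have := hprod (fun i => M (σ i) i) (fun i => hM _ _) Finset.univ
    rwa [Finset.card_univ, Fintype.card_fin] at this
  rcases Int.units_eq_one_or (Equiv.Perm.sign σ) with h | h
  · rw [h, one_smul]
    exact h1
  · rw [h, Units.neg_smul, one_smul]
    exact hneg _ _ h1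

variable {F : Type} [Field F]

/-- Proof: in the basis `1, y, ..., y^(d-1)` the matrix of the multiplication by `A` has entries of
degree `≤ n + 2 d c` (`XD.mul` with `y^j`, `xd_root_pow_lt`), `det_filtered` with
`P n a = (natDegree a ≤ n)`, `κ = 0`; `finrank_quotient_span_eq_natDegree_norm`. `AdjoinRoot f` is
a domain because `F[X][X]` is factorial. -/
theorem quotient_le (f : F[X][X]) (hm : f.Monic) (hirr : Irreducible f) (c : ℕ)
    (hc : ∀ i, (f.coeff i).natDegree ≤ c) (n : ℕ) (A : AdjoinRoot f) (hA : XD f n A)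
    (h0 : A ≠ 0) : Module.Finite F (AdjoinRoot f ⧸ Ideal.span {A}) ∧
    Module.finrank F (AdjoinRoot f ⧸ Ideal.span {A}) ≤
      f.natDegree * (n + 2 * f.natDegree * c) := by
  classical
  have hdom : IsDomain (AdjoinRoot f) := AdjoinRoot.isDomain_of_prime hirr.prime
  set b : Module.Basis (Fin f.natDegree) F[X] (AdjoinRoot f) := AdjoinRoot.powerBasisAux' hm
    with hb
  have hbj : ∀ j : Fin f.natDegree, b j = AdjoinRoot.root f ^ (j : ℕ) := fun j =>
    (AdjoinRoot.powerBasis' hm).basis_eq_pow j
  have hfr := finrank_quotient_span_eq_natDegree_norm (F := F) b h0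
  have hN : Algebra.norm F[X] A ≠ 0 := (Algebra.norm_ne_zero_iff_of_basis b).2 h0
  have hle : (Algebra.norm F[X] A).natDegree ≤ f.natDegree * (n + 2 * f.natDegree * c) := by
    rw [Algebra.norm_eq_matrix_det b]
    refine det_filtered (fun m (a : F[X]) => a.natDegree ≤ m) 0
      (fun n m a h1 h2 => h2.trans h1) (by simp) (by simp) (fun n a h => by simpa using h)
      (fun n a b h1 h2 => natDegree_add_le_of_degree_le h1 h2)
      (fun n m a b h1 h2 => by
        have h3 := natDegree_mul_le (p := a) (q := b)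
        omega) f.natDegree
      (n + 2 * f.natDegree * c) _ fun i j => ?_
    rw [Algebra.leftMulMatrix_eq_repr_mul, hbj]
    obtain ⟨g, hg1, hg2, hg3⟩ := hA.mul hm c hc (xd_root_pow_lt hm j j.2)
    rw [← hg3, hb, AdjoinRoot.powerBasisAux'_repr_apply_to_fun, AdjoinRoot.modByMonicHom_mk,
      (modByMonic_eq_self_iff hm).2 hg1]
    exact hg2 i
  refine ⟨?_, hfr.le.trans hle⟩
  by_cases hdeg : (Algebra.norm F[X] A).natDegree = 0
  · have hu : IsUnit (Algebra.norm F[X] A) := by
      rw [Polynomial.isUnit_iff]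
      rw [eq_C_of_natDegree_eq_zero hdeg] at hN ⊢
      refine ⟨_, ?_, rfl⟩
      rw [isUnit_iff_ne_zero]
      intro h
      rw [h, C_0] at hN
      exact hN rfl
    have hfin : Module.Finite F[X] (AdjoinRoot f) := Module.Finite.of_basis b
    have hfree : Module.Free F[X] (AdjoinRoot f) := Module.Free.of_basis b
    rw [Algebra.norm_apply, ← LinearMap.isUnit_iff_isUnit_det] at hu
    have hs := ((Module.End.isUnit_iff _).1 hu).2
    obtain ⟨x, hx⟩ := hs 1
    have h1 : A * x = 1 := hx
    have h2 : Ideal.span {A} = ⊤ := Ideal.span_singleton_eq_top.2 (IsUnit.of_mul_eq_one x h1)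
    have h3 : Subsingleton (AdjoinRoot f ⧸ Ideal.span {A}) :=
      Ideal.Quotient.subsingleton_iff.2 h2
    exact Module.Finite.of_finite
  · exact Module.finite_of_finrank_pos (by rw [hfr]; exact Nat.pos_of_ne_zero hdeg)

end Pool.Agent.Lib.MP_1a0ddd_nt.LW
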