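import Mathlib

/-! Choice of the parameters. -/

set_option autoImplicit false

namespace Pool.Agent.Lib.MP_1a0ddd_nt.LW

/-- Proof: `k` large (`(2 + 7 d c)/k ≤ ε`), `K = e k + 1`, `M = d k`, `L = p/(2 d)`, `p` large -/
theorem params (d e c c3 : ℕ) (hd : 0 < d) (ε : ℝ) (hε : 0 < ε) : ∃ p₀ : ℕ, ∀ p : ℕ, p₀ ≤ p →
    ∃ K L M : ℕ, 0 < M ∧ M ≤ p ∧ d * (L + 2 * d * c) < p ∧
      M * e * (L + M * ((2 * d + 1) * c) + K + c3 + 2 * d * c + 1) < K * d * L ∧
      ∀ N : ℕ, N * M ≤ d * (L + K * p + d * c * p + 6 * d * c) → (N : ℝ) ≤ (e + ε) * p := by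
  obtain ⟨k0, hk0⟩ := exists_nat_gt ((2 + 7 * d * c : ℝ) / ε)
  set k := k0 + 1 with hk
  set Q := (d * k) * ((2 * d + 1) * c) + (e * k + 1) + c3 + 2 * d * c + 1 with hQ
  refine ⟨d * k + (4 * d * d * c + 1) + 2 * d * (k * e * Q + 1), fun p hp => ?_⟩
  have hk1 : 0 < k := Nat.succ_pos _
  have h1 : k * e * Q + 1 ≤ p / (2 * d) := by
    rw [Nat.le_div_iff_mul_le (by positivity)]
    calc (k * e * Q + 1) * (2 * d) = 2 * d * (k * e * Q + 1) := by ring
      _ ≤ p := by omega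
  have h2 : 2 * d * (p / (2 * d)) ≤ p := Nat.mul_div_le _ _
  refine ⟨e * k + 1, p / (2 * d), d * k, by positivity, by omega, ?_, ?_, ?_⟩
  · have h3 : 2 * (d * (p / (2 * d) + 2 * d * c)) = 2 * d * (p / (2 * d)) + 4 * d * d * c := by ring
    have h4 : 4 * d * d * c < p := by omega
    omega
  · have h3 : d * k * e * (p / (2 * d) + d * k * ((2 * d + 1) * c) + (e * k + 1) + c3 +
        2 * d * c + 1) = d * k * e * (p / (2 * d)) + d * (k * e * Q) := by
      rw [hQ]; ring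
    have h4 : (e * k + 1) * d * (p / (2 * d)) = d * k * e * (p / (2 * d)) + d * (p / (2 * d)) := by
      ring
    rw [h3, h4]
    have h5 : d * (k * e * Q) < d * (p / (2 * d)) := Nat.mul_lt_mul_of_pos_left (by omega) hd
    omega
  · intro N hN
    have h3 : d * (N * k) ≤ d * (p / (2 * d) + (e * k + 1) * p + d * c * p + 6 * d * c) := by
      calc d * (N * k) = N * (d * k) := by ring
        _ ≤ _ := hN
    have h4 := Nat.le_of_mul_le_mul_left h3 hd
    have hp1 : 1 ≤ p := by omega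
    have h5 : p / (2 * d) ≤ p := Nat.div_le_self _ _
    have h6 : 6 * d * c ≤ 6 * d * c * p := Nat.le_mul_of_pos_right _ hp1
    have h7 : N * k ≤ (e * k + 2 + 7 * d * c) * p := by
      calc N * k ≤ p / (2 * d) + (e * k + 1) * p + d * c * p + 6 * d * c := h4
        _ ≤ p + (e * k + 1) * p + d * c * p + 6 * d * c * p := by omega
        _ = (e * k + 2 + 7 * d * c) * p := by ring
    have h8 : (N : ℝ) * k ≤ (e * k + 2 + 7 * d * c) * p := by exact_mod_cast h7
    have hkR : (0 : ℝ) < k := by exact_mod_cast hk1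
    have h9 : (2 + 7 * d * c : ℝ) ≤ ε * k := by
      rw [div_lt_iff₀ hε] at hk0
      have : (k : ℝ) = k0 + 1 := by rw [hk]; push_cast; ring
      rw [this]
      nlinarith
    have h10 : (N : ℝ) * k ≤ ((e + ε) * p) * k := by
      have hpR : (0 : ℝ) ≤ p := by positivity
      nlinarith [mul_le_mul_of_nonneg_right h9 hpR]
    exact le_of_mul_le_mul_right h10 hkR

end Pool.Agent.Lib.MP_1a0ddd_nt.LW
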