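import Pool.Agent.Lib.MP_1a0ddd_nt.LW.SUp
import Pool.Agent.Lib.MP_1a0ddd_nt.LW.SPar

/-! The two bounds. -/

set_option autoImplicit false

namespace Pool.Agent.Lib.MP_1a0ddd_nt.LW

open Polynomial

section st_aux

variable {F : Type} [Field F]

/-- the divided difference of `f(x, y)` in `y` -/
private noncomputable def st_g (f : F[X][X]) (s : ℕ) : AdjoinRoot f :=
  ∑ i ∈ Finset.range (f.natDegree + 1),
    if s < i then AdjoinRoot.of f (f.coeff i) * AdjoinRoot.root f ^ (i - 1 - s) else 0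

private theorem st_g_xd (f : F[X][X]) (hm : f.Monic) (c : ℕ)
    (hc : ∀ i, (f.coeff i).natDegree ≤ c) (s : ℕ) : XD f c (st_g f s) := by
  unfold st_g
  refine XD.sum hm _ _ _ fun i hi => ?_
  rw [Finset.mem_range] at hi
  split_ifs with h
  · have h1 := (xd_root_pow_lt hm (i - 1 - s) (by omega)).of_mul (f.coeff i) (hc i)
    rwa [zero_add] at h1
  · exact XD.zero hm c

private theorem st_g_last (f : F[X][X]) (hm : f.Monic) (hd : 0 < f.natDegree) :
    st_g f (f.natDegree - 1) = 1 := by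
  unfold st_g
  rw [Finset.sum_eq_single f.natDegree]
  · rw [if_pos (by omega), hm.coeff_natDegree, map_one, one_mul]
    have h : f.natDegree - 1 - (f.natDegree - 1) = 0 := by omega
    rw [h, pow_zero]
  · intro i hi hne
    rw [Finset.mem_range] at hi
    rw [if_neg (by omega)]
  · intro h
    exact absurd (Finset.mem_range.2 (by omega)) h

/-- the value of `f(ψ x, z)` -/
private noncomputable def st_h (f : F[X][X]) (ψ : AdjoinRoot f →ₐ[F] F) (z : F) : F :=
  ∑ i ∈ Finset.range (f.natDegree + 1), ψ (AdjoinRoot.of f (f.coeff i)) * z ^ i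

private theorem st_h_root (f : F[X][X]) (ψ : AdjoinRoot f →ₐ[F] F) :
    st_h f ψ (ψ (AdjoinRoot.root f)) = 0 := by
  unfold st_h
  have h1 : (AdjoinRoot.mk f) f = ∑ i ∈ Finset.range (f.natDegree + 1),
      AdjoinRoot.of f (f.coeff i) * AdjoinRoot.root f ^ i := by
    have h0 : (AdjoinRoot.mk f) f =
        (AdjoinRoot.mk f) (∑ i ∈ Finset.range (f.natDegree + 1), C (f.coeff i) * X ^ i) :=
      congrArg (AdjoinRoot.mk f) f.as_sum_range_C_mul_X_pow
    rw [h0, map_sum]
    refine Finset.sum_congr rfl fun i _ => ?_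
    rw [map_mul, map_pow]
    rfl
  have h2 : ψ ((AdjoinRoot.mk f) f) = 0 := by rw [AdjoinRoot.mk_self, map_zero]
  rw [h1, map_sum] at h2
  rw [← h2]
  refine Finset.sum_congr rfl fun i _ => ?_
  rw [map_mul, map_pow]

private theorem st_h_diff (f : F[X][X]) (ψ : AdjoinRoot f →ₐ[F] F) (z : F) :
    (∑ s ∈ Finset.range f.natDegree, ψ (st_g f s) * z ^ s) * (z - ψ (AdjoinRoot.root f)) =
      st_h f ψ z - st_h f ψ (ψ (AdjoinRoot.root f)) := by
  set η := ψ (AdjoinRoot.root f) with hη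
  have h1 : ∀ s, ψ (st_g f s) = ∑ i ∈ Finset.range (f.natDegree + 1),
      if s < i then ψ (AdjoinRoot.of f (f.coeff i)) * η ^ (i - 1 - s) else 0 := by
    intro s
    unfold st_g
    rw [map_sum]
    refine Finset.sum_congr rfl fun i _ => ?_
    split_ifs
    · rw [map_mul, map_pow]
    · rw [map_zero]
  have h2 : ∑ s ∈ Finset.range f.natDegree, ψ (st_g f s) * z ^ s =
      ∑ i ∈ Finset.range (f.natDegree + 1), ψ (AdjoinRoot.of f (f.coeff i)) *
        ∑ s ∈ Finset.range i, z ^ s * η ^ (i - 1 - s) := by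
    have h3 : ∀ s ∈ Finset.range f.natDegree, ψ (st_g f s) * z ^ s =
        ∑ i ∈ Finset.range (f.natDegree + 1),
          if s < i then ψ (AdjoinRoot.of f (f.coeff i)) * (z ^ s * η ^ (i - 1 - s)) else 0 := by
      intro s _
      rw [h1, Finset.sum_mul]
      refine Finset.sum_congr rfl fun i _ => ?_
      split_ifs
      · ring
      · rw [zero_mul]
    rw [Finset.sum_congr rfl h3, Finset.sum_comm]
    refine Finset.sum_congr rfl fun i hi => ?_
    rw [Finset.mem_range] at hi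
    rw [Finset.mul_sum, ← Finset.sum_filter]
    refine Finset.sum_congr ?_ fun s _ => rfl
    ext s
    simp only [Finset.mem_filter, Finset.mem_range]
    omega
  rw [h2, Finset.sum_mul]
  unfold st_h
  rw [← Finset.sum_sub_distrib]
  refine Finset.sum_congr rfl fun i _ => ?_
  rw [mul_assoc, geom_sum₂_mul]
  ring

private theorem st_h_frob (p : ℕ) [Fact p.Prime] [CharP F p] (f : F[X][X])
    (hfrob : f.map (mapRingHom (frobenius F p)) = f) (ψ : AdjoinRoot f →ₐ[F] F)
    (hx : ψ (AdjoinRoot.of f X) ^ p = ψ (AdjoinRoot.of f X)) (z : F) :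
    st_h f ψ (z ^ p) = st_h f ψ z ^ p := by
  have h1 : ∀ u : F[X], ψ (AdjoinRoot.of f u) = u.eval (ψ (AdjoinRoot.of f X)) := by
    intro u
    have h2 : ∀ a : F, ψ (AdjoinRoot.of f (C a)) = a := by
      intro a
      exact ψ.commutes a
    have h3 : (ψ : AdjoinRoot f →+* F).comp (AdjoinRoot.of f) =
        Polynomial.evalRingHom (ψ (AdjoinRoot.of f X)) := by
      apply Polynomial.ringHom_ext
      · intro a
        rw [RingHom.comp_apply, Polynomial.coe_evalRingHom, Polynomial.eval_C]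
        exact h2 a
      · rw [RingHom.comp_apply, Polynomial.coe_evalRingHom, Polynomial.eval_X]
        rfl
    exact congrArg (fun g : F[X] →+* F => g u) h3
  have h4 : ∀ i, ψ (AdjoinRoot.of f (f.coeff i)) ^ p = ψ (AdjoinRoot.of f (f.coeff i)) := by
    intro i
    have h5 : (f.coeff i).map (frobenius F p) = f.coeff i := by
      have h6 := congrArg (fun g : F[X][X] => g.coeff i) hfrob
      simp only [Polynomial.coeff_map] at h6
      exact h6
    rw [h1]
    have h7 : (frobenius F p) ((f.coeff i).eval (ψ (AdjoinRoot.of f X))) =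
        ((f.coeff i).map (frobenius F p)).eval (frobenius F p (ψ (AdjoinRoot.of f X))) := by
      rw [Polynomial.eval_map_apply]
    rw [frobenius_def, h5, frobenius_def, hx] at h7
    exact h7
  unfold st_h
  have h8 : (frobenius F p) (∑ i ∈ Finset.range (f.natDegree + 1),
      ψ (AdjoinRoot.of f (f.coeff i)) * z ^ i) = ∑ i ∈ Finset.range (f.natDegree + 1),
      ψ (AdjoinRoot.of f (f.coeff i)) * (z ^ p) ^ i := by
    rw [map_sum]
    refine Finset.sum_congr rfl fun i _ => ?_
    rw [frobenius_def, mul_pow, h4, pow_right_comm]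
  rw [frobenius_def] at h8
  exact h8.symm

end st_aux

/-- the points with `x, y ∈ F_p`: `stepanov_up` with `e = 1`, `γ 0 k = y^k`, `c3 = 0` -/
theorem bound_one (d c : ℕ) (hd : 0 < d) (ε : ℝ) (hε : 0 < ε) : ∃ p₀ : ℕ, ∀ p : ℕ, p₀ ≤ p →
    ∀ (F : Type) [Field F] [Fact p.Prime] [CharP F p] (f : F[X][X]), f.Monic → f.natDegree = d →
    (∀ i, (f.coeff i).natDegree ≤ c) → AbsIrr f → f.map (mapRingHom (frobenius F p)) = f →
    ∀ S : Finset (AdjoinRoot f →ₐ[F] F),
      (∀ ψ ∈ S, ψ (AdjoinRoot.of f X) ^ p = ψ (AdjoinRoot.of f X)) →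
      (∀ ψ ∈ S, ψ (AdjoinRoot.root f) ^ p = ψ (AdjoinRoot.root f)) →
      (∀ ψ ∈ S, ψ (AdjoinRoot.mk f (derivative f)) ≠ 0) → (S.card : ℝ) ≤ (1 + ε) * p := by
  obtain ⟨p₀, hp₀⟩ := params d 1 c 0 hd ε hε
  refine ⟨p₀, fun p hp F _ _ _ f hm hfd hc habs hfrob S hS1 hS2 hS3 => ?_⟩
  obtain ⟨K, L, M, _, hMp, hL, hineq, hN⟩ := hp₀ p hp
  have h := stepanov_up p f hm (by rw [hfd]; exact hd) c hc habs hfrob 1 0
    (fun _ k => AdjoinRoot.root f ^ (k : ℕ)) (fun _ k => xd_root_pow_lt hm k k.2) S hS1 hS3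
    (fun ψ hψ E hE => by
      have h1 := hE 0
      rw [← h1]
      refine Finset.sum_congr rfl fun k _ => ?_
      rw [map_pow, pow_mul, hS2 ψ hψ, mul_comm]) K L M hMp (by rw [hfd]; exact hL)
    (by rw [hfd]; exact hineq)
  rw [hfd] at h
  have h2 := hN S.card h
  rwa [Nat.cast_one] at h2

/-- The points with `x ∈ F_p`, `y ∉ F_p`: `stepanov_up` with `e = d - 1` and, for `s < d - 1`,
`γ s k = δ_(s k) - [k = d - 1] g_s`, `g_s = ∑_(i > s) f_i(x) y^(i - 1 - s)`, so that
`f(x, Z) - f(x, y) = (Z - y) ∑_(s < d) g_s Z^s`, `g_(d-1) = 1`; `c3 = c` (the degree in `y` of `g_s`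
is `< d`). `hS3`: `η = ψ(y)`, `z = η^p ≠ η`; `f(ψ x, z) = f(ψ x, η)^p = 0`, so
`∑_(s < d) ψ(g_s) z^s = 0`, and `E_s = E_(d-1) ψ(g_s)`. -/
theorem bound_two (d c : ℕ) (hd : 0 < d) (ε : ℝ) (hε : 0 < ε) : ∃ p₀ : ℕ, ∀ p : ℕ, p₀ ≤ p →
    ∀ (F : Type) [Field F] [Fact p.Prime] [CharP F p] (f : F[X][X]), f.Monic → f.natDegree = d →
    (∀ i, (f.coeff i).natDegree ≤ c) → AbsIrr f → f.map (mapRingHom (frobenius F p)) = f →
    ∀ S : Finset (AdjoinRoot f →ₐ[F] F),
      (∀ ψ ∈ S, ψ (AdjoinRoot.of f X) ^ p = ψ (AdjoinRoot.of f X)) →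
      (∀ ψ ∈ S, ψ (AdjoinRoot.root f) ^ p ≠ ψ (AdjoinRoot.root f)) →
      (∀ ψ ∈ S, ψ (AdjoinRoot.mk f (derivative f)) ≠ 0) →
      (S.card : ℝ) ≤ (((d - 1 : ℕ) : ℝ) + ε) * p := by
  obtain ⟨p₀, hp₀⟩ := params d (d - 1) c c hd ε hε
  refine ⟨p₀, fun p hp F _ _ _ f hm hfd hc habs hfrob S hS1 hS2 hS3 => ?_⟩
  obtain ⟨K, L, M, _, hMp, hL, hineq, hN⟩ := hp₀ p hp
  have hd' : 0 < f.natDegree := by rw [hfd]; exact hd
  have h := stepanov_up p f hm hd' c hc habs hfrob (d - 1) c
    (fun s k => (if (k : ℕ) = (s : ℕ) then 1 else 0) +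
      -(if (k : ℕ) = f.natDegree - 1 then st_g f s else 0))
    (fun s k => by
      refine XD.add ?_ (XD.neg ?_)
      · split_ifs
        · exact (XD.one hm).mono (Nat.zero_le c)
        · exact XD.zero hm c
      · split_ifs
        · exact st_g_xd f hm c hc s
        · exact XD.zero hm c) S hS1 hS3
    (fun ψ hψ E hE => ?_) K L M hMp (by rw [hfd]; exact hL)
    (by rw [hfd]; exact hineq)
  · rw [hfd] at h
    exact hN S.card h
  · set η := ψ (AdjoinRoot.root f) with hη
    have hlast : f.natDegree - 1 < f.natDegree := by omega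
    set El : F := E ⟨f.natDegree - 1, hlast⟩ with hEl
    have h1 : ∀ k : Fin f.natDegree, E k = El * ψ (st_g f k) := by
      intro k
      by_cases hk : (k : ℕ) = f.natDegree - 1
      · have h2 : k = ⟨f.natDegree - 1, hlast⟩ := Fin.ext hk
        rw [hk, st_g_last f hm hd', map_one, mul_one, h2]
      · have hk' : (k : ℕ) < d - 1 := by
          have := k.2
          omega
        have h3 := hE ⟨k, hk'⟩
        have h4 : ∀ j : Fin f.natDegree,
            ψ ((if (j : ℕ) = (k : ℕ) then 1 else 0) +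
              -(if (j : ℕ) = f.natDegree - 1 then st_g f k else 0)) * E j =
            (if j = k then E k else 0) +
              (if j = ⟨f.natDegree - 1, hlast⟩ then -(El * ψ (st_g f k)) else 0) := by
          intro j
          rw [map_add, map_neg, add_mul]
          congr 1
          · by_cases hj : (j : ℕ) = (k : ℕ)
            · have hj' : j = k := Fin.ext hj
              rw [if_pos hj, if_pos hj', map_one, one_mul, hj']
            · have hj' : j ≠ k := fun h => hj (congrArg Fin.val h)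
              rw [if_neg hj, if_neg hj', map_zero, zero_mul]
          · by_cases hj : (j : ℕ) = f.natDegree - 1
            · have hj' : j = ⟨f.natDegree - 1, hlast⟩ := Fin.ext hj
              rw [if_pos hj, if_pos hj', hj', hEl]
              ring
            · have hj' : j ≠ ⟨f.natDegree - 1, hlast⟩ := fun h => hj (congrArg Fin.val h)
              rw [if_neg hj, if_neg hj', map_zero, neg_zero, zero_mul]
        rw [Finset.sum_congr rfl fun j _ => h4 j, Finset.sum_add_distrib,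
          Finset.sum_ite_eq' Finset.univ k, Finset.sum_ite_eq' Finset.univ, if_pos
          (Finset.mem_univ _), if_pos (Finset.mem_univ _)] at h3
        linear_combination h3
    have h5 : ∑ k : Fin f.natDegree, E k * η ^ (p * (k : ℕ)) =
        El * ∑ s ∈ Finset.range f.natDegree, ψ (st_g f s) * (η ^ p) ^ s := by
      rw [← Fin.sum_univ_eq_sum_range (fun s => ψ (st_g f s) * (η ^ p) ^ s), Finset.mul_sum]
      refine Finset.sum_congr rfl fun k _ => ?_
      rw [h1 k, pow_mul, mul_assoc]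
    have h6 := st_h_diff f ψ (η ^ p)
    rw [← hη, st_h_frob p f hfrob ψ (hS1 ψ hψ), hη, st_h_root, ← hη,
      zero_pow (Fact.out : p.Prime).ne_zero, sub_zero] at h6
    rw [h5]
    rcases mul_eq_zero.1 h6 with h7 | h7
    · rw [h7, mul_zero]
    · exact absurd (sub_eq_zero.1 h7) (hS2 ψ hψ)

end Pool.Agent.Lib.MP_1a0ddd_nt.LW
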