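import Pool.Agent.Lib.MP_1a0ddd_nt.LW.SDer
import Pool.Agent.Lib.MP_1a0ddd_nt.LW.SLoc
import Pool.Agent.Lib.MP_1a0ddd_nt.LW.SNonv
import Pool.Agent.Lib.MP_1a0ddd_nt.LW.SAux

/-! The upper bound of Stepanov and Schmidt. -/

set_option autoImplicit false

namespace Pool.Agent.Lib.MP_1a0ddd_nt.LW

open Polynomial

variable {F : Type} [Field F]

private theorem iterate_sum {B ι : Type} [CommRing B] [Algebra F B] (δ : Derivation F B B)
    (s : Finset ι) (g : ι → B) (m : ℕ) : δ^[m] (∑ i ∈ s, g i) = ∑ i ∈ s, δ^[m] (g i) := by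
  induction m with
  | zero => rfl
  | succ m ih =>
    rw [Function.iterate_succ_apply', ih, map_sum]
    exact Finset.sum_congr rfl fun i _ => (Function.iterate_succ_apply' _ _ _).symm

/-- Proof: `exists_der`, `exists_aux` give `a_jk`; `A = ∑ a_jk x^(p j) y^(p k)` is not zero
(`nonvanish`) and `XD f (L + K p + d c p + 4 d c) A` (`XD.of_mul`, `xd_root_pow`, `XD.mul`). For
`ψ ∈ S`, `m < M`: `δ^m A = ∑ δ^m(a_jk) x^(p j) y^(p k)` (`der_iterate_pow`), so by `ψ(x)^p = ψ(x)`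
`ψ(δ^m A) = ∑ k, E_k ψ(y)^(p k)` with `E_k = ψ(∑ j, x^j δ^m(a_jk))`, and
`∑ k, ψ(γ_sk) E_k = 0` for all `s`, so it is zero by `hS3`. `zeros_le`, `quotient_le`. -/
theorem stepanov_up (p : ℕ) [Fact p.Prime] [CharP F p] (f : F[X][X]) (hm : f.Monic)
    (hd : 0 < f.natDegree) (c : ℕ) (hc : ∀ i, (f.coeff i).natDegree ≤ c) (habs : AbsIrr f)
    (hfrob : f.map (mapRingHom (frobenius F p)) = f) (e c3 : ℕ)
    (γ : Fin e → Fin f.natDegree → AdjoinRoot f) (hγ : ∀ s k, XD f c3 (γ s k))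
    (S : Finset (AdjoinRoot f →ₐ[F] F))
    (hS1 : ∀ ψ ∈ S, ψ (AdjoinRoot.of f X) ^ p = ψ (AdjoinRoot.of f X))
    (hS2 : ∀ ψ ∈ S, ψ (AdjoinRoot.mk f (derivative f)) ≠ 0)
    (hS3 : ∀ ψ ∈ S, ∀ E : Fin f.natDegree → F, (∀ s, ∑ k, ψ (γ s k) * E k = 0) →
      ∑ k, E k * ψ (AdjoinRoot.root f) ^ (p * (k : ℕ)) = 0) (K L M : ℕ) (hMp : M ≤ p)
    (hL : f.natDegree * (L + 2 * f.natDegree * c) < p)
    (hineq : M * e * (L + M * ((2 * f.natDegree + 1) * c) + K + c3 + 2 * f.natDegree * c + 1) <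
      K * f.natDegree * L) :
    S.card * M ≤ f.natDegree * (L + K * p + f.natDegree * c * p + 6 * f.natDegree * c) := by
  obtain ⟨δ, hδx, hδ⟩ := exists_der f hm c hc
  obtain ⟨a, ha, h0, haux⟩ := exists_aux f hm hd c hc δ _ hδ e c3 γ hγ K L M hineq
  have hA0 := nonvanish p f hm hd c hc habs hfrob K L hL a ha h0
  set A : AdjoinRoot f := ∑ j, ∑ k, a j k * AdjoinRoot.of f X ^ (p * (j : ℕ)) *
    AdjoinRoot.root f ^ (p * (k : ℕ)) with hA
  -- the degree of `A`
  have hXD : XD f (L + K * p + f.natDegree * c * p + 2 * f.natDegree * c) A := by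
    rw [hA]
    refine XD.sum hm _ _ _ fun j _ => XD.sum hm _ _ _ fun k _ => ?_
    have h1 : XD f (L + K * p) (a j k * AdjoinRoot.of f X ^ (p * (j : ℕ))) := by
      rw [mul_comm (a j k), ← map_pow]
      refine XD.of_mul (ha j k) _ ?_
      rw [natDegree_X_pow, mul_comm p]
      exact Nat.mul_le_mul_right _ j.2.le
    have h2 : XD f (f.natDegree * c * p) (AdjoinRoot.root f ^ (p * (k : ℕ))) := by
      refine (xd_root_pow hm c hc _).mono ?_
      have h3 : p * (k : ℕ) * c = (k : ℕ) * (c * p) := by ring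
      rw [h3, mul_assoc]
      exact Nat.mul_le_mul_right _ k.2.le
    exact XD.mul hm c hc h1 h2
  have hirr : Irreducible f := by
    have h1 := habs F (RingHom.id F) Function.injective_id
    have h2 : f.map (mapRingHom (RingHom.id F)) = f := by
      rw [mapRingHom_id, Polynomial.map_id]
    rwa [h2] at h1
  obtain ⟨hfin, hrank⟩ := quotient_le f hm hirr c hc _ A hXD hA0
  have hnt : Nontrivial (AdjoinRoot f) := by
    apply AdjoinRoot.nontrivial
    intro h
    rw [Polynomial.degree_eq_natDegree hm.ne_zero] at h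
    have h1 : f.natDegree = 0 := by exact_mod_cast h
    omega
  have hchar : CharP (AdjoinRoot f) p :=
    charP_of_injective_algebraMap (algebraMap F (AdjoinRoot f)).injective p
  have hzero : ∀ ψ ∈ S, ∀ m < M, ψ (δ^[m] A) = 0 := by
    intro ψ hψ m hmM
    have h1 : δ^[m] A = ∑ j, ∑ k, δ^[m] (a j k) *
        (AdjoinRoot.of f X ^ (j : ℕ) * AdjoinRoot.root f ^ (k : ℕ)) ^ p := by
      rw [hA, iterate_sum]
      refine Finset.sum_congr rfl fun j _ => ?_
      rw [iterate_sum]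
      refine Finset.sum_congr rfl fun k _ => ?_
      rw [← der_iterate_pow]
      congr 1
      rw [mul_pow, ← pow_mul, ← pow_mul, mul_comm (j : ℕ) p, mul_comm (k : ℕ) p, mul_assoc]
    have h2 : ψ (δ^[m] A) = ∑ k : Fin f.natDegree,
        ψ (∑ j : Fin K, AdjoinRoot.of f X ^ (j : ℕ) * δ^[m] (a j k)) *
          ψ (AdjoinRoot.root f) ^ (p * (k : ℕ)) := by
      rw [h1, map_sum]
      simp only [map_sum]
      rw [Finset.sum_comm]
      refine Finset.sum_congr rfl fun k _ => ?_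
      rw [Finset.sum_mul]
      refine Finset.sum_congr rfl fun j _ => ?_
      rw [map_mul, map_mul, map_pow, map_mul, map_pow, map_pow, mul_pow, ← pow_mul, ← pow_mul,
        mul_comm (j : ℕ) p, pow_mul, hS1 ψ hψ, mul_comm (k : ℕ) p]
      ring
    rw [h2]
    apply hS3 ψ hψ
    intro s
    have h3 := congrArg ψ (haux m hmM s)
    rw [map_zero, map_sum] at h3
    rw [← h3]
    exact Finset.sum_congr rfl fun k _ => (map_mul ψ _ _).symm
  have hfact : ∀ i : ℕ, i < M → ((i.factorial : ℕ) : F) ≠ 0 := by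
    intro i hi h
    rw [CharP.cast_eq_zero_iff F p] at h
    have h1 := ((Fact.out : p.Prime).dvd_factorial).1 h
    omega
  have hcard := zeros_le δ S (AdjoinRoot.of f X) M (fun ψ hψ => by rw [hδx]; exact hS2 ψ hψ) hfact A
    hzero
  refine hcard.trans (hrank.trans (Nat.mul_le_mul_left _ ?_))
  have h1 : 2 * f.natDegree * c + 2 * f.natDegree * c ≤ 6 * f.natDegree * c := by
    have h2 : 2 * f.natDegree * c + 2 * f.natDegree * c = 4 * (f.natDegree * c) := by ring
    have h3 : 6 * f.natDegree * c = 6 * (f.natDegree * c) := by ring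
    rw [h2, h3]
    exact Nat.mul_le_mul_right _ (by norm_num)
  omega

end Pool.Agent.Lib.MP_1a0ddd_nt.LW
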