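import Mathlib

/-! The degree in `x` of the elements of `F[x][y]/(f)`.

`F[X][X]` is `F[x][y]`: the outer variable is `y`, the inner variable is `x`. `d = deg_y f`, and `c`
bounds the degrees in `x` of the coefficients of `f`. -/

set_option autoImplicit false

namespace Pool.Agent.Lib.MP_1a0ddd_nt.LW

open Polynomial

variable {F : Type} [Field F]

/-- `b` is represented by a polynomial of degree `< d` in `y` and of degree `≤ n` in `x` -/
def XD (f : F[X][X]) (n : ℕ) (b : AdjoinRoot f) : Prop :=
  ∃ g : F[X][X], g.degree < f.degree ∧ (∀ i, (g.coeff i).natDegree ≤ n) ∧ AdjoinRoot.mk f g = b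

/-- the polynomials `f ∈ R[x][y]` which are irreducible over every field containing `R` -/
def AbsIrr {R : Type} [CommRing R] (f : R[X][X]) : Prop :=
  ∀ (E : Type) [Field E] (φ : R →+* E), Function.Injective φ →
    Irreducible (f.map (mapRingHom φ))

variable {f : F[X][X]}

private theorem xd_degree_C_mul_le (u : F[X]) (g : F[X][X]) : (C u * g).degree ≤ g.degree := by
  by_cases h : u = 0
  · rw [h, C_0, zero_mul, degree_zero]
    exact bot_le
  · rw [degree_C_mul h]

theorem XD.mono {n m : ℕ} (h : n ≤ m) {b : AdjoinRoot f} (hb : XD f n b) : XD f m b := by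
  obtain ⟨g, h1, h2, h3⟩ := hb
  exact ⟨g, h1, fun i => (h2 i).trans h, h3⟩

theorem XD.zero (hm : f.Monic) (n : ℕ) : XD f n 0 := by
  refine ⟨0, ?_, fun i => ?_, map_zero _⟩
  · rw [degree_zero, bot_lt_iff_ne_bot, Ne, degree_eq_bot]
    exact hm.ne_zero
  · rw [coeff_zero, natDegree_zero]
    exact Nat.zero_le n

theorem XD.add {n : ℕ} {a b : AdjoinRoot f} (ha : XD f n a) (hb : XD f n b) :
    XD f n (a + b) := by
  obtain ⟨g, g1, g2, g3⟩ := ha
  obtain ⟨h, h1, h2, h3⟩ := hb
  refine ⟨g + h, lt_of_le_of_lt (degree_add_le g h) (max_lt g1 h1), fun i => ?_, ?_⟩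
  · rw [coeff_add]
    exact natDegree_add_le_of_degree_le (g2 i) (h2 i)
  · rw [map_add, g3, h3]

theorem XD.smul {n : ℕ} (k : F) {b : AdjoinRoot f} (hb : XD f n b) : XD f n (k • b) := by
  obtain ⟨g, g1, g2, g3⟩ := hb
  refine ⟨k • g, lt_of_le_of_lt (degree_smul_le k g) g1, fun i => ?_, ?_⟩
  · rw [coeff_smul]
    exact (natDegree_smul_le k _).trans (g2 i)
  · rw [← g3, AdjoinRoot.smul_mk]

theorem XD.neg {n : ℕ} {b : AdjoinRoot f} (hb : XD f n b) : XD f n (-b) := by
  have h1 := hb.smul (-1 : F)
  rwa [neg_one_smul] at h1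

theorem XD.sum (hm : f.Monic) {ι : Type} (s : Finset ι) (a : ι → AdjoinRoot f) (n : ℕ)
    (h : ∀ i ∈ s, XD f n (a i)) : XD f n (∑ i ∈ s, a i) := by
  classical
  induction s using Finset.induction_on with
  | empty => rw [Finset.sum_empty]; exact XD.zero hm n
  | insert i s hi ih =>
    rw [Finset.sum_insert hi]
    exact (h i (Finset.mem_insert_self i s)).add
      (ih fun j hj => h j (Finset.mem_insert_of_mem hj))

private theorem xd_mk_aux (hm : f.Monic) (c : ℕ) (hc : ∀ i, (f.coeff i).natDegree ≤ c) (m : ℕ) :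
    ∀ (n : ℕ) (g : F[X][X]), g.natDegree ≤ m → (∀ i, (g.coeff i).natDegree ≤ n) →
      XD f (n + m * c) (AdjoinRoot.mk f g) := by
  induction m with
  | zero =>
    intro n g hgm hg
    by_cases hlt : g.degree < f.degree
    · exact ⟨g, hlt, fun i => (hg i).trans (Nat.le_add_right _ _), rfl⟩
    · have h1 : f.natDegree = 0 := by
        have := natDegree_le_natDegree (not_lt.1 hlt)
        omega
      have h2 : f = 1 := hm.natDegree_eq_zero.1 h1
      have h3 : AdjoinRoot.mk f g = 0 := by
        rw [AdjoinRoot.mk_eq_zero, h2]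
        exact one_dvd g
      rw [h3]
      exact XD.zero hm _
  | succ m ih =>
    intro n g hgm hg
    by_cases hlt : g.degree < f.degree
    · exact ⟨g, hlt, fun i => (hg i).trans (Nat.le_add_right _ _), rfl⟩
    · have hle := not_lt.1 hlt
      by_cases hg0 : g = 0
      · rw [hg0, map_zero]
        exact XD.zero hm _
      · set q : F[X][X] := C g.leadingCoeff * X ^ (g.natDegree - f.natDegree) with hq
        have hdeg : (g - f * q).degree < g.degree := div_wf_lemma ⟨hle, hg0⟩ hm
        have hmk : AdjoinRoot.mk f g = AdjoinRoot.mk f (g - f * q) := by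
          rw [map_sub, map_mul, AdjoinRoot.mk_self, zero_mul, sub_zero]
        have hcoef : ∀ i, ((g - f * q).coeff i).natDegree ≤ n + c := by
          intro i
          rw [coeff_sub]
          refine (natDegree_sub_le_of_le ((hg i).trans (Nat.le_add_right n c)) ?_).trans
            (le_of_eq (max_self (n + c)))
          rw [hq, ← mul_assoc, coeff_mul_X_pow']
          split_ifs
          · rw [coeff_mul_C]
            refine le_trans natDegree_mul_le ?_
            have h1 := hc (i - (g.natDegree - f.natDegree))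
            have h2 := hg g.natDegree
            rw [leadingCoeff]
            omega
          · rw [natDegree_zero]
            exact Nat.zero_le _
        rw [hmk]
        by_cases h0 : g - f * q = 0
        · rw [h0, map_zero]
          exact XD.zero hm _
        · have h3 : (g - f * q).natDegree ≤ m := by
            have := natDegree_lt_natDegree h0 hdeg
            omega
          refine XD.mono (le_of_eq ?_) (ih (n + c) _ h3 hcoef)
          ring

private theorem xd_exists_c (f : F[X][X]) : ∃ c, ∀ i, (f.coeff i).natDegree ≤ c := by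
  refine ⟨f.support.sup fun i => (f.coeff i).natDegree, fun i => ?_⟩
  by_cases hi : i ∈ f.support
  · exact Finset.le_sup (f := fun i => (f.coeff i).natDegree) hi
  · rw [notMem_support_iff.1 hi, natDegree_zero]
    exact Nat.zero_le _

/-- reduction of a polynomial; every step lowers the degree in `y` and adds `c` to the degree in
`x` -/
theorem xd_mk (hm : f.Monic) (c : ℕ) (hc : ∀ i, (f.coeff i).natDegree ≤ c) (n : ℕ) (g : F[X][X])
    (hg : ∀ i, (g.coeff i).natDegree ≤ n) : XD f (n + g.natDegree * c) (AdjoinRoot.mk f g) :=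
  xd_mk_aux hm c hc g.natDegree n g le_rfl hg

theorem XD.mul (hm : f.Monic) (c : ℕ) (hc : ∀ i, (f.coeff i).natDegree ≤ c) {n m : ℕ}
    {a b : AdjoinRoot f} (ha : XD f n a) (hb : XD f m b) :
    XD f (n + m + 2 * f.natDegree * c) (a * b) := by
  obtain ⟨g, g1, g2, g3⟩ := ha
  obtain ⟨h, h1, h2, h3⟩ := hb
  rw [← g3, ← h3, ← map_mul]
  have hcoef : ∀ i, ((g * h).coeff i).natDegree ≤ n + m := by
    intro i
    rw [coeff_mul]
    refine natDegree_sum_le_of_forall_le _ _ fun x _ => ?_
    exact le_trans natDegree_mul_le (add_le_add (g2 x.1) (h2 x.2))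
  refine XD.mono ?_ (xd_mk hm c hc (n + m) (g * h) hcoef)
  have e1 : (g * h).natDegree ≤ g.natDegree + h.natDegree := natDegree_mul_le
  have e2 : g.natDegree ≤ f.natDegree := natDegree_le_natDegree g1.le
  have e3 : h.natDegree ≤ f.natDegree := natDegree_le_natDegree h1.le
  exact Nat.add_le_add_left (Nat.mul_le_mul_right c (by omega)) _

theorem XD.one (hm : f.Monic) : XD f 0 (1 : AdjoinRoot f) := by
  obtain ⟨c, hc⟩ := xd_exists_c f
  have h1 := xd_mk hm c hc 0 1 fun i => by
    rw [coeff_one]
    split_ifs <;> simp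
  rwa [natDegree_one, zero_mul, add_zero, map_one] at h1

/-- multiplication by a polynomial in `x` -/
theorem XD.of_mul {n m : ℕ} {b : AdjoinRoot f} (hb : XD f n b) (u : F[X]) (hu : u.natDegree ≤ m) :
    XD f (n + m) (AdjoinRoot.of f u * b) := by
  obtain ⟨g, g1, g2, g3⟩ := hb
  refine ⟨C u * g, lt_of_le_of_lt (xd_degree_C_mul_le u g) g1, fun i => ?_, ?_⟩
  · rw [coeff_C_mul]
    refine le_trans natDegree_mul_le ?_
    have := g2 i
    omega
  · rw [map_mul, AdjoinRoot.mk_C, g3]

theorem xd_root_pow_lt (hm : f.Monic) (k : ℕ) (hk : k < f.natDegree) :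
    XD f 0 (AdjoinRoot.root f ^ k) := by
  refine ⟨X ^ k, ?_, fun i => ?_, ?_⟩
  · rw [degree_X_pow, degree_eq_natDegree hm.ne_zero]
    exact_mod_cast hk
  · rw [coeff_X_pow]
    split_ifs <;> simp
  · rw [map_pow, AdjoinRoot.mk_X]

theorem xd_root_pow (hm : f.Monic) (c : ℕ) (hc : ∀ i, (f.coeff i).natDegree ≤ c) (k : ℕ) :
    XD f (k * c) (AdjoinRoot.root f ^ k) := by
  have h1 := xd_mk hm c hc 0 (X ^ k) fun i => by
    rw [coeff_X_pow]
    split_ifs <;> simp
  rwa [natDegree_X_pow, zero_add, map_pow, AdjoinRoot.mk_X] at h1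

/-- the elements of degree `≤ n` as a subspace -/
def xdSub (f : F[X][X]) (hm : f.Monic) (n : ℕ) : Submodule F (AdjoinRoot f) where
  carrier := {b | XD f n b}
  add_mem' := fun ha hb => ha.add hb
  zero_mem' := XD.zero hm n
  smul_mem' := fun k _ hb => hb.smul k

/-- a polynomial of degree `< deg f` which is zero modulo `f` is zero -/
private theorem xd_eq_zero {g : F[X][X]} (hm : f.Monic) (hg : g.degree < f.degree)
    (h : AdjoinRoot.mk f g = 0) : g = 0 := by
  rw [AdjoinRoot.mk_eq_zero] at h
  by_contra h0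
  exact hm.not_dvd_of_degree_lt h0 hg h

/-- the polynomial with given coefficients -/
private noncomputable def xdPoly (d : ℕ) (v : Fin d → F[X]) : F[X][X] := ∑ i, C (v i) * X ^ (i : ℕ)

private theorem xdPoly_coeff (d : ℕ) (v : Fin d → F[X]) (i : ℕ) :
    (xdPoly d v).coeff i = if h : i < d then v ⟨i, h⟩ else 0 := by
  rw [xdPoly, finsetSum_coeff]
  simp only [coeff_C_mul, coeff_X_pow, mul_ite, mul_one, mul_zero]
  split_ifs with h
  · rw [Finset.sum_eq_single (⟨i, h⟩ : Fin d)]
    · simp
    · intro j _ hj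
      rw [if_neg]
      intro h2
      exact hj (Fin.ext h2.symm)
    · intro h2
      exact absurd (Finset.mem_univ _) h2
  · refine Finset.sum_eq_zero fun j _ => ?_
    rw [if_neg]
    intro h2
    exact h (h2 ▸ j.2)

private theorem xdPoly_degree (hm : f.Monic) (v : Fin f.natDegree → F[X]) :
    (xdPoly f.natDegree v).degree < f.degree := by
  rw [degree_eq_natDegree hm.ne_zero, degree_lt_iff_coeff_zero]
  intro i hi
  rw [xdPoly_coeff, dif_neg (not_lt.2 hi)]

private noncomputable def xdLin (f : F[X][X]) (n : ℕ) :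
    (Fin f.natDegree → degreeLT F (n + 1)) →ₗ[F] AdjoinRoot f where
  toFun v := AdjoinRoot.mk f (xdPoly f.natDegree fun i => (v i : F[X]))
  map_add' v w := by
    rw [← map_add]
    congr 1
    simp only [xdPoly, Pi.add_apply, Submodule.coe_add, map_add, add_mul, Finset.sum_add_distrib]
  map_smul' k v := by
    rw [RingHom.id_apply, AdjoinRoot.smul_mk]
    congr 1
    ext i j
    rw [xdPoly_coeff, coeff_smul, xdPoly_coeff]
    split_ifs
    · simp
    · simp

/-- the space has dimension `d (n + 1)` -/
theorem xdSub_finrank (hm : f.Monic) (n : ℕ) : Module.Finite F (xdSub f hm n) ∧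
    Module.finrank F (xdSub f hm n) = f.natDegree * (n + 1) := by
  have hinj : Function.Injective (xdLin f n) := by
    rw [injective_iff_map_eq_zero]
    intro v hv
    have h1 : xdPoly f.natDegree (fun i => (v i : F[X])) = 0 := xd_eq_zero hm (xdPoly_degree hm _) hv
    ext i : 2
    have h2 := xdPoly_coeff f.natDegree (fun i => (v i : F[X])) i
    rw [h1, coeff_zero, dif_pos i.2] at h2
    exact h2.symm
  have hrange : LinearMap.range (xdLin f n) = xdSub f hm n := by
    ext b
    constructor
    · rintro ⟨v, rfl⟩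
      refine ⟨_, xdPoly_degree hm _, fun i => ?_, rfl⟩
      rw [xdPoly_coeff]
      split_ifs with h
      · have h1 := mem_degreeLT.1 (v ⟨i, h⟩).2
        exact natDegree_le_of_degree_le (Order.le_of_lt_succ (by exact_mod_cast h1))
      · rw [natDegree_zero]
        exact Nat.zero_le n
    · rintro ⟨g, g1, g2, g3⟩
      refine ⟨fun i => ⟨g.coeff i, ?_⟩, ?_⟩
      · rw [mem_degreeLT]
        exact lt_of_le_of_lt degree_le_natDegree
          (by exact_mod_cast Nat.lt_succ_of_le (g2 i))
      · rw [← g3]
        change AdjoinRoot.mk f (xdPoly f.natDegree fun i => g.coeff i) = _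
        congr 1
        ext1 i
        rw [xdPoly_coeff]
        split_ifs with h
        · rfl
        · rw [degree_eq_natDegree hm.ne_zero, degree_lt_iff_coeff_zero] at g1
          exact (g1 i (not_lt.1 h)).symm
  have hfin : Module.Finite F (degreeLT F (n + 1)) :=
    Module.Finite.equiv (degreeLTEquiv F (n + 1)).symm
  have hrk : Module.finrank F (degreeLT F (n + 1)) = n + 1 := by
    rw [(degreeLTEquiv F (n + 1)).finrank_eq, Module.finrank_fin_fun]
  rw [← hrange]
  refine ⟨inferInstance, ?_⟩
  rw [LinearMap.finrank_range_of_inj hinj, Module.finrank_pi_fintype, Finset.sum_const, hrk,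
    Finset.card_univ, Fintype.card_fin, smul_eq_mul]

/-- uniqueness of the representation: if `∑ j, n_j x^(p j) = 0` with `n_j` of degree `< p` then
all `n_j` are zero -/
theorem xd_spread (hm : f.Monic) (p n K : ℕ) (hp : n < p) (a : Fin K → AdjoinRoot f)
    (ha : ∀ j, XD f n (a j)) (h0 : ∑ j : Fin K, AdjoinRoot.of f X ^ (p * (j : ℕ)) * a j = 0) (j : Fin K) :
    a j = 0 := by
  choose g g1 g2 g3 using ha
  set G : F[X][X] := ∑ j : Fin K, C (X ^ (p * (j : ℕ))) * g j with hG
  have hGdeg : G.degree < f.degree := by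
    refine lt_of_le_of_lt (degree_sum_le _ _) ?_
    rw [Finset.sup_lt_iff]
    · intro i _
      exact lt_of_le_of_lt (xd_degree_C_mul_le _ _) (g1 i)
    · rw [bot_lt_iff_ne_bot, Ne, degree_eq_bot]
      exact hm.ne_zero
  have hG0 : G = 0 := by
    refine xd_eq_zero hm hGdeg ?_
    rw [← h0, hG, map_sum]
    refine Finset.sum_congr rfl fun i _ => ?_
    rw [map_mul, AdjoinRoot.mk_C, g3, map_pow]
  have hgj : g j = 0 := by
    ext i r
    rw [coeff_zero, coeff_zero]
    by_cases hr : n < r
    · exact coeff_eq_zero_of_natDegree_lt (lt_of_le_of_lt (g2 j i) hr)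
    · have h1 : (G.coeff i).coeff (p * j + r) = 0 := by rw [hG0]; simp
      rw [hG, finsetSum_coeff, finsetSum_coeff, Finset.sum_eq_single j] at h1
      · rwa [coeff_C_mul, mul_comm, coeff_mul_X_pow', if_pos (Nat.le_add_right _ _),
          Nat.add_sub_cancel_left] at h1
      · intro k _ hk
        rw [coeff_C_mul, mul_comm, coeff_mul_X_pow']
        split_ifs with h2
        · refine coeff_eq_zero_of_natDegree_lt (lt_of_le_of_lt (g2 k i) ?_)
          have h3 : (k : ℕ) < j := by
            rcases lt_trichotomy (k : ℕ) j with h | h | h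
            · exact h
            · exact absurd (Fin.ext h) hk
            · have h4 : p * ((j : ℕ) + 1) ≤ p * k := Nat.mul_le_mul_left p h
              rw [mul_add, mul_one] at h4
              omega
          have h4 : p * ((k : ℕ) + 1) ≤ p * j := Nat.mul_le_mul_left p h3
          rw [mul_add, mul_one] at h4
          omega
        · rfl
      · intro h2
        exact absurd (Finset.mem_univ _) h2
  rw [← g3 j, hgj, map_zero]

end Pool.Agent.Lib.MP_1a0ddd_nt.LW
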