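import Pool.Agent.Lib.MP_1a0ddd_nt.LW.ZDefs

/-! The von Mangoldt function of ideals. -/

set_option autoImplicit false

namespace Pool.Agent.Lib.MP_1a0ddd_nt.LW

open NumberField Module

variable (K : Type) [Field K] [NumberField K]

/-- `Λ(P^k) = log N(P)` -/
theorem lamI_pow (P : Ideal (𝓞 K)) (hP : P.IsPrime) (h0 : P ≠ ⊥) (k : ℕ) (hk : 0 < k) :
    lamI K (P ^ k) = Real.log (Ideal.absNorm P) := by
  have h : ∃ (Q : Ideal (𝓞 K)) (l : ℕ), Q.IsPrime ∧ Q ≠ ⊥ ∧ 0 < l ∧ P ^ k = Q ^ l :=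
    ⟨P, k, hP, h0, hk, rfl⟩
  rw [lamI, dif_pos h]
  obtain ⟨l, hQ, hQ0, hl, hPQ⟩ := h.choose_spec
  have h1 : P ^ k ≤ h.choose := hPQ.le.trans (Ideal.pow_le_self hl.ne')
  have h2 : P ≤ h.choose := hQ.le_of_pow_le h1
  have h3 : P.IsMaximal := hP.isMaximal h0
  have h4 : P = h.choose := h3.eq_of_le hQ.ne_top h2
  rw [← h4]

theorem lamI_eq_zero (I : Ideal (𝓞 K)) (h : ¬ ∃ (P : Ideal (𝓞 K)) (k : ℕ), P.IsPrime ∧ P ≠ ⊥ ∧
    0 < k ∧ I = P ^ k) : lamI K I = 0 := by
  rw [lamI, dif_neg h]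

theorem lamI_nonneg (I : Ideal (𝓞 K)) : 0 ≤ lamI K I := by
  unfold lamI
  split_ifs with h
  · exact Real.log_natCast_nonneg _
  · exact le_rfl

theorem idealA_one : idealA K 1 = 1 := by
  rw [idealA, if_neg one_ne_zero]
  have h : Nat.card {I : Ideal (𝓞 K) // Ideal.absNorm I = 1} = 1 := by
    rw [Nat.card_eq_one_iff_unique]
    refine ⟨⟨fun a b => ?_⟩, ⟨⟨⊤, Ideal.absNorm_top⟩⟩⟩
    apply Subtype.ext
    rw [Ideal.absNorm_eq_one_iff.1 a.2, Ideal.absNorm_eq_one_iff.1 b.2]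
  rw [h]
  norm_num

private theorem lamI_one : lamI K 1 = 0 := by
  apply lamI_eq_zero
  rintro ⟨P, k, hP, _, hk, h⟩
  have h1 : IsUnit (P ^ k) := by
    rw [← h]
    exact isUnit_one
  have h2 : IsUnit P := (isUnit_pow_iff hk.ne').1 h1
  rw [Ideal.isUnit_iff] at h2
  exact hP.ne_top h2

private theorem finite_dvd (I : Ideal (𝓞 K)) (hI : I ≠ ⊥) : {J : Ideal (𝓞 K) | J ∣ I}.Finite := by
  have : Subsingleton (Ideal (𝓞 K))ˣ := inferInstance
  have : Fintype (Ideal (𝓞 K))ˣ := Fintype.ofSubsingleton 1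
  have := UniqueFactorizationMonoid.fintypeSubtypeDvd I hI
  exact Set.finite_coe_iff.1 (Finite.of_fintype {J : Ideal (𝓞 K) // J ∣ I})

private theorem sum_mul_prime (I P : Ideal (𝓞 K)) (hI : I ≠ ⊥) (hP : Prime P) :
    ∑ᶠ J ∈ {J : Ideal (𝓞 K) | J ∣ P * I}, lamI K J =
      ∑ᶠ J ∈ {J : Ideal (𝓞 K) | J ∣ I}, lamI K J + Real.log (Ideal.absNorm P) := by
  have hP0 : P ≠ ⊥ := hP.ne_zero
  have hPp : P.IsPrime := Ideal.isPrime_of_prime hP
  have hPI : P * I ≠ ⊥ := mul_ne_zero hP0 hI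
  obtain ⟨v, c, hc, hv⟩ := WfDvdMonoid.max_power_factor (a₀ := I) hI hP.irreducible
  have hdv : ∀ k, P ^ k ∣ I ↔ k ≤ v := by
    intro k
    constructor
    · intro h
      by_contra hk
      push Not at hk
      have h1 : P ^ (v + 1) ∣ P ^ v * c := by
        rw [← hv]
        exact (pow_dvd_pow P hk).trans h
      rw [pow_succ] at h1
      exact hc ((mul_dvd_mul_iff_left (pow_ne_zero v hP0)).1 h1)
    · intro h
      rw [hv]
      exact (pow_dvd_pow P h).trans (dvd_mul_right _ _)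
  have hU : {J : Ideal (𝓞 K) | J ∣ P * I} =
      {J : Ideal (𝓞 K) | J ∣ I} ∪ {J : Ideal (𝓞 K) | J ∣ P * I ∧ ¬ J ∣ I} := by
    ext J
    constructor
    · intro h
      by_cases h1 : J ∣ I
      · exact Or.inl h1
      · exact Or.inr ⟨h, h1⟩
    · rintro (h | h)
      · exact Dvd.dvd.mul_left h P
      · exact h.1
  have hD : Disjoint {J : Ideal (𝓞 K) | J ∣ I} {J : Ideal (𝓞 K) | J ∣ P * I ∧ ¬ J ∣ I} := by
    rw [Set.disjoint_left]
    intro J h1 h2
    exact h2.2 h1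
  rw [hU, finsum_mem_union hD (finite_dvd K I hI)
    ((finite_dvd K (P * I) hPI).subset fun J hJ => hJ.1)]
  congr 1
  have h1 : ∑ᶠ J ∈ {J : Ideal (𝓞 K) | J ∣ P * I ∧ ¬ J ∣ I}, lamI K J =
      ∑ᶠ J ∈ ({P ^ (v + 1)} : Set (Ideal (𝓞 K))), lamI K J := by
    apply finsum_mem_inter_support_eq
    ext J
    constructor
    · rintro ⟨⟨h1, h2⟩, h3⟩
      refine ⟨?_, h3⟩
      have h4 : ∃ (Q : Ideal (𝓞 K)) (k : ℕ), Q.IsPrime ∧ Q ≠ ⊥ ∧ 0 < k ∧ J = Q ^ k := by
        by_contra h5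
        exact h3 (lamI_eq_zero K J h5)
      obtain ⟨Q, k, hQ, hQ0, hk, rfl⟩ := h4
      by_cases hQP : Q = P
      · subst hQP
        have h5 : ¬ k ≤ v := fun h => h2 ((hdv k).2 h)
        obtain ⟨j, rfl⟩ : ∃ j, k = j + 1 := ⟨k - 1, by omega⟩
        have h6 : Q ^ j ∣ I := by
          rw [pow_succ', mul_dvd_mul_iff_left hQ0] at h1
          exact h1
        have h7 := (hdv j).1 h6
        have h8 : j = v := by omega
        rw [h8]
        rfl
      · exfalso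
        apply h2
        have hQm : Q.IsMaximal := hQ.isMaximal hQ0
        have hPm : P.IsMaximal := hPp.isMaximal hP0
        have h5 : IsCoprime (Q ^ k) P := by
          have : IsCoprime Q P := by
            rw [Ideal.isCoprime_iff_sup_eq]
            exact Ideal.IsMaximal.coprime_of_ne hQm hPm hQP
          exact this.pow_left
        exact h5.dvd_of_dvd_mul_left h1
    · rintro ⟨h1, h3⟩
      rw [Set.mem_singleton_iff] at h1
      refine ⟨?_, h3⟩
      rw [h1]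
      refine ⟨?_, fun h => ?_⟩
      · rw [pow_succ', mul_dvd_mul_iff_left hP0]
        exact (hdv v).2 le_rfl
      · have := (hdv (v + 1)).1 h
        omega
  rw [h1, finsum_mem_singleton, lamI_pow K P hPp hP0 (v + 1) (Nat.succ_pos v)]

private theorem sum_dvd (I : Ideal (𝓞 K)) : I ≠ ⊥ →
    ∑ᶠ J ∈ {J : Ideal (𝓞 K) | J ∣ I}, lamI K J = Real.log (Ideal.absNorm I) := by
  refine UniqueFactorizationMonoid.induction_on_prime I ?_ ?_ ?_
  · intro h
    exact absurd rfl h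
  · intro U hU _
    have h1 : U = 1 := by
      rw [Ideal.isUnit_iff] at hU
      rw [hU, Ideal.one_eq_top]
    subst h1
    have h2 : {J : Ideal (𝓞 K) | J ∣ 1} = {1} := by
      ext J
      constructor
      · intro h
        have h3 : IsUnit J := isUnit_of_dvd_one h
        rw [Ideal.isUnit_iff] at h3
        rw [Set.mem_singleton_iff, h3, Ideal.one_eq_top]
      · intro h
        rw [Set.mem_singleton_iff] at h
        rw [h]
        exact dvd_refl _
    rw [h2, finsum_mem_singleton, lamI_one]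
    simp
  · intro I P hI hP ih _
    rw [sum_mul_prime K I P hI hP, ih hI, map_mul, Nat.cast_mul, Real.log_mul]
    · ring
    · rw [Nat.cast_ne_zero, Ne, Ideal.absNorm_eq_zero_iff]
      exact hP.ne_zero
    · rw [Nat.cast_ne_zero, Ne, Ideal.absNorm_eq_zero_iff]
      exact hI

/-- `∑_{J ∣ I} Λ(J) = log N(I)` -/
theorem lamI_sum (I : Ideal (𝓞 K)) (hI : I ≠ ⊥) :
    ∑ᶠ J : {J : Ideal (𝓞 K) // J ∣ I}, lamI K J.1 = Real.log (Ideal.absNorm I) := by
  rw [← sum_dvd K I hI]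
  exact finsum_set_coe_eq_finsum_mem {J : Ideal (𝓞 K) | J ∣ I}

private theorem finite_norm (n : ℕ) : {I : Ideal (𝓞 K) | Ideal.absNorm I = n}.Finite :=
  Ideal.finite_setOfPred_absNorm_eq n

/-- sum `lamI_sum` over the ideals `I` of norm `n`; the pairs `J ∣ I` are the pairs `(J, J')` with
`I = J J'`, `N(J) N(J') = n` -/
theorem ideal_conv (n : ℕ) (hn : 0 < n) :
    idealA K n * Real.log n = ∑ x ∈ n.divisorsAntidiagonal, idealB K x.1 * idealA K x.2 := by
  classical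
  have hS : ∀ m (I : Ideal (𝓞 K)), I ∈ (finite_norm K m).toFinset ↔ Ideal.absNorm I = m := by
    intro m I
    rw [Set.Finite.mem_toFinset]
    rfl
  have hA : ∀ m, m ≠ 0 → idealA K m = ((finite_norm K m).toFinset.card : ℝ) := by
    intro m hm
    rw [idealA, if_neg hm]
    congr 1
    rw [← Nat.card_eq_card_finite_toFinset (finite_norm K m)]
    rfl
  have hB : ∀ m, m ≠ 0 → idealB K m = ∑ J ∈ (finite_norm K m).toFinset, lamI K J := by
    intro m hm
    rw [idealB, if_neg hm, ← finsum_mem_eq_finite_toFinset_sum]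
    exact finsum_set_coe_eq_finsum_mem {I : Ideal (𝓞 K) | Ideal.absNorm I = m}
  have h0 : ∀ (I : Ideal (𝓞 K)), Ideal.absNorm I = n → I ≠ ⊥ := by
    intro I hI h
    rw [h, Ideal.absNorm_bot] at hI
    omega
  set D : Ideal (𝓞 K) → Finset (Ideal (𝓞 K)) :=
    fun I => if h : I ≠ ⊥ then (finite_dvd K I h).toFinset else ∅ with hDdef
  have hD : ∀ (I J : Ideal (𝓞 K)), I ≠ ⊥ → (J ∈ D I ↔ J ∣ I) := by
    intro I J hI
    rw [hDdef]
    simp only [dif_pos hI]
    rw [Set.Finite.mem_toFinset]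
    rfl
  have hL : idealA K n * Real.log n = ∑ I ∈ (finite_norm K n).toFinset, ∑ J ∈ D I, lamI K J := by
    rw [hA n hn.ne', ← nsmul_eq_mul, ← Finset.sum_const]
    refine Finset.sum_congr rfl fun I hI => ?_
    have hI1 := (hS n I).1 hI
    have hI0 := h0 I hI1
    have h2 : D I = (finite_dvd K I hI0).toFinset := by
      rw [hDdef]
      simp only [dif_pos hI0]
    rw [h2, ← finsum_mem_eq_finite_toFinset_sum, sum_dvd K I hI0, hI1]
  have hR : ∑ x ∈ n.divisorsAntidiagonal, idealB K x.1 * idealA K x.2 =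
      ∑ x ∈ n.divisorsAntidiagonal,
        ∑ p ∈ (finite_norm K x.1).toFinset ×ˢ (finite_norm K x.2).toFinset, lamI K p.1 := by
    refine Finset.sum_congr rfl fun x hx => ?_
    have hx1 := Nat.mem_divisorsAntidiagonal.1 hx
    have hx2 : x.1 ≠ 0 := by
      intro h
      rw [h, zero_mul] at hx1
      exact hx1.2 hx1.1.symm
    have hx3 : x.2 ≠ 0 := by
      intro h
      rw [h, mul_zero] at hx1
      exact hx1.2 hx1.1.symm
    rw [hB x.1 hx2, hA x.2 hx3, Finset.sum_product, Finset.sum_mul]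
    refine Finset.sum_congr rfl fun J _ => ?_
    simp only
    rw [Finset.sum_const, nsmul_eq_mul, mul_comm]
  rw [hL, hR, Finset.sum_sigma', Finset.sum_sigma']
  symm
  refine Finset.sum_nbij
    (i := fun y : (_ : ℕ × ℕ) × (Ideal (𝓞 K) × Ideal (𝓞 K)) =>
      (⟨y.2.1 * y.2.2, y.2.1⟩ : (_ : Ideal (𝓞 K)) × Ideal (𝓞 K))) ?_ ?_ ?_ ?_
  · rintro ⟨x, J, J'⟩ hy
    rw [Finset.mem_sigma, Finset.mem_product, hS, hS, Nat.mem_divisorsAntidiagonal] at hy
    simp only at hy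
    have h1 : Ideal.absNorm (J * J') = n := by
      rw [map_mul, hy.2.1, hy.2.2]
      exact hy.1.1
    rw [Finset.mem_sigma, hS]
    simp only
    exact ⟨h1, (hD _ _ (h0 _ h1)).2 (dvd_mul_right _ _)⟩
  · rintro ⟨x, J, J'⟩ hy ⟨x2, J2, J2'⟩ hy2 hyy
    rw [Finset.mem_coe, Finset.mem_sigma, Finset.mem_product, hS, hS,
      Nat.mem_divisorsAntidiagonal] at hy hy2
    simp only at hy hy2 hyy
    have h1 : Ideal.absNorm (J * J') = n := by
      rw [map_mul, hy.2.1, hy.2.2]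
      exact hy.1.1
    have h2 := h0 _ h1
    have hJ : J ≠ 0 := by
      intro h
      rw [h, zero_mul] at h2
      exact h2 rfl
    rw [Sigma.mk.injEq] at hyy
    obtain ⟨h3, h4⟩ := hyy
    have h4' : J = J2 := eq_of_heq h4
    subst h4'
    have h5 : J' = J2' := mul_left_cancel₀ hJ h3
    subst h5
    have h6 : x = x2 := by
      apply Prod.ext
      · rw [← hy.2.1, ← hy2.2.1]
      · rw [← hy.2.2, ← hy2.2.2]
    subst h6
    rfl
  · rintro ⟨I, J⟩ hq
    rw [Finset.mem_coe, Finset.mem_sigma, hS] at hq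
    simp only at hq
    have h1 := h0 I hq.1
    obtain ⟨J', hJ'⟩ := (hD I J h1).1 hq.2
    refine ⟨⟨(Ideal.absNorm J, Ideal.absNorm J'), (J, J')⟩, ?_, ?_⟩
    · rw [Finset.mem_coe, Finset.mem_sigma, Finset.mem_product, hS, hS,
        Nat.mem_divisorsAntidiagonal]
      simp only
      refine ⟨⟨?_, hn.ne'⟩, trivial, trivial⟩
      rw [← map_mul, ← hJ']
      exact hq.1
    · simp only
      rw [← hJ']
  · rintro ⟨x, J, J'⟩ _
    rfl

end Pool.Agent.Lib.MP_1a0ddd_nt.LW
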