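import Mathlib

/-! Ideal counting in a number field: definitions. -/

set_option autoImplicit false

namespace Pool.Agent.Lib.MP_1a0ddd_nt.LW

open NumberField NumberField.mixedEmbedding NumberField.Units
  NumberField.Units.dirichletUnitTheorem

/-- the weight `u (1 - u)` on `[0, 1]` -/
noncomputable def wgt (u : ℝ) : ℝ := u * max (1 - u) 0

/-- the tent function -/
noncomputable def tent (c : ℝ) : ℝ := max (1 - |c|) 0

section
variable (K : Type) [Field K] [NumberField K]

/-- the number of ideals of norm `n`, zero for `n = 0` -/
noncomputable def idealA (n : ℕ) : ℝ :=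
  if n = 0 then 0 else (Nat.card {I : Ideal (𝓞 K) // Ideal.absNorm I = n} : ℝ)

open Classical in
/-- the von Mangoldt function of ideals -/
noncomputable def lamI (I : Ideal (𝓞 K)) : ℝ :=
  if h : ∃ (P : Ideal (𝓞 K)) (k : ℕ), P.IsPrime ∧ P ≠ ⊥ ∧ 0 < k ∧ I = P ^ k then
    Real.log (Ideal.absNorm h.choose) else 0

/-- the sum of the von Mangoldt function over the ideals of norm `n`, zero for `n = 0` -/
noncomputable def idealB (n : ℕ) : ℝ :=
  if n = 0 then 0 else ∑ᶠ I : {I : Ideal (𝓞 K) // Ideal.absNorm I = n}, lamI K I.1

open Classical in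
/-- the partition of unity on the logarithmic space -/
noncomputable def rho (y : logSpace K) : ℝ :=
  ∏ i, tent (((basisUnitLattice K).ofZLatticeBasis ℝ (unitLattice K)).repr y i)

open Classical in
/-- the function which is summed over the lattices of the ideals -/
noncomputable def hfun (x : mixedSpace K) : ℝ :=
  if mixedEmbedding.norm x = 0 then 0
  else rho K (logMap x) * wgt (mixedEmbedding.norm x)

end

end Pool.Agent.Lib.MP_1a0ddd_nt.LW
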