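import Pool.Agent.Lib.MP_1a0ddd_nt.LW.ZDefs

/-! The function on the mixed space is Lipschitz with bounded support. -/

set_option autoImplicit false

namespace Pool.Agent.Lib.MP_1a0ddd_nt.LW

open NumberField NumberField.mixedEmbedding NumberField.Units
  NumberField.Units.dirichletUnitTheorem

/-! ### One variable -/

private theorem tent_nn (c : ℝ) : 0 ≤ tent c := le_max_right _ _

private theorem tent_le (c : ℝ) : tent c ≤ 1 := max_le (by linarith [abs_nonneg c]) zero_le_one

private theorem tent_lip (a b : ℝ) : |tent a - tent b| ≤ |a - b| := by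
  unfold tent
  refine le_trans (abs_max_sub_max_le_abs _ _ _) ?_
  have e : 1 - |a| - (1 - |b|) = |b| - |a| := by ring
  rw [e, abs_sub_comm a b]
  exact abs_abs_sub_abs_le _ _

private theorem tent_ne {c : ℝ} (h : tent c ≠ 0) : |c| < 1 := by
  by_contra hc
  exact h (max_eq_right (by linarith [not_lt.1 hc]))

private theorem wgt_nn {u : ℝ} (h : 0 ≤ u) : 0 ≤ wgt u := mul_nonneg h (le_max_right _ _)

private theorem wgt_le {u : ℝ} (h : 0 ≤ u) : wgt u ≤ u := by
  unfold wgt
  exact mul_le_of_le_one_right h (max_le (by linarith) zero_le_one)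

private theorem wgt_lip {u v : ℝ} (hu : 0 ≤ u) (hv : 0 ≤ v) : |wgt u - wgt v| ≤ |u - v| := by
  unfold wgt
  rcases le_total u 1 with h1 | h1 <;> rcases le_total v 1 with h2 | h2
  · rw [max_eq_left (by linarith), max_eq_left (by linarith)]
    have e : u * (1 - u) - v * (1 - v) = (u - v) * (1 - u - v) := by ring
    rw [e, abs_mul]
    exact mul_le_of_le_one_right (abs_nonneg _) (abs_le.2 ⟨by linarith, by linarith⟩)
  · rw [max_eq_left (by linarith), max_eq_right (by linarith), mul_zero, sub_zero,
      abs_of_nonneg (mul_nonneg hu (by linarith)), abs_sub_comm, abs_of_nonneg (by linarith)]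
    nlinarith
  · rw [max_eq_right (by linarith), max_eq_left (by linarith), mul_zero, zero_sub, abs_neg,
      abs_of_nonneg (mul_nonneg hv (by linarith)), abs_of_nonneg (by linarith)]
    nlinarith
  · rw [max_eq_right (by linarith), max_eq_right (by linarith), mul_zero, mul_zero, sub_zero,
      abs_zero]
    exact abs_nonneg _

/-- products of bounded factors -/
private theorem prod_lip {ι : Type*} (s : Finset ι) (a b : ι → ℝ) {B : ℝ} (hB : 1 ≤ B)
    (ha : ∀ i, |a i| ≤ B) (hb : ∀ i, |b i| ≤ B) :
    |∏ i ∈ s, a i - ∏ i ∈ s, b i| ≤ B ^ s.card * ∑ i ∈ s, |a i - b i| := by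
  classical
  induction s using Finset.induction_on with
  | empty => simp
  | insert j s hj ih =>
    rw [Finset.prod_insert hj, Finset.prod_insert hj, Finset.sum_insert hj,
      Finset.card_insert_of_notMem hj]
    have e : a j * ∏ i ∈ s, a i - b j * ∏ i ∈ s, b i =
        a j * (∏ i ∈ s, a i - ∏ i ∈ s, b i) + (a j - b j) * ∏ i ∈ s, b i := by ring
    have hB0 : 0 ≤ B := by linarith
    have h1 : |∏ i ∈ s, b i| ≤ B ^ s.card := by
      rw [Finset.abs_prod]
      calc ∏ i ∈ s, |b i| ≤ ∏ _i ∈ s, B :=
            Finset.prod_le_prod (fun i _ => abs_nonneg _) (fun i _ => hb i)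
        _ = B ^ s.card := by rw [Finset.prod_const]
    have hs : 0 ≤ ∑ i ∈ s, |a i - b i| := Finset.sum_nonneg fun i _ => abs_nonneg _
    have hp : 0 ≤ B ^ s.card := pow_nonneg hB0 _
    have h2 : |a j * (∏ i ∈ s, a i - ∏ i ∈ s, b i)| ≤
        B * (B ^ s.card * ∑ i ∈ s, |a i - b i|) := by
      rw [abs_mul]
      exact mul_le_mul (ha j) ih (abs_nonneg _) hB0
    have h3 : |(a j - b j) * ∏ i ∈ s, b i| ≤ |a j - b j| * B ^ s.card := by
      rw [abs_mul]
      exact mul_le_mul_of_nonneg_left h1 (abs_nonneg _)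
    have h4 : |a j - b j| * B ^ s.card ≤ |a j - b j| * B ^ (s.card + 1) :=
      mul_le_mul_of_nonneg_left (pow_le_pow_right₀ hB (Nat.le_succ _)) (abs_nonneg _)
    rw [e]
    refine le_trans (abs_add_le _ _) ?_
    calc _ ≤ B * (B ^ s.card * ∑ i ∈ s, |a i - b i|) + |a j - b j| * B ^ (s.card + 1) :=
          add_le_add h2 (h3.trans h4)
      _ = _ := by ring

private theorem log_lip {a b m : ℝ} (hm : 0 < m) (ha : m ≤ a) (hb : m ≤ b) :
    |Real.log a - Real.log b| ≤ |a - b| / m := by
  have ha0 : 0 < a := by linarith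
  have hb0 : 0 < b := by linarith
  have k : ∀ a b : ℝ, m ≤ a → m ≤ b → Real.log a - Real.log b ≤ |a - b| / m := by
    intro a b ha hb
    have ha0 : 0 < a := by linarith
    have hb0 : 0 < b := by linarith
    rw [← Real.log_div ha0.ne' hb0.ne']
    refine (Real.log_le_sub_one_of_pos (div_pos ha0 hb0)).trans ?_
    have e : a / b - 1 = (a - b) / b := by field_simp
    rw [e]
    calc (a - b) / b ≤ |a - b| / b := div_le_div_of_nonneg_right (le_abs_self _) hb0.le
      _ ≤ |a - b| / m := div_le_div_of_nonneg_left (abs_nonneg _) hm hb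
  rw [abs_le]
  constructor
  · have := k b a hb ha
    rw [abs_sub_comm] at this
    linarith
  · exact k a b ha hb

variable (K : Type) [Field K] [NumberField K]

/-! ### Places -/

open scoped Classical in
private theorem nap_le (x : mixedSpace K) (w : InfinitePlace K) : normAtPlace w x ≤ ‖x‖ := by
  rw [norm_eq_sup'_normAtPlace]
  exact Finset.le_sup' (fun w => normAtPlace w x) (Finset.mem_univ w)

open scoped Classical in
private theorem nap_lip (x y : mixedSpace K) (w : InfinitePlace K) :
    |normAtPlace w x - normAtPlace w y| ≤ ‖x - y‖ := by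
  have k : ∀ x y : mixedSpace K, normAtPlace w x - normAtPlace w y ≤ ‖x - y‖ := by
    intro x y
    have h := normAtPlace_add_le w y (x - y)
    have h2 := nap_le K (x - y) w
    rw [add_sub_cancel] at h
    linarith
  rw [abs_le]
  constructor
  · have := k y x
    rw [norm_sub_rev] at this
    linarith
  · exact k x y

private theorem log_norm {x : mixedSpace K} (hx : mixedEmbedding.norm x ≠ 0) :
    Real.log (mixedEmbedding.norm x) =
      ∑ w : InfinitePlace K, (InfinitePlace.mult w : ℝ) * Real.log (normAtPlace w x) := by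
  rw [mixedEmbedding.norm_apply, Real.log_prod]
  · exact Finset.sum_congr rfl fun w _ => by rw [Real.log_pow]
  · intro w _
    exact pow_ne_zero _ (mixedEmbedding.norm_ne_zero_iff.mp hx w)

omit [NumberField K] in
private theorem mult_le_two (w : InfinitePlace K) : InfinitePlace.mult w ≤ 2 := by
  unfold InfinitePlace.mult
  split <;> norm_num

open scoped Classical in
private theorem norm_lip {B : ℝ} (hB : 1 ≤ B) : ∃ C : ℝ, 0 ≤ C ∧ ∀ x y : mixedSpace K,
    (∀ w, normAtPlace w x ≤ B) → (∀ w, normAtPlace w y ≤ B) →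
      |mixedEmbedding.norm x - mixedEmbedding.norm y| ≤ C * ‖x - y‖ := by
  classical
  have hB0 : 0 ≤ B := by linarith
  have hBB : 1 ≤ B ^ 2 := one_le_pow₀ hB
  refine ⟨(B ^ 2) ^ (Finset.univ : Finset (InfinitePlace K)).card *
    ((Finset.univ : Finset (InfinitePlace K)).card * (2 * B)), by positivity, fun x y hx hy => ?_⟩
  have hpow : ∀ (z : mixedSpace K), (∀ w, normAtPlace w z ≤ B) → ∀ w : InfinitePlace K,
      |normAtPlace w z ^ InfinitePlace.mult w| ≤ B ^ 2 := by
    intro z hz w
    rw [abs_of_nonneg (pow_nonneg (normAtPlace_nonneg w z) _)]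
    exact (pow_le_pow_left₀ (normAtPlace_nonneg w z) (hz w) _).trans
      (pow_le_pow_right₀ hB (mult_le_two K w))
  have h := prod_lip Finset.univ (fun w => normAtPlace w x ^ InfinitePlace.mult w)
    (fun w => normAtPlace w y ^ InfinitePlace.mult w) hBB (hpow x hx) (hpow y hy)
  have h2 : ∀ w : InfinitePlace K,
      |normAtPlace w x ^ InfinitePlace.mult w - normAtPlace w y ^ InfinitePlace.mult w| ≤
        2 * B * ‖x - y‖ := by
    intro w
    have l := nap_lip K x y w
    have nx := normAtPlace_nonneg w x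
    have ny := normAtPlace_nonneg w y
    have bx := hx w
    have by' := hy w
    have hn := norm_nonneg (x - y)
    unfold InfinitePlace.mult
    split
    · rw [pow_one, pow_one]
      nlinarith [mul_nonneg hB0 hn]
    · have e : normAtPlace w x ^ 2 - normAtPlace w y ^ 2 =
          (normAtPlace w x + normAtPlace w y) * (normAtPlace w x - normAtPlace w y) := by ring
      rw [e, abs_mul, abs_of_nonneg (by linarith : 0 ≤ normAtPlace w x + normAtPlace w y)]
      exact mul_le_mul (by linarith) l (abs_nonneg _) (by linarith)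
  have h3 : ∑ w : InfinitePlace K,
      |normAtPlace w x ^ InfinitePlace.mult w - normAtPlace w y ^ InfinitePlace.mult w| ≤
        (Finset.univ : Finset (InfinitePlace K)).card * (2 * B * ‖x - y‖) := by
    rw [← nsmul_eq_mul]
    exact Finset.sum_le_card_nsmul _ _ _ fun w _ => h2 w
  rw [mixedEmbedding.norm_apply, mixedEmbedding.norm_apply]
  calc _ ≤ _ := h
    _ ≤ (B ^ 2) ^ (Finset.univ : Finset (InfinitePlace K)).card *
        ((Finset.univ : Finset (InfinitePlace K)).card * (2 * B * ‖x - y‖)) :=
        mul_le_mul_of_nonneg_left h3 (by positivity)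
    _ = _ := by ring

/-- the norm is small when one of the absolute values is small -/
private theorem norm_le_place {M : ℝ} (hM : 1 ≤ M) : ∃ C : ℝ, 0 ≤ C ∧ ∀ x : mixedSpace K,
    (∀ w, normAtPlace w x ≤ M) → ∀ w, mixedEmbedding.norm x ≤ C * normAtPlace w x := by
  classical
  refine ⟨M * (M ^ 2) ^ (Finset.univ : Finset (InfinitePlace K)).card, by positivity,
    fun x hx w => ?_⟩
  have hMM : 1 ≤ M ^ 2 := one_le_pow₀ hM
  rw [mixedEmbedding.norm_apply, ← Finset.mul_prod_erase Finset.univ _ (Finset.mem_univ w)]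
  have h1 : normAtPlace w x ^ InfinitePlace.mult w ≤ M * normAtPlace w x := by
    have nx := normAtPlace_nonneg w x
    have bx := hx w
    unfold InfinitePlace.mult
    split
    · rw [pow_one]
      nlinarith
    · rw [sq]
      exact mul_le_mul_of_nonneg_right bx nx
  have h2 : ∏ v ∈ Finset.univ.erase w, normAtPlace v x ^ InfinitePlace.mult v ≤
      (M ^ 2) ^ (Finset.univ : Finset (InfinitePlace K)).card := by
    calc _ ≤ ∏ _v ∈ Finset.univ.erase w, M ^ 2 := by
          refine Finset.prod_le_prod (fun v _ => pow_nonneg (normAtPlace_nonneg v x) _)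
            fun v _ => ?_
          exact (pow_le_pow_left₀ (normAtPlace_nonneg v x) (hx v) _).trans
            (pow_le_pow_right₀ hM (mult_le_two K v))
      _ = (M ^ 2) ^ (Finset.univ.erase w).card := by rw [Finset.prod_const]
      _ ≤ _ := pow_le_pow_right₀ hMM (Finset.card_le_card (Finset.erase_subset _ _))
  have h3 : 0 ≤ ∏ v ∈ Finset.univ.erase w, normAtPlace v x ^ InfinitePlace.mult v :=
    Finset.prod_nonneg fun v _ => pow_nonneg (normAtPlace_nonneg v x) _
  calc _ ≤ (M * normAtPlace w x) * (M ^ 2) ^ (Finset.univ : Finset (InfinitePlace K)).card :=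
        mul_le_mul h1 h2 h3 (mul_nonneg (by linarith) (normAtPlace_nonneg w x))
    _ = _ := by ring

/-! ### The partition function -/

private theorem rho_nn (y : logSpace K) : 0 ≤ rho K y :=
  Finset.prod_nonneg fun _ _ => tent_nn _

private theorem rho_le (y : logSpace K) : rho K y ≤ 1 :=
  Finset.prod_le_one (fun _ _ => tent_nn _) fun _ _ => tent_le _

open scoped Classical in
private theorem rho_lip : ∃ L : ℝ, 0 ≤ L ∧ ∀ y z : logSpace K,
    |rho K y - rho K z| ≤ L * ‖y - z‖ := by
  classical
  set b := (basisUnitLattice K).ofZLatticeBasis ℝ (unitLattice K) with hb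
  let f : Fin (rank K) → (logSpace K →ₗ[ℝ] ℝ) := fun i => b.coord i
  refine ⟨∑ i, ‖LinearMap.toContinuousLinearMap (f i)‖,
    Finset.sum_nonneg fun i _ => norm_nonneg _, fun y z => ?_⟩
  have h := prod_lip Finset.univ (fun i => tent (b.repr y i)) (fun i => tent (b.repr z i))
    le_rfl (fun i => by rw [abs_of_nonneg (tent_nn _)]; exact tent_le _)
    (fun i => by rw [abs_of_nonneg (tent_nn _)]; exact tent_le _)
  rw [one_pow, one_mul] at h
  have e : ∀ y : logSpace K, rho K y = ∏ i, tent (b.repr y i) := fun y => by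
    rw [rho]
  rw [e, e, Finset.sum_mul]
  refine h.trans (Finset.sum_le_sum fun i _ => (tent_lip _ _).trans ?_)
  have h2 := (LinearMap.toContinuousLinearMap (f i)).le_opNorm (y - z)
  have h3 : (LinearMap.toContinuousLinearMap (f i)) (y - z) = b.repr y i - b.repr z i := by
    show b.coord i (y - z) = _
    rw [map_sub, Module.Basis.coord_apply, Module.Basis.coord_apply]
  rw [h3, Real.norm_eq_abs] at h2
  exact h2

open scoped Classical in
private theorem rho_bound : ∃ B : ℝ, 0 ≤ B ∧ ∀ y : logSpace K, rho K y ≠ 0 → ‖y‖ ≤ B := by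
  classical
  set b := (basisUnitLattice K).ofZLatticeBasis ℝ (unitLattice K) with hb
  refine ⟨∑ i, ‖b i‖, Finset.sum_nonneg fun i _ => norm_nonneg _, fun y hy => ?_⟩
  have e : rho K y = ∏ i, tent (b.repr y i) := by
    rw [rho]
  rw [e, Finset.prod_ne_zero_iff] at hy
  rw [← b.sum_repr y]
  refine (norm_sum_le _ _).trans (Finset.sum_le_sum fun i _ => ?_)
  rw [_root_.norm_smul, Real.norm_eq_abs]
  exact mul_le_of_le_one_left (norm_nonneg _) (tent_ne (hy i (Finset.mem_univ i))).le

theorem hfun_nonneg (x : mixedSpace K) : 0 ≤ hfun K x := by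
  unfold hfun
  split
  · exact le_rfl
  · exact mul_nonneg (rho_nn K _) (wgt_nn (mixedEmbedding.norm_nonneg x))

private theorem hfun_le_norm (x : mixedSpace K) : hfun K x ≤ mixedEmbedding.norm x := by
  unfold hfun
  split
  · exact mixedEmbedding.norm_nonneg x
  · exact (mul_le_of_le_one_left (wgt_nn (mixedEmbedding.norm_nonneg x)) (rho_le K _)).trans
      (wgt_le (mixedEmbedding.norm_nonneg x))

/-- on the support of `hfun` the absolute values `|x_w|` are comparable:
`|x_w| ≤ M |x_w'|` for all `w`, `w'`; proof: `rho (logMap x) ≠ 0` bounds `logMap x`, so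
`log |x_w| - (1/n) log (norm x)` is bounded for `w ≠ w₀`, and then for `w₀` because the weighted sum
over all `w` is zero -/
theorem hfun_comparable : ∃ M : ℝ, 0 < M ∧ ∀ x : mixedSpace K, hfun K x ≠ 0 →
    mixedEmbedding.norm x ≠ 0 ∧ mixedEmbedding.norm x ≤ 1 ∧
      ∀ w w' : InfinitePlace K, normAtPlace w x ≤ M * normAtPlace w' x := by
  classical
  obtain ⟨B, hB, h⟩ := rho_bound K
  set N : ℝ := ((Finset.univ : Finset (InfinitePlace K)).card : ℝ) with hN
  have hN1 : 1 ≤ N := by
    rw [hN]
    exact_mod_cast Finset.card_pos.2 Finset.univ_nonempty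
  refine ⟨Real.exp (N * B + N * B), Real.exp_pos _, fun x hx => ?_⟩
  have hx0 : mixedEmbedding.norm x ≠ 0 := by
    intro h0
    exact hx (by unfold hfun; rw [if_pos h0])
  have e : hfun K x = rho K (logMap x) * wgt (mixedEmbedding.norm x) := by
    unfold hfun
    rw [if_neg hx0]
  rw [e] at hx
  have hr := left_ne_zero_of_mul hx
  have hw := right_ne_zero_of_mul hx
  have hle : mixedEmbedding.norm x ≤ 1 := by
    by_contra hc
    apply hw
    unfold wgt
    rw [max_eq_right (by linarith [not_le.1 hc]), mul_zero]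
  refine ⟨hx0, hle, ?_⟩
  have hb := h _ hr
  set L := Real.log (mixedEmbedding.norm x) * (Module.finrank ℚ K : ℝ)⁻¹ with hL
  have hd : ∀ w : InfinitePlace K, w ≠ w₀ →
      |(InfinitePlace.mult w : ℝ) * (Real.log (normAtPlace w x) - L)| ≤ B := by
    intro w hw
    have := norm_le_pi_norm (logMap x) ⟨w, hw⟩
    rw [Real.norm_eq_abs, logMap_apply] at this
    exact this.trans hb
  have hsum : ∑ w : InfinitePlace K,
      (InfinitePlace.mult w : ℝ) * (Real.log (normAtPlace w x) - L) = 0 := by
    have e1 : ∑ w : InfinitePlace K, (InfinitePlace.mult w : ℝ) *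
        (Real.log (normAtPlace w x) - L) = Real.log (mixedEmbedding.norm x) -
          (∑ w : InfinitePlace K, (InfinitePlace.mult w : ℝ)) * L := by
      rw [log_norm K hx0, Finset.sum_mul, ← Finset.sum_sub_distrib]
      exact Finset.sum_congr rfl fun w _ => by ring
    have e2 : ∑ w : InfinitePlace K, (InfinitePlace.mult w : ℝ) = Module.finrank ℚ K := by
      rw [← InfinitePlace.sum_mult_eq]
      push_cast
      rfl
    have e3 : (Module.finrank ℚ K : ℝ) ≠ 0 := Nat.cast_ne_zero.mpr Module.finrank_pos.ne'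
    rw [e1, e2, hL]
    field_simp
    ring
  have hd0 : ∀ w : InfinitePlace K,
      |(InfinitePlace.mult w : ℝ) * (Real.log (normAtPlace w x) - L)| ≤ N * B := by
    intro w
    by_cases hw : w = w₀
    · subst hw
      have e1 := Finset.add_sum_erase Finset.univ
        (fun w : InfinitePlace K => (InfinitePlace.mult w : ℝ) *
          (Real.log (normAtPlace w x) - L)) (Finset.mem_univ w₀)
      rw [hsum] at e1
      have e2 : (InfinitePlace.mult (w₀ : InfinitePlace K) : ℝ) *
          (Real.log (normAtPlace w₀ x) - L) = - ∑ w ∈ Finset.univ.erase w₀,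
            (InfinitePlace.mult w : ℝ) * (Real.log (normAtPlace w x) - L) := by
        linarith
      rw [e2, abs_neg]
      refine (Finset.abs_sum_le_sum_abs _ _).trans ?_
      calc _ ≤ ∑ _w ∈ Finset.univ.erase (w₀ : InfinitePlace K), B :=
            Finset.sum_le_sum fun w hw => hd w (Finset.ne_of_mem_erase hw)
        _ = ((Finset.univ.erase (w₀ : InfinitePlace K)).card : ℝ) * B := by
            rw [Finset.sum_const, nsmul_eq_mul]
        _ ≤ N * B := by
            refine mul_le_mul_of_nonneg_right ?_ hB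
            rw [hN]
            exact_mod_cast Finset.card_le_card (Finset.erase_subset _ _)
    · exact (hd w hw).trans (le_mul_of_one_le_left hB hN1)
  have hd1 : ∀ w : InfinitePlace K, |Real.log (normAtPlace w x) - L| ≤ N * B := by
    intro w
    refine le_trans ?_ (hd0 w)
    rw [abs_mul]
    refine le_mul_of_one_le_left (abs_nonneg _) ?_
    exact InfinitePlace.one_le_mult.trans (le_abs_self _)
  intro w w'
  have p : ∀ w : InfinitePlace K, 0 < normAtPlace w x := fun w =>
    lt_of_le_of_ne (normAtPlace_nonneg w x) (Ne.symm (mixedEmbedding.norm_ne_zero_iff.mp hx0 w))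
  have h1 := abs_le.1 (hd1 w)
  have h2 := abs_le.1 (hd1 w')
  rw [← Real.exp_log (p w), ← Real.exp_log (p w'), ← Real.exp_add]
  exact Real.exp_le_exp.2 (by linarith [h1.2, h2.1])

/-- all absolute values are bounded on the support -/
private theorem hfun_bd : ∃ M : ℝ, 1 ≤ M ∧ ∀ x : mixedSpace K, hfun K x ≠ 0 →
    ∀ w : InfinitePlace K, normAtPlace w x ≤ M := by
  obtain ⟨M, hM, h⟩ := hfun_comparable K
  refine ⟨max M 1, le_max_right _ _, fun x hx w => ?_⟩
  obtain ⟨h0, h1, h2⟩ := h x hx
  have : ∃ w' : InfinitePlace K, normAtPlace w' x ≤ 1 := by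
    by_contra hc
    simp only [not_exists, not_le] at hc
    have h3 : 0 < Real.log (mixedEmbedding.norm x) := by
      rw [log_norm K h0]
      exact Finset.sum_pos (fun w _ => mul_pos (Nat.cast_pos.2 InfinitePlace.mult_pos)
        (Real.log_pos (hc w))) Finset.univ_nonempty
    have h4 := Real.log_nonpos (mixedEmbedding.norm_nonneg x) h1
    linarith
  obtain ⟨w', hw'⟩ := this
  calc normAtPlace w x ≤ M * normAtPlace w' x := h2 w w'
    _ ≤ M * 1 := mul_le_mul_of_nonneg_left hw' hM.le
    _ ≤ max M 1 := by rw [mul_one]; exact le_max_left _ _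

open scoped Classical in
/-- bounded support: all `|x_w| ≤ M (norm x)^(1/n) ≤ M` -/
theorem hfun_supp : ∃ R : ℝ, ∀ x : mixedSpace K, R ≤ ‖x‖ → hfun K x = 0 := by
  obtain ⟨M, hM, h⟩ := hfun_bd K
  refine ⟨M + 1, fun x hx => ?_⟩
  by_contra h0
  have hb := h x h0
  rw [norm_eq_sup'_normAtPlace] at hx
  have : (Finset.univ.sup' Finset.univ_nonempty fun w : InfinitePlace K => normAtPlace w x) ≤ M :=
    Finset.sup'_le _ _ fun w _ => hb w
  linarith

open scoped Classical in
/-- Lipschitz. Proof: let `m = min_w |x_w|`, and let `hfun x ≠ 0` or `hfun y ≠ 0`, say `x` (symmetry).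
(i) If `2 ‖x - y‖ ≥ m` then `hfun x ≤ norm x ≤ (M m)^n ≤ C m ≤ 2 C ‖x - y‖` (all `|x_w| ≤ M m`,
`M m` bounded), and if also `hfun y ≠ 0` the same bound holds for `hfun y` because
`min_w |y_w| ≤ m + ‖x - y‖ ≤ 3 ‖x - y‖`. (ii) If `2 ‖x - y‖ < m` then `|y_w| ≥ |x_w|/2` for all `w`
and `|log |y_w| - log |x_w|| ≤ 2 ‖x - y‖/m`, so `‖logMap y - logMap x‖ ≤ C' ‖x - y‖/m`; `rho` is
bounded by 1 and Lipschitz, `wgt` is bounded by 1 and Lipschitz on `[0, ∞)`, `norm` is Lipschitz on
bounded sets, and `wgt (norm x) ≤ norm x ≤ (M m)^n ≤ C m`. -/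
theorem hfun_lip : ∃ C : ℝ, ∀ x y : mixedSpace K, |hfun K x - hfun K y| ≤ C * ‖x - y‖ := by
  obtain ⟨M, hM, hbd⟩ := hfun_bd K
  obtain ⟨M₁, hM₁, hcmp⟩ := hfun_comparable K
  obtain ⟨C₁, hC₁, hC1⟩ := norm_le_place K (M := 2 * M + 1) (by linarith)
  obtain ⟨C₂, hC₂, hC2⟩ := norm_lip K (B := 2 * M + 1) (by linarith)
  obtain ⟨L, hL, hLip⟩ := rho_lip K
  have key : ∀ x y : mixedSpace K, hfun K x ≠ 0 →
      |hfun K x - hfun K y| ≤ (3 * C₁ + (8 * L * C₁ + C₂)) * ‖x - y‖ := by
    intro x y hx
    obtain ⟨hx0, hx1, -⟩ := hcmp x hx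
    have hbx := hbd x hx
    have hpos : ∀ w : InfinitePlace K, 0 < normAtPlace w x := fun w =>
      lt_of_le_of_ne (normAtPlace_nonneg w x) (Ne.symm (mixedEmbedding.norm_ne_zero_iff.mp hx0 w))
    obtain ⟨v, hv⟩ := Finite.exists_min (fun w : InfinitePlace K => normAtPlace w x)
    set m := normAtPlace v x with hm
    set δ := ‖x - y‖ with hδ
    have hδ0 : 0 ≤ δ := norm_nonneg _
    have hm0 : 0 < m := hpos v
    have hB : ∀ w, normAtPlace w x ≤ 2 * M + 1 := fun w => by linarith [hbx w]
    have hnx : mixedEmbedding.norm x ≤ C₁ * m := hC1 x hB v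
    rcases le_or_gt m (2 * δ) with hc | hc
    · have h1 : hfun K x ≤ 3 * C₁ * δ := by
        have := (hfun_le_norm K x).trans hnx
        have h2 : C₁ * m ≤ C₁ * (2 * δ) := mul_le_mul_of_nonneg_left hc hC₁
        have h3 : 0 ≤ C₁ * δ := mul_nonneg hC₁ hδ0
        linarith
      have h2 : hfun K y ≤ 3 * C₁ * δ := by
        by_cases hy : hfun K y = 0
        · rw [hy]
          positivity
        · have hby := hbd y hy
          have h3 := hC1 y (fun w => by linarith [hby w]) v
          have h4 := abs_le.1 (nap_lip K x y v)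
          have h5 : normAtPlace v y ≤ 3 * δ := by linarith [h4.1]
          have h6 : C₁ * normAtPlace v y ≤ C₁ * (3 * δ) := mul_le_mul_of_nonneg_left h5 hC₁
          have := hfun_le_norm K y
          linarith
      have h3 := hfun_nonneg K x
      have h4 := hfun_nonneg K y
      have h5 : 0 ≤ (8 * L * C₁ + C₂) * δ := by positivity
      have e : (3 * C₁ + (8 * L * C₁ + C₂)) * δ = 3 * C₁ * δ + (8 * L * C₁ + C₂) * δ := by ring
      rw [e]
      exact abs_le.2 ⟨by linarith, by linarith⟩
    · have hlow : ∀ w : InfinitePlace K, m / 2 ≤ normAtPlace w y := fun w => by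
        have h4 := abs_le.1 (nap_lip K x y w)
        have h5 : m ≤ normAtPlace w x := hv w
        linarith [h4.2]
      have hBy : ∀ w, normAtPlace w y ≤ 2 * M + 1 := fun w => by
        have h4 := abs_le.1 (nap_lip K x y w)
        have h5 : m ≤ M := hbx v
        linarith [h4.1, hbx w]
      have hy0 : mixedEmbedding.norm y ≠ 0 :=
        mixedEmbedding.norm_ne_zero_iff.mpr fun w => by linarith [hlow w]
      have hlog : ∀ w : InfinitePlace K,
          |Real.log (normAtPlace w x) - Real.log (normAtPlace w y)| ≤ 2 * δ / m := by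
        intro w
        have h := log_lip (a := normAtPlace w x) (b := normAtPlace w y) (m := m / 2)
          (by linarith) (by linarith [show m ≤ normAtPlace w x from hv w]) (hlow w)
        refine h.trans ?_
        have e : 2 * δ / m = δ / (m / 2) := by field_simp
        rw [e]
        exact div_le_div_of_nonneg_right (nap_lip K x y w) (by linarith)
      have hq : 0 ≤ 2 * δ / m := by positivity
      have hn0 : (0 : ℝ) < (Module.finrank ℚ K : ℝ) := Nat.cast_pos.2 Module.finrank_pos
      have hlogn : |Real.log (mixedEmbedding.norm x) - Real.log (mixedEmbedding.norm y)| ≤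
          (Module.finrank ℚ K : ℝ) * (2 * δ / m) := by
        rw [log_norm K hx0, log_norm K hy0, ← Finset.sum_sub_distrib]
        refine (Finset.abs_sum_le_sum_abs _ _).trans ?_
        have e2 : ∑ w : InfinitePlace K, (InfinitePlace.mult w : ℝ) = Module.finrank ℚ K := by
          rw [← InfinitePlace.sum_mult_eq]
          push_cast
          rfl
        rw [← e2, Finset.sum_mul]
        refine Finset.sum_le_sum fun w _ => ?_
        rw [← mul_sub, abs_mul, abs_of_nonneg (Nat.cast_nonneg _)]
        exact mul_le_mul_of_nonneg_left (hlog w) (Nat.cast_nonneg _)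
      have hmap : ‖logMap x - logMap y‖ ≤ 8 * δ / m := by
        rw [pi_norm_le_iff_of_nonneg (by positivity)]
        intro w
        rw [Pi.sub_apply, logMap_apply, logMap_apply, Real.norm_eq_abs]
        have e : (InfinitePlace.mult w.1 : ℝ) * (Real.log (normAtPlace w.1 x) -
            Real.log (mixedEmbedding.norm x) * (Module.finrank ℚ K : ℝ)⁻¹) -
            (InfinitePlace.mult w.1 : ℝ) * (Real.log (normAtPlace w.1 y) -
            Real.log (mixedEmbedding.norm y) * (Module.finrank ℚ K : ℝ)⁻¹) =
            (InfinitePlace.mult w.1 : ℝ) *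
              ((Real.log (normAtPlace w.1 x) - Real.log (normAtPlace w.1 y)) +
              -((Real.log (mixedEmbedding.norm x) - Real.log (mixedEmbedding.norm y)) *
                (Module.finrank ℚ K : ℝ)⁻¹)) := by ring
        rw [e, abs_mul, abs_of_nonneg (Nat.cast_nonneg _)]
        have h1 : |(Real.log (normAtPlace w.1 x) - Real.log (normAtPlace w.1 y)) +
              -((Real.log (mixedEmbedding.norm x) - Real.log (mixedEmbedding.norm y)) *
                (Module.finrank ℚ K : ℝ)⁻¹)| ≤ 2 * δ / m + 2 * δ / m := by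
          refine (abs_add_le _ _).trans (add_le_add (hlog w.1) ?_)
          rw [abs_neg, abs_mul, abs_of_pos (inv_pos.2 hn0)]
          calc _ ≤ ((Module.finrank ℚ K : ℝ) * (2 * δ / m)) * (Module.finrank ℚ K : ℝ)⁻¹ :=
                mul_le_mul_of_nonneg_right hlogn (inv_nonneg.2 hn0.le)
            _ = 2 * δ / m := by field_simp
        have h2 : (InfinitePlace.mult w.1 : ℝ) ≤ 2 := by exact_mod_cast mult_le_two K w.1
        calc _ ≤ 2 * (2 * δ / m + 2 * δ / m) :=
              mul_le_mul h2 h1 (abs_nonneg _) (by norm_num)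
          _ = 8 * δ / m := by ring
      have ex : hfun K x = rho K (logMap x) * wgt (mixedEmbedding.norm x) := by
        unfold hfun
        rw [if_neg hx0]
      have ey : hfun K y = rho K (logMap y) * wgt (mixedEmbedding.norm y) := by
        unfold hfun
        rw [if_neg hy0]
      have e : hfun K x - hfun K y =
          (rho K (logMap x) - rho K (logMap y)) * wgt (mixedEmbedding.norm x) +
            rho K (logMap y) * (wgt (mixedEmbedding.norm x) - wgt (mixedEmbedding.norm y)) := by
        rw [ex, ey]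
        ring
      have nx := mixedEmbedding.norm_nonneg x
      have ny := mixedEmbedding.norm_nonneg y
      have t1 : |(rho K (logMap x) - rho K (logMap y)) * wgt (mixedEmbedding.norm x)| ≤
          8 * L * C₁ * δ := by
        rw [abs_mul, abs_of_nonneg (wgt_nn nx)]
        calc _ ≤ (L * (8 * δ / m)) * (C₁ * m) :=
              mul_le_mul ((hLip _ _).trans (mul_le_mul_of_nonneg_left hmap hL))
                ((wgt_le nx).trans hnx) (wgt_nn nx) (by positivity)
          _ = 8 * L * C₁ * δ := by field_simp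
      have t2 : |rho K (logMap y) *
          (wgt (mixedEmbedding.norm x) - wgt (mixedEmbedding.norm y))| ≤ C₂ * δ := by
        rw [abs_mul, abs_of_nonneg (rho_nn K _)]
        calc _ ≤ |wgt (mixedEmbedding.norm x) - wgt (mixedEmbedding.norm y)| :=
              mul_le_of_le_one_left (abs_nonneg _) (rho_le K _)
          _ ≤ |mixedEmbedding.norm x - mixedEmbedding.norm y| := wgt_lip nx ny
          _ ≤ C₂ * δ := hC2 x y hB hBy
      rw [e]
      have t3 : 0 ≤ 3 * C₁ * δ := by positivity
      calc _ ≤ _ := abs_add_le _ _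
        _ ≤ 8 * L * C₁ * δ + C₂ * δ := add_le_add t1 t2
        _ ≤ (3 * C₁ + (8 * L * C₁ + C₂)) * δ := by linarith
  refine ⟨3 * C₁ + (8 * L * C₁ + C₂), fun x y => ?_⟩
  by_cases hx : hfun K x = 0
  · by_cases hy : hfun K y = 0
    · rw [hx, hy, sub_self, abs_zero]
      positivity
    · have h := key y x hy
      rwa [abs_sub_comm, norm_sub_rev] at h
  · exact key x y hx

/-- at a real multiple of `1` of norm `1/2` -/
theorem hfun_pos : ∃ x : mixedSpace K, 0 < hfun K x := by
  classical
  set n := Module.finrank ℚ K with hn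
  have hn0 : n ≠ 0 := Module.finrank_pos.ne'
  set c : ℝ := (1 / 2 : ℝ) ^ ((n : ℝ)⁻¹) with hc
  have hc0 : 0 < c := Real.rpow_pos_of_pos (by norm_num) _
  have hcn : mixedEmbedding.norm (c • (1 : mixedSpace K)) = 1 / 2 := by
    rw [mixedEmbedding.norm_smul, map_one, mul_one, abs_of_pos hc0, hc,
      Real.rpow_inv_natCast_pow (by norm_num) hn0]
  refine ⟨c • (1 : mixedSpace K), ?_⟩
  unfold hfun
  rw [hcn, if_neg (by norm_num), logMap_real]
  refine mul_pos ?_ ?_
  · rw [rho]
    refine Finset.prod_pos fun i _ => ?_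
    rw [map_zero]
    simp [tent]
  · unfold wgt
    norm_num

end Pool.Agent.Lib.MP_1a0ddd_nt.LW
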