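import Mathlib

/-! Riemann sums of a Lipschitz function over a lattice. -/

set_option autoImplicit false

namespace Pool.Agent.Lib.MP_1a0ddd_nt.LW

open MeasureTheory Module

/-- Proof: let `F` be a bounded fundamental domain of `L` (`ZSpan.fundamentalDomain` of a basis), of
diameter `≤ δ`. `t^n ∫ h = ∫ h(y/t) dy = ∑_v ∫_(v + F) h(y/t) dy` and on `v + F` the difference
`|h(y/t) - h(v/t)|` is `≤ C δ/t`, and is zero unless `‖v‖ ≤ R t + δ`; the number of such `v` is
`O(t^n)` (disjoint translates of `F` in a ball of radius `R t + 2 δ`, `t ≥ 1`). -/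
theorem riem {E : Type} [NormedAddCommGroup E] [NormedSpace ℝ E] [FiniteDimensional ℝ E]
    [MeasurableSpace E] [BorelSpace E] (μ : Measure E) [μ.IsAddHaarMeasure] (L : Submodule ℤ E)
    [DiscreteTopology L] [IsZLattice ℝ L] (hn : 0 < finrank ℝ E) (h : E → ℝ) (C R : ℝ)
    (hlip : ∀ x y, |h x - h y| ≤ C * ‖x - y‖) (hsupp : ∀ x, R ≤ ‖x‖ → h x = 0) :
    ∃ B : ℝ, ∀ t : ℝ, 1 ≤ t →
      |(∑' v : L, h (t⁻¹ • (v : E))) -
        ((∫ x, h x ∂μ) / ZLattice.covolume L μ) * t ^ finrank ℝ E| ≤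
        B * t ^ (finrank ℝ E - 1) := by
  classical
  have hmv : MeasurableVAdd L E := (inferInstance : MeasurableVAdd L.toAddSubgroup E)
  have hvi : VAddInvariantMeasure L E μ :=
    (inferInstance : VAddInvariantMeasure L.toAddSubgroup E μ)
  obtain ⟨F, hF, hFm, hFb⟩ : ∃ F : Set E, IsAddFundamentalDomain L F μ ∧ MeasurableSet F ∧
      Bornology.IsBounded F :=
    ⟨_, ZLattice.isAddFundamentalDomain (Module.Free.chooseBasis ℤ L) μ,
      ZSpan.fundamentalDomain_measurableSet _, ZSpan.fundamentalDomain_isBounded _⟩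
  have hFt : μ F < ⊤ := hFb.measure_lt_top
  have hc : ZLattice.covolume L μ = μ.real F :=
    ZLattice.covolume_eq_measure_fundamentalDomain L μ hF
  have hc0 : 0 < ZLattice.covolume L μ := ZLattice.covolume_pos L μ
  obtain ⟨δ, hδ0, hδ⟩ : ∃ δ : ℝ, 0 < δ ∧ ∀ x ∈ F, ‖x‖ ≤ δ := by
    obtain ⟨δ, h⟩ := hFb.exists_norm_le
    exact ⟨max δ 1, lt_max_of_lt_right one_pos, fun x hx => (h x hx).trans (le_max_left _ _)⟩
  have hfin : ∀ ρ : ℝ, {v : L | ‖(v : E)‖ ≤ ρ}.Finite := by
    intro ρ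
    have h1 : (Metric.closedBall (0 : E) ρ ∩ (L : Set E)).Finite := by
      change ((_ : Set E) ∩ L.toAddSubgroup).Finite
      have : DiscreteTopology L.toAddSubgroup := (inferInstance : DiscreteTopology L)
      exact Metric.finite_isBounded_inter_isClosed DiscreteTopology.isDiscrete
        Metric.isBounded_closedBall inferInstance
    refine Set.Finite.of_finite_image (f := fun v : L => (v : E)) (h1.subset ?_)
      Subtype.val_injective.injOn
    rintro _ ⟨v, hv, rfl⟩
    exact ⟨mem_closedBall_zero_iff.2 hv, v.2⟩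
  have hlip' : ∀ x y, |h x - h y| ≤ |C| * ‖x - y‖ := fun x y =>
    (hlip x y).trans (mul_le_mul_of_nonneg_right (le_abs_self C) (norm_nonneg _))
  have hcont : Continuous h := by
    have : LipschitzWith (Real.toNNReal |C|) h := LipschitzWith.of_dist_le_mul fun x y => by
      rw [Real.dist_eq, dist_eq_norm, Real.coe_toNNReal _ (abs_nonneg C)]
      exact hlip' x y
    exact this.continuous
  set V := μ.real (Metric.ball (0 : E) 1) with hV
  have hV0 : 0 ≤ V := measureReal_nonneg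
  refine ⟨|C| * δ * (|R| + 2 * δ) ^ finrank ℝ E * V / ZLattice.covolume L μ, fun t ht => ?_⟩
  have ht0 : 0 < t := by linarith
  set f : E → ℝ := fun y => h (t⁻¹ • y) with hf
  have hfc : Continuous f := hcont.comp (continuous_const_smul _)
  have hfs : ∀ y, |R| * t ≤ ‖y‖ → f y = 0 := by
    intro y hy
    refine hsupp _ ?_
    rw [norm_smul, norm_inv, Real.norm_of_nonneg ht0.le, inv_mul_eq_div, le_div_iff₀ ht0]
    exact (mul_le_mul_of_nonneg_right (le_abs_self R) ht0.le).trans hy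
  have hfl : ∀ x y, |f x - f y| ≤ |C| * t⁻¹ * ‖x - y‖ := by
    intro x y
    refine (hlip' _ _).trans (le_of_eq ?_)
    rw [← smul_sub, norm_smul, norm_inv, Real.norm_of_nonneg ht0.le, mul_assoc]
  have hfi : Integrable f μ := by
    refine hfc.integrable_of_hasCompactSupport ?_
    refine HasCompactSupport.intro (isCompact_closedBall (0 : E) (|R| * t)) fun x hx => hfs x ?_
    rw [mem_closedBall_zero_iff, not_le] at hx
    exact hx.le
  have hint : ∫ x, f x ∂μ = (∫ x, h x ∂μ) * t ^ finrank ℝ E := by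
    rw [hf, Measure.integral_comp_inv_smul_of_nonneg μ h ht0.le, smul_eq_mul, mul_comm]
  have hvadd : ∀ (v : L) (x : E), v +ᵥ x = (v : E) + x := fun _ _ => rfl
  set S := (hfin (|R| * t + δ)).toFinset with hS
  have hSm : ∀ v : L, v ∈ S ↔ ‖(v : E)‖ ≤ |R| * t + δ := fun v => by
    rw [hS, Set.Finite.mem_toFinset, Set.mem_setOf_eq]
  have hsum1 : (∑' v : L, f v) = ∑ v ∈ S, f v := by
    refine tsum_eq_sum fun v hv => hfs _ ?_
    rw [hSm, not_le] at hv
    linarith
  have hsum2 : ∫ x, f x ∂μ = ∑ v ∈ S, ∫ x in F, f ((v : E) + x) ∂μ := by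
    rw [hF.integral_eq_tsum'' f hfi]
    refine tsum_eq_sum fun v hv => ?_
    rw [hSm, not_le] at hv
    refine setIntegral_eq_zero_of_forall_eq_zero fun x hx => hfs _ ?_
    rw [hvadd]
    have h1 := hδ x hx
    have h2 : ‖(v : E)‖ ≤ ‖(v : E) + x‖ + ‖x‖ := by
      have := norm_sub_le ((v : E) + x) x
      rwa [add_sub_cancel_right] at this
    linarith
  have hcard : (S.card : ℝ) * μ.real F ≤ (|R| * t + 2 * δ) ^ finrank ℝ E * V := by
    have h1 : (S.card : ENNReal) * μ F ≤ μ (Metric.closedBall (0 : E) (|R| * t + 2 * δ)) := by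
      rw [← lintegral_indicator_one Metric.isClosed_closedBall.measurableSet,
        hF.lintegral_eq_tsum'']
      calc (S.card : ENNReal) * μ F = ∑ v ∈ S, ∫⁻ x in F, 1 ∂μ := by simp
        _ ≤ ∑ v ∈ S, ∫⁻ x in F,
            (Metric.closedBall (0 : E) (|R| * t + 2 * δ)).indicator 1 (v +ᵥ x) ∂μ := by
          refine Finset.sum_le_sum fun v hv => setLIntegral_mono' hFm fun x hx => ?_
          rw [Set.indicator_of_mem, Pi.one_apply]
          rw [hvadd, mem_closedBall_zero_iff]
          have h1 := hδ x hx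
          have h2 := norm_add_le (v : E) x
          have h3 := (hSm v).1 hv
          linarith
        _ ≤ _ := ENNReal.sum_le_tsum _
    have h2 := ENNReal.toReal_mono (measure_closedBall_lt_top.ne) h1
    rw [ENNReal.toReal_mul, ENNReal.toReal_natCast] at h2
    have h3 : (μ (Metric.closedBall (0 : E) (|R| * t + 2 * δ))).toReal =
        (|R| * t + 2 * δ) ^ finrank ℝ E * V := by
      rw [Measure.addHaar_closedBall μ _ (by positivity), ENNReal.toReal_mul,
        ENNReal.toReal_ofReal (by positivity)]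
      rfl
    rw [h3] at h2
    exact h2
  have hterm : ∀ v : L, |μ.real F * f v - ∫ x in F, f ((v : E) + x) ∂μ| ≤
      |C| * t⁻¹ * δ * μ.real F := by
    intro v
    have hi1 : IntegrableOn (fun _ : E => f (v : E)) F μ := integrableOn_const hFt.ne
    have hi2 : IntegrableOn (fun x : E => f ((v : E) + x)) F μ :=
      (hfi.comp_add_left (v : E)).integrableOn
    have h1 : μ.real F * f v - ∫ x in F, f ((v : E) + x) ∂μ =
        ∫ x in F, (f v - f ((v : E) + x)) ∂μ := by
      rw [integral_sub hi1 hi2, setIntegral_const, smul_eq_mul]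
    rw [h1, ← Real.norm_eq_abs]
    refine norm_setIntegral_le_of_norm_le_const hFt fun x hx => ?_
    rw [Real.norm_eq_abs]
    refine (hfl _ _).trans ?_
    rw [sub_add_cancel_left, norm_neg]
    exact mul_le_mul_of_nonneg_left (hδ x hx) (by positivity)
  have hmain : |μ.real F * (∑' v : L, f v) - ∫ x, f x ∂μ| ≤
      |C| * t⁻¹ * δ * ((|R| * t + 2 * δ) ^ finrank ℝ E * V) := by
    rw [hsum1, hsum2, Finset.mul_sum, ← Finset.sum_sub_distrib]
    calc _ ≤ ∑ v ∈ S, |μ.real F * f v - ∫ x in F, f ((v : E) + x) ∂μ| :=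
          Finset.abs_sum_le_sum_abs _ _
      _ ≤ ∑ v ∈ S, |C| * t⁻¹ * δ * μ.real F := Finset.sum_le_sum fun v _ => hterm v
      _ = |C| * t⁻¹ * δ * ((S.card : ℝ) * μ.real F) := by
          rw [Finset.sum_const, nsmul_eq_mul]
          ring
      _ ≤ _ := mul_le_mul_of_nonneg_left hcard (by positivity)
  have hpow : (|R| * t + 2 * δ) ^ finrank ℝ E ≤
      (|R| + 2 * δ) ^ finrank ℝ E * t ^ finrank ℝ E := by
    rw [← mul_pow]
    refine pow_le_pow_left₀ (by positivity) ?_ _
    nlinarith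
  have htn : t ^ finrank ℝ E = t ^ (finrank ℝ E - 1) * t := by
    rw [← pow_succ]
    congr 1
    omega
  have hfinal : |μ.real F * (∑' v : L, f v) - ∫ x, f x ∂μ| ≤
      |C| * δ * (|R| + 2 * δ) ^ finrank ℝ E * V * t ^ (finrank ℝ E - 1) := by
    refine hmain.trans ?_
    calc |C| * t⁻¹ * δ * ((|R| * t + 2 * δ) ^ finrank ℝ E * V)
        ≤ |C| * t⁻¹ * δ * (((|R| + 2 * δ) ^ finrank ℝ E * t ^ finrank ℝ E) * V) := by gcongr
      _ = _ := by
        rw [htn]
        field_simp
  rw [hc] at hc0 ⊢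
  have e1 : (∑' v : L, h (t⁻¹ • (v : E))) - ((∫ x, h x ∂μ) / μ.real F) * t ^ finrank ℝ E =
      (μ.real F * (∑' v : L, f v) - ∫ x, f x ∂μ) / μ.real F := by
    have e0 : (∑' v : L, h (t⁻¹ • (v : E))) = ∑' v : L, f v := rfl
    have hne : μ.real F ≠ 0 := hc0.ne'
    rw [hint, e0, sub_div, mul_div_cancel_left₀ _ hne, mul_div_right_comm]
  rw [e1, abs_div, abs_of_pos hc0, div_le_iff₀ hc0]
  refine hfinal.trans (le_of_eq ?_)
  field_simp

end Pool.Agent.Lib.MP_1a0ddd_nt.LW
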